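import Pool.Agent.Run7.h976.SP.Mx

/-!
Almost everywhere convergence.
-/

set_option autoImplicit false

namespace Run7.h976.SP

open MeasureTheory Filter Topology
open scoped FourierTransform ENNReal

variable {V : Type*} [NormedAddCommGroup V] [InnerProductSpace ℝ V] [FiniteDimensional ℝ V]
  [MeasurableSpace V] [BorelSpace V]

/-- the tail of the spectrum -/
noncomputable def tl (G : V → ℂ) (N : ℝ) : V → ℂ := (ba V N)ᶜ.indicator G

theorem tl_meas {G : V → ℂ} (hGm : Measurable G) (N : ℝ) : Measurable (tl G N) :=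
  hGm.indicator (ba_meas N).compl

theorem tl_mem {G : V → ℂ} (hG : MemLp G 2) (N : ℝ) : MemLp (tl G N) 2 :=
  hG.indicator (ba_meas N).compl

omit [InnerProductSpace ℝ V] [FiniteDimensional ℝ V] [MeasurableSpace V] [BorelSpace V] in
theorem tl_supp {G : V → ℂ} {E : Set V} (hE : ∀ ξ, ξ ∉ E → G ξ = 0) (N : ℝ) (ξ : V)
    (h : ξ ∉ E) : tl G N ξ = 0 := by
  unfold tl
  by_cases h1 : ξ ∈ (ba V N)ᶜ
  · rw [Set.indicator_of_mem h1, hE ξ h]
  · rw [Set.indicator_of_notMem h1]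

theorem T_tail {G : V → ℂ} (hG : MemLp G 2) {N R : ℝ} (h : N ≤ R) (x : V) :
    T G (ba V R) x - T G (ba V N) x = T (tl G N) (ba V R) x := by
  rw [T_sub hG (ba_meas N) (ba_meas R) (ba_fin R) (ba_mono h)]
  unfold T tl
  rw [Set.indicator_indicator, Set.sdiff_eq]

theorem tail_zero {G : V → ℂ} (hGm : Measurable G) (hG : MemLp G 2) :
    Tendsto (fun N : ℕ => ∫⁻ ξ, ‖tl G N ξ‖ₑ ^ 2) atTop (𝓝 0) := by
  have h := tendsto_lintegral_of_dominated_convergence (μ := (volume : Measure V))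
    (F := fun (N : ℕ) ξ => ‖tl G N ξ‖ₑ ^ 2) (f := fun _ => 0) (fun ξ => ‖G ξ‖ₑ ^ 2)
    (fun N => ((tl_meas hGm N).enorm.pow_const 2)) (fun N => Eventually.of_forall fun ξ => ?_) ?_
    (Eventually.of_forall fun ξ => ?_)
  · simpa using h
  · simp only
    unfold tl
    by_cases h1 : ξ ∈ (ba V (N : ℝ))ᶜ
    · rw [Set.indicator_of_mem h1]
    · rw [Set.indicator_of_notMem h1]; simp
  · rw [← eLp_sq]
    exact (ENNReal.pow_lt_top hG.eLpNorm_lt_top).ne
  · refine tendsto_const_nhds.congr' ?_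
    obtain ⟨M, hM⟩ := exists_nat_ge ‖ξ‖
    filter_upwards [eventually_ge_atTop M] with N hN
    have h1 : ξ ∉ (ba V (N : ℝ))ᶜ := by
      rw [Set.notMem_compl_iff, mem_closedBall_zero_iff]
      exact hM.trans (by exact_mod_cast hN)
    unfold tl
    rw [Set.indicator_of_notMem h1]
    simp

/-- convergence from a bound of the oscillations -/
theorem conv_of {G : V → ℂ} (μ : Measure V) (p : ℕ) (hp : p ≠ 0) (F : ℕ → V → ℝ≥0∞)
    (hF : ∀ N, Measurable (F N))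
    (h1 : ∀ (N : ℕ) (R : ℝ) (x : V), (N : ℝ) ≤ R →
      ‖T G (ba V R) x - T G (ba V N) x‖ₑ ≤ F N x)
    (h2 : Tendsto (fun N => ∫⁻ x, F N x ^ p ∂μ) atTop (𝓝 0)) :
    ∀ᵐ x ∂μ, ∃ l : ℂ, Tendsto (fun R : ℝ => T G (ba V R) x) atTop (𝓝 l) := by
  have h3 : ∫⁻ x, (⨅ N, F N x) ^ p ∂μ = 0 := by
    refine le_antisymm ?_ zero_le
    refine ge_of_tendsto' h2 fun N => lintegral_mono fun x => ?_
    exact pow_le_pow_left' (iInf_le (fun N => F N x) N) p
  rw [lintegral_eq_zero_iff ((Measurable.iInf hF).pow_const p)] at h3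
  filter_upwards [h3] with x hx
  have h4 : ⨅ N, F N x = 0 := (pow_eq_zero_iff hp).1 hx
  have h5 : CauchySeq fun R : ℝ => T G (ba V R) x := by
    rw [Metric.cauchySeq_iff']
    intro ε hε
    have h6 : ⨅ N, F N x < ENNReal.ofReal ε := by rw [h4]; exact ENNReal.ofReal_pos.2 hε
    obtain ⟨N, hN⟩ := iInf_lt_iff.1 h6
    refine ⟨N, fun R hR => ?_⟩
    have h7 := (h1 N R x hR).trans_lt hN
    rw [← ofReal_norm, ENNReal.ofReal_lt_ofReal_iff hε] at h7
    rwa [dist_eq_norm]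
  exact cauchySeq_tendsto_of_complete h5

/-- the inverse transform of the truncations converges in the mean -/
theorem mean_conv {G : V → ℂ} (hGm : Measurable G) (hG : MemLp G 2)
    (f : Lp ℂ 2 (volume : Measure V)) (hf : ((𝓕 f : Lp ℂ 2 (volume : Measure V)) : V → ℂ) =ᵐ[volume] G) :
    Tendsto (fun N : ℕ => eLpNorm (T G (ba V N) - (f : V → ℂ)) 2 volume) atTop (𝓝 0) := by
  have key : ∀ N : ℕ, eLpNorm (T G (ba V N) - (f : V → ℂ)) 2 volume ^ 2 = ∫⁻ ξ, ‖tl G N ξ‖ₑ ^ 2 := by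
    intro N
    set h : Lp ℂ 2 (volume : Measure V) := (ind_mem hG (ba_meas N)).toLp ((ba V N).indicator G)
      with hh
    have e1 := inv_ae ((ba V (N : ℝ)).indicator G) (ind_int hG (ba_meas N) (ba_fin N))
      (ind_mem hG (ba_meas N))
    have e2 : ((𝓕⁻ h - f : Lp ℂ 2 (volume : Measure V)) : V → ℂ) =ᵐ[volume]
        T G (ba V N) - (f : V → ℂ) := by
      filter_upwards [Lp.coeFn_sub (𝓕⁻ h) f, e1] with x h1 h2
      rw [h1, Pi.sub_apply, Pi.sub_apply, h2]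
      rfl
    have e3 : ((h - 𝓕 f : Lp ℂ 2 (volume : Measure V)) : V → ℂ) =ᵐ[volume] - tl G N := by
      filter_upwards [Lp.coeFn_sub h (𝓕 f), (ind_mem hG (ba_meas (V := V) N)).coeFn_toLp, hf]
        with ξ h1 h2 h3
      rw [h1, Pi.sub_apply, h2, h3, Pi.neg_apply, tl]
      by_cases h4 : ξ ∈ ba V (N : ℝ)
      · rw [Set.indicator_of_mem h4, Set.indicator_of_notMem (by simpa using h4)]
        simp
      · rw [Set.indicator_of_notMem h4, Set.indicator_of_mem (by simpa using h4)]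
        simp
    have e4 : ‖(𝓕⁻ h - f : Lp ℂ 2 (volume : Measure V))‖ =
        ‖(h - 𝓕 f : Lp ℂ 2 (volume : Measure V))‖ := by
      have e6 : 𝓕 (𝓕⁻ h - f : Lp ℂ 2 (volume : Measure V)) = 𝓕 (𝓕⁻ h) - 𝓕 f :=
        (Lp.fourierTransformₗᵢ V ℂ).map_sub _ _
      rw [← Lp.norm_fourier_eq (𝓕⁻ h - f), e6, FourierTransform.fourier_fourierInv_eq]
    rw [Lp.norm_def, Lp.norm_def] at e4
    have e5 := (ENNReal.toReal_eq_toReal_iff' (Lp.eLpNorm_ne_top _) (Lp.eLpNorm_ne_top _)).1 e4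
    rw [eLpNorm_congr_ae e2, eLpNorm_congr_ae e3, eLpNorm_neg] at e5
    rw [e5, eLp_sq]
  have h1 := (tail_zero hGm hG).congr fun N => (key N).symm
  have h2 := h1.ennrpow_const (1 / (2 : ℝ))
  rw [ENNReal.zero_rpow_of_pos (by norm_num)] at h2
  refine h2.congr fun N => ?_
  rw [← ENNReal.rpow_natCast, ← ENNReal.rpow_mul]
  norm_num

/-- the limit of the spherical sums -/
theorem limit_eq {G : V → ℂ} (hGm : Measurable G) (hG : MemLp G 2)
    (f : Lp ℂ 2 (volume : Measure V)) (hf : ((𝓕 f : Lp ℂ 2 (volume : Measure V)) : V → ℂ) =ᵐ[volume] G)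
    (μ : Measure V) (hμ : μ ≪ volume)
    (h : ∀ᵐ x ∂μ, ∃ l : ℂ, Tendsto (fun R : ℝ => T G (ba V R) x) atTop (𝓝 l)) :
    ∀ᵐ x ∂μ, Tendsto (fun R : ℝ => T G (ba V R) x) atTop (𝓝 (f x)) := by
  have h1 := tendstoInMeasure_of_tendsto_eLpNorm (two_ne_zero)
    (fun N : ℕ => (T_cont hG (ba_meas (V := V) N) (ba_fin N)).aestronglyMeasurable)
    (Lp.aestronglyMeasurable f) (mean_conv hGm hG f hf)
  obtain ⟨ns, h2, h3⟩ := h1.exists_seq_tendsto_ae
  filter_upwards [h, hμ.ae_le h3] with x hx1 hx2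
  obtain ⟨l, hl⟩ := hx1
  have h4 : Tendsto (fun i => ((ns i : ℕ) : ℝ)) atTop atTop :=
    tendsto_natCast_atTop_atTop.comp h2.tendsto_atTop
  have h5 := tendsto_nhds_unique (hl.comp h4) hx2
  rwa [h5] at hl

/-- almost everywhere convergence when `E ∩ (z - E)` has bounded measure -/
theorem ae_conv [Nontrivial V] {G : V → ℂ} (hGm : Measurable G) (hG : MemLp G 2) {E : Set V}
    (hEm : MeasurableSet E) {g : ℝ≥0∞} (hgt : g ≠ ⊤)
    (hg : ∀ z : V, volume (E ∩ {ξ | z - ξ ∈ E}) ≤ g) (hE : ∀ ξ, ξ ∉ E → G ξ = 0)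
    (f : Lp ℂ 2 (volume : Measure V)) (hf : ((𝓕 f : Lp ℂ 2 (volume : Measure V)) : V → ℂ) =ᵐ[volume] G) :
    ∀ᵐ x, Tendsto (fun R : ℝ => T G (ba V R) x) atTop (𝓝 (f x)) := by
  refine limit_eq hGm hG f hf volume (Measure.AbsolutelyContinuous.refl _) ?_
  refine conv_of volume 4 four_ne_zero (fun N => MS (tl G N)) (fun N => MS_meas (tl_mem hG N))
    (fun N R x h => ?_) ?_
  · rw [T_tail hG h]
    exact le_iSup (fun R => ‖T (tl G N) (ba V R) x‖ₑ) R
  · have h1 : Tendsto (fun N : ℕ => 625 * g * (∫⁻ ξ, ‖tl G N ξ‖ₑ ^ 2) ^ 2) atTop (𝓝 0) := by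
      have h2 := ENNReal.Tendsto.pow (n := 2) (tail_zero hGm hG)
      have h3 := ENNReal.Tendsto.const_mul h2 (a := 625 * g)
        (Or.inr (ENNReal.mul_ne_top (by norm_num) hgt))
      simpa using h3
    refine tendsto_of_tendsto_of_tendsto_of_le_of_le tendsto_const_nhds h1 (fun N => zero_le)
      (fun N => ?_)
    exact MS_four (tl_meas hGm N) (tl_mem hG N) hEm hgt hg (fun ξ hξ => tl_supp hE N ξ hξ)

end Run7.h976.SP
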