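import Pool.Agent.Run7.h976.SP.Ge

/-!
The condition on the size of the Fourier transform.
-/

set_option autoImplicit false

namespace Run7.h976.SP

open MeasureTheory Filter Topology
open scoped FourierTransform ENNReal

variable {V : Type*} [NormedAddCommGroup V] [InnerProductSpace ℝ V] [FiniteDimensional ℝ V]
  [MeasurableSpace V] [BorelSpace V]

/-- the logarithm of the smaller one of the frequency and the inverse of the size -/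
noncomputable def Wt (G : V → ℂ) (ξ : V) : ℝ := Real.log (2 + min ‖ξ‖ (1 / ‖G ξ‖))

omit [InnerProductSpace ℝ V] [FiniteDimensional ℝ V] in
theorem Wt_meas {G : V → ℂ} (hGm : Measurable G) : Measurable (Wt G) :=
  Real.measurable_log.comp (measurable_const.add
    (measurable_norm.min (measurable_const.div hGm.norm)))

omit [InnerProductSpace ℝ V] [FiniteDimensional ℝ V] [MeasurableSpace V] [BorelSpace V] in
theorem Wt_half (G : V → ℂ) (ξ : V) : 1 / 2 ≤ Wt G ξ := by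
  have h1 : (2 : ℝ) ≤ 2 + min ‖ξ‖ (1 / ‖G ξ‖) := by
    have : 0 ≤ min ‖ξ‖ (1 / ‖G ξ‖) := le_min (norm_nonneg _) (by positivity)
    linarith
  have h2 := Real.log_le_log (by norm_num) h1
  have h3 := Real.log_two_gt_d9
  unfold Wt
  linarith

omit [InnerProductSpace ℝ V] [FiniteDimensional ℝ V] [MeasurableSpace V] [BorelSpace V] in
theorem Wt_shell (G : V → ℂ) {k : ℕ} {ξ : V} (h : ξ ∈ sh V k) : Wt G ξ ≤ k + 2 := by
  have h1 : ‖ξ‖ ≤ 2 ^ (k + 1) := by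
    have := h.1
    rwa [mem_closedBall_zero_iff] at this
  have h2 : 2 + min ‖ξ‖ (1 / ‖G ξ‖) ≤ 2 ^ (k + 2) := by
    have h3 : (1 : ℝ) ≤ 2 ^ k := one_le_pow₀ (by norm_num)
    have h4 := min_le_left ‖ξ‖ (1 / ‖G ξ‖)
    have h5 : (2 : ℝ) ^ (k + 2) = 4 * 2 ^ k := by rw [pow_add]; ring
    have h6 : (2 : ℝ) ^ (k + 1) = 2 * 2 ^ k := by rw [pow_add]; ring
    rw [h6] at h1
    rw [h5]
    linarith
  have h3 : (0 : ℝ) < 2 + min ‖ξ‖ (1 / ‖G ξ‖) := by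
    have : 0 ≤ min ‖ξ‖ (1 / ‖G ξ‖) := le_min (norm_nonneg _) (by positivity)
    linarith
  have h4 := Real.log_le_log h3 h2
  rw [Real.log_pow] at h4
  have h5 := Real.log_two_lt_d9
  have h6 : ((k + 2 : ℕ) : ℝ) * Real.log 2 ≤ ((k + 2 : ℕ) : ℝ) * 1 :=
    mul_le_mul_of_nonneg_left (by linarith) (by positivity)
  unfold Wt
  push_cast at h4 h6
  linarith

/-- the level sets -/
def EA (G : V → ℂ) (i : ℕ) : Set V := {ξ | G ξ ≠ 0 ∧ 2 ^ i ≤ 2 * Wt G ξ ∧ Wt G ξ ≤ 2 ^ i}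

omit [InnerProductSpace ℝ V] [FiniteDimensional ℝ V] in
theorem EA_meas {G : V → ℂ} (hGm : Measurable G) (i : ℕ) : MeasurableSet (EA G i) := by
  refine MeasurableSet.inter ?_ (MeasurableSet.inter ?_ ?_)
  · exact hGm (measurableSet_singleton 0).compl
  · exact measurableSet_le measurable_const ((Wt_meas hGm).const_mul 2)
  · exact measurableSet_le (Wt_meas hGm) measurable_const

omit [InnerProductSpace ℝ V] [FiniteDimensional ℝ V] [MeasurableSpace V] [BorelSpace V] in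
theorem EA_cov (G : V → ℂ) (k : ℕ) (ξ : V) (h : ξ ∈ sh V k) (h0 : G ξ ≠ 0) :
    ∃ i < 2 * k + 5, ξ ∈ EA G i := by
  have h1 := Wt_shell G h
  have h2 := Wt_half G ξ
  have key : ∀ i : ℕ, (2 : ℝ) ^ i ≤ 2 * Wt G ξ → i < 2 * k + 5 := by
    intro i hi
    have h3 : (2 : ℝ) ^ i ≤ ((2 * k + 4 : ℕ) : ℝ) := by push_cast; linarith
    have h4 : 2 ^ i ≤ 2 * k + 4 := by exact_mod_cast h3
    have h5 : i < 2 ^ i := Nat.lt_two_pow_self
    omega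
  rcases le_or_gt (Wt G ξ) 1 with h3 | h3
  · refine ⟨0, by omega, h0, ?_, ?_⟩
    · rw [pow_zero]; linarith
    · rw [pow_zero]; exact h3
  · obtain ⟨n, hn1, hn2⟩ := exists_nat_pow_near h3.le (y := (2 : ℝ)) (by norm_num)
    have h4 : (2 : ℝ) ^ (n + 1) ≤ 2 * Wt G ξ := by rw [pow_succ]; linarith
    exact ⟨n + 1, key _ h4, h0, h4, hn2.le⟩

theorem EA_vol {G : V → ℂ} (hGm : Measurable G) {m : ℕ}
    (hm : volume (ba V 1) + ∫⁻ ξ, ‖G ξ‖ₑ ^ 2 ≤ 16 ^ m) (i : ℕ) :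
    volume (EA G i) ≤ 16 ^ (m + (Module.finrank ℝ V + 2) * 2 ^ i) := by
  set X : ℝ := Real.exp (2 ^ i) with hX
  have hX0 : 0 < X := Real.exp_pos _
  have hX16 : X ≤ 16 ^ (2 ^ i) := by
    have h1 : X = Real.exp 1 ^ (2 ^ i) := by
      rw [← Real.exp_nat_mul, mul_one, hX]
      push_cast
      rfl
    rw [h1]
    exact pow_le_pow_left₀ (Real.exp_pos _).le (by have := Real.exp_one_lt_d9; linarith) _
  have hsub : EA G i ⊆ ba V X ∪ {ξ | 1 ≤ ENNReal.ofReal (X ^ 2) * ‖G ξ‖ₑ ^ 2} := by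
    rintro ξ ⟨h0, _, h2⟩
    have h3 : 0 < 2 + min ‖ξ‖ (1 / ‖G ξ‖) := by
      have : 0 ≤ min ‖ξ‖ (1 / ‖G ξ‖) := le_min (norm_nonneg _) (by positivity)
      linarith
    have h4 : 2 + min ‖ξ‖ (1 / ‖G ξ‖) ≤ X := (Real.log_le_iff_le_exp h3).1 h2
    have hn : 0 < ‖G ξ‖ := norm_pos_iff.2 h0
    rcases min_choice ‖ξ‖ (1 / ‖G ξ‖) with h5 | h5
    · left
      rw [h5] at h4
      rw [mem_closedBall_zero_iff]
      linarith
    · right
      rw [h5] at h4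
      have h6 : 1 ≤ X * ‖G ξ‖ := by
        have : 1 / ‖G ξ‖ ≤ X := by linarith
        rwa [div_le_iff₀ hn] at this
      rw [Set.mem_ofPred_eq, ← ofReal_norm, ← ENNReal.ofReal_pow (norm_nonneg _),
        ← ENNReal.ofReal_mul (by positivity), ← mul_pow, ENNReal.one_le_ofReal]
      exact one_le_pow₀ h6
  have e16 : ∀ a : ℕ, ENNReal.ofReal (X ^ a) ≤ 16 ^ (a * 2 ^ i) := by
    intro a
    have h1 : X ^ a ≤ 16 ^ (a * 2 ^ i) := by
      rw [mul_comm a, pow_mul]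
      exact pow_le_pow_left₀ hX0.le hX16 a
    refine (ENNReal.ofReal_le_ofReal h1).trans (le_of_eq ?_)
    rw [ENNReal.ofReal_pow (by norm_num)]
    norm_num
  have h1 : volume (ba V X) ≤ 16 ^ (Module.finrank ℝ V * 2 ^ i) * volume (ba V 1) := by
    rw [Measure.addHaar_closedBall _ _ hX0.le, Measure.addHaar_unitClosedBall_eq_addHaar_unitBall]
    exact mul_le_mul_left (e16 _) _
  have h2 : volume {ξ | 1 ≤ ENNReal.ofReal (X ^ 2) * ‖G ξ‖ₑ ^ 2} ≤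
      16 ^ (2 * 2 ^ i) * ∫⁻ ξ, ‖G ξ‖ₑ ^ 2 := by
    have h3 := mul_meas_ge_le_lintegral₀ (μ := (volume : Measure V))
      (f := fun ξ => ENNReal.ofReal (X ^ 2) * ‖G ξ‖ₑ ^ 2)
      ((hGm.enorm.pow_const 2).const_mul _).aemeasurable 1
    rw [one_mul, lintegral_const_mul _ (hGm.enorm.pow_const 2)] at h3
    exact h3.trans (mul_le_mul_left (e16 2) _)
  have h16 : ∀ a b : ℕ, a ≤ b → (16 : ℝ≥0∞) ^ a ≤ 16 ^ b := fun a b h =>
    pow_le_pow_right₀ (by norm_num) h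
  calc volume (EA G i) ≤ volume (ba V X) +
        volume {ξ | 1 ≤ ENNReal.ofReal (X ^ 2) * ‖G ξ‖ₑ ^ 2} :=
        (measure_mono hsub).trans (measure_union_le _ _)
    _ ≤ 16 ^ (Module.finrank ℝ V * 2 ^ i) * volume (ba V 1) +
        16 ^ (2 * 2 ^ i) * ∫⁻ ξ, ‖G ξ‖ₑ ^ 2 := add_le_add h1 h2
    _ ≤ 16 ^ ((Module.finrank ℝ V + 2) * 2 ^ i) * volume (ba V 1) +
        16 ^ ((Module.finrank ℝ V + 2) * 2 ^ i) * ∫⁻ ξ, ‖G ξ‖ₑ ^ 2 :=
        add_le_add (mul_le_mul_left (h16 _ _ (Nat.mul_le_mul_right _ (by omega))) _)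
          (mul_le_mul_left (h16 _ _ (Nat.mul_le_mul_right _ (by omega))) _)
    _ = 16 ^ ((Module.finrank ℝ V + 2) * 2 ^ i) * (volume (ba V 1) + ∫⁻ ξ, ‖G ξ‖ₑ ^ 2) :=
        (mul_add _ _ _).symm
    _ ≤ 16 ^ ((Module.finrank ℝ V + 2) * 2 ^ i) * 16 ^ m := mul_le_mul_right hm _
    _ = _ := by rw [← pow_add, add_comm]

/-- the weighted mass -/
noncomputable def Ph (s : ℝ) (G : V → ℂ) (A : Set V) : ℝ≥0∞ :=
  ∫⁻ ξ in A, ENNReal.ofReal (Wt G ξ ^ s) * ‖G ξ‖ₑ ^ 2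

theorem mass_Ph {G : V → ℂ} {A : Set V} (hA : MeasurableSet A) {s c : ℝ} (hs : 0 ≤ s)
    (hc : 0 < c) (h : ∀ ξ ∈ A, c ≤ Wt G ξ) :
    mass G A ≤ ENNReal.ofReal (c ^ (-(s / 2))) ^ 2 * Ph s G A := by
  unfold mass Ph
  rw [← lintegral_const_mul' _ _ (ENNReal.pow_ne_top ENNReal.ofReal_ne_top)]
  refine setLIntegral_mono' hA fun ξ hξ => ?_
  rw [← mul_assoc]
  refine le_mul_of_one_le_left zero_le ?_
  rw [← ENNReal.ofReal_pow (by positivity), ← ENNReal.ofReal_mul (by positivity),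
    ENNReal.one_le_ofReal]
  have h1 : (c ^ (-(s / 2))) ^ 2 = c ^ (-s) := by
    rw [← Real.rpow_natCast, ← Real.rpow_mul hc.le]
    congr 1
    push_cast
    ring
  rw [h1]
  have h2 : c ^ s ≤ Wt G ξ ^ s := Real.rpow_le_rpow hc.le (h ξ hξ) hs
  have h3 : c ^ (-s) * c ^ s = 1 := by
    rw [← Real.rpow_add hc, neg_add_cancel, Real.rpow_zero]
  rw [← h3]
  exact mul_le_mul_of_nonneg_left h2 (by positivity)

theorem sqrt_sq (c a : ℝ≥0∞) : (c ^ 2 * a) ^ (1 / (2 : ℝ)) = c * a ^ (1 / (2 : ℝ)) := by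
  rw [ENNReal.mul_rpow_of_nonneg _ _ (by norm_num), ← ENNReal.rpow_natCast, ← ENNReal.rpow_mul]
  norm_num

/-- the constant of the amplitude theorem -/
noncomputable def KA (ε : ℝ) : ℝ≥0∞ :=
  ENNReal.ofReal (2 ^ (1 + ε / 2)) * (1 - ENNReal.ofReal (2 ^ (-(ε / 2))))⁻¹

theorem KA_fin {ε : ℝ} (hε : 0 < ε) : KA ε ≠ ⊤ := by
  refine ENNReal.mul_ne_top ENNReal.ofReal_ne_top (ENNReal.inv_ne_top.2 ?_)
  have h1 : (2 : ℝ) ^ (-(ε / 2)) < 1 := Real.rpow_lt_one_of_one_lt_of_neg (by norm_num)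
    (by linarith)
  have h2 : ENNReal.ofReal ((2 : ℝ) ^ (-(ε / 2))) < 1 := by
    rw [← ENNReal.ofReal_one]
    exact (ENNReal.ofReal_lt_ofReal_iff one_pos).2 h1
  exact (tsub_pos_of_lt h2).ne'

theorem amp_cost {G : V → ℂ} (hGm : Measurable G) (m : ℕ) {ε : ℝ} (hε : 0 < ε) (k : ℕ) :
    cost G k (2 * k + 5) (EA G) (fun i => m + (Module.finrank ℝ V + 2) * 2 ^ i) ≤
      ((m + Module.finrank ℝ V + 3 : ℕ) : ℝ≥0∞) * KA ε * Ph (2 + ε) G (sh V k) ^ (1 / (2 : ℝ)) := by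
  set n := Module.finrank ℝ V with hn
  set q : ℝ≥0∞ := ENNReal.ofReal (2 ^ (-(ε / 2))) with hq
  have h1 : ∀ i : ℕ, ((1 + (m + (n + 2) * 2 ^ i) : ℕ) : ℝ≥0∞) *
      (mass G (sh V k ∩ EA G i)) ^ (1 / (2 : ℝ)) ≤
      ((m + n + 3 : ℕ) : ℝ≥0∞) * ENNReal.ofReal (2 ^ (1 + ε / 2)) *
        Ph (2 + ε) G (sh V k) ^ (1 / (2 : ℝ)) * q ^ i := by
    intro i
    have h2i : (0 : ℝ) < 2 ^ i / 2 := by positivity
    have h2 := mass_Ph (G := G) (A := sh V k ∩ EA G i) ((sh_meas k).inter (EA_meas hGm i))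
      (s := 2 + ε) (c := 2 ^ i / 2) (by linarith) h2i (fun ξ hξ => by
        have := hξ.2.2.1
        linarith)
    have h3 : Ph (2 + ε) G (sh V k ∩ EA G i) ≤ Ph (2 + ε) G (sh V k) :=
      lintegral_mono_set Set.inter_subset_left
    have h4 : (mass G (sh V k ∩ EA G i)) ^ (1 / (2 : ℝ)) ≤
        ENNReal.ofReal ((2 ^ i / 2) ^ (-((2 + ε) / 2))) *
          Ph (2 + ε) G (sh V k) ^ (1 / (2 : ℝ)) := by
      rw [← sqrt_sq]
      exact ENNReal.rpow_le_rpow (h2.trans (mul_le_mul_right h3 _)) (by norm_num)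
    have h5 : ((1 + (m + (n + 2) * 2 ^ i) : ℕ) : ℝ≥0∞) ≤
        ((m + n + 3 : ℕ) : ℝ≥0∞) * ENNReal.ofReal (2 ^ i) := by
      rw [ENNReal.ofReal_pow (by norm_num), ENNReal.ofReal_ofNat]
      have h6 : 1 + (m + (n + 2) * 2 ^ i) ≤ (m + n + 3) * 2 ^ i := by
        have h7 : 1 ≤ 2 ^ i := Nat.one_le_two_pow
        nlinarith
      exact_mod_cast h6
    have h6 : ENNReal.ofReal (2 ^ i) * ENNReal.ofReal ((2 ^ i / 2) ^ (-((2 + ε) / 2))) =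
        ENNReal.ofReal (2 ^ (1 + ε / 2)) * q ^ i := by
      rw [hq, ← ENNReal.ofReal_mul (by positivity), ← ENNReal.ofReal_pow (by positivity),
        ← ENNReal.ofReal_mul (by positivity)]
      congr 1
      have h2p : (0 : ℝ) < 2 := by norm_num
      rw [← Real.rpow_natCast 2 i, ← Real.rpow_natCast _ i, ← Real.rpow_mul h2p.le]
      have e1 : (2 : ℝ) ^ (i : ℝ) / 2 = 2 ^ ((i : ℝ) - 1) := by
        rw [Real.rpow_sub h2p, Real.rpow_one]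
      rw [e1, ← Real.rpow_mul h2p.le, ← Real.rpow_add h2p, ← Real.rpow_add h2p]
      congr 1
      ring
    calc ((1 + (m + (n + 2) * 2 ^ i) : ℕ) : ℝ≥0∞) * (mass G (sh V k ∩ EA G i)) ^ (1 / (2 : ℝ))
        ≤ (((m + n + 3 : ℕ) : ℝ≥0∞) * ENNReal.ofReal (2 ^ i)) *
          (ENNReal.ofReal ((2 ^ i / 2) ^ (-((2 + ε) / 2))) *
            Ph (2 + ε) G (sh V k) ^ (1 / (2 : ℝ))) := mul_le_mul' h5 h4
      _ = ((m + n + 3 : ℕ) : ℝ≥0∞) * (ENNReal.ofReal (2 ^ i) *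
          ENNReal.ofReal ((2 ^ i / 2) ^ (-((2 + ε) / 2)))) *
            Ph (2 + ε) G (sh V k) ^ (1 / (2 : ℝ)) := by ring
      _ = _ := by rw [h6]; ring
  unfold cost
  refine (Finset.sum_le_sum fun i _ => h1 i).trans ?_
  rw [← Finset.mul_sum]
  refine (mul_le_mul_right ((ENNReal.sum_le_tsum _).trans (ENNReal.tsum_geometric q).le) _).trans
    (le_of_eq ?_)
  unfold KA
  ring

theorem sh_disj : Pairwise (Function.onFun Disjoint (sh V)) := by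
  have key : ∀ k l : ℕ, k < l → Disjoint (sh V k) (sh V l) := by
    intro k l hkl
    rw [Set.disjoint_left]
    rintro ξ h1 h2
    exact h2.2 (ba_mono (pow_le_pow_right₀ (by norm_num) (by omega)) h1.1)
  intro k l hne
  rcases lt_or_gt_of_ne hne with h | h
  · exact key k l h
  · exact (key l k h).symm

theorem Ph_sum (s : ℝ) (G : V → ℂ) : ∑' k, Ph s G (sh V k) ≤ Ph s G Set.univ := by
  unfold Ph
  rw [← lintegral_iUnion (fun k => sh_meas k) sh_disj]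
  exact lintegral_mono_set (Set.subset_univ _)

theorem amp_sum {G : V → ℂ} (hGm : Measurable G) (m : ℕ) {ε : ℝ} (hε : 0 < ε) :
    ∑' k, cost G k (2 * k + 5) (EA G) (fun i => m + (Module.finrank ℝ V + 2) * 2 ^ i) ^ 2 ≤
      (((m + Module.finrank ℝ V + 3 : ℕ) : ℝ≥0∞) * KA ε) ^ 2 * Ph (2 + ε) G Set.univ := by
  refine le_trans ?_ (mul_le_mul_right (Ph_sum (2 + ε) G) _)
  rw [← ENNReal.tsum_mul_left]
  refine ENNReal.tsum_le_tsum fun k => (pow_le_pow_left' (amp_cost hGm m hε k) 2).trans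
    (le_of_eq ?_)
  rw [mul_pow, ← ENNReal.rpow_natCast (Ph (2 + ε) G (sh V k) ^ (1 / (2 : ℝ))), ← ENNReal.rpow_mul]
  norm_num

/-- the amplitude theorem: almost everywhere convergence -/
theorem amp_conv [Nontrivial V] {G : V → ℂ} (hGm : Measurable G) (hG : MemLp G 2)
    (f : Lp ℂ 2 (volume : Measure V)) (hf : ((𝓕 f : Lp ℂ 2 (volume : Measure V)) : V → ℂ) =ᵐ[volume] G)
    {ε : ℝ} (hε : 0 < ε) (hs : Ph (2 + ε) G Set.univ ≠ ⊤) :
    ∀ᵐ x, Tendsto (fun R : ℝ => T G (ba V R) x) atTop (𝓝 (f x)) := by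
  have hfin : volume (ba V 1) + ∫⁻ ξ, ‖G ξ‖ₑ ^ 2 ≠ ⊤ := by
    refine ENNReal.add_ne_top.2 ⟨(ba_fin 1).ne, ?_⟩
    rw [← eLp_sq]
    exact (ENNReal.pow_lt_top hG.eLpNorm_lt_top).ne
  obtain ⟨m, hm⟩ : ∃ m : ℕ, volume (ba V 1) + ∫⁻ ξ, ‖G ξ‖ₑ ^ 2 ≤ 16 ^ m := by
    obtain ⟨m, hm⟩ := ENNReal.exists_nat_gt hfin
    refine ⟨m, hm.le.trans ?_⟩
    exact_mod_cast (Nat.lt_pow_self (by norm_num)).le
  refine gen_conv hGm hG f hf (fun k => 2 * k + 5) (fun _ => EA G) (fun _ => EA_meas hGm)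
    (fun k ξ h h0 => EA_cov G k ξ h h0) (fun _ i => m + (Module.finrank ℝ V + 2) * 2 ^ i)
    (fun k i _ z => (measure_mono Set.inter_subset_left).trans (EA_vol hGm hm i)) ?_
  refine ne_top_of_le_ne_top ?_ (amp_sum hGm m hε)
  exact ENNReal.mul_ne_top (ENNReal.pow_ne_top (ENNReal.mul_ne_top (ENNReal.natCast_ne_top _)
    (KA_fin hε))) hs

theorem mass_Ph_univ (G : V → ℂ) {s : ℝ} (hs : 0 ≤ s) :
    ∫⁻ ξ, ‖G ξ‖ₑ ^ 2 ≤ ENNReal.ofReal (2 ^ (s / 2)) ^ 2 * Ph s G Set.univ := by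
  have h := mass_Ph (G := G) (A := Set.univ) MeasurableSet.univ hs (c := 1 / 2) (by norm_num)
    (fun ξ _ => Wt_half G ξ)
  have e : ((1 / 2 : ℝ)) ^ (-(s / 2)) = 2 ^ (s / 2) := by
    rw [one_div, Real.inv_rpow (by norm_num), Real.rpow_neg (by norm_num), inv_inv]
  rw [e, mass, Measure.restrict_univ] at h
  exact h

/-- the amplitude theorem: the maximal inequality -/
theorem amp_max [Nontrivial V] {m : ℕ} {ε : ℝ} (hε : 0 < ε)
    (hV : volume (ba V 1) + 1 ≤ 16 ^ m) :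
    ∃ C : ℝ≥0∞, C ≠ ⊤ ∧ ∀ (G : V → ℂ) (_ : Measurable G) (_ : MemLp G 2)
      (f : Lp ℂ 2 (volume : Measure V))
      (_ : ((𝓕 f : Lp ℂ 2 (volume : Measure V)) : V → ℂ) =ᵐ[volume] G)
      (_ : ∫⁻ ξ, ‖G ξ‖ₑ ^ 2 ≤ 1) (B : Set V) (b : ℕ) (_ : volume B ≤ 16 ^ b),
      ∫⁻ x in B, MS G x ^ 2 ≤ C * (1 + b) ^ 2 * Ph (2 + ε) G Set.univ := by
  set n := Module.finrank ℝ V with hn
  set K0 : ℝ≥0∞ := ((4 * m + 10 + 4 ^ (n + 3) : ℕ) : ℝ≥0∞) with hK0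
  set K1 : ℝ≥0∞ := ENNReal.ofReal (2 ^ ((2 + ε) / 2)) + ((m + n + 3 : ℕ) : ℝ≥0∞) * KA ε with hK1
  refine ⟨(K0 * K1) ^ 2, ENNReal.pow_ne_top (ENNReal.mul_ne_top (ENNReal.natCast_ne_top _)
    (ENNReal.add_ne_top.2 ⟨ENNReal.ofReal_ne_top, ENNReal.mul_ne_top (ENNReal.natCast_ne_top _)
      (KA_fin hε)⟩)), ?_⟩
  intro G hGm hG f hf hG1 B b hB
  have hm : volume (ba V 1) + ∫⁻ ξ, ‖G ξ‖ₑ ^ 2 ≤ 16 ^ m := (add_le_add le_rfl hG1).trans hV
  have hv : volume (ba V 1) ≤ 16 ^ m := le_self_add.trans hm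
  have h1 := gen_max hGm hG f hf (fun k => 2 * k + 5) (fun _ => EA G) (fun _ => EA_meas hGm)
    (fun k ξ h h0 => EA_cov G k ξ h h0) (fun _ i => m + (Module.finrank ℝ V + 2) * 2 ^ i)
    (fun k i _ z => (measure_mono Set.inter_subset_left).trans (EA_vol hGm hm i)) hB hv
  have h2 := amp_sum hGm m hε
  have h3 : (∑' k, cost G k (2 * k + 5) (EA G)
      (fun i => m + (Module.finrank ℝ V + 2) * 2 ^ i) ^ 2) ^ (1 / (2 : ℝ)) ≤
      (((m + n + 3 : ℕ) : ℝ≥0∞) * KA ε) * Ph (2 + ε) G Set.univ ^ (1 / (2 : ℝ)) := by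
    rw [← sqrt_sq]
    exact ENNReal.rpow_le_rpow h2 (by norm_num)
  have h4 : fn G ≤ ENNReal.ofReal (2 ^ ((2 + ε) / 2)) * Ph (2 + ε) G Set.univ ^ (1 / (2 : ℝ)) := by
    rw [← sqrt_sq]
    exact ENNReal.rpow_le_rpow (mass_Ph_univ G (by linarith)) (by norm_num)
  have h5 : ((4 * (m + b) + 10 + 4 ^ (n + 3) : ℕ) : ℝ≥0∞) ≤ K0 * (1 + b) := by
    rw [hK0]
    have : 4 * (m + b) + 10 + 4 ^ (n + 3) ≤ (4 * m + 10 + 4 ^ (n + 3)) * (1 + b) := by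
      nlinarith [Nat.zero_le (m * b), Nat.zero_le (4 ^ (n + 3) * b)]
    exact_mod_cast this
  have h6 : nr (volume.restrict B) (MS G) ≤
      K0 * K1 * (1 + b) * Ph (2 + ε) G Set.univ ^ (1 / (2 : ℝ)) := by
    refine h1.trans ((mul_le_mul' h5 (add_le_add h4 h3)).trans (le_of_eq ?_))
    rw [hK1]
    ring
  have h7 := pow_le_pow_left' h6 2
  rw [nr_sq] at h7
  refine h7.trans (le_of_eq ?_)
  rw [mul_pow, mul_pow, ← ENNReal.rpow_natCast (Ph (2 + ε) G Set.univ ^ (1 / (2 : ℝ))),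
    ← ENNReal.rpow_mul]
  norm_num

end Run7.h976.SP
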