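import Pool.Agent.Run7.h976.SP.Mu
import Pool.Agent.Run7.h976.SP.Ae

/-!
Lacunary spherical sums converge almost everywhere: comparison with the averages over balls.
-/

set_option autoImplicit false

namespace Run7.h976.SP

open MeasureTheory Filter Topology
open scoped FourierTransform ENNReal

variable {V : Type*} [NormedAddCommGroup V] [InnerProductSpace ℝ V] [FiniteDimensional ℝ V]
  [MeasurableSpace V] [BorelSpace V]

theorem T_ch (G : V → ℂ) {A : Set V} (hA : MeasurableSet A) (x : V) :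
    T G A x = ∫ ξ in A, ch ξ x * G ξ := by
  rw [T_eq G hA]
  refine integral_congr_ae (Eventually.of_forall fun ξ => ?_)
  simp only [ch, Circle.smul_def, smul_eq_mul]

theorem ch_int_mul {G : V → ℂ} (hG : MemLp G 2) {A : Set V} (hA : MeasurableSet A)
    (hf : volume A < ⊤) (x : V) : IntegrableOn (fun ξ => ch ξ x * G ξ) A := by
  have h1 : IntegrableOn G A := (integrable_indicator_iff hA).1 (ind_int hG hA hf)
  refine Integrable.mono h1 ?_ (Eventually.of_forall fun ξ => ?_)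
  · exact ((ch_cont.comp (continuous_id.prodMk continuous_const)).aestronglyMeasurable).mul
      h1.aestronglyMeasurable
  · rw [norm_mul, ch_norm, one_mul]

theorem T_lin {G H : V → ℂ} (hG : MemLp G 2) (hH : MemLp H 2) {A : Set V} (hA : MeasurableSet A)
    (hf : volume A < ⊤) (x : V) : T (fun ξ => G ξ - H ξ) A x = T G A x - T H A x := by
  rw [T_ch _ hA, T_ch _ hA, T_ch _ hA,
    ← integral_sub (ch_int_mul hG hA hf x) (ch_int_mul hH hA hf x)]
  refine integral_congr_ae (Eventually.of_forall fun ξ => ?_)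
  simp only
  ring

/-- the averages of the spherical sums -/
theorem avg_T {G : V → ℂ} (hG : MemLp G 2) {A : Set V} (hA : MeasurableSet A)
    (hf : volume A < ⊤) (x : V) (r : ℝ) :
    ⨍ y in Metric.closedBall x r, T G A y = T (fun ξ => mm r ξ * G ξ) A x := by
  have : IsFiniteMeasure (volume.restrict (Metric.closedBall x r)) :=
    ⟨by simpa using measure_closedBall_lt_top⟩
  have h1 : IntegrableOn G A := (integrable_indicator_iff hA).1 (ind_int hG hA hf)
  have hint : Integrable (Function.uncurry fun y ξ : V => ch ξ y * G ξ)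
      ((volume.restrict (Metric.closedBall x r)).prod (volume.restrict A)) := by
    have h2 : Integrable (fun z : V × V => G z.2)
        ((volume.restrict (Metric.closedBall x r)).prod (volume.restrict A)) :=
      Integrable.comp_snd h1 _
    refine Integrable.mono h2 ?_ (Eventually.of_forall fun z => ?_)
    · exact ((ch_cont.comp (continuous_snd.prodMk continuous_fst)).aestronglyMeasurable).mul
        h2.aestronglyMeasurable
    · simp only [Function.uncurry, norm_mul, ch_norm, one_mul, le_refl]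
  rw [setAverage_eq]
  simp_rw [T_ch G hA]
  rw [integral_integral_swap hint, T_ch _ hA, ← integral_smul]
  refine integral_congr_ae (Eventually.of_forall fun ξ => ?_)
  simp only
  rw [integral_mul_const, ← smul_mul_assoc, avg_ch, mul_assoc]

/-- the averages of an `L²` limit -/
theorem avg_lim {G : V → ℂ} (hGm : Measurable G) (hG : MemLp G 2)
    (f : Lp ℂ 2 (volume : Measure V)) (hf : ((𝓕 f : Lp ℂ 2 (volume : Measure V)) : V → ℂ) =ᵐ[volume] G)
    (x : V) (r : ℝ) :
    Tendsto (fun M : ℕ => ⨍ y in Metric.closedBall x r, T G (ba V M) y) atTop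
      (𝓝 (⨍ y in Metric.closedBall x r, f y)) := by
  have hfin : IsFiniteMeasure (volume.restrict (Metric.closedBall x r)) :=
    ⟨by simpa using measure_closedBall_lt_top⟩
  simp_rw [setAverage_eq]
  refine Tendsto.const_smul ?_ _
  refine tendsto_integral_of_L1' f (Lp.aestronglyMeasurable f).restrict
    (Eventually.of_forall fun M => (T_cont hG (ba_meas (V := V) M)
      (ba_fin M)).continuousOn.integrableOn_compact (isCompact_closedBall x r)) ?_
  have h1 := mean_conv hGm hG f hf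
  have h2 := ENNReal.Tendsto.mul_const (b := (volume.restrict (Metric.closedBall x r)) Set.univ ^
    (1 / (1 : ℝ≥0∞).toReal - 1 / (2 : ℝ≥0∞).toReal)) h1 (Or.inr (by
      refine ENNReal.rpow_ne_top_of_nonneg (by norm_num) (measure_ne_top _ _)))
  rw [zero_mul] at h2
  refine tendsto_of_tendsto_of_tendsto_of_le_of_le tendsto_const_nhds h2 (fun M => zero_le)
    (fun M => ?_)
  have h3 := eLpNorm_le_eLpNorm_mul_rpow_measure_univ (p := 1) (q := 2)
    (μ := volume.restrict (Metric.closedBall x r)) (f := T G (ba V M) - (f : V → ℂ))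
    (by norm_num) (((T_cont hG (ba_meas (V := V) M) (ba_fin M)).aestronglyMeasurable).sub
      (Lp.aestronglyMeasurable f)).restrict
  refine h3.trans ?_
  exact mul_le_mul_left (eLpNorm_mono_measure _ Measure.restrict_le_self) _

/-- the difference of the spherical sum and the average, on the side of frequencies -/
noncomputable def HH (G : V → ℂ) (k : ℕ) (ξ : V) : ℂ :=
  (ba V (2 ^ k)).indicator G ξ - mm (((2 : ℝ) ^ k)⁻¹) ξ * G ξ

theorem mm_mem {G : V → ℂ} (hG : MemLp G 2) {r : ℝ} (hr : 0 < r) :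
    MemLp (fun ξ => mm r ξ * G ξ) 2 := by
  refine MemLp.of_le hG ((mm_cont r).aestronglyMeasurable.mul hG.aestronglyMeasurable)
    (Eventually.of_forall fun ξ => ?_)
  rw [norm_mul]
  exact mul_le_of_le_one_left (norm_nonneg _) (mm_one hr ξ)

theorem HH_meas {G : V → ℂ} (hGm : Measurable G) (k : ℕ) : Measurable (HH G k) :=
  (hGm.indicator (ba_meas _)).sub ((mm_cont _).measurable.mul hGm)

theorem HH_mem {G : V → ℂ} (hG : MemLp G 2) (k : ℕ) : MemLp (HH G k) 2 :=
  (ind_mem hG (ba_meas _)).sub (mm_mem hG (by positivity))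

/-- the difference of the spherical sum and the average -/
noncomputable def QQ (G : V → ℂ) (f : Lp ℂ 2 (volume : Measure V)) (k : ℕ) (x : V) : ℂ :=
  T G (ba V (2 ^ k)) x - ⨍ y in Metric.closedBall x (((2 : ℝ) ^ k)⁻¹), f y

theorem QQ_lim {G : V → ℂ} (hGm : Measurable G) (hG : MemLp G 2)
    (f : Lp ℂ 2 (volume : Measure V)) (hf : ((𝓕 f : Lp ℂ 2 (volume : Measure V)) : V → ℂ) =ᵐ[volume] G)
    (k : ℕ) (x : V) : Tendsto (fun M : ℕ => T (HH G k) (ba V M) x) atTop (𝓝 (QQ G f k x)) := by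
  have h1 := (avg_lim hGm hG f hf x (((2 : ℝ) ^ k)⁻¹)).const_sub (T G (ba V (2 ^ k)) x)
  refine h1.congr' ?_
  filter_upwards [eventually_ge_atTop (2 ^ k)] with M hM
  rw [avg_T hG (ba_meas _) (ba_fin _)]
  have h2 := T_lin (ind_mem hG (ba_meas (V := V) (2 ^ k))) (mm_mem hG (r := ((2 : ℝ) ^ k)⁻¹)
    (by positivity)) (ba_meas (V := V) M) (ba_fin M) x
  have h3 : T ((ba V (2 ^ k)).indicator G) (ba V M) x = T G (ba V (2 ^ k)) x := by
    unfold T
    rw [Set.indicator_indicator, Set.inter_eq_self_of_subset_right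
      (ba_mono (by exact_mod_cast hM))]
  rw [h3] at h2
  rw [← h2]
  rfl

theorem QQ_meas {G : V → ℂ} (hGm : Measurable G) (hG : MemLp G 2)
    (f : Lp ℂ 2 (volume : Measure V)) (hf : ((𝓕 f : Lp ℂ 2 (volume : Measure V)) : V → ℂ) =ᵐ[volume] G)
    (k : ℕ) : Measurable (QQ G f k) :=
  measurable_of_tendsto_metrizable (fun M : ℕ => (T_cont (HH_mem hG k) (ba_meas (V := V) M)
    (ba_fin M)).measurable) (tendsto_pi_nhds.2 fun x => QQ_lim hGm hG f hf k x)

theorem QQ_le {G : V → ℂ} (hGm : Measurable G) (hG : MemLp G 2)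
    (f : Lp ℂ 2 (volume : Measure V)) (hf : ((𝓕 f : Lp ℂ 2 (volume : Measure V)) : V → ℂ) =ᵐ[volume] G)
    (k : ℕ) : ∫⁻ x, ‖QQ G f k x‖ₑ ^ 2 ≤ ∫⁻ ξ, ‖HH G k ξ‖ₑ ^ 2 := by
  have h1 : ∀ x, ‖QQ G f k x‖ₑ ^ 2 =
      liminf (fun M : ℕ => ‖T (HH G k) (ba V M) x‖ₑ ^ 2) atTop := fun x =>
    (ENNReal.Tendsto.pow (QQ_lim hGm hG f hf k x).enorm).liminf_eq.symm
  simp_rw [h1]
  refine (lintegral_liminf_le (u := atTop) fun M : ℕ => ((T_cont (HH_mem hG k)
    (ba_meas (V := V) M) (ba_fin M)).measurable.enorm.pow_const 2)).trans ?_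
  refine (liminf_le_liminf (v := fun _ => ∫⁻ ξ, ‖HH G k ξ‖ₑ ^ 2)
    (Eventually.of_forall fun M => ?_)).trans (liminf_const _).le
  rw [T_two (HH_mem hG k) (ba_meas _) (ba_fin _)]
  exact lintegral_mono' Measure.restrict_le_self le_rfl

/-- the sizes of the differences -/
noncomputable def qq (t : ℝ) (k : ℕ) : ℝ := if t ≤ 2 ^ k then (t / 2 ^ k) ^ 2 else (2 ^ k / t) ^ 2

theorem geo4 (n : ℕ) : ∑ i ∈ Finset.range n, (1 / (4 : ℝ)) ^ i ≤ 2 :=
  (Finset.sum_le_sum fun i _ => pow_le_pow_left₀ (by norm_num) (by norm_num) i).trans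
    (sum_geometric_two_le n)

theorem qq_sum {t : ℝ} (ht : 0 ≤ t) (n : ℕ) : ∑ k ∈ Finset.range n, qq t k ≤ 4 := by
  have hq0 : ∀ k, 0 ≤ qq t k := fun k => by unfold qq; split_ifs <;> positivity
  have h4 : ∀ i : ℕ, (1 / (4 : ℝ)) ^ i = (1 / 2 ^ i) ^ 2 := fun i => by
    rw [one_div, one_div, inv_pow, inv_pow, ← pow_mul, mul_comm, pow_mul]
    norm_num
  rcases lt_or_ge t 1 with h | h
  · refine (Finset.sum_le_sum (g := fun i => (1 / (4 : ℝ)) ^ i) fun k _ => ?_).trans
      ((geo4 n).trans (by norm_num))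
    have h1 : (1 : ℝ) ≤ 2 ^ k := one_le_pow₀ (by norm_num)
    rw [qq, if_pos (h.le.trans h1), h4]
    gcongr
  · obtain ⟨K, hK1, hK2⟩ := exists_nat_pow_near h (y := (2 : ℝ)) (by norm_num)
    have ht0 : 0 < t := by linarith
    have hsub : ∑ k ∈ Finset.range n, qq t k ≤ ∑ k ∈ Finset.range (K + 1 + n), qq t k :=
      Finset.sum_le_sum_of_subset_of_nonneg (Finset.range_subset_range.2 (by omega))
        fun k _ _ => hq0 k
    refine hsub.trans ?_
    rw [Finset.sum_range_add]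
    have h1 : ∑ k ∈ Finset.range (K + 1), qq t k ≤ 2 := by
      rw [← Finset.sum_range_reflect]
      refine (Finset.sum_le_sum (g := fun i => (1 / (4 : ℝ)) ^ i) fun i hi => ?_).trans
        (geo4 (K + 1))
      rw [Finset.mem_range] at hi
      obtain ⟨m, hm⟩ : ∃ m, K = i + m := Nat.exists_eq_add_of_le (by omega)
      have e : K + 1 - 1 - i = m := by omega
      rw [e, h4]
      have hle : (2 : ℝ) ^ m * 2 ^ i ≤ t := by
        rw [← pow_add, add_comm, ← hm]; exact hK1
      have h2m : (0 : ℝ) < 2 ^ m := by positivity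
      have h2i : (0 : ℝ) < 2 ^ i := by positivity
      unfold qq
      split_ifs with hif
      · have hi0 : (2 : ℝ) ^ i ≤ 1 := by
          have : (2 : ℝ) ^ m * 2 ^ i ≤ 2 ^ m * 1 := by linarith
          exact le_of_mul_le_mul_left this h2m
        have h3 : t / 2 ^ m ≤ 1 := (div_le_one h2m).2 hif
        have h5 : 1 ≤ 1 / (2 : ℝ) ^ i := (one_le_div h2i).2 hi0
        exact pow_le_pow_left₀ (by positivity) (h3.trans h5) 2
      · refine pow_le_pow_left₀ (by positivity) ?_ 2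
        rw [div_le_div_iff₀ ht0 h2i, one_mul]
        exact hle
    have h2 : ∑ i ∈ Finset.range n, qq t (K + 1 + i) ≤ 2 := by
      refine (Finset.sum_le_sum (g := fun i => (1 / (4 : ℝ)) ^ i) fun i _ => ?_).trans (geo4 n)
      have h2i : (1 : ℝ) ≤ 2 ^ i := one_le_pow₀ (by norm_num)
      have h2K : (0 : ℝ) < 2 ^ (K + 1) := by positivity
      have hle : t ≤ 2 ^ (K + 1 + i) := by
        rw [pow_add 2 (K + 1) i]
        nlinarith
      rw [qq, if_pos hle, h4]
      refine pow_le_pow_left₀ (by positivity) ?_ 2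
      rw [pow_add 2 (K + 1) i, div_le_div_iff₀ (by positivity) (by positivity)]
      nlinarith
    linarith

theorem HH_le [Nontrivial V] (G : V → ℂ) (k : ℕ) (ξ : V) :
    ‖HH G k ξ‖ ^ 2 ≤ (2 * Real.pi + Module.finrank ℝ V) ^ 2 * qq ‖ξ‖ k * ‖G ξ‖ ^ 2 := by
  have h2 : (0 : ℝ) < 2 ^ k := by positivity
  have hpi := Real.pi_pos
  have key : ∀ a b : ℝ, 0 ≤ a → a ≤ (2 * Real.pi + Module.finrank ℝ V) * b →
      (a * ‖G ξ‖) ^ 2 ≤ (2 * Real.pi + Module.finrank ℝ V) ^ 2 * b ^ 2 * ‖G ξ‖ ^ 2 := by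
    intro a b ha hab
    rw [mul_pow, ← mul_pow _ b]
    exact mul_le_mul_of_nonneg_right (pow_le_pow_left₀ ha hab 2) (by positivity)
  unfold HH
  by_cases h : ‖ξ‖ ≤ 2 ^ k
  · rw [Set.indicator_of_mem (by rwa [mem_closedBall_zero_iff]), qq, if_pos h]
    have e : G ξ - mm (((2 : ℝ) ^ k)⁻¹) ξ * G ξ = (1 - mm (((2 : ℝ) ^ k)⁻¹) ξ) * G ξ := by ring
    rw [e, norm_mul]
    refine key _ _ (norm_nonneg _) ((mm_near (by positivity) ξ).trans ?_)
    rw [inv_mul_eq_div]
    exact mul_le_mul_of_nonneg_right (le_add_of_nonneg_right (by positivity)) (by positivity)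
  · rw [Set.indicator_of_notMem (by rwa [mem_closedBall_zero_iff]), qq, if_neg h]
    rw [zero_sub, norm_neg, norm_mul]
    have hξ : ξ ≠ 0 := by
      rintro rfl
      rw [norm_zero] at h
      exact h h2.le
    have hn : 0 < ‖ξ‖ := norm_pos_iff.2 hξ
    refine key _ _ (norm_nonneg _) ((mm_far (by positivity) hξ).trans ?_)
    have e : (Module.finrank ℝ V : ℝ) / (2 * ((2 ^ k)⁻¹ * ‖ξ‖)) =
        (Module.finrank ℝ V / 2) * (2 ^ k / ‖ξ‖) := by field_simp
    rw [e]
    refine mul_le_mul_of_nonneg_right ?_ (by positivity)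
    have : (0 : ℝ) ≤ Module.finrank ℝ V := by positivity
    linarith

/-- the lacunary spherical sums converge almost everywhere -/
theorem lac_conv [Nontrivial V] {G : V → ℂ} (hGm : Measurable G) (hG : MemLp G 2)
    (f : Lp ℂ 2 (volume : Measure V)) (hf : ((𝓕 f : Lp ℂ 2 (volume : Measure V)) : V → ℂ) =ᵐ[volume] G) :
    ∀ᵐ x, Tendsto (fun k : ℕ => T G (ba V (2 ^ k)) x) atTop (𝓝 (f x)) := by
  set c : ℝ := (2 * Real.pi + Module.finrank ℝ V) ^ 2 with hc
  have hc0 : 0 ≤ c := by positivity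
  have h1 : ∀ ξ, ∑' k, ‖HH G k ξ‖ₑ ^ 2 ≤ ENNReal.ofReal (c * 4) * ‖G ξ‖ₑ ^ 2 := by
    intro ξ
    refine ENNReal.tsum_le_of_sum_range_le fun n => ?_
    have h2 : ∀ k, ‖HH G k ξ‖ₑ ^ 2 ≤ ENNReal.ofReal (c * qq ‖ξ‖ k) * ‖G ξ‖ₑ ^ 2 := by
      intro k
      rw [← ofReal_norm, ← ofReal_norm, ← ENNReal.ofReal_pow (norm_nonneg _),
        ← ENNReal.ofReal_pow (norm_nonneg _), ← ENNReal.ofReal_mul (by
          unfold qq; split_ifs <;> positivity)]
      exact ENNReal.ofReal_le_ofReal (HH_le G k ξ)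
    refine (Finset.sum_le_sum fun k _ => h2 k).trans ?_
    rw [← Finset.sum_mul, ← ENNReal.ofReal_sum_of_nonneg fun k _ => by
      unfold qq; split_ifs <;> positivity]
    refine mul_le_mul_left (ENNReal.ofReal_le_ofReal ?_) _
    rw [← Finset.mul_sum]
    exact mul_le_mul_of_nonneg_left (qq_sum (norm_nonneg ξ) n) hc0
  have h2 : ∫⁻ x, ∑' k, ‖QQ G f k x‖ₑ ^ 2 ≠ ⊤ := by
    rw [lintegral_tsum fun k => ((QQ_meas hGm hG f hf k).enorm.pow_const 2).aemeasurable]
    refine ne_top_of_le_ne_top ?_ (ENNReal.tsum_le_tsum fun k => QQ_le hGm hG f hf k)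
    rw [← lintegral_tsum fun k => ((HH_meas hGm k).enorm.pow_const 2).aemeasurable]
    refine ne_top_of_le_ne_top ?_ (lintegral_mono h1)
    rw [lintegral_const_mul _ (hGm.enorm.pow_const 2), ← eLp_sq]
    exact ENNReal.mul_ne_top ENNReal.ofReal_ne_top (ENNReal.pow_lt_top hG.eLpNorm_lt_top).ne
  have h3 : ∀ᵐ x, ∑' k, ‖QQ G f k x‖ₑ ^ 2 < ⊤ :=
    ae_lt_top (Measurable.tsum fun k => (QQ_meas hGm hG f hf k).enorm.pow_const 2) h2
  have hfl : LocallyIntegrable (f : V → ℂ) volume :=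
    (Lp.memLp f).locallyIntegrable (by norm_num)
  have h4 := IsUnifLocDoublingMeasure.ae_tendsto_average (μ := (volume : Measure V)) hfl 1
  filter_upwards [h3, h4] with x hx1 hx2
  have h5 := ENNReal.tendsto_atTop_zero_of_tsum_ne_top hx1.ne
  have h6 : Tendsto (fun k => QQ G f k x) atTop (𝓝 0) := by
    rw [tendsto_zero_iff_norm_tendsto_zero]
    have h7 := h5.ennrpow_const (1 / (2 : ℝ))
    rw [ENNReal.zero_rpow_of_pos (by norm_num)] at h7
    have h8 := (ENNReal.tendsto_toReal ENNReal.zero_ne_top).comp h7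
    rw [ENNReal.toReal_zero] at h8
    refine h8.congr fun k => ?_
    simp only [Function.comp]
    rw [← ENNReal.rpow_natCast, ← ENNReal.rpow_mul]
    norm_num
  have h7 : Tendsto (fun k : ℕ => ((2 : ℝ) ^ k)⁻¹) atTop (𝓝[>] 0) := by
    rw [tendsto_nhdsWithin_iff]
    refine ⟨?_, Eventually.of_forall fun k => by simp⟩
    have := tendsto_pow_atTop_nhds_zero_of_lt_one (r := (1 / 2 : ℝ)) (by norm_num) (by norm_num)
    refine this.congr fun k => ?_
    rw [one_div, inv_pow]
  have h8 := hx2 (fun _ : ℕ => x) (fun k : ℕ => ((2 : ℝ) ^ k)⁻¹) h7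
    (Eventually.of_forall fun k => Metric.mem_closedBall_self (by positivity))
  have h9 := h6.add h8
  rw [zero_add] at h9
  refine h9.congr fun k => ?_
  unfold QQ
  ring

end Run7.h976.SP
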