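import Pool.Agent.Run7.h976.SP.Tr

/-!
Chaining along the mass of the balls.
-/

set_option autoImplicit false

namespace Run7.h976.SP

open MeasureTheory Filter Topology
open scoped FourierTransform ENNReal

variable {V : Type*} [NormedAddCommGroup V] [InnerProductSpace ℝ V] [FiniteDimensional ℝ V]
  [MeasurableSpace V] [BorelSpace V]

/-- the ball of frequencies -/
abbrev ba (V : Type*) [NormedAddCommGroup V] (R : ℝ) : Set V := Metric.closedBall (0 : V) R

theorem ba_meas (R : ℝ) : MeasurableSet (ba V R) := Metric.isClosed_closedBall.measurableSet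

theorem ba_fin (R : ℝ) : volume (ba V R) < ⊤ := measure_closedBall_lt_top

theorem ba_mono {R R' : ℝ} (h : R ≤ R') : ba V R ⊆ ba V R' := Metric.closedBall_subset_closedBall h

theorem mass_ofReal {G : V → ℂ} (hG : MemLp G 2) (R : ℝ) :
    mass G (ba V R) = ENNReal.ofReal (mr G R) := (ENNReal.ofReal_toReal (mass_fin hG _).ne).symm

theorem mass_shell {G : V → ℂ} (hG : MemLp G 2) {R R' : ℝ} (h : R ≤ R') :
    mass G (ba V R' \ ba V R) = ENNReal.ofReal (mr G R' - mr G R) := by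
  have h1 := mass_diff G (ba_meas R) (ba_mono h)
  rw [mass_ofReal hG, mass_ofReal hG] at h1
  rw [ENNReal.ofReal_sub _ (mr_nonneg G R), h1, ENNReal.add_sub_cancel_left ENNReal.ofReal_ne_top]

/-- the radius of the ball of mass `t` -/
noncomputable def rad (G : V → ℂ) (t : ℝ) : ℝ := by
  classical
  exact if h : ∃ R, 0 ≤ R ∧ mr G R = t then h.choose else 0

theorem rad_spec [Nontrivial V] {G : V → ℂ} (hGm : Measurable G) (hG : MemLp G 2) {N : ℝ}
    (hN : 0 ≤ N) {t : ℝ} (ht : t ∈ Set.Icc 0 (mr G N)) : 0 ≤ rad G t ∧ mr G (rad G t) = t := by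
  have h1 := intermediate_value_Icc hN (mr_cont hGm hG).continuousOn
  rw [mr_zero] at h1
  obtain ⟨R, hR, he⟩ := h1 ht
  have h : ∃ R, 0 ≤ R ∧ mr G R = t := ⟨R, hR.1, he⟩
  unfold rad
  rw [dif_pos h]
  exact h.choose_spec

/-- the spherical sum over the ball of mass `t` -/
noncomputable def aa (G : V → ℂ) (t : ℝ) : V → ℂ := T G (ba V (rad G t))

theorem aa_cont {G : V → ℂ} (hG : MemLp G 2) (t : ℝ) : Continuous (aa G t) :=
  T_cont hG (ba_meas _) (ba_fin _)

theorem T_same {G : V → ℂ} (hGm : Measurable G) (hG : MemLp G 2) {R R' : ℝ}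
    (h : mr G R = mr G R') (x : V) : T G (ba V R) x = T G (ba V R') x := by
  have key : ∀ R R' : ℝ, R ≤ R' → mr G R = mr G R' → T G (ba V R) x = T G (ba V R') x := by
    intro R R' hle h
    have h1 := T_sub hG (ba_meas R) (ba_meas R') (ba_fin R') (ba_mono hle) x
    have h2 := T_sup hGm ((ba_meas (V := V) R').diff (ba_meas R)) x
    rw [mass_shell hG hle, h, sub_self, ENNReal.ofReal_zero, mul_zero] at h2
    have h3 : ‖T G (ba V R' \ ba V R) x‖ₑ ^ 2 = 0 := le_antisymm h2 zero_le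
    have h4 : T G (ba V R' \ ba V R) x = 0 := by
      have := pow_eq_zero_iff (two_ne_zero) |>.1 h3
      exact enorm_eq_zero.1 this
    rw [h4, sub_eq_zero] at h1
    exact h1.symm
  rcases le_total R R' with hle | hle
  · exact key R R' hle h
  · exact (key R' R hle h.symm).symm

theorem T_aa [Nontrivial V] {G : V → ℂ} (hGm : Measurable G) (hG : MemLp G 2) {R N : ℝ}
    (hRN : R ≤ N) (hN : 0 ≤ N) (x : V) : T G (ba V R) x = aa G (mr G R) x := by
  refine T_same hGm hG ?_ x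
  exact (rad_spec hGm hG hN ⟨mr_nonneg G R, mr_mono hG hRN⟩).2.symm

theorem aa_zero [Nontrivial V] {G : V → ℂ} (hGm : Measurable G) (hG : MemLp G 2) (x : V) :
    aa G 0 x = 0 := by
  have h0 := (rad_spec hGm hG (le_refl (0 : ℝ)) (t := 0) ⟨le_rfl, mr_nonneg G 0⟩).2
  have h2 := T_sup hGm (ba_meas (V := V) (rad G 0)) x
  rw [mass_ofReal hG, h0, ENNReal.ofReal_zero, mul_zero] at h2
  have h3 : ‖aa G 0 x‖ₑ ^ 2 = 0 := le_antisymm h2 zero_le
  exact enorm_eq_zero.1 (pow_eq_zero_iff (two_ne_zero) |>.1 h3)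

/-- increments -/
theorem aa_sub [Nontrivial V] {G : V → ℂ} (hGm : Measurable G) (hG : MemLp G 2) {N : ℝ}
    (hN : 0 ≤ N) {s t : ℝ} (hs : 0 ≤ s) (hst : s ≤ t) (ht : t ≤ mr G N) :
    ∃ A : Set V, MeasurableSet A ∧ A ⊆ ba V N ∧ volume A < ⊤ ∧ mass G A = ENNReal.ofReal (t - s) ∧
      ∀ x, aa G t x - aa G s x = T G A x := by
  rcases eq_or_lt_of_le hst with h | h
  · subst h
    refine ⟨∅, MeasurableSet.empty, Set.empty_subset _, by simp, by simp [mass], fun x => ?_⟩
    rw [sub_self, T, Set.indicator_empty]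
    simp [Real.fourierInv_eq]
  · obtain ⟨h1, h2⟩ := rad_spec hGm hG hN (t := s) ⟨hs, hst.trans ht⟩
    obtain ⟨h3, h4⟩ := rad_spec hGm hG hN (t := t) ⟨hs.trans hst, ht⟩
    have hle : rad G s ≤ rad G t := by
      by_contra hc
      rw [not_le] at hc
      have := mr_mono hG hc.le
      rw [h2, h4] at this
      linarith
    rcases le_or_gt (rad G t) N with hRN | hRN
    · refine ⟨ba V (rad G t) \ ba V (rad G s), (ba_meas _).diff (ba_meas _),
        Set.diff_subset.trans (ba_mono hRN), (measure_mono Set.diff_subset).trans_lt (ba_fin _),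
        ?_, fun x => ?_⟩
      · rw [mass_shell hG hle, h2, h4]
      · exact T_sub hG (ba_meas _) (ba_meas _) (ba_fin _) (ba_mono hle) x
    · have h5 : mr G N = t := le_antisymm (by rw [← h4]; exact mr_mono hG hRN.le) ht
      have hsN : rad G s ≤ N := by
        by_contra hc
        rw [not_le] at hc
        have := mr_mono hG hc.le
        rw [h2, h5] at this
        linarith
      refine ⟨ba V N \ ba V (rad G s), (ba_meas _).diff (ba_meas _),
        Set.diff_subset, (measure_mono Set.diff_subset).trans_lt (ba_fin _), ?_, fun x => ?_⟩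
      · rw [mass_shell hG hsN, h2, h5]
      · rw [← T_sub hG (ba_meas _) (ba_meas _) (ba_fin _) (ba_mono hsN) x]
        congr 1
        exact T_same hGm hG (by rw [h4, h5]) x

/-- grid points -/
noncomputable def gp (M : ℝ) (j i : ℕ) : ℝ := i * M / 16 ^ j

/-- the increments of the chaining -/
noncomputable def DD (G : V → ℂ) (M : ℝ) (j i : ℕ) (x : V) : ℝ :=
  ‖aa G (gp M (j + 1) i) x - aa G (gp M j (i / 16)) x‖

/-- the largest increment of a level -/
noncomputable def DM (G : V → ℂ) (M : ℝ) (j : ℕ) (x : V) : ℝ :=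
  (Finset.range (16 ^ (j + 1))).sup' ⟨0, Finset.mem_range.2 (by positivity)⟩
    (fun i => DD G M j i x)

theorem DD_cont {G : V → ℂ} (hG : MemLp G 2) (M : ℝ) (j i : ℕ) : Continuous (DD G M j i) :=
  ((aa_cont hG _).sub (aa_cont hG _)).norm

theorem DM_cont {G : V → ℂ} (hG : MemLp G 2) (M : ℝ) (j : ℕ) : Continuous (DM G M j) :=
  Continuous.finset_sup'_apply _ fun _ _ => DD_cont hG M j _

theorem DM_nonneg (G : V → ℂ) (M : ℝ) (j : ℕ) (x : V) : 0 ≤ DM G M j x :=
  (norm_nonneg _).trans (Finset.le_sup' (fun i => DD G M j i x)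
    (Finset.mem_range.2 (show 0 < 16 ^ (j + 1) by positivity)))

/-- the majorant of the chaining -/
noncomputable def WW (G : V → ℂ) (M : ℝ) (J : ℕ) (x : V) : ℝ :=
  ‖aa G M x‖ + ∑ j ∈ Finset.range J, DM G M j x

theorem WW_cont {G : V → ℂ} (hG : MemLp G 2) (M : ℝ) (J : ℕ) : Continuous (WW G M J) :=
  (aa_cont hG M).norm.add (continuous_finsetSum _ fun j _ => DM_cont hG M j)

theorem WW_nonneg (G : V → ℂ) (M : ℝ) (J : ℕ) (x : V) : 0 ≤ WW G M J x :=
  add_nonneg (norm_nonneg _) (Finset.sum_nonneg fun j _ => DM_nonneg G M j x)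

theorem WW_mono (G : V → ℂ) (M : ℝ) (x : V) : Monotone fun J => WW G M J x := by
  refine monotone_nat_of_le_succ fun J => ?_
  unfold WW
  rw [Finset.sum_range_succ]
  have := DM_nonneg G M J x
  linarith

/-- the chain -/
theorem chain_le [Nontrivial V] {G : V → ℂ} (hGm : Measurable G) (hG : MemLp G 2) {M : ℝ}
    (hM : 0 < M) {t : ℝ} (ht0 : 0 ≤ t) (ht : t < M) (x : V) : ∀ J : ℕ,
    ‖aa G (gp M J ⌊16 ^ J * t / M⌋₊) x‖ ≤ WW G M J x
  | 0 => by
    have h1 : ⌊16 ^ 0 * t / M⌋₊ = 0 := by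
      rw [pow_zero, one_mul, Nat.floor_eq_zero, div_lt_one hM]
      exact ht
    rw [h1]
    have h2 : gp M 0 0 = 0 := by simp [gp]
    rw [h2, aa_zero hGm hG, norm_zero]
    exact WW_nonneg G M 0 x
  | J + 1 => by
    have ih := chain_le hGm hG hM ht0 ht x J
    set i := ⌊16 ^ (J + 1) * t / M⌋₊ with hi
    have h1 : i / 16 = ⌊16 ^ J * t / M⌋₊ := by
      rw [hi, ← Nat.floor_div_ofNat]
      congr 1
      rw [pow_succ]
      ring
    have h2 : i < 16 ^ (J + 1) := by
      rw [hi, Nat.floor_lt (by positivity), div_lt_iff₀ hM]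
      push_cast
      exact mul_lt_mul_of_pos_left ht (by positivity)
    have h3 : ‖aa G (gp M (J + 1) i) x - aa G (gp M J (i / 16)) x‖ ≤ DM G M J x :=
      Finset.le_sup' (fun i => DD G M J i x) (Finset.mem_range.2 h2)
    rw [← h1] at ih
    have h4 : WW G M (J + 1) x = WW G M J x + DM G M J x := by
      unfold WW
      rw [Finset.sum_range_succ, add_assoc]
    rw [h4]
    have h5 := norm_add_le (aa G (gp M J (i / 16)) x)
      (aa G (gp M (J + 1) i) x - aa G (gp M J (i / 16)) x)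
    rw [add_sub_cancel] at h5
    linarith

/-- the grid point below `t` -/
theorem gp_near {M : ℝ} (hM : 0 < M) {t : ℝ} (ht0 : 0 ≤ t) (J : ℕ) :
    0 ≤ gp M J ⌊16 ^ J * t / M⌋₊ ∧ gp M J ⌊16 ^ J * t / M⌋₊ ≤ t ∧
      t - gp M J ⌊16 ^ J * t / M⌋₊ ≤ M / 16 ^ J := by
  have h16 : (0 : ℝ) < 16 ^ J := by positivity
  have h1 : (⌊16 ^ J * t / M⌋₊ : ℝ) ≤ 16 ^ J * t / M := Nat.floor_le (by positivity)
  have h2 : 16 ^ J * t / M < (⌊16 ^ J * t / M⌋₊ : ℝ) + 1 := Nat.lt_floor_add_one _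
  unfold gp
  refine ⟨by positivity, ?_, ?_⟩
  · rw [div_le_iff₀ h16]
    rw [le_div_iff₀ hM] at h1
    linarith
  · rw [div_lt_iff₀ hM] at h2
    rw [sub_le_iff_le_add, ← add_div, le_div_iff₀ h16]
    nlinarith

/-- every spherical sum is below the supremum of the majorants -/
theorem sup_le_WW [Nontrivial V] {G : V → ℂ} (hGm : Measurable G) (hG : MemLp G 2) {N : ℝ}
    (hN : 0 ≤ N) {R : ℝ} (hR : R ≤ N) (x : V) :
    ‖T G (ba V R) x‖ₑ ≤ ⨆ J : ℕ, ENNReal.ofReal (WW G (mr G N) J x) := by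
  rw [T_aa hGm hG hR hN]
  set M := mr G N with hM
  set t := mr G R with ht
  have htM : t ≤ M := mr_mono hG hR
  have ht0 : 0 ≤ t := mr_nonneg G R
  rcases eq_or_lt_of_le htM with h | h
  · rw [h]
    refine le_trans ?_ (le_iSup _ 0)
    rw [← ofReal_norm]
    refine ENNReal.ofReal_le_ofReal ?_
    simp [WW]
  · have hM0 : 0 < M := lt_of_le_of_lt ht0 h
    have hlim : Tendsto (fun J : ℕ => (⨆ J : ℕ, ENNReal.ofReal (WW G M J x)) +
        (volume (ba V N) * ENNReal.ofReal (M / 16 ^ J)) ^ (1 / (2 : ℝ))) atTop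
        (𝓝 ((⨆ J : ℕ, ENNReal.ofReal (WW G M J x)) + 0)) := by
      refine tendsto_const_nhds.add ?_
      have h1 : Tendsto (fun J : ℕ => M / (16 : ℝ) ^ J) atTop (𝓝 0) := by
        have := (tendsto_pow_atTop_nhds_zero_of_lt_one (r := (1 / 16 : ℝ)) (by norm_num)
          (by norm_num)).const_mul M
        rw [mul_zero] at this
        refine this.congr fun J => ?_
        rw [one_div, inv_pow, ← div_eq_mul_inv]
      have h2 := ENNReal.tendsto_ofReal h1
      rw [ENNReal.ofReal_zero] at h2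
      have h3 := ENNReal.Tendsto.const_mul h2 (a := volume (ba V N)) (Or.inr (ba_fin N).ne)
      rw [mul_zero] at h3
      have h4 := h3.ennrpow_const (1 / (2 : ℝ))
      rwa [ENNReal.zero_rpow_of_pos (by norm_num)] at h4
    rw [add_zero] at hlim
    refine ge_of_tendsto' hlim fun J => ?_
    obtain ⟨g1, g2, g3⟩ := gp_near hM0 ht0 J
    obtain ⟨A, hA1, hA2, hA3, hA4, hA5⟩ := aa_sub hGm hG hN g1 g2 htM
    have h5 := T_sup hGm hA1 x
    rw [← hA5 x, hA4] at h5
    have h6 : ‖aa G t x - aa G (gp M J ⌊16 ^ J * t / M⌋₊) x‖ₑ ≤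
        (volume (ba V N) * ENNReal.ofReal (M / 16 ^ J)) ^ (1 / (2 : ℝ)) := by
      have h7 : ‖aa G t x - aa G (gp M J ⌊16 ^ J * t / M⌋₊) x‖ₑ ^ 2 ≤
          volume (ba V N) * ENNReal.ofReal (M / 16 ^ J) :=
        h5.trans (mul_le_mul' (measure_mono hA2) (ENNReal.ofReal_le_ofReal g3))
      calc ‖aa G t x - aa G (gp M J ⌊16 ^ J * t / M⌋₊) x‖ₑ
          = (‖aa G t x - aa G (gp M J ⌊16 ^ J * t / M⌋₊) x‖ₑ ^ 2) ^ (1 / (2 : ℝ)) := by
            rw [← ENNReal.rpow_natCast, ← ENNReal.rpow_mul]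
            norm_num
        _ ≤ _ := ENNReal.rpow_le_rpow h7 (by norm_num)
    have h8 : ‖aa G (gp M J ⌊16 ^ J * t / M⌋₊) x‖ₑ ≤ ⨆ J : ℕ, ENNReal.ofReal (WW G M J x) := by
      refine le_trans ?_ (le_iSup _ J)
      rw [← ofReal_norm]
      exact ENNReal.ofReal_le_ofReal (chain_le hGm hG hM0 ht0 h x J)
    calc ‖aa G t x‖ₑ = ‖aa G (gp M J ⌊16 ^ J * t / M⌋₊) x +
          (aa G t x - aa G (gp M J ⌊16 ^ J * t / M⌋₊) x)‖ₑ := by rw [add_sub_cancel]
      _ ≤ _ := enorm_add_le _ _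
      _ ≤ _ := add_le_add h8 h6

end Run7.h976.SP
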