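import Mathlib

/-!
The maximal theorem of Hardy and Littlewood in `L²`, for balls of the radii `2^(-k)`.
-/

set_option autoImplicit false

namespace Run7.h976.SP

open MeasureTheory Filter Topology
open scoped ENNReal

variable {V : Type*} [NormedAddCommGroup V] [InnerProductSpace ℝ V] [FiniteDimensional ℝ V]
  [MeasurableSpace V] [BorelSpace V]

/-- the radii -/
noncomputable def rk (k : ℕ) : ℝ := ((2 : ℝ) ^ k)⁻¹

theorem rk_pos (k : ℕ) : 0 < rk k := by unfold rk; positivity

theorem rk_le (k : ℕ) : rk k ≤ 1 := inv_le_one_of_one_le₀ (one_le_pow₀ (by norm_num))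

/-- the average over a ball -/
noncomputable def av (u : V → ℝ≥0∞) (k : ℕ) (x : V) : ℝ≥0∞ :=
  (volume (Metric.closedBall (0 : V) (rk k)))⁻¹ * ∫⁻ y in Metric.closedBall x (rk k), u y

/-- the maximal function -/
noncomputable def HL (u : V → ℝ≥0∞) (x : V) : ℝ≥0∞ := ⨆ k : ℕ, av u k x

theorem av_meas {u : V → ℝ≥0∞} (hu : Measurable u) (k : ℕ) : Measurable (av u k) := by
  have e : av u k = fun x => (volume (Metric.closedBall (0 : V) (rk k)))⁻¹ *
      ∫⁻ y, ({p : V × V | dist p.2 p.1 ≤ rk k}.indicator (fun p => u p.2)) (x, y) := by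
    funext x
    unfold av
    rw [← lintegral_indicator Metric.isClosed_closedBall.measurableSet]
    congr 1
  rw [e]
  refine Measurable.const_mul ?_ _
  refine Measurable.lintegral_prod_right' (f := {p : V × V | dist p.2 p.1 ≤ rk k}.indicator
    (fun p => u p.2)) ?_
  refine (hu.comp measurable_snd).indicator ?_
  exact (isClosed_le (by fun_prop) continuous_const).measurableSet

theorem HL_meas {u : V → ℝ≥0∞} (hu : Measurable u) : Measurable (HL u) :=
  Measurable.iSup fun k => av_meas hu k

theorem vol_center (x : V) (r : ℝ) :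
    volume (Metric.closedBall x r) = volume (Metric.closedBall (0 : V) r) :=
  Measure.addHaar_closedBall_center _ _ _

theorem vol_ne (k : ℕ) : volume (Metric.closedBall (0 : V) (rk k)) ≠ 0 :=
  (Metric.measure_closedBall_pos _ _ (rk_pos k)).ne'

theorem vol_top (k : ℕ) : volume (Metric.closedBall (0 : V) (rk k)) ≠ ⊤ :=
  measure_closedBall_lt_top.ne

/-- the weak bound -/
theorem HL_weak (u : V → ℝ≥0∞) (lam : ℝ≥0∞) :
    lam * volume {x | lam < HL u x} ≤ 5 ^ Module.finrank ℝ V * ∫⁻ y, u y := by
  set S := {x | lam < HL u x} with hS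
  have h1 : ∀ x : V, ∃ k : ℕ, x ∈ S →
      lam * volume (Metric.closedBall x (rk k)) ≤ ∫⁻ y in Metric.closedBall x (rk k), u y := by
    intro x
    by_cases hx : x ∈ S
    · obtain ⟨k, hk⟩ := lt_iSup_iff.1 (show lam < ⨆ k : ℕ, av u k x from hx)
      refine ⟨k, fun _ => ?_⟩
      rw [vol_center]
      have h2 : lam * volume (Metric.closedBall (0 : V) (rk k)) ≤
          av u k x * volume (Metric.closedBall (0 : V) (rk k)) := mul_le_mul_left hk.le _
      refine h2.trans (le_of_eq ?_)
      unfold av
      rw [mul_comm, ← mul_assoc, ENNReal.mul_inv_cancel (vol_ne k) (vol_top k), one_mul]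
    · exact ⟨0, fun h => absurd h hx⟩
  choose kk hkk using h1
  obtain ⟨t, ht1, ht2, ht3⟩ := Vitali.exists_disjoint_subfamily_covering_enlargement_closedBall
    S (fun x => x) (fun x => rk (kk x)) 1 (fun x _ => rk_le _) 5 (by norm_num)
  have htc : t.Countable := ht2.countable_of_nonempty_interior fun x _ =>
    ⟨x, Metric.ball_subset_interior_closedBall (Metric.mem_ball_self (rk_pos _))⟩
  have h2 : S ⊆ ⋃ x ∈ t, Metric.closedBall x (5 * rk (kk x)) := by
    intro x hx
    obtain ⟨b, hb, hb2⟩ := ht3 x hx
    exact Set.mem_iUnion₂.2 ⟨b, hb, hb2 (Metric.mem_closedBall_self (rk_pos _).le)⟩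
  have h3 : ∀ x : V, volume (Metric.closedBall x (5 * rk (kk x))) =
      5 ^ Module.finrank ℝ V * volume (Metric.closedBall x (rk (kk x))) := by
    intro x
    rw [Measure.addHaar_closedBall _ _ (by have := rk_pos (kk x); positivity),
      Measure.addHaar_closedBall _ _ (rk_pos _).le, mul_pow, ENNReal.ofReal_mul (by positivity),
      mul_assoc, ENNReal.ofReal_pow (by norm_num)]
    norm_num
  calc lam * volume S ≤ lam * volume (⋃ x ∈ t, Metric.closedBall x (5 * rk (kk x))) :=
        mul_le_mul_right (measure_mono h2) _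
    _ ≤ lam * ∑' x : t, volume (Metric.closedBall (x : V) (5 * rk (kk x))) :=
        mul_le_mul_right (measure_biUnion_le _ htc _) _
    _ = ∑' x : t, 5 ^ Module.finrank ℝ V * (lam * volume (Metric.closedBall (x : V) (rk (kk x)))) := by
        rw [← ENNReal.tsum_mul_left]
        refine tsum_congr fun x => ?_
        rw [h3]
        ring
    _ ≤ ∑' x : t, 5 ^ Module.finrank ℝ V *
          ∫⁻ y in Metric.closedBall (x : V) (rk (kk x)), u y :=
        ENNReal.tsum_le_tsum fun x => mul_le_mul_right (hkk x (ht1 x.2)) _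
    _ = 5 ^ Module.finrank ℝ V * ∫⁻ y in ⋃ x ∈ t, Metric.closedBall (x : V) (rk (kk x)), u y := by
        rw [ENNReal.tsum_mul_left, lintegral_biUnion htc
          (fun x _ => Metric.isClosed_closedBall.measurableSet) ht2]
    _ ≤ 5 ^ Module.finrank ℝ V * ∫⁻ y, u y :=
        mul_le_mul_right (setLIntegral_le_lintegral _ _) _

/-- truncation -/
theorem HL_trunc (u : V → ℝ≥0∞) (c : ℝ≥0∞) (x : V) :
    HL u x ≤ HL ({y | c < u y}.indicator u) x + c := by
  refine iSup_le fun k => ?_
  refine le_trans ?_ (add_le_add_left (le_iSup (fun k => av ({y | c < u y}.indicator u) k x) k) _)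
  have h1 : ∀ y, u y ≤ {y | c < u y}.indicator u y + c := by
    intro y
    by_cases h : c < u y
    · rw [Set.indicator_of_mem (show y ∈ {y | c < u y} from h)]
      exact le_self_add
    · rw [Set.indicator_of_notMem (show y ∉ {y | c < u y} from h), zero_add]
      exact not_lt.1 h
  unfold av
  calc (volume (Metric.closedBall (0 : V) (rk k)))⁻¹ * ∫⁻ y in Metric.closedBall x (rk k), u y
      ≤ (volume (Metric.closedBall (0 : V) (rk k)))⁻¹ *
        ∫⁻ y in Metric.closedBall x (rk k), ({y | c < u y}.indicator u y + c) :=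
        mul_le_mul_right (lintegral_mono h1) _
    _ = _ := by
        rw [lintegral_add_right _ measurable_const, setLIntegral_const, vol_center x, mul_add]
        congr 1
        rw [mul_comm c, ← mul_assoc, ENNReal.inv_mul_cancel (vol_ne k) (vol_top k), one_mul]

/-- the level sets -/
theorem HL_level (u : V → ℝ≥0∞) {t : ℝ} (ht : 0 < t) :
    volume {x | ENNReal.ofReal t < HL u x} * ENNReal.ofReal t ≤
      2 * 5 ^ Module.finrank ℝ V * ∫⁻ y, {y | ENNReal.ofReal (t / 2) < u y}.indicator u y := by
  have h1 : {x | ENNReal.ofReal t < HL u x} ⊆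
      {x | ENNReal.ofReal (t / 2) < HL ({y | ENNReal.ofReal (t / 2) < u y}.indicator u) x} := by
    intro x hx
    have h2 := HL_trunc u (ENNReal.ofReal (t / 2)) x
    by_contra hc
    rw [Set.mem_ofPred_eq, not_lt] at hc
    have h3 : HL u x ≤ ENNReal.ofReal (t / 2) + ENNReal.ofReal (t / 2) :=
      h2.trans (add_le_add_left hc _)
    rw [← ENNReal.ofReal_add (by positivity) (by positivity), add_halves] at h3
    exact absurd hx (not_lt.2 h3)
  have h2 := HL_weak ({y | ENNReal.ofReal (t / 2) < u y}.indicator u) (ENNReal.ofReal (t / 2))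
  have h3 : ENNReal.ofReal t = 2 * ENNReal.ofReal (t / 2) := by
    rw [← ENNReal.ofReal_ofNat 2, ← ENNReal.ofReal_mul (by norm_num)]
    congr 1
    ring
  calc volume {x | ENNReal.ofReal t < HL u x} * ENNReal.ofReal t
      = 2 * (ENNReal.ofReal (t / 2) * volume {x | ENNReal.ofReal t < HL u x}) := by
        rw [← mul_assoc, ← h3, mul_comm]
    _ ≤ 2 * (ENNReal.ofReal (t / 2) * volume {x | ENNReal.ofReal (t / 2) <
          HL ({y | ENNReal.ofReal (t / 2) < u y}.indicator u) x}) :=
        mul_le_mul_right (mul_le_mul_right (measure_mono h1) _) _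
    _ ≤ _ := by
        rw [mul_assoc]
        exact mul_le_mul_right h2 _

/-- the strong bound -/
theorem HL_strong {u : V → ℝ≥0∞} (hu : Measurable u) :
    ∫⁻ x, HL u x ^ 2 ≤ 8 * 5 ^ Module.finrank ℝ V * ∫⁻ y, u y ^ 2 := by
  -- truncated versions
  have key : ∀ N : ℕ, ∫⁻ x, (min (HL u x) N) ^ 2 ≤
      8 * 5 ^ Module.finrank ℝ V * ∫⁻ y, u y ^ 2 := by
    intro N
    set f : V → ℝ := fun x => (min (HL u x) N).toReal with hf
    have hfin : ∀ x, min (HL u x) N ≠ ⊤ := fun x =>
      ne_top_of_le_ne_top (ENNReal.natCast_ne_top N) (min_le_right _ _)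
    have hfm : Measurable f := ((HL_meas hu).min measurable_const).ennreal_toReal
    have h1 := lintegral_rpow_eq_lintegral_meas_lt_mul (volume : Measure V) (f := f)
      (Eventually.of_forall fun x => ENNReal.toReal_nonneg) hfm.aemeasurable
      (p := 2) (by norm_num)
    have h2 : ∀ x, ENNReal.ofReal (f x ^ (2 : ℝ)) = (min (HL u x) N) ^ 2 := by
      intro x
      rw [Real.rpow_ofNat, ENNReal.ofReal_pow ENNReal.toReal_nonneg,
        ENNReal.ofReal_toReal (hfin x)]
    simp_rw [h2] at h1
    rw [h1]
    have h3 : ∀ t ∈ Set.Ioi (0 : ℝ), volume {a : V | t < f a} * ENNReal.ofReal (t ^ ((2 : ℝ) - 1)) ≤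
        2 * 5 ^ Module.finrank ℝ V *
          ∫⁻ y, {y | ENNReal.ofReal (t / 2) < u y}.indicator u y := by
      intro t ht
      have e : t ^ ((2 : ℝ) - 1) = t := by norm_num
      rw [e]
      refine le_trans (mul_le_mul_left (measure_mono ?_) _) (HL_level u ht)
      intro x hx
      have h4 : ENNReal.ofReal t < min (HL u x) N := by
        rw [ENNReal.ofReal_lt_iff_lt_toReal (le_of_lt ht) (hfin x)]
        exact hx
      exact h4.trans_le (min_le_left _ _)
    have hmeas : MeasurableSet {p : ℝ × V | ENNReal.ofReal (p.1 / 2) < u p.2} :=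
      measurableSet_lt ((measurable_fst.div_const 2).ennreal_ofReal) (hu.comp measurable_snd)
    calc ENNReal.ofReal 2 * ∫⁻ t in Set.Ioi (0 : ℝ),
          volume {a : V | t < f a} * ENNReal.ofReal (t ^ ((2 : ℝ) - 1))
        ≤ ENNReal.ofReal 2 * ∫⁻ t in Set.Ioi (0 : ℝ), 2 * 5 ^ Module.finrank ℝ V *
          ∫⁻ y, {y | ENNReal.ofReal (t / 2) < u y}.indicator u y :=
          mul_le_mul_right (setLIntegral_mono' measurableSet_Ioi h3) _
      _ = 4 * 5 ^ Module.finrank ℝ V * ∫⁻ t in Set.Ioi (0 : ℝ),
          ∫⁻ y, {y | ENNReal.ofReal (t / 2) < u y}.indicator u y := by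
          rw [lintegral_const_mul' _ _ (ENNReal.mul_ne_top (by norm_num)
            (ENNReal.pow_ne_top (by norm_num))), ← mul_assoc, ← mul_assoc]
          congr 2
          norm_num
      _ = 4 * 5 ^ Module.finrank ℝ V * ∫⁻ y, ∫⁻ t in Set.Ioi (0 : ℝ),
          {y | ENNReal.ofReal (t / 2) < u y}.indicator u y := by
          congr 1
          rw [lintegral_lintegral_swap]
          have e : (Function.uncurry fun (t : ℝ) (y : V) =>
              {y | ENNReal.ofReal (t / 2) < u y}.indicator u y) =
              {p : ℝ × V | ENNReal.ofReal (p.1 / 2) < u p.2}.indicator (fun p => u p.2) := by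
            funext p
            rfl
          rw [e]
          exact ((hu.comp measurable_snd).indicator hmeas).aemeasurable
      _ ≤ 4 * 5 ^ Module.finrank ℝ V * ∫⁻ y, 2 * u y ^ 2 := by
          refine mul_le_mul_right (lintegral_mono fun y => ?_) _
          rcases eq_or_ne (u y) ⊤ with htop | htop
          · rw [htop]; simp
          · have h5 : ∀ t ∈ Set.Ioi (0 : ℝ), {y | ENNReal.ofReal (t / 2) < u y}.indicator u y ≤
                (Set.Ioo (0 : ℝ) (2 * (u y).toReal)).indicator (fun _ => u y) t := by
              intro t ht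
              by_cases h6 : ENNReal.ofReal (t / 2) < u y
              · rw [Set.indicator_of_mem (show y ∈ {y | ENNReal.ofReal (t / 2) < u y} from h6),
                  Set.indicator_of_mem]
                refine ⟨ht, ?_⟩
                rw [ENNReal.ofReal_lt_iff_lt_toReal (by have := Set.mem_Ioi.1 ht; positivity)
                  htop] at h6
                linarith
              · rw [Set.indicator_of_notMem
                  (show y ∉ {y | ENNReal.ofReal (t / 2) < u y} from h6)]
                exact zero_le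
            refine (setLIntegral_mono' measurableSet_Ioi h5).trans ?_
            refine (lintegral_mono' Measure.restrict_le_self le_rfl).trans ?_
            rw [lintegral_indicator measurableSet_Ioo, setLIntegral_const, Real.volume_Ioo,
              sub_zero, ENNReal.ofReal_mul (by norm_num), ENNReal.ofReal_toReal htop,
              ENNReal.ofReal_ofNat]
            exact le_of_eq (by ring)
      _ = 8 * 5 ^ Module.finrank ℝ V * ∫⁻ y, u y ^ 2 := by
          rw [lintegral_const_mul _ (hu.pow_const 2), ← mul_assoc]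
          congr 1
          rw [mul_assoc, mul_comm _ (2 : ℝ≥0∞), ← mul_assoc]
          norm_num
  have e : ∀ x, HL u x ^ 2 = ⨆ N : ℕ, (min (HL u x) N) ^ 2 := by
    intro x
    have h1 : HL u x = ⨆ N : ℕ, min (HL u x) N := by
      apply le_antisymm
      · rcases eq_or_ne (HL u x) ⊤ with h | h
        · rw [h]
          simp only [le_top, inf_of_le_right]
          rw [ENNReal.iSup_natCast]
        · obtain ⟨N, hN⟩ := ENNReal.exists_nat_gt h
          refine le_iSup_of_le N ?_
          rw [min_eq_left hN.le]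
      · exact iSup_le fun N => min_le_left _ _
    conv_lhs => rw [h1]
    exact ENNReal.iSup_pow_of_ne_zero two_ne_zero _
  simp_rw [e]
  rw [lintegral_iSup (fun N => ((HL_meas hu).min measurable_const).pow_const 2)
    (fun m n hmn x => pow_le_pow_left' (min_le_min le_rfl (by exact_mod_cast hmn)) 2)]
  exact iSup_le key

end Run7.h976.SP
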