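import Pool.Agent.Run7.h976.SP.Sh
import Pool.Agent.Run7.h976.SP.Hl

/-!
The full maximal function over a set of finite measure.
-/

set_option autoImplicit false

namespace Run7.h976.SP

open MeasureTheory Filter Topology
open scoped FourierTransform ENNReal

variable {V : Type*} [NormedAddCommGroup V] [InnerProductSpace ℝ V] [FiniteDimensional ℝ V]
  [MeasurableSpace V] [BorelSpace V]

/-- the lacunary maximal function -/
noncomputable def LM (G : V → ℂ) (x : V) : ℝ≥0∞ := ⨆ k : ℕ, ‖T G (ba V (2 ^ k)) x‖ₑ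

theorem LM_meas {G : V → ℂ} (hG : MemLp G 2) : Measurable (LM G) :=
  Measurable.iSup fun _ => (T_cont hG (ba_meas _) (ba_fin _)).measurable.enorm

theorem avg_le (f : V → ℂ) (k : ℕ) (x : V) :
    ‖⨍ y in Metric.closedBall x (((2 : ℝ) ^ k)⁻¹), f y‖ₑ ≤ av (fun y => ‖f y‖ₑ) k x := by
  have h0 := vol_pos (V := V) (rk_pos k) x
  rw [setAverage_eq, enorm_smul]
  unfold av
  refine mul_le_mul' (le_of_eq ?_) (enorm_integral_le_lintegral_enorm _)
  change ‖(volume.real (Metric.closedBall x (rk k)))⁻¹‖ₑ = _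
  rw [Real.enorm_of_nonneg (inv_nonneg.2 h0.le), ENNReal.ofReal_inv_of_pos h0, measureReal_def,
    ENNReal.ofReal_toReal measure_closedBall_lt_top.ne, vol_center]

theorem plan_f {G : V → ℂ} (f : Lp ℂ 2 (volume : Measure V))
    (hf : ((𝓕 f : Lp ℂ 2 (volume : Measure V)) : V → ℂ) =ᵐ[volume] G) :
    ∫⁻ x, ‖f x‖ₑ ^ 2 = ∫⁻ ξ, ‖G ξ‖ₑ ^ 2 := by
  have h1 := Lp.norm_fourier_eq f
  rw [Lp.norm_def, Lp.norm_def] at h1
  have h2 := (ENNReal.toReal_eq_toReal_iff' (Lp.eLpNorm_ne_top _) (Lp.eLpNorm_ne_top _)).1 h1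
  rw [eLpNorm_congr_ae hf] at h2
  rw [← eLp_sq, ← eLp_sq, h2]

theorem QQ_sum [Nontrivial V] {G : V → ℂ} (hGm : Measurable G) (hG : MemLp G 2)
    (f : Lp ℂ 2 (volume : Measure V)) (hf : ((𝓕 f : Lp ℂ 2 (volume : Measure V)) : V → ℂ) =ᵐ[volume] G) :
    ∫⁻ x, ∑' k, ‖QQ G f k x‖ₑ ^ 2 ≤
      4 * ((Module.finrank ℝ V + 7 : ℕ) : ℝ≥0∞) ^ 2 * ∫⁻ ξ, ‖G ξ‖ₑ ^ 2 := by
  set c : ℝ := (2 * Real.pi + Module.finrank ℝ V) ^ 2 with hc
  have hc0 : 0 ≤ c := by positivity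
  have h1 : ∀ ξ, ∑' k, ‖HH G k ξ‖ₑ ^ 2 ≤
      4 * ((Module.finrank ℝ V + 7 : ℕ) : ℝ≥0∞) ^ 2 * ‖G ξ‖ₑ ^ 2 := by
    intro ξ
    refine ENNReal.tsum_le_of_sum_range_le fun n => ?_
    have h2 : ∀ k, ‖HH G k ξ‖ₑ ^ 2 ≤ ENNReal.ofReal (c * qq ‖ξ‖ k) * ‖G ξ‖ₑ ^ 2 := by
      intro k
      rw [← ofReal_norm, ← ofReal_norm, ← ENNReal.ofReal_pow (norm_nonneg _),
        ← ENNReal.ofReal_pow (norm_nonneg _), ← ENNReal.ofReal_mul (by
          unfold qq; split_ifs <;> positivity)]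
      exact ENNReal.ofReal_le_ofReal (HH_le G k ξ)
    refine (Finset.sum_le_sum fun k _ => h2 k).trans ?_
    rw [← Finset.sum_mul, ← ENNReal.ofReal_sum_of_nonneg fun k _ => by
      unfold qq; split_ifs <;> positivity]
    refine mul_le_mul_left ?_ _
    have h3 : 4 * ((Module.finrank ℝ V + 7 : ℕ) : ℝ≥0∞) ^ 2 =
        ENNReal.ofReal (4 * ((Module.finrank ℝ V : ℝ) + 7) ^ 2) := by
      rw [ENNReal.ofReal_mul (by norm_num), ENNReal.ofReal_pow (by positivity),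
        ENNReal.ofReal_add (by positivity) (by norm_num), ENNReal.ofReal_natCast]
      norm_num
    rw [h3]
    refine ENNReal.ofReal_le_ofReal ?_
    rw [← Finset.mul_sum]
    have h4 := qq_sum (norm_nonneg ξ) n
    have h5 : c ≤ ((Module.finrank ℝ V : ℝ) + 7) ^ 2 := by
      rw [hc]
      refine pow_le_pow_left₀ (by positivity) ?_ 2
      have := Real.pi_lt_d2
      linarith
    calc c * ∑ k ∈ Finset.range n, qq ‖ξ‖ k ≤ c * 4 := mul_le_mul_of_nonneg_left h4 hc0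
      _ ≤ ((Module.finrank ℝ V : ℝ) + 7) ^ 2 * 4 := by linarith
      _ = _ := by ring
  rw [lintegral_tsum fun k => ((QQ_meas hGm hG f hf k).enorm.pow_const 2).aemeasurable]
  refine (ENNReal.tsum_le_tsum fun k => QQ_le hGm hG f hf k).trans ?_
  rw [← lintegral_tsum fun k => ((HH_meas hGm k).enorm.pow_const 2).aemeasurable]
  refine (lintegral_mono h1).trans ?_
  rw [lintegral_const_mul _ (hGm.enorm.pow_const 2)]

theorem sq_add_le (a b : ℝ≥0∞) : (a + b) ^ 2 ≤ 2 * a ^ 2 + 2 * b ^ 2 := by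
  rcases eq_or_ne a ⊤ with h | h
  · simp [h]
  rcases eq_or_ne b ⊤ with h' | h'
  · simp [h']
  lift a to NNReal using h
  lift b to NNReal using h'
  norm_cast
  have : ((a : ℝ) + b) ^ 2 ≤ 2 * (a : ℝ) ^ 2 + 2 * (b : ℝ) ^ 2 := by nlinarith [sq_nonneg ((a : ℝ) - b)]
  exact_mod_cast this

/-- the lacunary maximal theorem -/
theorem lac_max [Nontrivial V] {G : V → ℂ} (hGm : Measurable G) (hG : MemLp G 2)
    (f : Lp ℂ 2 (volume : Measure V)) (hf : ((𝓕 f : Lp ℂ 2 (volume : Measure V)) : V → ℂ) =ᵐ[volume] G) :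
    ∫⁻ x, LM G x ^ 2 ≤ ((16 * 5 ^ Module.finrank ℝ V + 8 * (Module.finrank ℝ V + 7) ^ 2 : ℕ) : ℝ≥0∞) *
      ∫⁻ ξ, ‖G ξ‖ₑ ^ 2 := by
  have hfm : Measurable fun x => ‖f x‖ₑ := (Lp.stronglyMeasurable f).measurable.enorm
  have h1 : ∀ x, LM G x ^ 2 ≤ 2 * HL (fun y => ‖f y‖ₑ) x ^ 2 + 2 * ∑' k, ‖QQ G f k x‖ₑ ^ 2 := by
    intro x
    unfold LM
    rw [ENNReal.iSup_pow_of_ne_zero two_ne_zero]
    refine iSup_le fun k => ?_
    have h2 : ‖T G (ba V (2 ^ k)) x‖ₑ ≤ HL (fun y => ‖f y‖ₑ) x + ‖QQ G f k x‖ₑ := by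
      have h3 : T G (ba V (2 ^ k)) x =
          (⨍ y in Metric.closedBall x (((2 : ℝ) ^ k)⁻¹), f y) + QQ G f k x := by
        unfold QQ; ring
      rw [h3]
      refine (enorm_add_le _ _).trans (add_le_add ?_ le_rfl)
      exact (avg_le f k x).trans (le_iSup (fun k => av (fun y => ‖f y‖ₑ) k x) k)
    refine (pow_le_pow_left' h2 2).trans ((sq_add_le _ _).trans (add_le_add le_rfl ?_))
    exact mul_le_mul_right (ENNReal.le_tsum (f := fun k => ‖QQ G f k x‖ₑ ^ 2) k) _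
  refine (lintegral_mono h1).trans ?_
  rw [lintegral_add_left (((HL_meas hfm).pow_const 2).const_mul 2),
    lintegral_const_mul _ ((HL_meas hfm).pow_const 2),
    lintegral_const_mul _ (Measurable.tsum fun k => (QQ_meas hGm hG f hf k).enorm.pow_const 2)]
  have h2 := HL_strong hfm
  rw [plan_f f hf] at h2
  have h3 := QQ_sum hGm hG f hf
  refine (add_le_add (mul_le_mul_right h2 _) (mul_le_mul_right h3 _)).trans (le_of_eq ?_)
  push_cast
  ring

/-- the low frequencies -/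
noncomputable def lo (G : V → ℂ) : V → ℂ := (ba V 1).indicator G

/-- the pointwise bound of the maximal function -/
theorem MS_split {G : V → ℂ} (hG : MemLp G 2) (x : V) :
    MS G x ≤ MS (lo G) x + (LM G x + (∑' k, MS (gs G k) x ^ 2) ^ (1 / (2 : ℝ))) := by
  refine iSup_le fun R => ?_
  rcases le_total R 1 with h | h
  · refine le_trans ?_ le_self_add
    refine le_trans (le_of_eq ?_) (le_iSup (fun R => ‖T (lo G) (ba V R) x‖ₑ) R)
    unfold T lo
    rw [Set.indicator_indicator, Set.inter_eq_self_of_subset_left (ba_mono h)]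
  · refine le_trans ?_ le_add_self
    obtain ⟨k, hk1, hk2⟩ := exists_nat_pow_near h (y := (2 : ℝ)) (by norm_num)
    have e : T G (ba V R) x = T G (ba V (2 ^ k)) x + T (gs G k) (ba V R) x := by
      rw [← T_shell hG hk1 hk2.le x]; ring
    rw [e]
    refine (enorm_add_le _ _).trans (add_le_add (le_iSup (fun k : ℕ => ‖T G (ba V (2 ^ k)) x‖ₑ) k) ?_)
    refine (le_iSup (fun R => ‖T (gs G k) (ba V R) x‖ₑ) R).trans ?_
    change MS (gs G k) x ≤ _
    have h1 : MS (gs G k) x = (MS (gs G k) x ^ 2) ^ (1 / (2 : ℝ)) := by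
      rw [← ENNReal.rpow_natCast, ← ENNReal.rpow_mul]
      norm_num
    rw [h1]
    exact ENNReal.rpow_le_rpow (ENNReal.le_tsum (f := fun k => MS (gs G k) x ^ 2) k) (by norm_num)

omit [NormedAddCommGroup V] [InnerProductSpace ℝ V] [FiniteDimensional ℝ V] [BorelSpace V] in
theorem nr_add (μ : Measure V) {F H : V → ℝ≥0∞} (hF : Measurable F) (hH : Measurable H) :
    nr μ (fun x => F x + H x) ≤ nr μ F + nr μ H := by
  have h1 := ENNReal.lintegral_Lp_add_le (μ := μ) (f := F) (g := H) hF.aemeasurable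
    hH.aemeasurable (p := 2) (by norm_num)
  simp only [Pi.add_apply, ENNReal.rpow_ofNat] at h1
  exact h1

omit [NormedAddCommGroup V] [InnerProductSpace ℝ V] [FiniteDimensional ℝ V] [BorelSpace V] in
theorem nr_mono {μ : Measure V} {F H : V → ℝ≥0∞} (h : ∀ x, F x ≤ H x) : nr μ F ≤ nr μ H :=
  ENNReal.rpow_le_rpow (lintegral_mono fun x => pow_le_pow_left' (h x) 2) (by norm_num)

/-- the maximal function in the mean over a set of finite measure -/
theorem full_max [Nontrivial V] {G : V → ℂ} (hGm : Measurable G) (hG : MemLp G 2)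
    (f : Lp ℂ 2 (volume : Measure V)) (hf : ((𝓕 f : Lp ℂ 2 (volume : Measure V)) : V → ℂ) =ᵐ[volume] G)
    (N : ℕ → ℝ≥0∞) {B : Set V} {b v : ℕ} (hB : volume B ≤ 16 ^ b)
    (hv : volume (ba V 1) ≤ 16 ^ v)
    (hN : ∀ k, nr (volume.restrict B) (MS (gs G k)) ≤ ((4 * b + 5 : ℕ) : ℝ≥0∞) * N k) :
    nr (volume.restrict B) (MS G) ≤
      ((4 * (v + b) + 10 + 4 ^ (Module.finrank ℝ V + 3) : ℕ) : ℝ≥0∞) *
        (fn G + (∑' k, N k ^ 2) ^ (1 / (2 : ℝ))) := by
  have hgs : ∀ k, MemLp (gs G k) 2 := fun k => hG.indicator (sh_meas k)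
  have hsm : Measurable fun x => (∑' k, MS (gs G k) x ^ 2) ^ (1 / (2 : ℝ)) :=
    (Measurable.tsum fun k => (MS_meas (hgs k)).pow_const 2).pow_const _
  have hlo : MemLp (lo G) 2 := ind_mem hG (ba_meas 1)
  have hBt : volume B ≠ ⊤ := ne_top_of_le_ne_top (ENNReal.pow_ne_top (by norm_num)) hB
  have h1 : nr (volume.restrict B) (MS (lo G)) ≤ ((4 * (v + b) + 5 : ℕ) : ℝ≥0∞) * fn G := by
    refine nr_le ?_
    have h2 := MS_two (hGm.indicator (ba_meas (V := V) 1)) hlo (ba_meas 1) (g := 16 ^ v)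
      (ENNReal.pow_ne_top (by norm_num)) (fun z => (measure_mono Set.inter_subset_left).trans hv)
      (fun ξ hξ => Set.indicator_of_notMem hξ G) hBt (J := v + b)
      (by rw [pow_add]; exact mul_le_mul_right hB _)
    refine h2.trans ?_
    rw [mul_pow, fn, nr_sq, ind_lint G (ba_meas 1)]
    refine mul_le_mul' (by push_cast; exact le_rfl) ?_
    exact lintegral_mono' Measure.restrict_le_self le_rfl
  have h2 : nr (volume.restrict B) (LM G) ≤ ((4 ^ (Module.finrank ℝ V + 3) : ℕ) : ℝ≥0∞) * fn G := by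
    refine nr_le ?_
    refine (lintegral_mono' Measure.restrict_le_self le_rfl).trans ((lac_max hGm hG f hf).trans ?_)
    rw [mul_pow, fn, nr_sq]
    refine mul_le_mul_left ?_ _
    have h3 : 16 * 5 ^ Module.finrank ℝ V + 8 * (Module.finrank ℝ V + 7) ^ 2 ≤
        (4 ^ (Module.finrank ℝ V + 3)) ^ 2 := by
      generalize Module.finrank ℝ V = n
      induction n with
      | zero => norm_num
      | succ n ih =>
        have e1 : (4 ^ (n + 1 + 3)) ^ 2 = 16 * (4 ^ (n + 3)) ^ 2 := by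
          rw [← pow_mul, ← pow_mul, show (n + 1 + 3) * 2 = (n + 3) * 2 + 2 by ring, pow_add]
          norm_num
          ring
        rw [e1]
        have e2 : 5 ^ (n + 1) = 5 * 5 ^ n := by rw [pow_succ]; ring
        rw [e2]
        have e3 : (n + 1 + 7) ^ 2 ≤ 16 * (n + 7) ^ 2 := by
          calc (n + 1 + 7) ^ 2 ≤ (4 * (n + 7)) ^ 2 := Nat.pow_le_pow_left (by omega) 2
            _ = 16 * (n + 7) ^ 2 := by ring
        have e4 : 0 ≤ 5 ^ n := by positivity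
        linarith
    exact_mod_cast h3
  have h3 : nr (volume.restrict B) (fun x => (∑' k, MS (gs G k) x ^ 2) ^ (1 / (2 : ℝ))) ≤
      ((4 * b + 5 : ℕ) : ℝ≥0∞) * (∑' k, N k ^ 2) ^ (1 / (2 : ℝ)) := by
    refine nr_le ?_
    have e : ∀ a : ℝ≥0∞, (a ^ (1 / (2 : ℝ))) ^ 2 = a := fun a => by
      rw [← ENNReal.rpow_natCast, ← ENNReal.rpow_mul]
      norm_num
    simp_rw [mul_pow, e]
    rw [lintegral_tsum fun k => ((MS_meas (hgs k)).pow_const 2).aemeasurable,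
      ← ENNReal.tsum_mul_left]
    refine ENNReal.tsum_le_tsum fun k => ?_
    rw [← nr_sq, ← mul_pow]
    exact pow_le_pow_left' (hN k) 2
  calc nr (volume.restrict B) (MS G)
      ≤ nr (volume.restrict B) (fun x => MS (lo G) x +
        (LM G x + (∑' k, MS (gs G k) x ^ 2) ^ (1 / (2 : ℝ)))) := nr_mono fun x => MS_split hG x
    _ ≤ nr (volume.restrict B) (MS (lo G)) + (nr (volume.restrict B) (LM G) +
        nr (volume.restrict B) (fun x => (∑' k, MS (gs G k) x ^ 2) ^ (1 / (2 : ℝ)))) :=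
        (nr_add _ (MS_meas hlo) ((LM_meas hG).add hsm)).trans
          (add_le_add le_rfl (nr_add _ (LM_meas hG) hsm))
    _ ≤ ((4 * (v + b) + 5 : ℕ) : ℝ≥0∞) * fn G + (((4 ^ (Module.finrank ℝ V + 3) : ℕ) : ℝ≥0∞) * fn G +
        ((4 * b + 5 : ℕ) : ℝ≥0∞) * (∑' k, N k ^ 2) ^ (1 / (2 : ℝ))) := by gcongr
    _ = ((4 * (v + b) + 5 + 4 ^ (Module.finrank ℝ V + 3) : ℕ) : ℝ≥0∞) * fn G +
        ((4 * b + 5 : ℕ) : ℝ≥0∞) * (∑' k, N k ^ 2) ^ (1 / (2 : ℝ)) := by push_cast; ring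
    _ ≤ ((4 * (v + b) + 10 + 4 ^ (Module.finrank ℝ V + 3) : ℕ) : ℝ≥0∞) * fn G +
        ((4 * (v + b) + 10 + 4 ^ (Module.finrank ℝ V + 3) : ℕ) : ℝ≥0∞) *
          (∑' k, N k ^ 2) ^ (1 / (2 : ℝ)) := by
        refine add_le_add (mul_le_mul_left ?_ _) (mul_le_mul_left ?_ _)
        · exact_mod_cast (by omega)
        · exact_mod_cast (by
            have : 0 < 4 ^ (Module.finrank ℝ V + 3) := by positivity
            omega)
    _ = _ := (mul_add _ _ _).symm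

end Run7.h976.SP
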