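import Pool.Agent.Run7.h976.SP.Fn

/-!
The general theorem: every dyadic shell of the spectrum is covered by finitely many sets.
-/

set_option autoImplicit false

namespace Run7.h976.SP

open MeasureTheory Filter Topology
open scoped FourierTransform ENNReal

variable {V : Type*} [NormedAddCommGroup V] [InnerProductSpace ℝ V] [FiniteDimensional ℝ V]
  [MeasurableSpace V] [BorelSpace V]

/-- the disjoint pieces of a sequence of sets -/
def dj (E : ℕ → Set V) (i : ℕ) : Set V := {ξ | ξ ∈ E i ∧ ∀ i' < i, ξ ∉ E i'}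

omit [NormedAddCommGroup V] [InnerProductSpace ℝ V] [FiniteDimensional ℝ V] [BorelSpace V] in
theorem dj_meas {E : ℕ → Set V} (hE : ∀ i, MeasurableSet (E i)) (i : ℕ) :
    MeasurableSet (dj E i) := by
  have e : dj E i = E i ∩ ⋂ i' : ℕ, ⋂ _ : i' < i, (E i')ᶜ := by
    ext ξ
    simp [dj]
  rw [e]
  exact (hE i).inter (MeasurableSet.iInter fun i' => MeasurableSet.iInter fun _ => (hE i').compl)

/-- the pieces of `G` -/
noncomputable def pc (G : V → ℂ) (k : ℕ) (E : ℕ → Set V) (i : ℕ) : V → ℂ :=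
  (sh V k ∩ dj E i).indicator G

omit [InnerProductSpace ℝ V] [FiniteDimensional ℝ V] [MeasurableSpace V] [BorelSpace V] in
theorem pc_sum {G : V → ℂ} {k I : ℕ} {E : ℕ → Set V}
    (hcov : ∀ ξ ∈ sh V k, G ξ ≠ 0 → ∃ i < I, ξ ∈ E i) :
    gs G k = fun ξ => ∑ i ∈ Finset.range I, pc G k E i ξ := by
  classical
  funext ξ
  unfold gs pc
  by_cases h : ξ ∈ sh V k
  · rw [Set.indicator_of_mem h]
    by_cases h0 : G ξ = 0
    · rw [h0]
      symm
      refine Finset.sum_eq_zero fun i _ => ?_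
      by_cases h1 : ξ ∈ sh V k ∩ dj E i
      · rw [Set.indicator_of_mem h1, h0]
      · rw [Set.indicator_of_notMem h1]
    · obtain ⟨i, hi, hi2⟩ := hcov ξ h h0
      have hex : ∃ i, ξ ∈ E i := ⟨i, hi2⟩
      set i0 := Nat.find hex with hi0
      have h1 : ξ ∈ E i0 := Nat.find_spec hex
      have h2 : ∀ i' < i0, ξ ∉ E i' := fun i' hi' => Nat.find_min hex hi'
      have h3 : i0 ≤ i := Nat.find_min' hex hi2
      rw [Finset.sum_eq_single i0]
      · rw [Set.indicator_of_mem (show ξ ∈ sh V k ∩ dj E i0 from ⟨h, h1, h2⟩)]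
      · intro i' _ hne
        rw [Set.indicator_of_notMem]
        rintro ⟨_, h4, h5⟩
        rcases lt_or_gt_of_ne hne with h6 | h6
        · exact h2 i' h6 h4
        · exact h5 i0 h6 h1
      · intro h4
        exact absurd (Finset.mem_range.2 (by omega)) h4
  · rw [Set.indicator_of_notMem h]
    symm
    exact Finset.sum_eq_zero fun i _ => Set.indicator_of_notMem (fun h1 => h h1.1) G

/-- the cost of the shell -/
noncomputable def cost (G : V → ℂ) (k I : ℕ) (E : ℕ → Set V) (j : ℕ → ℕ) : ℝ≥0∞ :=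
  ∑ i ∈ Finset.range I, ((1 + j i : ℕ) : ℝ≥0∞) * (mass G (sh V k ∩ E i)) ^ (1 / (2 : ℝ))

theorem shell_cost [Nontrivial V] {G : V → ℂ} (hGm : Measurable G) (hG : MemLp G 2) {k I : ℕ}
    {E : ℕ → Set V} (hE : ∀ i, MeasurableSet (E i))
    (hcov : ∀ ξ ∈ sh V k, G ξ ≠ 0 → ∃ i < I, ξ ∈ E i) (j : ℕ → ℕ)
    (hg : ∀ i, i < I → ∀ z : V, volume (E i ∩ {ξ | z - ξ ∈ E i}) ≤ 16 ^ (j i))
    {B : Set V} {b : ℕ} (hB : volume B ≤ 16 ^ b) :
    nr (volume.restrict B) (MS (gs G k)) ≤ ((4 * b + 5 : ℕ) : ℝ≥0∞) * cost G k I E j := by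
  have hm : ∀ i, MeasurableSet (sh V k ∩ dj E i) := fun i => (sh_meas k).inter (dj_meas hE i)
  rw [pc_sum hcov]
  refine (pieces (fun i => pc G k E i) (fun i => hGm.indicator (hm i))
    (fun i => hG.indicator (hm i)) E hE (fun i ξ hξ => Set.indicator_of_notMem
      (fun h => hξ h.2.1) G) j hg hB).trans ?_
  refine mul_le_mul_right (Finset.sum_le_sum fun i _ => mul_le_mul_right ?_ _) _
  unfold fn nr
  refine ENNReal.rpow_le_rpow ?_ (by norm_num)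
  rw [pc, ind_lint G (hm i)]
  exact mass_mono G fun ξ h => ⟨h.1, h.2.1⟩

/-- the general theorem: the maximal inequality -/
theorem gen_max [Nontrivial V] {G : V → ℂ} (hGm : Measurable G) (hG : MemLp G 2)
    (f : Lp ℂ 2 (volume : Measure V)) (hf : ((𝓕 f : Lp ℂ 2 (volume : Measure V)) : V → ℂ) =ᵐ[volume] G)
    (I : ℕ → ℕ) (E : ℕ → ℕ → Set V) (hE : ∀ k i, MeasurableSet (E k i))
    (hcov : ∀ k, ∀ ξ ∈ sh V k, G ξ ≠ 0 → ∃ i < I k, ξ ∈ E k i) (j : ℕ → ℕ → ℕ)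
    (hg : ∀ k i, i < I k → ∀ z : V, volume (E k i ∩ {ξ | z - ξ ∈ E k i}) ≤ 16 ^ (j k i))
    {B : Set V} {b v : ℕ} (hB : volume B ≤ 16 ^ b) (hv : volume (ba V 1) ≤ 16 ^ v) :
    nr (volume.restrict B) (MS G) ≤
      ((4 * (v + b) + 10 + 4 ^ (Module.finrank ℝ V + 3) : ℕ) : ℝ≥0∞) *
        (fn G + (∑' k, cost G k (I k) (E k) (j k) ^ 2) ^ (1 / (2 : ℝ))) :=
  full_max hGm hG f hf _ hB hv fun k => shell_cost hGm hG (hE k) (hcov k) (j k) (hg k) hB

/-- the general theorem: almost everywhere convergence -/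
theorem gen_conv [Nontrivial V] {G : V → ℂ} (hGm : Measurable G) (hG : MemLp G 2)
    (f : Lp ℂ 2 (volume : Measure V)) (hf : ((𝓕 f : Lp ℂ 2 (volume : Measure V)) : V → ℂ) =ᵐ[volume] G)
    (I : ℕ → ℕ) (E : ℕ → ℕ → Set V) (hE : ∀ k i, MeasurableSet (E k i))
    (hcov : ∀ k, ∀ ξ ∈ sh V k, G ξ ≠ 0 → ∃ i < I k, ξ ∈ E k i) (j : ℕ → ℕ → ℕ)
    (hg : ∀ k i, i < I k → ∀ z : V, volume (E k i ∩ {ξ | z - ξ ∈ E k i}) ≤ 16 ^ (j k i))
    (hs : ∑' k, cost G k (I k) (E k) (j k) ^ 2 ≠ ⊤) :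
    ∀ᵐ x, Tendsto (fun R : ℝ => T G (ba V R) x) atTop (𝓝 (f x)) := by
  refine shell_conv hGm hG (fun L => ?_) f hf
  obtain ⟨b, hb⟩ : ∃ b : ℕ, volume (ba V (L : ℝ)) ≤ 16 ^ b := by
    obtain ⟨b, hb⟩ := ENNReal.exists_nat_gt (ba_fin (V := V) (L : ℝ)).ne
    refine ⟨b, hb.le.trans ?_⟩
    exact_mod_cast (Nat.lt_pow_self (by norm_num)).le
  refine ne_top_of_le_ne_top (ENNReal.mul_ne_top (a := ((4 * b + 5 : ℕ) : ℝ≥0∞) ^ 2)
    (ENNReal.pow_ne_top (ENNReal.natCast_ne_top _)) hs) ?_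
  rw [← ENNReal.tsum_mul_left]
  refine ENNReal.tsum_le_tsum fun k => ?_
  rw [← nr_sq, ← mul_pow]
  exact pow_le_pow_left' (shell_cost hGm hG (hE k) (hcov k) (j k) (hg k) hb) 2

end Run7.h976.SP
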