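import Pool.Agent.Run7.h976.SP.Lw

/-!
The global maximal inequality in `L² + L⁴`.
-/

set_option autoImplicit false

namespace Run7.h976.SP

open MeasureTheory Filter Topology
open scoped FourierTransform ENNReal

variable {V : Type*} [NormedAddCommGroup V] [InnerProductSpace ℝ V] [FiniteDimensional ℝ V]
  [MeasurableSpace V] [BorelSpace V]

/-- the `L⁴` norm of a nonnegative function -/
noncomputable def n4 (F : V → ℝ≥0∞) : ℝ≥0∞ := (∫⁻ x, F x ^ 4) ^ (1 / (4 : ℝ))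

theorem n4_pow (F : V → ℝ≥0∞) : n4 F ^ 4 = ∫⁻ x, F x ^ 4 := by
  rw [n4, ← ENNReal.rpow_natCast, ← ENNReal.rpow_mul]
  norm_num

theorem n4_le {F : V → ℝ≥0∞} {c : ℝ≥0∞} (h : ∫⁻ x, F x ^ 4 ≤ c ^ 4) : n4 F ≤ c := by
  rw [← n4_pow] at h
  exact (ENNReal.pow_le_pow_left_iff four_ne_zero).1 h

theorem n4_mono {F H : V → ℝ≥0∞} (h : ∀ x, F x ≤ H x) : n4 F ≤ n4 H :=
  ENNReal.rpow_le_rpow (lintegral_mono fun x => pow_le_pow_left' (h x) 4) (by norm_num)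

theorem n4_add {F H : V → ℝ≥0∞} (hF : Measurable F) (hH : Measurable H) :
    n4 (fun x => F x + H x) ≤ n4 F + n4 H := by
  have h1 := ENNReal.lintegral_Lp_add_le (μ := (volume : Measure V)) (f := F) (g := H)
    hF.aemeasurable hH.aemeasurable (p := 4) (by norm_num)
  simp only [Pi.add_apply, ENNReal.rpow_ofNat] at h1
  exact h1

theorem n4_sum {ι : Type*} (s : Finset ι) (F : ι → V → ℝ≥0∞)
    (hF : ∀ i, Measurable (F i)) : n4 (fun x => ∑ i ∈ s, F i x) ≤ ∑ i ∈ s, n4 (F i) := by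
  classical
  induction s using Finset.induction_on with
  | empty => simp [n4]
  | insert a s ha ih =>
    simp only [Finset.sum_insert ha]
    exact (n4_add (hF a) (Finset.measurable_sum s fun i _ => hF i)).trans (add_le_add le_rfl ih)

/-- the square function in `L⁴` -/
theorem n4_square (W : ℕ → V → ℝ≥0∞) (hW : ∀ k, Measurable (W k)) :
    n4 (fun x => (∑' k, W k x ^ 2) ^ (1 / (2 : ℝ))) ≤ (∑' k, n4 (W k) ^ 2) ^ (1 / (2 : ℝ)) := by
  have e : ∀ a : ℝ≥0∞, (a ^ (1 / (2 : ℝ))) ^ 4 = a ^ 2 := fun a => by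
    rw [← ENNReal.rpow_natCast, ← ENNReal.rpow_mul, ← ENNReal.rpow_natCast]
    norm_num
  refine n4_le ?_
  simp_rw [e]
  -- the `L²` norm of the sum of the squares
  have h1 : nr volume (fun x => ∑' k, W k x ^ 2) ≤ ∑' k, n4 (W k) ^ 2 := by
    refine nr_le ?_
    have h2 : ∀ x, (∑' k, W k x ^ 2) = ⨆ n : ℕ, ∑ k ∈ Finset.range n, W k x ^ 2 := fun x =>
      ENNReal.tsum_eq_iSup_nat
    simp_rw [h2]
    refine sup_conv volume 2 two_ne_zero (fun n x => ∑ k ∈ Finset.range n, W k x ^ 2)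
      (fun n => Finset.measurable_sum _ fun k _ => (hW k).pow_const 2)
      (fun m n hmn x => Finset.sum_le_sum_of_subset (Finset.range_subset_range.2 hmn)) _
      fun n => ?_
    rw [← nr_sq]
    refine pow_le_pow_left' ?_ 2
    refine (nr_sum volume _ (fun k x => W k x ^ 2) fun k => (hW k).pow_const 2).trans ?_
    refine le_trans (Finset.sum_le_sum fun k _ => ?_) (ENNReal.sum_le_tsum _)
    refine nr_le ?_
    simp_rw [← pow_mul]
    exact (n4_pow (W k)).symm.le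
  have h3 := pow_le_pow_left' h1 2
  rw [nr_sq] at h3
  exact h3

/-- the square function in `L²` -/
theorem nr_square (W : ℕ → V → ℝ≥0∞) (hW : ∀ k, Measurable (W k)) :
    nr volume (fun x => (∑' k, W k x ^ 2) ^ (1 / (2 : ℝ))) ≤
      (∑' k, nr volume (W k) ^ 2) ^ (1 / (2 : ℝ)) := by
  have e : ∀ a : ℝ≥0∞, (a ^ (1 / (2 : ℝ))) ^ 2 = a := fun a => by
    rw [← ENNReal.rpow_natCast, ← ENNReal.rpow_mul]
    norm_num
  refine nr_le ?_
  simp_rw [e]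
  rw [lintegral_tsum fun k => ((hW k).pow_const 2).aemeasurable]
  exact (ENNReal.tsum_le_tsum fun k => (nr_sq volume (W k)).symm.le)

/-- the part of the majorant in `L²` -/
noncomputable def UU (G : V → ℂ) (M : ℝ) (J : ℕ) (x : V) : ℝ≥0∞ := ENNReal.ofReal (WW G M J x)

/-- the part of the majorant in `L⁴` -/
noncomputable def VV (G : V → ℂ) (M : ℝ) (J : ℕ) (x : V) : ℝ≥0∞ :=
  ⨆ L : ℕ, ENNReal.ofReal (∑ l ∈ Finset.range L, DM G M (J + l) x)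

theorem UU_meas {G : V → ℂ} (hG : MemLp G 2) (M : ℝ) (J : ℕ) : Measurable (UU G M J) :=
  (WW_cont hG M J).measurable.ennreal_ofReal

theorem VV_meas {G : V → ℂ} (hG : MemLp G 2) (M : ℝ) (J : ℕ) : Measurable (VV G M J) :=
  Measurable.iSup fun _ => (continuous_finsetSum _ fun l _ =>
    DM_cont hG M (J + l)).measurable.ennreal_ofReal

theorem MS_UV [Nontrivial V] {G : V → ℂ} (hGm : Measurable G) (hG : MemLp G 2) {N : ℝ}
    (hN : 0 ≤ N) (h0 : ∀ ξ, ξ ∉ ba V N → G ξ = 0) (J : ℕ) (x : V) :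
    MS G x ≤ UU G (mr G N) J x + VV G (mr G N) J x := by
  have h1 : ⨆ J' : ℕ, ENNReal.ofReal (WW G (mr G N) J' x) ≤
      UU G (mr G N) J x + VV G (mr G N) J x := by
    refine iSup_le fun J' => ?_
    have h2 : WW G (mr G N) J' x ≤ WW G (mr G N) (J + J') x := WW_mono G _ x (by omega)
    have h3 : WW G (mr G N) (J + J') x =
        WW G (mr G N) J x + ∑ l ∈ Finset.range J', DM G (mr G N) (J + l) x := by
      unfold WW
      rw [Finset.sum_range_add, add_assoc]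
    refine (ENNReal.ofReal_le_ofReal h2).trans ?_
    rw [h3, ENNReal.ofReal_add (WW_nonneg G _ J x)
      (Finset.sum_nonneg fun l _ => DM_nonneg G _ _ x)]
    exact add_le_add le_rfl (le_iSup (fun L : ℕ =>
      ENNReal.ofReal (∑ l ∈ Finset.range L, DM G (mr G N) (J + l) x)) J')
  refine iSup_le fun R => ?_
  rcases le_total R N with h | h
  · exact (sup_le_WW hGm hG hN h x).trans h1
  · have e : T G (ba V R) = T G (ba V N) := by
      unfold T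
      congr 1
      funext ξ
      by_cases hξ : ξ ∈ ba V N
      · rw [Set.indicator_of_mem hξ, Set.indicator_of_mem (ba_mono h hξ)]
      · rw [Set.indicator_of_notMem hξ]
        by_cases h2 : ξ ∈ ba V R
        · rw [Set.indicator_of_mem h2, h0 ξ hξ]
        · rw [Set.indicator_of_notMem h2]
    rw [e]
    exact (sup_le_WW hGm hG hN le_rfl x).trans h1

theorem kap {G : V → ℂ} (hG : MemLp G 2) {N : ℝ} (h0 : ∀ ξ, ξ ∉ ba V N → G ξ = 0) :
    ∃ κ : ℝ, 0 ≤ κ ∧ mr G N = κ ^ 2 ∧ fn G = ENNReal.ofReal κ := by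
  refine ⟨Real.sqrt (mr G N), Real.sqrt_nonneg _, (Real.sq_sqrt (mr_nonneg G N)).symm, ?_⟩
  have h1 : ∫⁻ ξ, ‖G ξ‖ₑ ^ 2 = mass G (ba V N) := by
    rw [← ind_lint G (ba_meas N)]
    refine lintegral_congr fun ξ => ?_
    by_cases hξ : ξ ∈ ba V N
    · rw [Set.indicator_of_mem hξ]
    · rw [Set.indicator_of_notMem hξ, h0 ξ hξ]
  unfold fn nr
  rw [h1, mass_ofReal hG, Real.sqrt_eq_rpow, ENNReal.ofReal_rpow_of_nonneg (mr_nonneg G N)
    (by norm_num)]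

theorem nr_UU [Nontrivial V] {G : V → ℂ} (hGm : Measurable G) (hG : MemLp G 2) {N : ℝ}
    (hN : 0 ≤ N) (h0 : ∀ ξ, ξ ∉ ba V N → G ξ = 0) (J : ℕ) :
    nr volume (UU G (mr G N) J) ≤ ((4 * J + 1 : ℕ) : ℝ≥0∞) * fn G := by
  obtain ⟨κ, hκ, hM, hfn⟩ := kap hG h0
  have h := WW_le hG (mr G N) volume 2 (by norm_num) κ (4 * J * κ) hκ
    (fun _ => 4 * κ) (fun _ => by positivity) J (by simp; linarith) (aa_two hGm hG hN hκ hM)
    (fun j => DM_two hGm hG hN hκ hM j)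
  refine nr_le ?_
  have h1 := eLp_pow (WW G (mr G N) J) volume 2 two_ne_zero
  norm_cast at h1
  have h2 : ∫⁻ x, UU G (mr G N) J x ^ 2 = eLpNorm (WW G (mr G N) J) 2 volume ^ 2 := by
    norm_cast
    rw [h1]
    refine lintegral_congr fun x => ?_
    rw [UU, Real.enorm_of_nonneg (WW_nonneg G _ J x)]
  rw [h2, hfn, ← ENNReal.ofReal_natCast, ← ENNReal.ofReal_mul (by positivity)]
  refine pow_le_pow_left' (h.trans (ENNReal.ofReal_le_ofReal (le_of_eq ?_))) 2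
  push_cast
  ring

theorem n4_VV [Nontrivial V] {G : V → ℂ} (hGm : Measurable G) (hG : MemLp G 2) {N : ℝ}
    (hN : 0 ≤ N) (h0 : ∀ ξ, ξ ∉ ba V N → G ξ = 0) {E : Set V} (hEm : MeasurableSet E) {w : ℕ}
    (hg : ∀ z : V, volume (E ∩ {ξ | z - ξ ∈ E}) ≤ 16 ^ w) (hE : ∀ ξ, ξ ∉ E → G ξ = 0) (j : ℕ) :
    n4 (VV G (mr G N) (w + j)) ≤ 4 * ((2 : ℝ≥0∞)⁻¹) ^ j * fn G := by
  obtain ⟨κ, hκ, hM, hfn⟩ := kap hG h0
  have hg' : ∀ z : V, volume (E ∩ {ξ | z - ξ ∈ E}) ≤ ENNReal.ofReal (((2 : ℝ) ^ w) ^ 4) := by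
    intro z
    refine (hg z).trans (le_of_eq ?_)
    rw [sixteen]
    congr 1
    rw [← pow_mul, mul_comm, pow_mul]
    norm_num
  have hb : 4 * ((2 : ℝ≥0∞)⁻¹) ^ j * fn G = ENNReal.ofReal (4 * (1 / 2) ^ j * κ) := by
    rw [hfn, ENNReal.ofReal_mul (by positivity), ENNReal.ofReal_mul (by norm_num),
      ENNReal.ofReal_pow (by norm_num), one_div, ENNReal.ofReal_inv_of_pos (by norm_num)]
    norm_num
  rw [hb]
  refine n4_le ?_
  unfold VV
  refine sup_conv volume 4 four_ne_zero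
    (fun L x => ENNReal.ofReal (∑ l ∈ Finset.range L, DM G (mr G N) (w + j + l) x))
    (fun L => (continuous_finsetSum _ fun l _ =>
      DM_cont hG _ (w + j + l)).measurable.ennreal_ofReal)
    (fun m n hmn x => ENNReal.ofReal_le_ofReal (Finset.sum_le_sum_of_subset_of_nonneg
      (Finset.range_subset_range.2 hmn) fun l _ _ => DM_nonneg G _ _ x)) _ fun L => ?_
  set H : V → ℝ := ∑ l ∈ Finset.range L, DM G (mr G N) (w + j + l) with hH
  have h1 := eLp_pow H volume 4 four_ne_zero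
  norm_cast at h1
  have h2 : ∫⁻ x, ENNReal.ofReal (∑ l ∈ Finset.range L, DM G (mr G N) (w + j + l) x) ^ 4 =
      eLpNorm H 4 volume ^ 4 := by
    norm_cast
    rw [h1]
    refine lintegral_congr fun x => ?_
    have e : H x = ∑ l ∈ Finset.range L, DM G (mr G N) (w + j + l) x := by
      rw [hH, Finset.sum_apply]
    rw [e, Real.enorm_of_nonneg (Finset.sum_nonneg fun l _ => DM_nonneg G _ _ x)]
  rw [h2]
  refine pow_le_pow_left' ?_ 4
  refine (eLpNorm_sum_le (fun l _ => (DM_cont hG _ (w + j + l)).aestronglyMeasurable)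
    (by norm_num)).trans ?_
  calc ∑ l ∈ Finset.range L, eLpNorm (DM G (mr G N) (w + j + l)) 4 volume
      ≤ ∑ l ∈ Finset.range L, ENNReal.ofReal (2 * 2 ^ w * κ / 2 ^ (w + j + l)) :=
        Finset.sum_le_sum fun l _ => DM_four hGm hG hN hκ hM hEm (by positivity) hg' hE _
    _ = ENNReal.ofReal (∑ l ∈ Finset.range L, 2 * 2 ^ w * κ / 2 ^ (w + j + l)) :=
        (ENNReal.ofReal_sum_of_nonneg fun l _ => by positivity).symm
    _ ≤ ENNReal.ofReal (4 * (1 / 2) ^ j * κ) := by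
        refine ENNReal.ofReal_le_ofReal ?_
        have e : ∀ l : ℕ, 2 * 2 ^ w * κ / 2 ^ (w + j + l) =
            (2 * (1 / 2) ^ j * κ) * (1 / (2 : ℝ)) ^ l := by
          intro l
          rw [pow_add, pow_add, one_div, inv_pow, inv_pow]
          field_simp
        simp_rw [e]
        rw [← Finset.mul_sum]
        have := mul_le_mul_of_nonneg_left (geo L) (show 0 ≤ 2 * (1 / 2) ^ j * κ by positivity)
        linarith

/-- a sum of pieces -/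
theorem pieces_UV [Nontrivial V] {N : ℝ} (hN : 0 ≤ N) {I : ℕ} (F : ℕ → V → ℂ)
    (hFm : ∀ i, Measurable (F i)) (hF : ∀ i, MemLp (F i) 2) (h0 : ∀ i ξ, ξ ∉ ba V N → F i ξ = 0)
    (E : ℕ → Set V) (hEm : ∀ i, MeasurableSet (E i)) (hE : ∀ i ξ, ξ ∉ E i → F i ξ = 0)
    (w : ℕ → ℕ)
    (hg : ∀ i, i < I → ∀ z : V, volume (E i ∩ {ξ | z - ξ ∈ E i}) ≤ 16 ^ (w i)) (j : ℕ) :
    ∃ U W : V → ℝ≥0∞, Measurable U ∧ Measurable W ∧
      (∀ x, MS (fun ξ => ∑ i ∈ Finset.range I, F i ξ) x ≤ U x + W x) ∧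
      nr volume U ≤ ((4 * j + 5 : ℕ) : ℝ≥0∞) *
        ∑ i ∈ Finset.range I, ((1 + w i : ℕ) : ℝ≥0∞) * fn (F i) ∧
      n4 W ≤ 4 * ((2 : ℝ≥0∞)⁻¹) ^ j *
        ∑ i ∈ Finset.range I, ((1 + w i : ℕ) : ℝ≥0∞) * fn (F i) := by
  refine ⟨fun x => ∑ i ∈ Finset.range I, UU (F i) (mr (F i) N) (w i + j) x,
    fun x => ∑ i ∈ Finset.range I, VV (F i) (mr (F i) N) (w i + j) x,
    Finset.measurable_sum _ fun i _ => UU_meas (hF i) _ _,
    Finset.measurable_sum _ fun i _ => VV_meas (hF i) _ _, fun x => ?_, ?_, ?_⟩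
  · refine (MS_sum _ F (fun i _ => hF i) x).trans ?_
    rw [← Finset.sum_add_distrib]
    exact Finset.sum_le_sum fun i _ => MS_UV (hFm i) (hF i) hN (h0 i) _ x
  · refine (nr_sum volume _ (fun i => UU (F i) (mr (F i) N) (w i + j))
      fun i => UU_meas (hF i) _ _).trans ?_
    rw [Finset.mul_sum]
    refine Finset.sum_le_sum fun i _ => (nr_UU (hFm i) (hF i) hN (h0 i) _).trans ?_
    rw [← mul_assoc]
    refine mul_le_mul_left ?_ _
    have h4 : 4 * (w i + j) + 1 ≤ (4 * j + 5) * (1 + w i) := by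
      nlinarith [Nat.zero_le (w i * j)]
    exact_mod_cast h4
  · refine (n4_sum _ (fun i => VV (F i) (mr (F i) N) (w i + j))
      fun i => VV_meas (hF i) _ _).trans ?_
    rw [Finset.mul_sum]
    refine Finset.sum_le_sum fun i hi => (n4_VV (hFm i) (hF i) hN (h0 i) (hEm i)
      (hg i (Finset.mem_range.1 hi)) (hE i) j).trans ?_
    refine mul_le_mul_right ?_ _
    refine le_mul_of_one_le_left zero_le ?_
    exact_mod_cast (show 1 ≤ 1 + w i by omega)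

theorem shell_UV [Nontrivial V] {G : V → ℂ} (hGm : Measurable G) (hG : MemLp G 2) {k I : ℕ}
    {E : ℕ → Set V} (hE : ∀ i, MeasurableSet (E i))
    (hcov : ∀ ξ ∈ sh V k, G ξ ≠ 0 → ∃ i < I, ξ ∈ E i) (w : ℕ → ℕ)
    (hg : ∀ i, i < I → ∀ z : V, volume (E i ∩ {ξ | z - ξ ∈ E i}) ≤ 16 ^ (w i)) (j : ℕ) :
    ∃ U W : V → ℝ≥0∞, Measurable U ∧ Measurable W ∧ (∀ x, MS (gs G k) x ≤ U x + W x) ∧
      nr volume U ≤ ((4 * j + 5 : ℕ) : ℝ≥0∞) * cost G k I E w ∧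
      n4 W ≤ 4 * ((2 : ℝ≥0∞)⁻¹) ^ j * cost G k I E w := by
  have hm : ∀ i, MeasurableSet (sh V k ∩ dj E i) := fun i => (sh_meas k).inter (dj_meas hE i)
  have hfn : ∑ i ∈ Finset.range I, ((1 + w i : ℕ) : ℝ≥0∞) * fn (pc G k E i) ≤ cost G k I E w := by
    refine Finset.sum_le_sum fun i _ => mul_le_mul_right ?_ _
    unfold fn nr
    refine ENNReal.rpow_le_rpow ?_ (by norm_num)
    rw [pc, ind_lint G (hm i)]
    exact mass_mono G fun ξ h => ⟨h.1, h.2.1⟩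
  rw [pc_sum hcov]
  obtain ⟨U, W, h1, h2, h3, h4, h5⟩ := pieces_UV (N := 2 ^ (k + 1)) (by positivity) (I := I)
    (fun i => pc G k E i) (fun i => hGm.indicator (hm i)) (fun i => hG.indicator (hm i))
    (fun i ξ hξ => Set.indicator_of_notMem (fun h => hξ h.1.1) G) E hE
    (fun i ξ hξ => Set.indicator_of_notMem (fun h => hξ h.2.1) G) w hg j
  exact ⟨U, W, h1, h2, h3, h4.trans (mul_le_mul_right hfn _),
    h5.trans (mul_le_mul_right hfn _)⟩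

/-- the pointwise bound of the maximal function -/
theorem MS_split' {G : V → ℂ} (hG : MemLp G 2) (x : V) :
    MS G x ≤ MS (lo G) x + (LM G x + ⨆ k, MS (gs G k) x) := by
  refine iSup_le fun R => ?_
  rcases le_total R 1 with h | h
  · refine le_trans ?_ le_self_add
    refine le_trans (le_of_eq ?_) (le_iSup (fun R => ‖T (lo G) (ba V R) x‖ₑ) R)
    unfold T lo
    rw [Set.indicator_indicator, Set.inter_eq_self_of_subset_left (ba_mono h)]
  · refine le_trans ?_ le_add_self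
    obtain ⟨k, hk1, hk2⟩ := exists_nat_pow_near h (y := (2 : ℝ)) (by norm_num)
    have e : T G (ba V R) x = T G (ba V (2 ^ k)) x + T (gs G k) (ba V R) x := by
      rw [← T_shell hG hk1 hk2.le x]; ring
    rw [e]
    refine (enorm_add_le _ _).trans (add_le_add (le_iSup (fun k : ℕ => ‖T G (ba V (2 ^ k)) x‖ₑ) k) ?_)
    exact (le_iSup (fun R => ‖T (gs G k) (ba V R) x‖ₑ) R).trans
      (le_iSup (fun k => MS (gs G k) x) k)

/-- the lacunary maximal function -/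
theorem nr_LM [Nontrivial V] {G : V → ℂ} (hGm : Measurable G) (hG : MemLp G 2)
    (f : Lp ℂ 2 (volume : Measure V)) (hf : ((𝓕 f : Lp ℂ 2 (volume : Measure V)) : V → ℂ) =ᵐ[volume] G) :
    nr volume (LM G) ≤ ((4 ^ (Module.finrank ℝ V + 3) : ℕ) : ℝ≥0∞) * fn G := by
  refine nr_le ?_
  refine (lac_max hGm hG f hf).trans ?_
  rw [mul_pow, fn, nr_sq]
  refine mul_le_mul_left ?_ _
  have h3 : 16 * 5 ^ Module.finrank ℝ V + 8 * (Module.finrank ℝ V + 7) ^ 2 ≤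
      (4 ^ (Module.finrank ℝ V + 3)) ^ 2 := by
    generalize Module.finrank ℝ V = n
    induction n with
    | zero => norm_num
    | succ n ih =>
      have e1 : (4 ^ (n + 1 + 3)) ^ 2 = 16 * (4 ^ (n + 3)) ^ 2 := by
        rw [← pow_mul, ← pow_mul, show (n + 1 + 3) * 2 = (n + 3) * 2 + 2 by ring, pow_add]
        norm_num
        ring
      rw [e1]
      have e2 : 5 ^ (n + 1) = 5 * 5 ^ n := by rw [pow_succ]; ring
      rw [e2]
      have e3 : (n + 1 + 7) ^ 2 ≤ 16 * (n + 7) ^ 2 := by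
        calc (n + 1 + 7) ^ 2 ≤ (4 * (n + 7)) ^ 2 := Nat.pow_le_pow_left (by omega) 2
          _ = 16 * (n + 7) ^ 2 := by ring
      have e4 : 0 ≤ 5 ^ n := by positivity
      linarith
  exact_mod_cast h3

/-- the square root of a sum of squares -/
theorem le_square (a : ℕ → ℝ≥0∞) (k : ℕ) : a k ≤ (∑' k, a k ^ 2) ^ (1 / (2 : ℝ)) := by
  have h1 : a k = (a k ^ 2) ^ (1 / (2 : ℝ)) := by
    rw [← ENNReal.rpow_natCast, ← ENNReal.rpow_mul]
    norm_num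
  rw [h1]
  exact ENNReal.rpow_le_rpow (ENNReal.le_tsum (f := fun k => a k ^ 2) k) (by norm_num)

theorem fn_lo (G : V → ℂ) : fn (lo G) ≤ fn G :=
  nr_mono fun ξ => by
    unfold lo
    by_cases h : ξ ∈ ba V 1
    · rw [Set.indicator_of_mem h]
    · rw [Set.indicator_of_notMem h]; simp

/-- the square root of a sum of squares -/
theorem square_le (m : ℝ≥0∞) (F N : ℕ → ℝ≥0∞) (h : ∀ k, F k ≤ m * N k) :
    (∑' k, F k ^ 2) ^ (1 / (2 : ℝ)) ≤ m * (∑' k, N k ^ 2) ^ (1 / (2 : ℝ)) := by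
  rw [← sqrt_sq, ← ENNReal.tsum_mul_left]
  refine ENNReal.rpow_le_rpow (ENNReal.tsum_le_tsum fun k => ?_) (by norm_num)
  rw [← mul_pow]
  exact pow_le_pow_left' (h k) 2

/-- the maximal function in `L² + L⁴` -/
theorem glob_max [Nontrivial V] {G : V → ℂ} (hGm : Measurable G) (hG : MemLp G 2)
    (f : Lp ℂ 2 (volume : Measure V)) (hf : ((𝓕 f : Lp ℂ 2 (volume : Measure V)) : V → ℂ) =ᵐ[volume] G)
    (N : ℕ → ℝ≥0∞) {v : ℕ} (hv : volume (ba V 1) ≤ 16 ^ v) (j : ℕ)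
    (hN : ∀ k, ∃ U W : V → ℝ≥0∞, Measurable U ∧ Measurable W ∧
      (∀ x, MS (gs G k) x ≤ U x + W x) ∧ nr volume U ≤ ((4 * j + 5 : ℕ) : ℝ≥0∞) * N k ∧
      n4 W ≤ 4 * ((2 : ℝ≥0∞)⁻¹) ^ j * N k) :
    ∃ U W : V → ℝ≥0∞, Measurable U ∧ Measurable W ∧ (∀ x, MS G x ≤ U x + W x) ∧
      nr volume U ≤ ((4 * (v + j) + 10 + 4 ^ (Module.finrank ℝ V + 3) : ℕ) : ℝ≥0∞) *
        (fn G + (∑' k, N k ^ 2) ^ (1 / (2 : ℝ))) ∧
      n4 W ≤ 4 * ((2 : ℝ≥0∞)⁻¹) ^ j * (fn G + (∑' k, N k ^ 2) ^ (1 / (2 : ℝ))) := by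
  choose U W hU hW hUW hU2 hW4 using hN
  have hlo : MemLp (lo G) 2 := ind_mem hG (ba_meas 1)
  have hlom : Measurable (lo G) := hGm.indicator (ba_meas 1)
  have hlo0 : ∀ ξ, ξ ∉ ba V 1 → lo G ξ = 0 := fun ξ hξ => Set.indicator_of_notMem hξ G
  have hsU : Measurable fun x => (∑' k, U k x ^ 2) ^ (1 / (2 : ℝ)) :=
    (Measurable.tsum fun k => (hU k).pow_const 2).pow_const _
  have hsW : Measurable fun x => (∑' k, W k x ^ 2) ^ (1 / (2 : ℝ)) :=
    (Measurable.tsum fun k => (hW k).pow_const 2).pow_const _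
  have hU0 := UU_meas hlo (mr (lo G) 1) (v + j)
  have hW0 := VV_meas hlo (mr (lo G) 1) (v + j)
  refine ⟨fun x => UU (lo G) (mr (lo G) 1) (v + j) x +
      (LM G x + (∑' k, U k x ^ 2) ^ (1 / (2 : ℝ))),
    fun x => VV (lo G) (mr (lo G) 1) (v + j) x + (∑' k, W k x ^ 2) ^ (1 / (2 : ℝ)),
    hU0.add ((LM_meas hG).add hsU), hW0.add hsW, fun x => ?_, ?_, ?_⟩
  · have h1 := MS_UV hlom hlo zero_le_one hlo0 (v + j) x
    have h2 : ⨆ k, MS (gs G k) x ≤ (∑' k, U k x ^ 2) ^ (1 / (2 : ℝ)) +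
        (∑' k, W k x ^ 2) ^ (1 / (2 : ℝ)) :=
      iSup_le fun k => (hUW k x).trans (add_le_add (le_square (fun k => U k x) k)
        (le_square (fun k => W k x) k))
    refine (MS_split' hG x).trans ((add_le_add h1 (add_le_add le_rfl h2)).trans (le_of_eq ?_))
    ring
  · have h1 : nr volume (UU (lo G) (mr (lo G) 1) (v + j)) ≤
        ((4 * (v + j) + 1 : ℕ) : ℝ≥0∞) * fn G :=
      (nr_UU hlom hlo zero_le_one hlo0 _).trans (mul_le_mul_right (fn_lo G) _)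
    have h2 := nr_LM hGm hG f hf
    have h3 := (nr_square U hU).trans (square_le _ _ N hU2)
    calc nr volume (fun x => UU (lo G) (mr (lo G) 1) (v + j) x +
          (LM G x + (∑' k, U k x ^ 2) ^ (1 / (2 : ℝ))))
        ≤ nr volume (UU (lo G) (mr (lo G) 1) (v + j)) + (nr volume (LM G) +
          nr volume (fun x => (∑' k, U k x ^ 2) ^ (1 / (2 : ℝ)))) :=
          (nr_add _ hU0 ((LM_meas hG).add hsU)).trans
            (add_le_add le_rfl (nr_add _ (LM_meas hG) hsU))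
      _ ≤ ((4 * (v + j) + 1 : ℕ) : ℝ≥0∞) * fn G +
          (((4 ^ (Module.finrank ℝ V + 3) : ℕ) : ℝ≥0∞) * fn G +
          ((4 * j + 5 : ℕ) : ℝ≥0∞) * (∑' k, N k ^ 2) ^ (1 / (2 : ℝ))) :=
          add_le_add h1 (add_le_add h2 h3)
      _ = ((4 * (v + j) + 1 + 4 ^ (Module.finrank ℝ V + 3) : ℕ) : ℝ≥0∞) * fn G +
          ((4 * j + 5 : ℕ) : ℝ≥0∞) * (∑' k, N k ^ 2) ^ (1 / (2 : ℝ)) := by push_cast; ring
      _ ≤ ((4 * (v + j) + 10 + 4 ^ (Module.finrank ℝ V + 3) : ℕ) : ℝ≥0∞) * fn G +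
          ((4 * (v + j) + 10 + 4 ^ (Module.finrank ℝ V + 3) : ℕ) : ℝ≥0∞) *
            (∑' k, N k ^ 2) ^ (1 / (2 : ℝ)) := by
          have n1 : 4 * (v + j) + 1 + 4 ^ (Module.finrank ℝ V + 3) ≤
              4 * (v + j) + 10 + 4 ^ (Module.finrank ℝ V + 3) := by omega
          have n2 : 4 * j + 5 ≤ 4 * (v + j) + 10 + 4 ^ (Module.finrank ℝ V + 3) := by
            have : 0 < 4 ^ (Module.finrank ℝ V + 3) := by positivity
            omega
          exact add_le_add (mul_le_mul_left (Nat.cast_le.2 n1) _)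
            (mul_le_mul_left (Nat.cast_le.2 n2) _)
      _ = _ := (mul_add _ _ _).symm
  · have h1 : n4 (VV (lo G) (mr (lo G) 1) (v + j)) ≤ 4 * ((2 : ℝ≥0∞)⁻¹) ^ j * fn G :=
      (n4_VV hlom hlo zero_le_one hlo0 (ba_meas 1)
        (fun z => (measure_mono Set.inter_subset_left).trans hv) hlo0 j).trans
        (mul_le_mul_right (fn_lo G) _)
    have h3 := (n4_square W hW).trans (square_le _ _ N hW4)
    refine (n4_add hW0 hsW).trans ((add_le_add h1 h3).trans (le_of_eq ?_))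
    rw [mul_add]

/-- the maximal inequality in `L² + L⁴` -/
theorem w_glob [Nontrivial V] {ε : ℝ} (hε : 0 < ε) :
    ∃ C : ℝ≥0∞, C ≠ ⊤ ∧ ∀ (G : V → ℂ) (_ : Measurable G) (_ : MemLp G 2)
      (f : Lp ℂ 2 (volume : Measure V))
      (_ : ((𝓕 f : Lp ℂ 2 (volume : Measure V)) : V → ℂ) =ᵐ[volume] G) (j : ℕ),
      ∃ U W : V → ℝ≥0∞, Measurable U ∧ Measurable W ∧ (∀ x, MS G x ≤ U x + W x) ∧
        ∫⁻ x, U x ^ 2 ≤ C * (1 + j) ^ 2 * ((∫⁻ ξ, ‖G ξ‖ₑ ^ 2) + PT (2 + ε) G) ∧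
        ∫⁻ x, W x ^ 4 ≤ C * ((16 : ℝ≥0∞)⁻¹) ^ j * ((∫⁻ ξ, ‖G ξ‖ₑ ^ 2) + PT (2 + ε) G) ^ 2 := by
  choose I hI using EL_cov (V := V)
  obtain ⟨v, hv⟩ := unit_vol (V := V)
  set n := Module.finrank ℝ V with hn
  set K0 : ℝ≥0∞ := ((4 * v + 10 + 4 ^ (n + 3) : ℕ) : ℝ≥0∞) with hK0
  set K1 : ℝ≥0∞ := ((3 * (v + n + 1) : ℕ) : ℝ≥0∞) + 2 * KA ε with hK1
  have hK1t : K1 ≠ ⊤ := ENNReal.add_ne_top.2 ⟨ENNReal.natCast_ne_top _,
    ENNReal.mul_ne_top (by norm_num) (KA_fin hε)⟩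
  set D : ℝ≥0∞ := 2 * (1 + K1 ^ 2) with hD
  have hDt : D ≠ ⊤ := ENNReal.mul_ne_top (by norm_num) (ENNReal.add_ne_top.2
      ⟨ENNReal.one_ne_top, ENNReal.pow_ne_top hK1t⟩)
  refine ⟨K0 ^ 2 * D + 256 * D ^ 2, ENNReal.add_ne_top.2 ⟨ENNReal.mul_ne_top
    (ENNReal.pow_ne_top (ENNReal.natCast_ne_top _)) hDt,
    ENNReal.mul_ne_top (by norm_num) (ENNReal.pow_ne_top hDt)⟩, ?_⟩
  intro G hGm hG f hf j
  set Y : ℝ≥0∞ := ∑' k, cost G k (I k + 1) (EW (2 + ε) G k) (jW (v + n) k) ^ 2 with hY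
  set P : ℝ≥0∞ := (∫⁻ ξ, ‖G ξ‖ₑ ^ 2) + PT (2 + ε) G with hP
  -- the square of the norm
  have hsq : (fn G + Y ^ (1 / (2 : ℝ))) ^ 2 ≤ D * P := by
    have h6 := sq_add_le (fn G) (Y ^ (1 / (2 : ℝ)))
    have h7 : (Y ^ (1 / (2 : ℝ))) ^ 2 ≤ K1 ^ 2 * PT (2 + ε) G := by
      refine le_trans (le_of_eq ?_) (w_sum hGm hε (v + n) I)
      rw [← ENNReal.rpow_natCast, ← ENNReal.rpow_mul]
      norm_num
      rfl
    have h8 : fn G ^ 2 = ∫⁻ ξ, ‖G ξ‖ₑ ^ 2 := by rw [fn, nr_sq]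
    rw [h8] at h6
    refine (h6.trans (add_le_add le_rfl (mul_le_mul_right h7 _))).trans ?_
    rw [hD, hP]
    set m2 : ℝ≥0∞ := ∫⁻ ξ, ‖G ξ‖ₑ ^ 2 with hm2
    have e : 2 * (1 + K1 ^ 2) * (m2 + PT (2 + ε) G) =
        (2 * m2 + 2 * (K1 ^ 2 * PT (2 + ε) G)) +
          (2 * PT (2 + ε) G + 2 * K1 ^ 2 * m2) := by ring
    rw [e]
    exact le_self_add
  obtain ⟨U, W, hU, hW, hUW, hU2, hW4⟩ := glob_max hGm hG f hf
    (fun k => cost G k (I k + 1) (EW (2 + ε) G k) (jW (v + n) k)) hv j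
    (fun k => shell_UV hGm hG (EW_meas hGm (2 + ε) k)
      (fun ξ h _ => EW_cov (fun ξ h => hI k G ξ h) ξ h) (jW (v + n) k)
      (fun i _ z => (le_iSup (fun z : V => volume (EW (2 + ε) G k i ∩
        {ξ | z - ξ ∈ EW (2 + ε) G k i})) z).trans (EW_size hv _ G k i)) j)
  refine ⟨U, W, hU, hW, hUW, ?_, ?_⟩
  · have h5 : ((4 * (v + j) + 10 + 4 ^ (n + 3) : ℕ) : ℝ≥0∞) ≤ K0 * (1 + j) := by
      rw [hK0]
      have : 4 * (v + j) + 10 + 4 ^ (n + 3) ≤ (4 * v + 10 + 4 ^ (n + 3)) * (1 + j) := by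
        nlinarith [Nat.zero_le (v * j), Nat.zero_le (4 ^ (n + 3) * j)]
      exact_mod_cast this
    have h4 := pow_le_pow_left' (hU2.trans (mul_le_mul' h5 le_rfl)) 2
    rw [nr_sq, mul_pow] at h4
    calc ∫⁻ x, U x ^ 2 ≤ (K0 * (1 + j)) ^ 2 * (fn G + Y ^ (1 / (2 : ℝ))) ^ 2 := h4
      _ ≤ (K0 * (1 + j)) ^ 2 * (D * P) := mul_le_mul_right hsq _
      _ = (K0 ^ 2 * D) * (1 + j) ^ 2 * P := by ring
      _ ≤ _ := by gcongr; exact le_self_add
  · have h4 := pow_le_pow_left' hW4 4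
    rw [n4_pow, mul_pow, mul_pow] at h4
    have e1 : (((2 : ℝ≥0∞)⁻¹) ^ j) ^ 4 = ((16 : ℝ≥0∞)⁻¹) ^ j := by
      rw [← pow_mul, mul_comm, pow_mul, ← ENNReal.inv_pow]
      norm_num
    have e2 : (fn G + Y ^ (1 / (2 : ℝ))) ^ 4 ≤ (D * P) ^ 2 := by
      rw [show 4 = 2 * 2 by norm_num, pow_mul]
      exact pow_le_pow_left' hsq 2
    rw [e1] at h4
    calc ∫⁻ x, W x ^ 4 ≤ 4 ^ 4 * ((16 : ℝ≥0∞)⁻¹) ^ j * (fn G + Y ^ (1 / (2 : ℝ))) ^ 4 := h4
      _ ≤ 4 ^ 4 * ((16 : ℝ≥0∞)⁻¹) ^ j * (D * P) ^ 2 := mul_le_mul_right e2 _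
      _ = (256 * D ^ 2) * ((16 : ℝ≥0∞)⁻¹) ^ j * P ^ 2 := by ring
      _ ≤ _ := by gcongr; exact le_add_self

end Run7.h976.SP
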