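import Pool.Agent.Run7.h976.SP.Gl

/-!
The `L² → L⁴` constant of a set of frequencies in place of the additive size.
-/

set_option autoImplicit false

namespace Run7.h976.SP.K4

open MeasureTheory Filter Topology
open scoped FourierTransform ENNReal

variable {V : Type*} [NormedAddCommGroup V] [InnerProductSpace ℝ V] [FiniteDimensional ℝ V]
  [MeasurableSpace V] [BorelSpace V]

/-- the inequality from `L²` to `L⁴` for the frequencies in `E`, with the constant `K` -/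
def LF (E : Set V) (K : ℝ≥0∞) : Prop :=
  ∀ G : V → ℂ, Measurable G → MemLp G 2 → (∀ ξ, ξ ∉ E → G ξ = 0) →
    ∀ A : Set V, MeasurableSet A → volume A < ⊤ → ∫⁻ x, ‖T G A x‖ₑ ^ 4 ≤ K * mass G A ^ 2

/-- the least constant -/
noncomputable def KF (E : Set V) : ℝ≥0∞ := sInf {K | LF E K}

theorem LF_le {E : Set V} {K K' : ℝ≥0∞} (h : LF E K) (hK : K ≤ K') : LF E K' :=
  fun G hGm hG hE A hA hf => (h G hGm hG hE A hA hf).trans (mul_le_mul_left hK _)

theorem LF_inf (E : Set V) : LF E (KF E) := by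
  intro G hGm hG hE A hA hf
  by_cases hb : mass G A = 0
  · have h0 : ∀ x, ‖T G A x‖ₑ ^ 2 ≤ 0 := fun x => by
      have := T_sup hGm hA x
      rwa [hb, mul_zero] at this
    have h1 : ∫⁻ x, ‖T G A x‖ₑ ^ 4 = ∫⁻ _x : V, 0 := by
      refine lintegral_congr fun x => ?_
      have h2 : ‖T G A x‖ₑ ^ 2 = 0 := le_antisymm (h0 x) zero_le
      rw [show 4 = 2 * 2 by norm_num, pow_mul, h2]
      norm_num
    rw [h1, lintegral_zero]
    exact zero_le
  · have hb2 : mass G A ^ 2 ≠ 0 := pow_ne_zero _ hb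
    have hbt : mass G A ^ 2 ≠ ⊤ := ENNReal.pow_ne_top (mass_fin hG A).ne
    rw [← ENNReal.div_le_iff hb2 hbt]
    exact le_sInf fun K hK => (ENNReal.div_le_iff hb2 hbt).2 (hK G hGm hG hE A hA hf)

theorem LF_of {E : Set V} {K : ℝ≥0∞} (h : KF E ≤ K) : LF E K := LF_le (LF_inf E) h

theorem KF_mono {A B : Set V} (h : A ⊆ B) : KF A ≤ KF B :=
  sInf_le_sInf fun _ hK G hGm hG hE => hK G hGm hG fun ξ hξ => hE ξ fun h' => hξ (h h')

theorem KF_size {A : Set V} (hA : MeasurableSet A) : KF A ≤ Sz A := by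
  rcases eq_or_ne (Sz A) ⊤ with h | h
  · rw [h]; exact le_top
  · exact sInf_le fun G hGm hG hE B hB hf => T_four hGm hG hB hf A hA _ h
      (fun z => le_iSup (fun z : V => volume (A ∩ {ξ | z - ξ ∈ A})) z) hE

theorem KF_vol {A : Set V} (hA : MeasurableSet A) : KF A ≤ volume A :=
  (KF_size hA).trans (Sz_vol A)

/-- increasing unions -/
theorem KF_iUnion {A : ℕ → Set V} (hA : Monotone A) (hm : ∀ m, MeasurableSet (A m)) {c : ℝ≥0∞}
    (h : ∀ m, KF (A m) ≤ c) : KF (⋃ m, A m) ≤ c := by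
  refine sInf_le fun G hGm hG hE B hB hf => ?_
  have hind : ∀ m, MemLp ((A m).indicator G) 2 := fun m => hG.indicator (hm m)
  have h1 : ∀ m, ∫⁻ x, ‖T ((A m).indicator G) B x‖ₑ ^ 4 ≤ c * mass G B ^ 2 := by
    intro m
    refine (LF_of (h m) ((A m).indicator G) (hGm.indicator (hm m)) (hind m)
      (fun ξ hξ => Set.indicator_of_notMem hξ G) B hB hf).trans ?_
    refine mul_le_mul_right (pow_le_pow_left' (lintegral_mono fun ξ => ?_) 2) _
    refine pow_le_pow_left' ?_ 2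
    by_cases hξ : ξ ∈ A m
    · rw [Set.indicator_of_mem hξ]
    · rw [Set.indicator_of_notMem hξ]; simp
  have h2 : ∀ x, Tendsto (fun m => T ((A m).indicator G) B x) atTop (𝓝 (T G B x)) := by
    intro x
    simp_rw [T_eq _ hB]
    have hint : Integrable (fun ξ => ‖G ξ‖) (volume.restrict B) := by
      have : IsFiniteMeasure (volume.restrict B) := ⟨by simpa using hf⟩
      exact ((hG.restrict B).integrable (by norm_num)).norm
    refine tendsto_integral_of_dominated_convergence (fun ξ => ‖G ξ‖) (fun m => ?_) hint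
      (fun m => Eventually.of_forall fun ξ => ?_) (Eventually.of_forall fun ξ => ?_)
    · have hc : Continuous fun ξ : V => Real.fourierChar (inner ℝ ξ x) :=
        Real.continuous_fourierChar.comp (continuous_id.inner continuous_const)
      exact hc.aestronglyMeasurable.smul (hGm.indicator (hm m)).aestronglyMeasurable
    · rw [Circle.norm_smul]
      by_cases hξ : ξ ∈ A m
      · rw [Set.indicator_of_mem hξ]
      · rw [Set.indicator_of_notMem hξ]; simp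
    · by_cases hξ : ξ ∈ ⋃ m, A m
      · obtain ⟨m0, hm0⟩ := Set.mem_iUnion.1 hξ
        refine tendsto_const_nhds.congr' ?_
        filter_upwards [eventually_ge_atTop m0] with m hmm
        rw [Set.indicator_of_mem (hA hmm hm0)]
      · have h3 : ∀ m, ξ ∉ A m := fun m h4 => hξ (Set.mem_iUnion.2 ⟨m, h4⟩)
        simp_rw [Set.indicator_of_notMem (h3 _), hE ξ hξ]
        exact tendsto_const_nhds
  have h3 : ∀ x, ‖T G B x‖ₑ ^ 4 = liminf (fun m => ‖T ((A m).indicator G) B x‖ₑ ^ 4) atTop := by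
    intro x
    have h4 : Tendsto (fun m => ‖T ((A m).indicator G) B x‖ₑ ^ 4) atTop (𝓝 (‖T G B x‖ₑ ^ 4)) :=
      ENNReal.Tendsto.pow (h2 x).enorm
    exact h4.liminf_eq.symm
  simp_rw [h3]
  refine (lintegral_liminf_le fun m =>
    ((T_cont (hind m) hB hf).enorm.measurable.pow_const 4)).trans ?_
  refine (Filter.liminf_le_liminf (Eventually.of_forall h1)).trans (le_of_eq ?_)
  exact liminf_const _

theorem DM_four [Nontrivial V] {G : V → ℂ} (hGm : Measurable G) (hG : MemLp G 2) {N : ℝ}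
    (hN : 0 ≤ N) {κ : ℝ} (hκ : 0 ≤ κ) (hM : mr G N = κ ^ 2) {E : Set V}
    {γ : ℝ} (hγ : 0 ≤ γ) (hg : LF E (ENNReal.ofReal (γ ^ 4)))
    (hE : ∀ ξ, ξ ∉ E → G ξ = 0) (j : ℕ) :
    eLpNorm (DM G (mr G N) j) 4 volume ≤ ENNReal.ofReal (2 * γ * κ / 2 ^ j) := by
  rw [← ENNReal.pow_le_pow_left_iff four_ne_zero]
  have e := eLp_pow (DM G (mr G N) j) volume 4 four_ne_zero
  norm_cast at e
  norm_cast
  rw [e]
  refine (DM_pow hG (mr G N) j 4
    (ENNReal.ofReal (γ ^ 4) * ENNReal.ofReal (mr G N / 16 ^ j) ^ 2) (fun i hi => ?_)).trans ?_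
  · obtain ⟨A, h1, h2, h3, h4⟩ := DD_incr hGm hG hN hi
    simp_rw [h4]
    refine (hg G hGm hG hE A h1 h2).trans ?_
    gcongr
  · rw [hM, ← ENNReal.ofReal_pow (by positivity), ← ENNReal.ofReal_pow (by positivity), sixteen,
      ← ENNReal.ofReal_mul (by positivity), ← ENNReal.ofReal_mul (by positivity)]
    refine ENNReal.ofReal_le_ofReal (le_of_eq ?_)
    have h16 : (16 : ℝ) ^ j = (2 ^ j) ^ 4 := by rw [← pow_mul, mul_comm, pow_mul]; norm_num
    rw [pow_succ, h16]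
    push_cast
    have h2 : (2 : ℝ) ^ j ≠ 0 := by positivity
    field_simp
    ring

theorem n4_VV [Nontrivial V] {G : V → ℂ} (hGm : Measurable G) (hG : MemLp G 2) {N : ℝ}
    (hN : 0 ≤ N) (h0 : ∀ ξ, ξ ∉ ba V N → G ξ = 0) {E : Set V} {w : ℕ}
    (hg : LF E (16 ^ w)) (hE : ∀ ξ, ξ ∉ E → G ξ = 0) (j : ℕ) :
    n4 (VV G (mr G N) (w + j)) ≤ 4 * ((2 : ℝ≥0∞)⁻¹) ^ j * fn G := by
  obtain ⟨κ, hκ, hM, hfn⟩ := kap hG h0
  have hg' : LF E (ENNReal.ofReal (((2 : ℝ) ^ w) ^ 4)) := by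
    refine LF_le hg (le_of_eq ?_)
    rw [sixteen]
    congr 1
    rw [← pow_mul, mul_comm, pow_mul]
    norm_num
  have hb : 4 * ((2 : ℝ≥0∞)⁻¹) ^ j * fn G = ENNReal.ofReal (4 * (1 / 2) ^ j * κ) := by
    rw [hfn, ENNReal.ofReal_mul (by positivity), ENNReal.ofReal_mul (by norm_num),
      ENNReal.ofReal_pow (by norm_num), one_div, ENNReal.ofReal_inv_of_pos (by norm_num)]
    norm_num
  rw [hb]
  refine n4_le ?_
  unfold VV
  refine sup_conv volume 4 four_ne_zero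
    (fun L x => ENNReal.ofReal (∑ l ∈ Finset.range L, DM G (mr G N) (w + j + l) x))
    (fun L => (continuous_finsetSum _ fun l _ =>
      DM_cont hG _ (w + j + l)).measurable.ennreal_ofReal)
    (fun m n hmn x => ENNReal.ofReal_le_ofReal (Finset.sum_le_sum_of_subset_of_nonneg
      (Finset.range_subset_range.2 hmn) fun l _ _ => DM_nonneg G _ _ x)) _ fun L => ?_
  set H : V → ℝ := ∑ l ∈ Finset.range L, DM G (mr G N) (w + j + l) with hH
  have h1 := eLp_pow H volume 4 four_ne_zero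
  norm_cast at h1
  have h2 : ∫⁻ x, ENNReal.ofReal (∑ l ∈ Finset.range L, DM G (mr G N) (w + j + l) x) ^ 4 =
      eLpNorm H 4 volume ^ 4 := by
    norm_cast
    rw [h1]
    refine lintegral_congr fun x => ?_
    have e : H x = ∑ l ∈ Finset.range L, DM G (mr G N) (w + j + l) x := by
      rw [hH, Finset.sum_apply]
    rw [e, Real.enorm_of_nonneg (Finset.sum_nonneg fun l _ => DM_nonneg G _ _ x)]
  rw [h2]
  refine pow_le_pow_left' ?_ 4
  refine (eLpNorm_sum_le (fun l _ => (DM_cont hG _ (w + j + l)).aestronglyMeasurable)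
    (by norm_num)).trans ?_
  calc ∑ l ∈ Finset.range L, eLpNorm (DM G (mr G N) (w + j + l)) 4 volume
      ≤ ∑ l ∈ Finset.range L, ENNReal.ofReal (2 * 2 ^ w * κ / 2 ^ (w + j + l)) :=
        Finset.sum_le_sum fun l _ => DM_four hGm hG hN hκ hM (by positivity) hg' hE _
    _ = ENNReal.ofReal (∑ l ∈ Finset.range L, 2 * 2 ^ w * κ / 2 ^ (w + j + l)) :=
        (ENNReal.ofReal_sum_of_nonneg fun l _ => by positivity).symm
    _ ≤ ENNReal.ofReal (4 * (1 / 2) ^ j * κ) := by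
        refine ENNReal.ofReal_le_ofReal ?_
        have e : ∀ l : ℕ, 2 * 2 ^ w * κ / 2 ^ (w + j + l) =
            (2 * (1 / 2) ^ j * κ) * (1 / (2 : ℝ)) ^ l := by
          intro l
          rw [pow_add, pow_add, one_div, inv_pow, inv_pow]
          field_simp
        simp_rw [e]
        rw [← Finset.mul_sum]
        have := mul_le_mul_of_nonneg_left (geo L) (show 0 ≤ 2 * (1 / 2) ^ j * κ by positivity)
        linarith

/-- a sum of pieces -/
theorem pieces_UV [Nontrivial V] {N : ℝ} (hN : 0 ≤ N) {I : ℕ} (F : ℕ → V → ℂ)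
    (hFm : ∀ i, Measurable (F i)) (hF : ∀ i, MemLp (F i) 2) (h0 : ∀ i ξ, ξ ∉ ba V N → F i ξ = 0)
    (E : ℕ → Set V) (hE : ∀ i ξ, ξ ∉ E i → F i ξ = 0)
    (w : ℕ → ℕ) (hg : ∀ i, i < I → LF (E i) (16 ^ (w i))) (j : ℕ) :
    ∃ U W : V → ℝ≥0∞, Measurable U ∧ Measurable W ∧
      (∀ x, MS (fun ξ => ∑ i ∈ Finset.range I, F i ξ) x ≤ U x + W x) ∧
      nr volume U ≤ ((4 * j + 5 : ℕ) : ℝ≥0∞) *
        ∑ i ∈ Finset.range I, ((1 + w i : ℕ) : ℝ≥0∞) * fn (F i) ∧
      n4 W ≤ 4 * ((2 : ℝ≥0∞)⁻¹) ^ j *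
        ∑ i ∈ Finset.range I, ((1 + w i : ℕ) : ℝ≥0∞) * fn (F i) := by
  refine ⟨fun x => ∑ i ∈ Finset.range I, UU (F i) (mr (F i) N) (w i + j) x,
    fun x => ∑ i ∈ Finset.range I, VV (F i) (mr (F i) N) (w i + j) x,
    Finset.measurable_sum _ fun i _ => UU_meas (hF i) _ _,
    Finset.measurable_sum _ fun i _ => VV_meas (hF i) _ _, fun x => ?_, ?_, ?_⟩
  · refine (MS_sum _ F (fun i _ => hF i) x).trans ?_
    rw [← Finset.sum_add_distrib]
    exact Finset.sum_le_sum fun i _ => MS_UV (hFm i) (hF i) hN (h0 i) _ x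
  · refine (nr_sum volume _ (fun i => UU (F i) (mr (F i) N) (w i + j))
      fun i => UU_meas (hF i) _ _).trans ?_
    rw [Finset.mul_sum]
    refine Finset.sum_le_sum fun i _ => (nr_UU (hFm i) (hF i) hN (h0 i) _).trans ?_
    rw [← mul_assoc]
    refine mul_le_mul_left ?_ _
    have h4 : 4 * (w i + j) + 1 ≤ (4 * j + 5) * (1 + w i) := by
      nlinarith [Nat.zero_le (w i * j)]
    exact_mod_cast h4
  · refine (n4_sum _ (fun i => VV (F i) (mr (F i) N) (w i + j))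
      fun i => VV_meas (hF i) _ _).trans ?_
    rw [Finset.mul_sum]
    refine Finset.sum_le_sum fun i hi => (n4_VV (hFm i) (hF i) hN (h0 i)
      (hg i (Finset.mem_range.1 hi)) (hE i) j).trans ?_
    refine mul_le_mul_right ?_ _
    refine le_mul_of_one_le_left zero_le ?_
    exact_mod_cast (show 1 ≤ 1 + w i by omega)

theorem shell_UV [Nontrivial V] {G : V → ℂ} (hGm : Measurable G) (hG : MemLp G 2) {k I : ℕ}
    {E : ℕ → Set V} (hE : ∀ i, MeasurableSet (E i))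
    (hcov : ∀ ξ ∈ sh V k, G ξ ≠ 0 → ∃ i < I, ξ ∈ E i) (w : ℕ → ℕ)
    (hg : ∀ i, i < I → LF (E i) (16 ^ (w i))) (j : ℕ) :
    ∃ U W : V → ℝ≥0∞, Measurable U ∧ Measurable W ∧ (∀ x, MS (gs G k) x ≤ U x + W x) ∧
      nr volume U ≤ ((4 * j + 5 : ℕ) : ℝ≥0∞) * cost G k I E w ∧
      n4 W ≤ 4 * ((2 : ℝ≥0∞)⁻¹) ^ j * cost G k I E w := by
  have hm : ∀ i, MeasurableSet (sh V k ∩ dj E i) := fun i => (sh_meas k).inter (dj_meas hE i)
  have hfn : ∑ i ∈ Finset.range I, ((1 + w i : ℕ) : ℝ≥0∞) * fn (pc G k E i) ≤ cost G k I E w := by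
    refine Finset.sum_le_sum fun i _ => mul_le_mul_right ?_ _
    unfold fn nr
    refine ENNReal.rpow_le_rpow ?_ (by norm_num)
    rw [pc, ind_lint G (hm i)]
    exact mass_mono G fun ξ h => ⟨h.1, h.2.1⟩
  rw [pc_sum hcov]
  obtain ⟨U, W, h1, h2, h3, h4, h5⟩ := pieces_UV (N := 2 ^ (k + 1)) (by positivity) (I := I)
    (fun i => pc G k E i) (fun i => hGm.indicator (hm i)) (fun i => hG.indicator (hm i))
    (fun i ξ hξ => Set.indicator_of_notMem (fun h => hξ h.1.1) G) E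
    (fun i ξ hξ => Set.indicator_of_notMem (fun h => hξ h.2.1) G) w hg j
  exact ⟨U, W, h1, h2, h3, h4.trans (mul_le_mul_right hfn _),
    h5.trans (mul_le_mul_right hfn _)⟩

/-- the local bound -/
theorem shell_loc [Nontrivial V] {G : V → ℂ} (hGm : Measurable G) (hG : MemLp G 2) {k I : ℕ}
    {E : ℕ → Set V} (hE : ∀ i, MeasurableSet (E i))
    (hcov : ∀ ξ ∈ sh V k, G ξ ≠ 0 → ∃ i < I, ξ ∈ E i) (w : ℕ → ℕ)
    (hg : ∀ i, i < I → LF (E i) (16 ^ (w i))) (B : Set V) :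
    ∫⁻ x in B, MS (gs G k) x ^ 2 ≤ (50 + 32 * volume B ^ (1 / (2 : ℝ))) * cost G k I E w ^ 2 := by
  obtain ⟨U, W, hU, hW, h3, h4, h5⟩ := shell_UV hGm hG hE hcov w hg 0
  set c := cost G k I E w with hc
  rw [pow_zero, mul_one] at h5
  have h6 : ∫⁻ x in B, U x ^ 2 ≤ 25 * c ^ 2 := by
    refine (lintegral_mono' Measure.restrict_le_self le_rfl).trans ?_
    rw [← nr_sq]
    refine (pow_le_pow_left' h4 2).trans (le_of_eq ?_)
    rw [mul_pow]
    norm_num
  have h7 : ∫⁻ x in B, W x ^ 2 ≤ 16 * volume B ^ (1 / (2 : ℝ)) * c ^ 2 := by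
    have h8 := cs_lint (volume.restrict B) (fun x => W x ^ 2) (fun _ => 1)
      (hW.pow_const 2).aemeasurable measurable_const.aemeasurable
    have h9 : ∫⁻ x in B, (W x ^ 2) ^ 2 ≤ (4 * c) ^ 4 := by
      refine (lintegral_mono' Measure.restrict_le_self le_rfl).trans ?_
      refine le_trans (le_of_eq ?_) (pow_le_pow_left' h5 4)
      rw [n4_pow]
      refine lintegral_congr fun x => ?_
      rw [← pow_mul]
    simp only [mul_one, one_pow, lintegral_const, Measure.restrict_apply MeasurableSet.univ,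
      Set.univ_inter, one_mul] at h8
    have h10 := h8.trans (mul_le_mul_left h9 _)
    have h11 : (4 * c) ^ 4 * volume B = (16 * volume B ^ (1 / (2 : ℝ)) * c ^ 2) ^ 2 := by
      have e : (volume B ^ (1 / (2 : ℝ))) ^ 2 = volume B := by
        rw [← ENNReal.rpow_natCast, ← ENNReal.rpow_mul]
        norm_num
      rw [mul_pow, mul_pow, mul_pow, e]
      ring
    rw [h11] at h10
    exact (ENNReal.pow_le_pow_left_iff two_ne_zero).1 h10
  calc ∫⁻ x in B, MS (gs G k) x ^ 2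
      ≤ ∫⁻ x in B, (2 * U x ^ 2 + 2 * W x ^ 2) :=
        lintegral_mono fun x => (pow_le_pow_left' (h3 x) 2).trans (sq_add_le _ _)
    _ = 2 * (∫⁻ x in B, U x ^ 2) + 2 * ∫⁻ x in B, W x ^ 2 := by
        rw [lintegral_add_left ((hU.pow_const 2).const_mul 2),
          lintegral_const_mul _ (hU.pow_const 2), lintegral_const_mul _ (hW.pow_const 2)]
    _ ≤ 2 * (25 * c ^ 2) + 2 * (16 * volume B ^ (1 / (2 : ℝ)) * c ^ 2) :=
        add_le_add (mul_le_mul_right h6 _) (mul_le_mul_right h7 _)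
    _ = _ := by ring

/-- almost everywhere convergence -/
theorem gen_conv [Nontrivial V] {G : V → ℂ} (hGm : Measurable G) (hG : MemLp G 2)
    (f : Lp ℂ 2 (volume : Measure V)) (hf : ((𝓕 f : Lp ℂ 2 (volume : Measure V)) : V → ℂ) =ᵐ[volume] G)
    (I : ℕ → ℕ) (E : ℕ → ℕ → Set V) (hE : ∀ k i, MeasurableSet (E k i))
    (hcov : ∀ k, ∀ ξ ∈ sh V k, G ξ ≠ 0 → ∃ i < I k, ξ ∈ E k i) (j : ℕ → ℕ → ℕ)
    (hg : ∀ k i, i < I k → LF (E k i) (16 ^ (j k i)))
    (hs : ∑' k, cost G k (I k) (E k) (j k) ^ 2 ≠ ⊤) :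
    ∀ᵐ x, Tendsto (fun R : ℝ => T G (ba V R) x) atTop (𝓝 (f x)) := by
  refine shell_conv hGm hG (fun L => ?_) f hf
  have hb : 50 + 32 * volume (ba V (L : ℝ)) ^ (1 / (2 : ℝ)) ≠ ⊤ :=
    ENNReal.add_ne_top.2 ⟨by norm_num, ENNReal.mul_ne_top (by norm_num)
      (ENNReal.rpow_ne_top_of_nonneg (by norm_num) (ba_fin _).ne)⟩
  refine ne_top_of_le_ne_top (ENNReal.mul_ne_top hb hs) ?_
  rw [← ENNReal.tsum_mul_left]
  exact ENNReal.tsum_le_tsum fun k => shell_loc hGm hG (hE k) (hcov k) (j k) (hg k) _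

end Run7.h976.SP.K4
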