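import Pool.Agent.Run7.h976.SP.Ka

/-!
The level sets with the `L² → L⁴` constant in place of the additive size.
-/

set_option autoImplicit false

namespace Run7.h976.SP.K4

open MeasureTheory Filter Topology
open scoped FourierTransform ENNReal

variable {V : Type*} [NormedAddCommGroup V] [InnerProductSpace ℝ V] [FiniteDimensional ℝ V]
  [MeasurableSpace V] [BorelSpace V]

theorem lev_meas {G : V → ℂ} (hGm : Measurable G) (k : ℕ) (t : ℝ) : MeasurableSet (lev G k t) :=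
  (sh_meas k).inter (measurableSet_le measurable_const hGm.norm)

/-- the constant of the level set -/
noncomputable def al (G : V → ℂ) (k : ℕ) (t : ℝ) : ℝ≥0∞ := KF (lev G k t)

theorem al_anti (G : V → ℂ) (k : ℕ) : Antitone (al G k) := fun _ _ h =>
  KF_mono fun _ hη => ⟨hη.1, h.trans hη.2⟩

theorem al_le (G : V → ℂ) (k : ℕ) (t : ℝ) : al G k t ≤ volume (sh V k) :=
  (KF_mono fun _ h => h.1).trans (KF_vol (sh_meas k))

theorem al_fin (G : V → ℂ) (k : ℕ) (t : ℝ) : al G k t ≠ ⊤ :=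
  ((al_le G k t).trans_lt (sh_fin k)).ne

/-- the logarithm of the constant of the level set of the point -/
noncomputable def Ls (G : V → ℂ) (k : ℕ) (ξ : V) : ℝ := Real.log (2 + (al G k ‖G ξ‖).toReal)

theorem Ls_meas {G : V → ℂ} (hGm : Measurable G) (k : ℕ) : Measurable (Ls G k) :=
  Real.measurable_log.comp (measurable_const.add
    (((al_anti G k).measurable.comp hGm.norm).ennreal_toReal))

theorem Ls_half (G : V → ℂ) (k : ℕ) (ξ : V) : 1 / 2 ≤ Ls G k ξ := by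
  have h1 : (2 : ℝ) ≤ 2 + (al G k ‖G ξ‖).toReal := by
    have : 0 ≤ (al G k ‖G ξ‖).toReal := ENNReal.toReal_nonneg
    linarith
  have h2 := Real.log_le_log (by norm_num) h1
  have h3 := Real.log_two_gt_d9
  unfold Ls
  linarith

/-- the set where the constant is at most `x` has constant at most `x` -/
theorem KF_low {G : V → ℂ} (hGm : Measurable G) (k : ℕ) (x : ℝ≥0∞) :
    KF {ξ | ξ ∈ sh V k ∧ al G k ‖G ξ‖ ≤ x} ≤ x := by
  set D := {ξ | ξ ∈ sh V k ∧ al G k ‖G ξ‖ ≤ x} with hD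
  rcases Set.eq_empty_or_nonempty D with h | h
  · rw [h]
    refine (KF_vol MeasurableSet.empty).trans ?_
    simp
  · by_cases hmin : ∃ ξ ∈ D, ∀ η ∈ D, ‖G ξ‖ ≤ ‖G η‖
    · obtain ⟨ξ, hξ, hη⟩ := hmin
      refine (KF_mono (B := lev G k ‖G ξ‖) fun η h => ⟨h.1, hη η h⟩).trans hξ.2
    · have hmin' : ∀ ξ ∈ D, ∃ η ∈ D, ‖G η‖ < ‖G ξ‖ := by
        intro ξ hξ
        by_contra hc
        refine hmin ⟨ξ, hξ, fun η hη => ?_⟩
        by_contra hlt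
        exact hc ⟨η, hη, not_le.1 hlt⟩
      set I := (fun ξ => ‖G ξ‖) '' D with hI
      have hbdd : BddBelow I := ⟨0, by rintro _ ⟨ξ, _, rfl⟩; exact norm_nonneg _⟩
      have hne : I.Nonempty := h.image _
      set t0 := sInf I with ht0
      have hgt : ∀ ξ ∈ D, t0 < ‖G ξ‖ := by
        intro ξ hξ
        obtain ⟨η, hη, hlt⟩ := hmin' ξ hξ
        exact (csInf_le hbdd ⟨η, hη, rfl⟩).trans_lt hlt
      have hsub : D ⊆ ⋃ m : ℕ, lev G k (t0 + 1 / ((m : ℝ) + 1)) := by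
        intro ξ hξ
        have h1 := hgt ξ hξ
        obtain ⟨m, hm⟩ := exists_nat_one_div_lt (show 0 < ‖G ξ‖ - t0 by linarith)
        refine Set.mem_iUnion.2 ⟨m, hξ.1, ?_⟩
        linarith
      refine (KF_mono hsub).trans (KF_iUnion ?_ (fun m => lev_meas hGm k _) fun m => ?_)
      · intro m m' hmm ξ hξ
        refine ⟨hξ.1, le_trans ?_ hξ.2⟩
        have : 1 / ((m' : ℝ) + 1) ≤ 1 / ((m : ℝ) + 1) :=
          one_div_le_one_div_of_le (by positivity) (by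
            have : (m : ℝ) ≤ m' := by exact_mod_cast hmm
            linarith)
        linarith
      · have h1 : t0 < t0 + 1 / ((m : ℝ) + 1) := by
          have : (0 : ℝ) < 1 / ((m : ℝ) + 1) := by positivity
          linarith
        obtain ⟨_, ⟨ξ, hξ, rfl⟩, hlt⟩ := exists_lt_of_csInf_lt hne h1
        exact (al_anti G k hlt.le).trans hξ.2

/-- the pieces -/
def EL (G : V → ℂ) (k i : ℕ) : Set V :=
  {ξ | ξ ∈ sh V k ∧ 2 ^ i ≤ 2 * Ls G k ξ ∧ Ls G k ξ ≤ 2 ^ i}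

theorem EL_meas {G : V → ℂ} (hGm : Measurable G) (k i : ℕ) : MeasurableSet (EL G k i) := by
  refine MeasurableSet.inter (sh_meas k) (MeasurableSet.inter ?_ ?_)
  · exact measurableSet_le measurable_const ((Ls_meas hGm k).const_mul 2)
  · exact measurableSet_le (Ls_meas hGm k) measurable_const

theorem EL_size {G : V → ℂ} (hGm : Measurable G) (k i : ℕ) : KF (EL G k i) ≤ 16 ^ (2 ^ i) := by
  have h1 : EL G k i ⊆ {ξ | ξ ∈ sh V k ∧ al G k ‖G ξ‖ ≤ 16 ^ (2 ^ i)} := by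
    rintro ξ ⟨h1, _, h2⟩
    refine ⟨h1, ?_⟩
    have h3 : 0 < 2 + (al G k ‖G ξ‖).toReal := by
      have : 0 ≤ (al G k ‖G ξ‖).toReal := ENNReal.toReal_nonneg
      linarith
    have h4 : 2 + (al G k ‖G ξ‖).toReal ≤ Real.exp (2 ^ i) := (Real.log_le_iff_le_exp h3).1 h2
    have h5 : Real.exp (2 ^ i) ≤ 16 ^ (2 ^ i) := by
      have h6 : Real.exp (2 ^ i) = Real.exp 1 ^ (2 ^ i) := by
        rw [← Real.exp_nat_mul, mul_one]
        push_cast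
        rfl
      rw [h6]
      exact pow_le_pow_left₀ (Real.exp_pos _).le (by have := Real.exp_one_lt_d9; linarith) _
    have h7 : (al G k ‖G ξ‖).toReal ≤ 16 ^ (2 ^ i) := by linarith
    rw [← ENNReal.ofReal_toReal (al_fin G k ‖G ξ‖)]
    refine (ENNReal.ofReal_le_ofReal h7).trans (le_of_eq ?_)
    rw [ENNReal.ofReal_pow (by norm_num)]
    norm_num
  exact (KF_mono h1).trans (KF_low hGm k _)

theorem EL_cov (k : ℕ) : ∃ I : ℕ, ∀ (G : V → ℂ), ∀ ξ ∈ sh V k, ∃ i < I, ξ ∈ EL G k i := by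
  set M : ℝ := Real.log (2 + (volume (sh V k)).toReal) with hM
  obtain ⟨I, hI⟩ := exists_nat_ge (2 * M)
  refine ⟨I + 1, fun G ξ h => ?_⟩
  have h1 : Ls G k ξ ≤ M := by
    refine Real.log_le_log ?_ ?_
    · have : 0 ≤ (al G k ‖G ξ‖).toReal := ENNReal.toReal_nonneg
      linarith
    · have := ENNReal.toReal_mono (sh_fin (V := V) k).ne (al_le G k ‖G ξ‖)
      linarith
  have h2 := Ls_half G k ξ
  have key : ∀ i : ℕ, (2 : ℝ) ^ i ≤ 2 * Ls G k ξ → i < I + 1 := by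
    intro i hi
    have h3 : (2 : ℝ) ^ i ≤ I := by linarith
    have h4 : 2 ^ i ≤ I := by exact_mod_cast h3
    have h5 : i < 2 ^ i := Nat.lt_two_pow_self
    omega
  rcases le_or_gt (Ls G k ξ) 1 with h3 | h3
  · refine ⟨0, by omega, h, ?_, ?_⟩
    · rw [pow_zero]; linarith
    · rw [pow_zero]; exact h3
  · obtain ⟨n, hn1, hn2⟩ := exists_nat_pow_near h3.le (y := (2 : ℝ)) (by norm_num)
    have h4 : (2 : ℝ) ^ (n + 1) ≤ 2 * Ls G k ξ := by rw [pow_succ]; linarith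
    exact ⟨n + 1, key _ h4, h, h4, hn2.le⟩

/-- the weight in the shell -/
noncomputable def Mn (s : ℝ) (G : V → ℂ) (k : ℕ) (ξ : V) : ℝ :=
  min (Real.log (2 + ‖ξ‖) ^ 2) (Ls G k ξ ^ s)

/-- the weighted mass of a set -/
noncomputable def PM (s : ℝ) (G : V → ℂ) (k : ℕ) (A : Set V) : ℝ≥0∞ :=
  ∫⁻ ξ in A, ENNReal.ofReal (Mn s G k ξ) * ‖G ξ‖ₑ ^ 2

theorem mass_PM {G : V → ℂ} {k : ℕ} {A : Set V} (hA : MeasurableSet A) {s s' c : ℝ}
    (hc : 0 < c) (h : ∀ ξ ∈ A, c ^ s' ≤ Mn s G k ξ) :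
    mass G A ≤ ENNReal.ofReal (c ^ (-(s' / 2))) ^ 2 * PM s G k A := by
  unfold mass PM
  rw [← lintegral_const_mul' _ _ (ENNReal.pow_ne_top ENNReal.ofReal_ne_top)]
  refine setLIntegral_mono' hA fun ξ hξ => ?_
  rw [← mul_assoc]
  refine le_mul_of_one_le_left zero_le ?_
  rw [← ENNReal.ofReal_pow (by positivity), ← ENNReal.ofReal_mul (by positivity),
    ENNReal.one_le_ofReal]
  have h1 : (c ^ (-(s' / 2))) ^ 2 = c ^ (-s') := by
    rw [← Real.rpow_natCast, ← Real.rpow_mul hc.le]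
    congr 1
    push_cast
    ring
  rw [h1]
  have h3 : c ^ (-s') * c ^ s' = 1 := by
    rw [← Real.rpow_add hc, neg_add_cancel, Real.rpow_zero]
  rw [← h3]
  exact mul_le_mul_of_nonneg_left (h ξ hξ) (by positivity)

/-- the part of the shell where the frequency decides -/
def Hs (s : ℝ) (G : V → ℂ) (k : ℕ) : Set V :=
  {ξ | ξ ∈ sh V k ∧ Real.log (2 + ‖ξ‖) ^ 2 ≤ Ls G k ξ ^ s}

theorem Hs_meas {G : V → ℂ} (hGm : Measurable G) (s : ℝ) (k : ℕ) : MeasurableSet (Hs s G k) := by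
  refine MeasurableSet.inter (sh_meas k) ?_
  exact measurableSet_le ((Real.measurable_log.comp (measurable_const.add
    measurable_norm)).pow_const 2) ((Ls_meas hGm k).pow_const s)

/-- the cover of the shell -/
def EW (s : ℝ) (G : V → ℂ) (k : ℕ) : ℕ → Set V
  | 0 => Hs s G k
  | i + 1 => EL G k i ∩ (Hs s G k)ᶜ

theorem EW_meas {G : V → ℂ} (hGm : Measurable G) (s : ℝ) (k i : ℕ) :
    MeasurableSet (EW s G k i) := by
  cases i with
  | zero => exact Hs_meas hGm s k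
  | succ i => exact (EL_meas hGm k i).inter (Hs_meas hGm s k).compl

theorem EW_size {v : ℕ} (hv : volume (ba V 1) ≤ 16 ^ v) (s : ℝ) {G : V → ℂ}
    (hGm : Measurable G) (k i : ℕ) : LF (EW s G k i) (16 ^ (jW (v + Module.finrank ℝ V) k i)) := by
  refine LF_of ?_
  cases i with
  | zero => exact ((KF_vol (Hs_meas hGm s k)).trans (measure_mono fun _ h => h.1)).trans (sh_vol hv k)
  | succ i => exact (KF_mono Set.inter_subset_left).trans (EL_size hGm k i)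

theorem EW_cov {s : ℝ} {G : V → ℂ} {k I : ℕ} (hI : ∀ ξ ∈ sh V k, ∃ i < I, ξ ∈ EL G k i) :
    ∀ ξ ∈ sh V k, ∃ i < I + 1, ξ ∈ EW s G k i := by
  intro ξ h
  by_cases hH : ξ ∈ Hs s G k
  · exact ⟨0, by omega, hH⟩
  · obtain ⟨i, hi, hi2⟩ := hI ξ h
    exact ⟨i + 1, by omega, hi2, hH⟩

theorem w_cost {G : V → ℂ} (hGm : Measurable G) {ε : ℝ} (hε : 0 < ε) (a k I : ℕ) :
    cost G k (I + 1) (EW (2 + ε) G k) (jW a k) ≤
      (((3 * (a + 1) : ℕ) : ℝ≥0∞) + 2 * KA ε) * PM (2 + ε) G k (sh V k) ^ (1 / (2 : ℝ)) := by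
  set q : ℝ≥0∞ := ENNReal.ofReal (2 ^ (-(ε / 2))) with hq
  have hPM : ∀ A : Set V, A ⊆ sh V k → PM (2 + ε) G k A ≤ PM (2 + ε) G k (sh V k) :=
    fun A hA => lintegral_mono_set hA
  have h0 : ((1 + jW a k 0 : ℕ) : ℝ≥0∞) * (mass G (sh V k ∩ EW (2 + ε) G k 0)) ^ (1 / (2 : ℝ)) ≤
      ((3 * (a + 1) : ℕ) : ℝ≥0∞) * PM (2 + ε) G k (sh V k) ^ (1 / (2 : ℝ)) := by
    have hc : (0 : ℝ) < ((k : ℝ) + 1) / 3 := by positivity
    have h2 := mass_PM (G := G) (k := k) (s := 2 + ε) (s' := 2) (c := ((k : ℝ) + 1) / 3)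
      (A := sh V k ∩ EW (2 + ε) G k 0) ((sh_meas k).inter (EW_meas hGm _ k 0)) hc
      (fun ξ hξ => by
        have h3 : Real.log (2 + ‖ξ‖) ^ 2 ≤ Ls G k ξ ^ (2 + ε) := hξ.2.2
        have h4 := log_shell hξ.1
        rw [Mn, min_eq_left h3, Real.rpow_ofNat]
        exact pow_le_pow_left₀ hc.le h4 2)
    have h3 := hPM (sh V k ∩ EW (2 + ε) G k 0) Set.inter_subset_left
    have h4 : (mass G (sh V k ∩ EW (2 + ε) G k 0)) ^ (1 / (2 : ℝ)) ≤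
        ENNReal.ofReal ((((k : ℝ) + 1) / 3) ^ (-(2 / 2) : ℝ)) *
          PM (2 + ε) G k (sh V k) ^ (1 / (2 : ℝ)) := by
      rw [← sqrt_sq]
      exact ENNReal.rpow_le_rpow (h2.trans (mul_le_mul_right h3 _)) (by norm_num)
    refine (mul_le_mul_right h4 _).trans ?_
    rw [← mul_assoc]
    refine mul_le_mul_left ?_ _
    have e : (((k : ℝ) + 1) / 3) ^ (-(2 / 2) : ℝ) = 3 / ((k : ℝ) + 1) := by
      rw [show (-(2 / 2) : ℝ) = -1 by norm_num, Real.rpow_neg_one, inv_div]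
    rw [e, ← ENNReal.ofReal_natCast, ← ENNReal.ofReal_natCast (3 * (a + 1)),
      ← ENNReal.ofReal_mul (by positivity)]
    refine ENNReal.ofReal_le_ofReal ?_
    have hk : (0 : ℝ) < (k : ℝ) + 1 := by positivity
    rw [mul_div_assoc', div_le_iff₀ hk]
    simp only [jW]
    push_cast
    nlinarith [mul_nonneg (Nat.cast_nonneg (α := ℝ) a) hk.le, Nat.cast_nonneg (α := ℝ) k]
  have h1 : ∀ i : ℕ, ((1 + jW a k (i + 1) : ℕ) : ℝ≥0∞) *
      (mass G (sh V k ∩ EW (2 + ε) G k (i + 1))) ^ (1 / (2 : ℝ)) ≤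
      2 * ENNReal.ofReal (2 ^ (1 + ε / 2)) *
        PM (2 + ε) G k (sh V k) ^ (1 / (2 : ℝ)) * q ^ i := by
    intro i
    have h2i : (0 : ℝ) < 2 ^ i / 2 := by positivity
    have h2 := mass_PM (G := G) (k := k) (s := 2 + ε) (s' := 2 + ε) (c := 2 ^ i / 2)
      (A := sh V k ∩ EW (2 + ε) G k (i + 1)) ((sh_meas k).inter (EW_meas hGm _ k _)) h2i
      (fun ξ hξ => by
        have h3 : 2 ^ i ≤ 2 * Ls G k ξ := hξ.2.1.2.1
        have h4 : ¬ (Real.log (2 + ‖ξ‖) ^ 2 ≤ Ls G k ξ ^ (2 + ε)) := fun h =>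
          hξ.2.2 ⟨hξ.1, h⟩
        rw [Mn, min_eq_right (not_le.1 h4).le]
        exact Real.rpow_le_rpow h2i.le (by linarith) (by linarith))
    have h3 := hPM (sh V k ∩ EW (2 + ε) G k (i + 1)) Set.inter_subset_left
    have h4 : (mass G (sh V k ∩ EW (2 + ε) G k (i + 1))) ^ (1 / (2 : ℝ)) ≤
        ENNReal.ofReal ((2 ^ i / 2) ^ (-((2 + ε) / 2))) *
          PM (2 + ε) G k (sh V k) ^ (1 / (2 : ℝ)) := by
      rw [← sqrt_sq]
      exact ENNReal.rpow_le_rpow (h2.trans (mul_le_mul_right h3 _)) (by norm_num)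
    have h5 : ((1 + jW a k (i + 1) : ℕ) : ℝ≥0∞) ≤ 2 * ENNReal.ofReal (2 ^ i) := by
      rw [ENNReal.ofReal_pow (by norm_num), ENNReal.ofReal_ofNat]
      have h6 : 1 + jW a k (i + 1) ≤ 2 * 2 ^ i := by
        have h7 : 1 ≤ 2 ^ i := Nat.one_le_two_pow
        simp only [jW]
        omega
      exact_mod_cast h6
    have h6 : ENNReal.ofReal (2 ^ i) * ENNReal.ofReal ((2 ^ i / 2) ^ (-((2 + ε) / 2))) =
        ENNReal.ofReal (2 ^ (1 + ε / 2)) * q ^ i := by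
      rw [hq, ← ENNReal.ofReal_mul (by positivity), ← ENNReal.ofReal_pow (by positivity),
        ← ENNReal.ofReal_mul (by positivity)]
      congr 1
      have h2p : (0 : ℝ) < 2 := by norm_num
      rw [← Real.rpow_natCast 2 i, ← Real.rpow_natCast _ i, ← Real.rpow_mul h2p.le]
      have e1 : (2 : ℝ) ^ (i : ℝ) / 2 = 2 ^ ((i : ℝ) - 1) := by
        rw [Real.rpow_sub h2p, Real.rpow_one]
      rw [e1, ← Real.rpow_mul h2p.le, ← Real.rpow_add h2p, ← Real.rpow_add h2p]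
      congr 1
      ring
    calc ((1 + jW a k (i + 1) : ℕ) : ℝ≥0∞) *
          (mass G (sh V k ∩ EW (2 + ε) G k (i + 1))) ^ (1 / (2 : ℝ))
        ≤ (2 * ENNReal.ofReal (2 ^ i)) *
          (ENNReal.ofReal ((2 ^ i / 2) ^ (-((2 + ε) / 2))) *
            PM (2 + ε) G k (sh V k) ^ (1 / (2 : ℝ))) := mul_le_mul' h5 h4
      _ = 2 * (ENNReal.ofReal (2 ^ i) *
          ENNReal.ofReal ((2 ^ i / 2) ^ (-((2 + ε) / 2)))) *
            PM (2 + ε) G k (sh V k) ^ (1 / (2 : ℝ)) := by ring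
      _ = _ := by rw [h6]; ring
  unfold cost
  rw [Finset.sum_range_succ', add_comm, add_mul]
  refine add_le_add h0 ?_
  refine (Finset.sum_le_sum fun i _ => h1 i).trans ?_
  rw [← Finset.mul_sum]
  refine (mul_le_mul_right ((ENNReal.sum_le_tsum _).trans (ENNReal.tsum_geometric q).le) _).trans
    (le_of_eq ?_)
  unfold KA
  ring

/-- the sum over the shells -/
noncomputable def PT (s : ℝ) (G : V → ℂ) : ℝ≥0∞ := ∑' k, PM s G k (sh V k)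

theorem w_sum {G : V → ℂ} (hGm : Measurable G) {ε : ℝ} (hε : 0 < ε) (a : ℕ) (I : ℕ → ℕ) :
    ∑' k, cost G k (I k + 1) (EW (2 + ε) G k) (jW a k) ^ 2 ≤
      (((3 * (a + 1) : ℕ) : ℝ≥0∞) + 2 * KA ε) ^ 2 * PT (2 + ε) G := by
  unfold PT
  rw [← ENNReal.tsum_mul_left]
  refine ENNReal.tsum_le_tsum fun k => (pow_le_pow_left' (w_cost hGm hε a k (I k)) 2).trans
    (le_of_eq ?_)
  rw [mul_pow, ← ENNReal.rpow_natCast (PM (2 + ε) G k (sh V k) ^ (1 / (2 : ℝ))),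
    ← ENNReal.rpow_mul]
  norm_num

/-- almost everywhere convergence -/
theorem w_conv [Nontrivial V] {G : V → ℂ} (hGm : Measurable G) (hG : MemLp G 2)
    (f : Lp ℂ 2 (volume : Measure V)) (hf : ((𝓕 f : Lp ℂ 2 (volume : Measure V)) : V → ℂ) =ᵐ[volume] G)
    {ε : ℝ} (hε : 0 < ε) (hs : PT (2 + ε) G ≠ ⊤) :
    ∀ᵐ x, Tendsto (fun R : ℝ => T G (ba V R) x) atTop (𝓝 (f x)) := by
  choose I hI using EL_cov (V := V)
  obtain ⟨v, hv⟩ := unit_vol (V := V)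
  refine gen_conv hGm hG f hf (fun k => I k + 1) (fun k => EW (2 + ε) G k)
    (fun k => EW_meas hGm _ k) (fun k ξ h _ => EW_cov (fun ξ h => hI k G ξ h) ξ h)
    (fun k => jW (v + Module.finrank ℝ V) k)
    (fun k i _ => EW_size hv _ hGm k i) ?_
  refine ne_top_of_le_ne_top ?_ (w_sum hGm hε _ I)
  exact ENNReal.mul_ne_top (ENNReal.pow_ne_top (ENNReal.add_ne_top.2 ⟨ENNReal.natCast_ne_top _,
    ENNReal.mul_ne_top (by norm_num) (KA_fin hε)⟩)) hs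

/-- the maximal inequality in `L² + L⁴` -/
theorem w_glob [Nontrivial V] {ε : ℝ} (hε : 0 < ε) :
    ∃ C : ℝ≥0∞, C ≠ ⊤ ∧ ∀ (G : V → ℂ) (_ : Measurable G) (_ : MemLp G 2)
      (f : Lp ℂ 2 (volume : Measure V))
      (_ : ((𝓕 f : Lp ℂ 2 (volume : Measure V)) : V → ℂ) =ᵐ[volume] G) (j : ℕ),
      ∃ U W : V → ℝ≥0∞, Measurable U ∧ Measurable W ∧ (∀ x, MS G x ≤ U x + W x) ∧
        ∫⁻ x, U x ^ 2 ≤ C * (1 + j) ^ 2 * ((∫⁻ ξ, ‖G ξ‖ₑ ^ 2) + PT (2 + ε) G) ∧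
        ∫⁻ x, W x ^ 4 ≤ C * ((16 : ℝ≥0∞)⁻¹) ^ j * ((∫⁻ ξ, ‖G ξ‖ₑ ^ 2) + PT (2 + ε) G) ^ 2 := by
  choose I hI using EL_cov (V := V)
  obtain ⟨v, hv⟩ := unit_vol (V := V)
  set n := Module.finrank ℝ V with hn
  set K0 : ℝ≥0∞ := ((4 * v + 10 + 4 ^ (n + 3) : ℕ) : ℝ≥0∞) with hK0
  set K1 : ℝ≥0∞ := ((3 * (v + n + 1) : ℕ) : ℝ≥0∞) + 2 * KA ε with hK1
  have hK1t : K1 ≠ ⊤ := ENNReal.add_ne_top.2 ⟨ENNReal.natCast_ne_top _,
    ENNReal.mul_ne_top (by norm_num) (KA_fin hε)⟩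
  set D : ℝ≥0∞ := 2 * (1 + K1 ^ 2) with hD
  have hDt : D ≠ ⊤ := ENNReal.mul_ne_top (by norm_num) (ENNReal.add_ne_top.2
      ⟨ENNReal.one_ne_top, ENNReal.pow_ne_top hK1t⟩)
  refine ⟨K0 ^ 2 * D + 256 * D ^ 2, ENNReal.add_ne_top.2 ⟨ENNReal.mul_ne_top
    (ENNReal.pow_ne_top (ENNReal.natCast_ne_top _)) hDt,
    ENNReal.mul_ne_top (by norm_num) (ENNReal.pow_ne_top hDt)⟩, ?_⟩
  intro G hGm hG f hf j
  set Y : ℝ≥0∞ := ∑' k, cost G k (I k + 1) (EW (2 + ε) G k) (jW (v + n) k) ^ 2 with hY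
  set P : ℝ≥0∞ := (∫⁻ ξ, ‖G ξ‖ₑ ^ 2) + PT (2 + ε) G with hP
  -- the square of the norm
  have hsq : (fn G + Y ^ (1 / (2 : ℝ))) ^ 2 ≤ D * P := by
    have h6 := sq_add_le (fn G) (Y ^ (1 / (2 : ℝ)))
    have h7 : (Y ^ (1 / (2 : ℝ))) ^ 2 ≤ K1 ^ 2 * PT (2 + ε) G := by
      refine le_trans (le_of_eq ?_) (w_sum hGm hε (v + n) I)
      rw [← ENNReal.rpow_natCast, ← ENNReal.rpow_mul]
      norm_num
      rfl
    have h8 : fn G ^ 2 = ∫⁻ ξ, ‖G ξ‖ₑ ^ 2 := by rw [fn, nr_sq]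
    rw [h8] at h6
    refine (h6.trans (add_le_add le_rfl (mul_le_mul_right h7 _))).trans ?_
    rw [hD, hP]
    set m2 : ℝ≥0∞ := ∫⁻ ξ, ‖G ξ‖ₑ ^ 2 with hm2
    have e : 2 * (1 + K1 ^ 2) * (m2 + PT (2 + ε) G) =
        (2 * m2 + 2 * (K1 ^ 2 * PT (2 + ε) G)) +
          (2 * PT (2 + ε) G + 2 * K1 ^ 2 * m2) := by ring
    rw [e]
    exact le_self_add
  obtain ⟨U, W, hU, hW, hUW, hU2, hW4⟩ := glob_max hGm hG f hf
    (fun k => cost G k (I k + 1) (EW (2 + ε) G k) (jW (v + n) k)) hv j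
    (fun k => shell_UV hGm hG (EW_meas hGm (2 + ε) k)
      (fun ξ h _ => EW_cov (fun ξ h => hI k G ξ h) ξ h) (jW (v + n) k)
      (fun i _ => EW_size hv _ hGm k i) j)
  refine ⟨U, W, hU, hW, hUW, ?_, ?_⟩
  · have h5 : ((4 * (v + j) + 10 + 4 ^ (n + 3) : ℕ) : ℝ≥0∞) ≤ K0 * (1 + j) := by
      rw [hK0]
      have : 4 * (v + j) + 10 + 4 ^ (n + 3) ≤ (4 * v + 10 + 4 ^ (n + 3)) * (1 + j) := by
        nlinarith [Nat.zero_le (v * j), Nat.zero_le (4 ^ (n + 3) * j)]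
      exact_mod_cast this
    have h4 := pow_le_pow_left' (hU2.trans (mul_le_mul' h5 le_rfl)) 2
    rw [nr_sq, mul_pow] at h4
    calc ∫⁻ x, U x ^ 2 ≤ (K0 * (1 + j)) ^ 2 * (fn G + Y ^ (1 / (2 : ℝ))) ^ 2 := h4
      _ ≤ (K0 * (1 + j)) ^ 2 * (D * P) := mul_le_mul_right hsq _
      _ = (K0 ^ 2 * D) * (1 + j) ^ 2 * P := by ring
      _ ≤ _ := by gcongr; exact le_self_add
  · have h4 := pow_le_pow_left' hW4 4
    rw [n4_pow, mul_pow, mul_pow] at h4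
    have e1 : (((2 : ℝ≥0∞)⁻¹) ^ j) ^ 4 = ((16 : ℝ≥0∞)⁻¹) ^ j := by
      rw [← pow_mul, mul_comm, pow_mul, ← ENNReal.inv_pow]
      norm_num
    have e2 : (fn G + Y ^ (1 / (2 : ℝ))) ^ 4 ≤ (D * P) ^ 2 := by
      rw [show 4 = 2 * 2 by norm_num, pow_mul]
      exact pow_le_pow_left' hsq 2
    rw [e1] at h4
    calc ∫⁻ x, W x ^ 4 ≤ 4 ^ 4 * ((16 : ℝ≥0∞)⁻¹) ^ j * (fn G + Y ^ (1 / (2 : ℝ))) ^ 4 := h4
      _ ≤ 4 ^ 4 * ((16 : ℝ≥0∞)⁻¹) ^ j * (D * P) ^ 2 := mul_le_mul_right e2 _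
      _ = (256 * D ^ 2) * ((16 : ℝ≥0∞)⁻¹) ^ j * P ^ 2 := by ring
      _ ≤ _ := by gcongr; exact le_add_self

end Run7.h976.SP.K4
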