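import Pool.Agent.Run7.h976.SP.Am

/-!
The theorem in terms of the additive sizes of the level sets of the Fourier transform.
-/

set_option autoImplicit false

namespace Run7.h976.SP

open MeasureTheory Filter Topology
open scoped FourierTransform ENNReal

variable {V : Type*} [NormedAddCommGroup V] [InnerProductSpace ℝ V] [FiniteDimensional ℝ V]
  [MeasurableSpace V] [BorelSpace V]

/-- the additive size of a set -/
noncomputable def Sz (A : Set V) : ℝ≥0∞ := ⨆ z : V, volume (A ∩ {ξ | z - ξ ∈ A})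

theorem Sz_mono {A B : Set V} (h : A ⊆ B) : Sz A ≤ Sz B :=
  iSup_mono fun _ => measure_mono fun _ hξ => ⟨h hξ.1, h hξ.2⟩

theorem Sz_vol (A : Set V) : Sz A ≤ volume A :=
  iSup_le fun _ => measure_mono Set.inter_subset_left

/-- increasing unions -/
theorem Sz_iUnion {A : ℕ → Set V} (hA : Monotone A) {x : ℝ≥0∞} (h : ∀ m, Sz (A m) ≤ x) :
    Sz (⋃ m, A m) ≤ x := by
  refine iSup_le fun z => ?_
  have e : (⋃ m, A m) ∩ {ξ | z - ξ ∈ ⋃ m, A m} = ⋃ m, (A m ∩ {ξ | z - ξ ∈ A m}) := by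
    ext ξ
    simp only [Set.mem_inter_iff, Set.mem_iUnion, Set.mem_ofPred_eq]
    constructor
    · rintro ⟨⟨m, hm⟩, ⟨m', hm'⟩⟩
      exact ⟨max m m', hA (le_max_left _ _) hm, hA (le_max_right _ _) hm'⟩
    · rintro ⟨m, h1, h2⟩
      exact ⟨⟨m, h1⟩, ⟨m, h2⟩⟩
  rw [e]
  have hm : Monotone fun m => A m ∩ {ξ | z - ξ ∈ A m} := fun m m' hmm ξ hξ =>
    ⟨hA hmm hξ.1, hA hmm hξ.2⟩
  rw [hm.measure_iUnion]
  exact iSup_le fun m => (le_iSup (fun z : V => volume (A m ∩ {ξ | z - ξ ∈ A m})) z).trans (h m)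

/-- the level set in the shell -/
def lev (G : V → ℂ) (k : ℕ) (t : ℝ) : Set V := {η | η ∈ sh V k ∧ t ≤ ‖G η‖}

/-- the additive size of the level set -/
noncomputable def al (G : V → ℂ) (k : ℕ) (t : ℝ) : ℝ≥0∞ := Sz (lev G k t)

theorem al_anti (G : V → ℂ) (k : ℕ) : Antitone (al G k) := fun _ _ h =>
  Sz_mono fun _ hη => ⟨hη.1, h.trans hη.2⟩

theorem sh_fin (k : ℕ) : volume (sh V k) < ⊤ :=
  (measure_mono Set.sdiff_subset).trans_lt (ba_fin _)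

theorem al_le (G : V → ℂ) (k : ℕ) (t : ℝ) : al G k t ≤ volume (sh V k) :=
  (Sz_vol _).trans (measure_mono fun _ h => h.1)

theorem al_fin (G : V → ℂ) (k : ℕ) (t : ℝ) : al G k t ≠ ⊤ :=
  ((al_le G k t).trans_lt (sh_fin k)).ne

/-- the logarithm of the additive size of the level set of the point -/
noncomputable def Ls (G : V → ℂ) (k : ℕ) (ξ : V) : ℝ := Real.log (2 + (al G k ‖G ξ‖).toReal)

theorem Ls_meas {G : V → ℂ} (hGm : Measurable G) (k : ℕ) : Measurable (Ls G k) :=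
  Real.measurable_log.comp (measurable_const.add
    (((al_anti G k).measurable.comp hGm.norm).ennreal_toReal))

theorem Ls_half (G : V → ℂ) (k : ℕ) (ξ : V) : 1 / 2 ≤ Ls G k ξ := by
  have h1 : (2 : ℝ) ≤ 2 + (al G k ‖G ξ‖).toReal := by
    have : 0 ≤ (al G k ‖G ξ‖).toReal := ENNReal.toReal_nonneg
    linarith
  have h2 := Real.log_le_log (by norm_num) h1
  have h3 := Real.log_two_gt_d9
  unfold Ls
  linarith

/-- the set where the additive size is at most `x` has additive size at most `x` -/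
theorem Sz_low (G : V → ℂ) (k : ℕ) (x : ℝ≥0∞) :
    Sz {ξ | ξ ∈ sh V k ∧ al G k ‖G ξ‖ ≤ x} ≤ x := by
  set D := {ξ | ξ ∈ sh V k ∧ al G k ‖G ξ‖ ≤ x} with hD
  rcases Set.eq_empty_or_nonempty D with h | h
  · rw [h]
    refine iSup_le fun z => ?_
    simp
  · by_cases hmin : ∃ ξ ∈ D, ∀ η ∈ D, ‖G ξ‖ ≤ ‖G η‖
    · obtain ⟨ξ, hξ, hη⟩ := hmin
      refine (Sz_mono (B := lev G k ‖G ξ‖) fun η h => ⟨h.1, hη η h⟩).trans hξ.2
    · have hmin' : ∀ ξ ∈ D, ∃ η ∈ D, ‖G η‖ < ‖G ξ‖ := by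
        intro ξ hξ
        by_contra hc
        refine hmin ⟨ξ, hξ, fun η hη => ?_⟩
        by_contra hlt
        exact hc ⟨η, hη, not_le.1 hlt⟩
      set I := (fun ξ => ‖G ξ‖) '' D with hI
      have hbdd : BddBelow I := ⟨0, by rintro _ ⟨ξ, _, rfl⟩; exact norm_nonneg _⟩
      have hne : I.Nonempty := h.image _
      set t0 := sInf I with ht0
      have hgt : ∀ ξ ∈ D, t0 < ‖G ξ‖ := by
        intro ξ hξ
        obtain ⟨η, hη, hlt⟩ := hmin' ξ hξ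
        exact (csInf_le hbdd ⟨η, hη, rfl⟩).trans_lt hlt
      have hsub : D ⊆ ⋃ m : ℕ, lev G k (t0 + 1 / ((m : ℝ) + 1)) := by
        intro ξ hξ
        have h1 := hgt ξ hξ
        obtain ⟨m, hm⟩ := exists_nat_one_div_lt (show 0 < ‖G ξ‖ - t0 by linarith)
        refine Set.mem_iUnion.2 ⟨m, hξ.1, ?_⟩
        linarith
      refine (Sz_mono hsub).trans (Sz_iUnion ?_ fun m => ?_)
      · intro m m' hmm ξ hξ
        refine ⟨hξ.1, le_trans ?_ hξ.2⟩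
        have : 1 / ((m' : ℝ) + 1) ≤ 1 / ((m : ℝ) + 1) :=
          one_div_le_one_div_of_le (by positivity) (by
            have : (m : ℝ) ≤ m' := by exact_mod_cast hmm
            linarith)
        linarith
      · have h1 : t0 < t0 + 1 / ((m : ℝ) + 1) := by
          have : (0 : ℝ) < 1 / ((m : ℝ) + 1) := by positivity
          linarith
        obtain ⟨_, ⟨ξ, hξ, rfl⟩, hlt⟩ := exists_lt_of_csInf_lt hne h1
        exact (al_anti G k hlt.le).trans hξ.2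

/-- the pieces -/
def EL (G : V → ℂ) (k i : ℕ) : Set V :=
  {ξ | ξ ∈ sh V k ∧ 2 ^ i ≤ 2 * Ls G k ξ ∧ Ls G k ξ ≤ 2 ^ i}

theorem EL_meas {G : V → ℂ} (hGm : Measurable G) (k i : ℕ) : MeasurableSet (EL G k i) := by
  refine MeasurableSet.inter (sh_meas k) (MeasurableSet.inter ?_ ?_)
  · exact measurableSet_le measurable_const ((Ls_meas hGm k).const_mul 2)
  · exact measurableSet_le (Ls_meas hGm k) measurable_const

theorem EL_size (G : V → ℂ) (k i : ℕ) : Sz (EL G k i) ≤ 16 ^ (2 ^ i) := by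
  have h1 : EL G k i ⊆ {ξ | ξ ∈ sh V k ∧ al G k ‖G ξ‖ ≤ 16 ^ (2 ^ i)} := by
    rintro ξ ⟨h1, _, h2⟩
    refine ⟨h1, ?_⟩
    have h3 : 0 < 2 + (al G k ‖G ξ‖).toReal := by
      have : 0 ≤ (al G k ‖G ξ‖).toReal := ENNReal.toReal_nonneg
      linarith
    have h4 : 2 + (al G k ‖G ξ‖).toReal ≤ Real.exp (2 ^ i) := (Real.log_le_iff_le_exp h3).1 h2
    have h5 : Real.exp (2 ^ i) ≤ 16 ^ (2 ^ i) := by
      have h6 : Real.exp (2 ^ i) = Real.exp 1 ^ (2 ^ i) := by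
        rw [← Real.exp_nat_mul, mul_one]
        push_cast
        rfl
      rw [h6]
      exact pow_le_pow_left₀ (Real.exp_pos _).le (by have := Real.exp_one_lt_d9; linarith) _
    have h7 : (al G k ‖G ξ‖).toReal ≤ 16 ^ (2 ^ i) := by linarith
    rw [← ENNReal.ofReal_toReal (al_fin G k ‖G ξ‖)]
    refine (ENNReal.ofReal_le_ofReal h7).trans (le_of_eq ?_)
    rw [ENNReal.ofReal_pow (by norm_num)]
    norm_num
  exact (Sz_mono h1).trans (Sz_low G k _)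

theorem EL_cov (k : ℕ) : ∃ I : ℕ, ∀ (G : V → ℂ), ∀ ξ ∈ sh V k, ∃ i < I, ξ ∈ EL G k i := by
  set M : ℝ := Real.log (2 + (volume (sh V k)).toReal) with hM
  obtain ⟨I, hI⟩ := exists_nat_ge (2 * M)
  refine ⟨I + 1, fun G ξ h => ?_⟩
  have h1 : Ls G k ξ ≤ M := by
    refine Real.log_le_log ?_ ?_
    · have : 0 ≤ (al G k ‖G ξ‖).toReal := ENNReal.toReal_nonneg
      linarith
    · have := ENNReal.toReal_mono (sh_fin (V := V) k).ne (al_le G k ‖G ξ‖)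
      linarith
  have h2 := Ls_half G k ξ
  have key : ∀ i : ℕ, (2 : ℝ) ^ i ≤ 2 * Ls G k ξ → i < I + 1 := by
    intro i hi
    have h3 : (2 : ℝ) ^ i ≤ I := by linarith
    have h4 : 2 ^ i ≤ I := by exact_mod_cast h3
    have h5 : i < 2 ^ i := Nat.lt_two_pow_self
    omega
  rcases le_or_gt (Ls G k ξ) 1 with h3 | h3
  · refine ⟨0, by omega, h, ?_, ?_⟩
    · rw [pow_zero]; linarith
    · rw [pow_zero]; exact h3
  · obtain ⟨n, hn1, hn2⟩ := exists_nat_pow_near h3.le (y := (2 : ℝ)) (by norm_num)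
    have h4 : (2 : ℝ) ^ (n + 1) ≤ 2 * Ls G k ξ := by rw [pow_succ]; linarith
    exact ⟨n + 1, key _ h4, h, h4, hn2.le⟩

/-- the weighted mass of a set -/
noncomputable def PL (s : ℝ) (G : V → ℂ) (k : ℕ) (A : Set V) : ℝ≥0∞ :=
  ∫⁻ ξ in A, ENNReal.ofReal (Ls G k ξ ^ s) * ‖G ξ‖ₑ ^ 2

theorem mass_PL {G : V → ℂ} {k : ℕ} {A : Set V} (hA : MeasurableSet A) {s c : ℝ} (hs : 0 ≤ s)
    (hc : 0 < c) (h : ∀ ξ ∈ A, c ≤ Ls G k ξ) :
    mass G A ≤ ENNReal.ofReal (c ^ (-(s / 2))) ^ 2 * PL s G k A := by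
  unfold mass PL
  rw [← lintegral_const_mul' _ _ (ENNReal.pow_ne_top ENNReal.ofReal_ne_top)]
  refine setLIntegral_mono' hA fun ξ hξ => ?_
  rw [← mul_assoc]
  refine le_mul_of_one_le_left zero_le ?_
  rw [← ENNReal.ofReal_pow (by positivity), ← ENNReal.ofReal_mul (by positivity),
    ENNReal.one_le_ofReal]
  have h1 : (c ^ (-(s / 2))) ^ 2 = c ^ (-s) := by
    rw [← Real.rpow_natCast, ← Real.rpow_mul hc.le]
    congr 1
    push_cast
    ring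
  rw [h1]
  have h2 : c ^ s ≤ Ls G k ξ ^ s := Real.rpow_le_rpow hc.le (h ξ hξ) hs
  have h3 : c ^ (-s) * c ^ s = 1 := by
    rw [← Real.rpow_add hc, neg_add_cancel, Real.rpow_zero]
  rw [← h3]
  exact mul_le_mul_of_nonneg_left h2 (by positivity)

theorem lev_cost {G : V → ℂ} (hGm : Measurable G) {ε : ℝ} (hε : 0 < ε) (k I : ℕ) :
    cost G k I (EL G k) (fun i => 2 ^ i) ≤
      2 * KA ε * PL (2 + ε) G k (sh V k) ^ (1 / (2 : ℝ)) := by
  set q : ℝ≥0∞ := ENNReal.ofReal (2 ^ (-(ε / 2))) with hq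
  have h1 : ∀ i : ℕ, ((1 + 2 ^ i : ℕ) : ℝ≥0∞) *
      (mass G (sh V k ∩ EL G k i)) ^ (1 / (2 : ℝ)) ≤
      2 * ENNReal.ofReal (2 ^ (1 + ε / 2)) *
        PL (2 + ε) G k (sh V k) ^ (1 / (2 : ℝ)) * q ^ i := by
    intro i
    have h2i : (0 : ℝ) < 2 ^ i / 2 := by positivity
    have h2 := mass_PL (G := G) (k := k) (A := sh V k ∩ EL G k i)
      ((sh_meas k).inter (EL_meas hGm k i)) (s := 2 + ε) (c := 2 ^ i / 2) (by linarith) h2i
      (fun ξ hξ => by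
        have := hξ.2.2.1
        linarith)
    have h3 : PL (2 + ε) G k (sh V k ∩ EL G k i) ≤ PL (2 + ε) G k (sh V k) :=
      lintegral_mono_set Set.inter_subset_left
    have h4 : (mass G (sh V k ∩ EL G k i)) ^ (1 / (2 : ℝ)) ≤
        ENNReal.ofReal ((2 ^ i / 2) ^ (-((2 + ε) / 2))) *
          PL (2 + ε) G k (sh V k) ^ (1 / (2 : ℝ)) := by
      rw [← sqrt_sq]
      exact ENNReal.rpow_le_rpow (h2.trans (mul_le_mul_right h3 _)) (by norm_num)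
    have h5 : ((1 + 2 ^ i : ℕ) : ℝ≥0∞) ≤ 2 * ENNReal.ofReal (2 ^ i) := by
      rw [ENNReal.ofReal_pow (by norm_num), ENNReal.ofReal_ofNat]
      have h6 : 1 + 2 ^ i ≤ 2 * 2 ^ i := by
        have h7 : 1 ≤ 2 ^ i := Nat.one_le_two_pow
        omega
      exact_mod_cast h6
    have h6 : ENNReal.ofReal (2 ^ i) * ENNReal.ofReal ((2 ^ i / 2) ^ (-((2 + ε) / 2))) =
        ENNReal.ofReal (2 ^ (1 + ε / 2)) * q ^ i := by
      rw [hq, ← ENNReal.ofReal_mul (by positivity), ← ENNReal.ofReal_pow (by positivity),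
        ← ENNReal.ofReal_mul (by positivity)]
      congr 1
      have h2p : (0 : ℝ) < 2 := by norm_num
      rw [← Real.rpow_natCast 2 i, ← Real.rpow_natCast _ i, ← Real.rpow_mul h2p.le]
      have e1 : (2 : ℝ) ^ (i : ℝ) / 2 = 2 ^ ((i : ℝ) - 1) := by
        rw [Real.rpow_sub h2p, Real.rpow_one]
      rw [e1, ← Real.rpow_mul h2p.le, ← Real.rpow_add h2p, ← Real.rpow_add h2p]
      congr 1
      ring
    calc ((1 + 2 ^ i : ℕ) : ℝ≥0∞) * (mass G (sh V k ∩ EL G k i)) ^ (1 / (2 : ℝ))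
        ≤ (2 * ENNReal.ofReal (2 ^ i)) *
          (ENNReal.ofReal ((2 ^ i / 2) ^ (-((2 + ε) / 2))) *
            PL (2 + ε) G k (sh V k) ^ (1 / (2 : ℝ))) := mul_le_mul' h5 h4
      _ = 2 * (ENNReal.ofReal (2 ^ i) *
          ENNReal.ofReal ((2 ^ i / 2) ^ (-((2 + ε) / 2)))) *
            PL (2 + ε) G k (sh V k) ^ (1 / (2 : ℝ)) := by ring
      _ = _ := by rw [h6]; ring
  unfold cost
  refine (Finset.sum_le_sum fun i _ => h1 i).trans ?_
  rw [← Finset.mul_sum]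
  refine (mul_le_mul_right ((ENNReal.sum_le_tsum _).trans (ENNReal.tsum_geometric q).le) _).trans
    (le_of_eq ?_)
  unfold KA
  ring

/-- the sum over the shells -/
noncomputable def PS (s : ℝ) (G : V → ℂ) : ℝ≥0∞ := ∑' k, PL s G k (sh V k)

theorem lev_sum {G : V → ℂ} (hGm : Measurable G) {ε : ℝ} (hε : 0 < ε) (I : ℕ → ℕ) :
    ∑' k, cost G k (I k) (EL G k) (fun i => 2 ^ i) ^ 2 ≤ (2 * KA ε) ^ 2 * PS (2 + ε) G := by
  unfold PS
  rw [← ENNReal.tsum_mul_left]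
  refine ENNReal.tsum_le_tsum fun k => (pow_le_pow_left' (lev_cost hGm hε k (I k)) 2).trans
    (le_of_eq ?_)
  rw [mul_pow, ← ENNReal.rpow_natCast (PL (2 + ε) G k (sh V k) ^ (1 / (2 : ℝ))),
    ← ENNReal.rpow_mul]
  norm_num

/-- almost everywhere convergence -/
theorem lev_conv [Nontrivial V] {G : V → ℂ} (hGm : Measurable G) (hG : MemLp G 2)
    (f : Lp ℂ 2 (volume : Measure V)) (hf : ((𝓕 f : Lp ℂ 2 (volume : Measure V)) : V → ℂ) =ᵐ[volume] G)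
    {ε : ℝ} (hε : 0 < ε) (hs : PS (2 + ε) G ≠ ⊤) :
    ∀ᵐ x, Tendsto (fun R : ℝ => T G (ba V R) x) atTop (𝓝 (f x)) := by
  choose I hI using EL_cov (V := V)
  refine gen_conv hGm hG f hf I (fun k => EL G k) (fun k => EL_meas hGm k)
    (fun k ξ h _ => hI k G ξ h) (fun _ i => 2 ^ i)
    (fun k i _ z => (le_iSup (fun z : V => volume (EL G k i ∩ {ξ | z - ξ ∈ EL G k i})) z).trans
      (EL_size G k i)) ?_
  refine ne_top_of_le_ne_top ?_ (lev_sum hGm hε I)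
  exact ENNReal.mul_ne_top (ENNReal.pow_ne_top (ENNReal.mul_ne_top (by norm_num)
    (KA_fin hε))) hs

/-- the maximal inequality -/
theorem lev_max [Nontrivial V] {ε : ℝ} (hε : 0 < ε) :
    ∃ C : ℝ≥0∞, C ≠ ⊤ ∧ ∀ (G : V → ℂ) (_ : Measurable G) (_ : MemLp G 2)
      (f : Lp ℂ 2 (volume : Measure V))
      (_ : ((𝓕 f : Lp ℂ 2 (volume : Measure V)) : V → ℂ) =ᵐ[volume] G)
      (B : Set V) (b : ℕ) (_ : volume B ≤ 16 ^ b),
      ∫⁻ x in B, MS G x ^ 2 ≤ C * (1 + b) ^ 2 * ((∫⁻ ξ, ‖G ξ‖ₑ ^ 2) + PS (2 + ε) G) := by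
  choose I hI using EL_cov (V := V)
  obtain ⟨v, hv⟩ : ∃ v : ℕ, volume (ba V 1) ≤ 16 ^ v := by
    obtain ⟨m, hm⟩ := ENNReal.exists_nat_gt (ba_fin (V := V) 1).ne
    refine ⟨m, hm.le.trans ?_⟩
    exact_mod_cast (Nat.lt_pow_self (by norm_num)).le
  set n := Module.finrank ℝ V with hn
  set K0 : ℝ≥0∞ := ((4 * v + 10 + 4 ^ (n + 3) : ℕ) : ℝ≥0∞) with hK0
  refine ⟨K0 ^ 2 * (2 * (1 + (2 * KA ε) ^ 2)), ENNReal.mul_ne_top (ENNReal.pow_ne_top
    (ENNReal.natCast_ne_top _)) (ENNReal.mul_ne_top (by norm_num) (ENNReal.add_ne_top.2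
      ⟨ENNReal.one_ne_top, ENNReal.pow_ne_top (ENNReal.mul_ne_top (by norm_num)
        (KA_fin hε))⟩)), ?_⟩
  intro G hGm hG f hf B b hB
  have h1 := gen_max hGm hG f hf I (fun k => EL G k) (fun k => EL_meas hGm k)
    (fun k ξ h _ => hI k G ξ h) (fun _ i => 2 ^ i)
    (fun k i _ z => (le_iSup (fun z : V => volume (EL G k i ∩ {ξ | z - ξ ∈ EL G k i})) z).trans
      (EL_size G k i)) hB hv
  have h5 : ((4 * (v + b) + 10 + 4 ^ (n + 3) : ℕ) : ℝ≥0∞) ≤ K0 * (1 + b) := by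
    rw [hK0]
    have : 4 * (v + b) + 10 + 4 ^ (n + 3) ≤ (4 * v + 10 + 4 ^ (n + 3)) * (1 + b) := by
      nlinarith [Nat.zero_le (v * b), Nat.zero_le (4 ^ (n + 3) * b)]
    exact_mod_cast this
  have h4 := pow_le_pow_left' (h1.trans (mul_le_mul' h5 le_rfl)) 2
  rw [nr_sq, mul_pow] at h4
  refine h4.trans ?_
  have h6 := sq_add_le (fn G)
    ((∑' k, cost G k (I k) (EL G k) (fun i => 2 ^ i) ^ 2) ^ (1 / (2 : ℝ)))
  have h7 : ((∑' k, cost G k (I k) (EL G k) (fun i => 2 ^ i) ^ 2) ^ (1 / (2 : ℝ))) ^ 2 ≤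
      (2 * KA ε) ^ 2 * PS (2 + ε) G := by
    refine le_trans (le_of_eq ?_) (lev_sum hGm hε I)
    rw [← ENNReal.rpow_natCast, ← ENNReal.rpow_mul]
    norm_num
  have h8 : fn G ^ 2 = ∫⁻ ξ, ‖G ξ‖ₑ ^ 2 := by rw [fn, nr_sq]
  rw [h8] at h6
  set m2 : ℝ≥0∞ := ∫⁻ ξ, ‖G ξ‖ₑ ^ 2 with hm2
  calc (K0 * (1 + b)) ^ 2 * (fn G +
        (∑' k, cost G k (I k) (EL G k) (fun i => 2 ^ i) ^ 2) ^ (1 / (2 : ℝ))) ^ 2
      ≤ (K0 * (1 + b)) ^ 2 * (2 * m2 + 2 * ((2 * KA ε) ^ 2 * PS (2 + ε) G)) :=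
        mul_le_mul_right (h6.trans (add_le_add le_rfl (mul_le_mul_right h7 _))) _
    _ ≤ (K0 * (1 + b)) ^ 2 * (2 * (1 + (2 * KA ε) ^ 2) * (m2 + PS (2 + ε) G)) := by
        refine mul_le_mul_right ?_ _
        have e : 2 * (1 + (2 * KA ε) ^ 2) * (m2 + PS (2 + ε) G) =
            (2 * m2 + 2 * ((2 * KA ε) ^ 2 * PS (2 + ε) G)) +
              (2 * PS (2 + ε) G + 2 * (2 * KA ε) ^ 2 * m2) := by ring
        rw [e]
        exact le_self_add
    _ = _ := by ring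

end Run7.h976.SP
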