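import Pool.Agent.Run7.h976.SP.Lv

/-!
The weight: the smaller one of the logarithms of the frequency and of the additive size.
-/

set_option autoImplicit false

namespace Run7.h976.SP

open MeasureTheory Filter Topology
open scoped FourierTransform ENNReal

variable {V : Type*} [NormedAddCommGroup V] [InnerProductSpace ℝ V] [FiniteDimensional ℝ V]
  [MeasurableSpace V] [BorelSpace V]

/-- the weight in the shell -/
noncomputable def Mn (s : ℝ) (G : V → ℂ) (k : ℕ) (ξ : V) : ℝ :=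
  min (Real.log (2 + ‖ξ‖) ^ 2) (Ls G k ξ ^ s)

/-- the weighted mass of a set -/
noncomputable def PM (s : ℝ) (G : V → ℂ) (k : ℕ) (A : Set V) : ℝ≥0∞ :=
  ∫⁻ ξ in A, ENNReal.ofReal (Mn s G k ξ) * ‖G ξ‖ₑ ^ 2

theorem mass_PM {G : V → ℂ} {k : ℕ} {A : Set V} (hA : MeasurableSet A) {s s' c : ℝ}
    (hc : 0 < c) (h : ∀ ξ ∈ A, c ^ s' ≤ Mn s G k ξ) :
    mass G A ≤ ENNReal.ofReal (c ^ (-(s' / 2))) ^ 2 * PM s G k A := by
  unfold mass PM
  rw [← lintegral_const_mul' _ _ (ENNReal.pow_ne_top ENNReal.ofReal_ne_top)]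
  refine setLIntegral_mono' hA fun ξ hξ => ?_
  rw [← mul_assoc]
  refine le_mul_of_one_le_left zero_le ?_
  rw [← ENNReal.ofReal_pow (by positivity), ← ENNReal.ofReal_mul (by positivity),
    ENNReal.one_le_ofReal]
  have h1 : (c ^ (-(s' / 2))) ^ 2 = c ^ (-s') := by
    rw [← Real.rpow_natCast, ← Real.rpow_mul hc.le]
    congr 1
    push_cast
    ring
  rw [h1]
  have h3 : c ^ (-s') * c ^ s' = 1 := by
    rw [← Real.rpow_add hc, neg_add_cancel, Real.rpow_zero]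
  rw [← h3]
  exact mul_le_mul_of_nonneg_left (h ξ hξ) (by positivity)

/-- the part of the shell where the frequency decides -/
def Hs (s : ℝ) (G : V → ℂ) (k : ℕ) : Set V :=
  {ξ | ξ ∈ sh V k ∧ Real.log (2 + ‖ξ‖) ^ 2 ≤ Ls G k ξ ^ s}

theorem Hs_meas {G : V → ℂ} (hGm : Measurable G) (s : ℝ) (k : ℕ) : MeasurableSet (Hs s G k) := by
  refine MeasurableSet.inter (sh_meas k) ?_
  exact measurableSet_le ((Real.measurable_log.comp (measurable_const.add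
    measurable_norm)).pow_const 2) ((Ls_meas hGm k).pow_const s)

/-- the cover of the shell -/
def EW (s : ℝ) (G : V → ℂ) (k : ℕ) : ℕ → Set V
  | 0 => Hs s G k
  | i + 1 => EL G k i ∩ (Hs s G k)ᶜ

/-- the costs -/
def jW (a k : ℕ) : ℕ → ℕ
  | 0 => a * (k + 1)
  | i + 1 => 2 ^ i

theorem EW_meas {G : V → ℂ} (hGm : Measurable G) (s : ℝ) (k i : ℕ) :
    MeasurableSet (EW s G k i) := by
  cases i with
  | zero => exact Hs_meas hGm s k
  | succ i => exact (EL_meas hGm k i).inter (Hs_meas hGm s k).compl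

theorem sh_vol {v : ℕ} (hv : volume (ba V 1) ≤ 16 ^ v) (k : ℕ) :
    volume (sh V k) ≤ 16 ^ ((v + Module.finrank ℝ V) * (k + 1)) := by
  have h1 : volume (sh V k) ≤ volume (ba V (2 ^ (k + 1))) := measure_mono Set.sdiff_subset
  refine h1.trans ?_
  rw [Measure.addHaar_closedBall _ _ (by positivity),
    ← Measure.addHaar_unitClosedBall_eq_addHaar_unitBall]
  have h2 : ENNReal.ofReal ((2 ^ (k + 1)) ^ Module.finrank ℝ V) ≤
      16 ^ (Module.finrank ℝ V * (k + 1)) := by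
    rw [sixteen]
    refine ENNReal.ofReal_le_ofReal ?_
    rw [← pow_mul, mul_comm]
    exact pow_le_pow_left₀ (by norm_num) (by norm_num) _
  calc ENNReal.ofReal ((2 ^ (k + 1)) ^ Module.finrank ℝ V) * volume (Metric.closedBall (0 : V) 1)
      ≤ 16 ^ (Module.finrank ℝ V * (k + 1)) * 16 ^ v := mul_le_mul' h2 hv
    _ = 16 ^ (Module.finrank ℝ V * (k + 1) + v) := (pow_add _ _ _).symm
    _ ≤ _ := pow_le_pow_right₀ (by norm_num) (by nlinarith [Nat.zero_le (v * k)])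

theorem EW_size {v : ℕ} (hv : volume (ba V 1) ≤ 16 ^ v) (s : ℝ) (G : V → ℂ) (k i : ℕ) :
    Sz (EW s G k i) ≤ 16 ^ (jW (v + Module.finrank ℝ V) k i) := by
  cases i with
  | zero => exact ((Sz_vol _).trans (measure_mono fun _ h => h.1)).trans (sh_vol hv k)
  | succ i => exact (Sz_mono Set.inter_subset_left).trans (EL_size G k i)

theorem EW_cov {s : ℝ} {G : V → ℂ} {k I : ℕ} (hI : ∀ ξ ∈ sh V k, ∃ i < I, ξ ∈ EL G k i) :
    ∀ ξ ∈ sh V k, ∃ i < I + 1, ξ ∈ EW s G k i := by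
  intro ξ h
  by_cases hH : ξ ∈ Hs s G k
  · exact ⟨0, by omega, hH⟩
  · obtain ⟨i, hi, hi2⟩ := hI ξ h
    exact ⟨i + 1, by omega, hi2, hH⟩

omit [InnerProductSpace ℝ V] [FiniteDimensional ℝ V] [MeasurableSpace V] [BorelSpace V] in
theorem log_shell {k : ℕ} {ξ : V} (h : ξ ∈ sh V k) : ((k : ℝ) + 1) / 3 ≤ Real.log (2 + ‖ξ‖) := by
  have h1 : 2 ^ k ≤ ‖ξ‖ := by
    have := h.2
    rw [mem_closedBall_zero_iff, not_le] at this
    exact this.le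
  have h2l := Real.log_two_gt_d9
  have h2 : Real.log (2 ^ k) ≤ Real.log (2 + ‖ξ‖) :=
    Real.log_le_log (by positivity) (by linarith)
  have h3 : Real.log 2 ≤ Real.log (2 + ‖ξ‖) :=
    Real.log_le_log (by norm_num) (by have := norm_nonneg ξ; linarith)
  rw [Real.log_pow] at h2
  have hk : (0 : ℝ) ≤ k := Nat.cast_nonneg k
  have h4 : (k : ℝ) * (69 / 100) ≤ k * Real.log 2 := mul_le_mul_of_nonneg_left (by linarith) hk
  linarith

theorem w_cost {G : V → ℂ} (hGm : Measurable G) {ε : ℝ} (hε : 0 < ε) (a k I : ℕ) :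
    cost G k (I + 1) (EW (2 + ε) G k) (jW a k) ≤
      (((3 * (a + 1) : ℕ) : ℝ≥0∞) + 2 * KA ε) * PM (2 + ε) G k (sh V k) ^ (1 / (2 : ℝ)) := by
  set q : ℝ≥0∞ := ENNReal.ofReal (2 ^ (-(ε / 2))) with hq
  have hPM : ∀ A : Set V, A ⊆ sh V k → PM (2 + ε) G k A ≤ PM (2 + ε) G k (sh V k) :=
    fun A hA => lintegral_mono_set hA
  have h0 : ((1 + jW a k 0 : ℕ) : ℝ≥0∞) * (mass G (sh V k ∩ EW (2 + ε) G k 0)) ^ (1 / (2 : ℝ)) ≤
      ((3 * (a + 1) : ℕ) : ℝ≥0∞) * PM (2 + ε) G k (sh V k) ^ (1 / (2 : ℝ)) := by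
    have hc : (0 : ℝ) < ((k : ℝ) + 1) / 3 := by positivity
    have h2 := mass_PM (G := G) (k := k) (s := 2 + ε) (s' := 2) (c := ((k : ℝ) + 1) / 3)
      (A := sh V k ∩ EW (2 + ε) G k 0) ((sh_meas k).inter (EW_meas hGm _ k 0)) hc
      (fun ξ hξ => by
        have h3 : Real.log (2 + ‖ξ‖) ^ 2 ≤ Ls G k ξ ^ (2 + ε) := hξ.2.2
        have h4 := log_shell hξ.1
        rw [Mn, min_eq_left h3, Real.rpow_ofNat]
        exact pow_le_pow_left₀ hc.le h4 2)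
    have h3 := hPM (sh V k ∩ EW (2 + ε) G k 0) Set.inter_subset_left
    have h4 : (mass G (sh V k ∩ EW (2 + ε) G k 0)) ^ (1 / (2 : ℝ)) ≤
        ENNReal.ofReal ((((k : ℝ) + 1) / 3) ^ (-(2 / 2) : ℝ)) *
          PM (2 + ε) G k (sh V k) ^ (1 / (2 : ℝ)) := by
      rw [← sqrt_sq]
      exact ENNReal.rpow_le_rpow (h2.trans (mul_le_mul_right h3 _)) (by norm_num)
    refine (mul_le_mul_right h4 _).trans ?_
    rw [← mul_assoc]
    refine mul_le_mul_left ?_ _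
    have e : (((k : ℝ) + 1) / 3) ^ (-(2 / 2) : ℝ) = 3 / ((k : ℝ) + 1) := by
      rw [show (-(2 / 2) : ℝ) = -1 by norm_num, Real.rpow_neg_one, inv_div]
    rw [e, ← ENNReal.ofReal_natCast, ← ENNReal.ofReal_natCast (3 * (a + 1)),
      ← ENNReal.ofReal_mul (by positivity)]
    refine ENNReal.ofReal_le_ofReal ?_
    have hk : (0 : ℝ) < (k : ℝ) + 1 := by positivity
    rw [mul_div_assoc', div_le_iff₀ hk]
    simp only [jW]
    push_cast
    nlinarith [mul_nonneg (Nat.cast_nonneg (α := ℝ) a) hk.le, Nat.cast_nonneg (α := ℝ) k]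
  have h1 : ∀ i : ℕ, ((1 + jW a k (i + 1) : ℕ) : ℝ≥0∞) *
      (mass G (sh V k ∩ EW (2 + ε) G k (i + 1))) ^ (1 / (2 : ℝ)) ≤
      2 * ENNReal.ofReal (2 ^ (1 + ε / 2)) *
        PM (2 + ε) G k (sh V k) ^ (1 / (2 : ℝ)) * q ^ i := by
    intro i
    have h2i : (0 : ℝ) < 2 ^ i / 2 := by positivity
    have h2 := mass_PM (G := G) (k := k) (s := 2 + ε) (s' := 2 + ε) (c := 2 ^ i / 2)
      (A := sh V k ∩ EW (2 + ε) G k (i + 1)) ((sh_meas k).inter (EW_meas hGm _ k _)) h2i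
      (fun ξ hξ => by
        have h3 : 2 ^ i ≤ 2 * Ls G k ξ := hξ.2.1.2.1
        have h4 : ¬ (Real.log (2 + ‖ξ‖) ^ 2 ≤ Ls G k ξ ^ (2 + ε)) := fun h =>
          hξ.2.2 ⟨hξ.1, h⟩
        rw [Mn, min_eq_right (not_le.1 h4).le]
        exact Real.rpow_le_rpow h2i.le (by linarith) (by linarith))
    have h3 := hPM (sh V k ∩ EW (2 + ε) G k (i + 1)) Set.inter_subset_left
    have h4 : (mass G (sh V k ∩ EW (2 + ε) G k (i + 1))) ^ (1 / (2 : ℝ)) ≤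
        ENNReal.ofReal ((2 ^ i / 2) ^ (-((2 + ε) / 2))) *
          PM (2 + ε) G k (sh V k) ^ (1 / (2 : ℝ)) := by
      rw [← sqrt_sq]
      exact ENNReal.rpow_le_rpow (h2.trans (mul_le_mul_right h3 _)) (by norm_num)
    have h5 : ((1 + jW a k (i + 1) : ℕ) : ℝ≥0∞) ≤ 2 * ENNReal.ofReal (2 ^ i) := by
      rw [ENNReal.ofReal_pow (by norm_num), ENNReal.ofReal_ofNat]
      have h6 : 1 + jW a k (i + 1) ≤ 2 * 2 ^ i := by
        have h7 : 1 ≤ 2 ^ i := Nat.one_le_two_pow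
        simp only [jW]
        omega
      exact_mod_cast h6
    have h6 : ENNReal.ofReal (2 ^ i) * ENNReal.ofReal ((2 ^ i / 2) ^ (-((2 + ε) / 2))) =
        ENNReal.ofReal (2 ^ (1 + ε / 2)) * q ^ i := by
      rw [hq, ← ENNReal.ofReal_mul (by positivity), ← ENNReal.ofReal_pow (by positivity),
        ← ENNReal.ofReal_mul (by positivity)]
      congr 1
      have h2p : (0 : ℝ) < 2 := by norm_num
      rw [← Real.rpow_natCast 2 i, ← Real.rpow_natCast _ i, ← Real.rpow_mul h2p.le]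
      have e1 : (2 : ℝ) ^ (i : ℝ) / 2 = 2 ^ ((i : ℝ) - 1) := by
        rw [Real.rpow_sub h2p, Real.rpow_one]
      rw [e1, ← Real.rpow_mul h2p.le, ← Real.rpow_add h2p, ← Real.rpow_add h2p]
      congr 1
      ring
    calc ((1 + jW a k (i + 1) : ℕ) : ℝ≥0∞) *
          (mass G (sh V k ∩ EW (2 + ε) G k (i + 1))) ^ (1 / (2 : ℝ))
        ≤ (2 * ENNReal.ofReal (2 ^ i)) *
          (ENNReal.ofReal ((2 ^ i / 2) ^ (-((2 + ε) / 2))) *
            PM (2 + ε) G k (sh V k) ^ (1 / (2 : ℝ))) := mul_le_mul' h5 h4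
      _ = 2 * (ENNReal.ofReal (2 ^ i) *
          ENNReal.ofReal ((2 ^ i / 2) ^ (-((2 + ε) / 2)))) *
            PM (2 + ε) G k (sh V k) ^ (1 / (2 : ℝ)) := by ring
      _ = _ := by rw [h6]; ring
  unfold cost
  rw [Finset.sum_range_succ', add_comm, add_mul]
  refine add_le_add h0 ?_
  refine (Finset.sum_le_sum fun i _ => h1 i).trans ?_
  rw [← Finset.mul_sum]
  refine (mul_le_mul_right ((ENNReal.sum_le_tsum _).trans (ENNReal.tsum_geometric q).le) _).trans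
    (le_of_eq ?_)
  unfold KA
  ring

/-- the sum over the shells -/
noncomputable def PT (s : ℝ) (G : V → ℂ) : ℝ≥0∞ := ∑' k, PM s G k (sh V k)

theorem w_sum {G : V → ℂ} (hGm : Measurable G) {ε : ℝ} (hε : 0 < ε) (a : ℕ) (I : ℕ → ℕ) :
    ∑' k, cost G k (I k + 1) (EW (2 + ε) G k) (jW a k) ^ 2 ≤
      (((3 * (a + 1) : ℕ) : ℝ≥0∞) + 2 * KA ε) ^ 2 * PT (2 + ε) G := by
  unfold PT
  rw [← ENNReal.tsum_mul_left]
  refine ENNReal.tsum_le_tsum fun k => (pow_le_pow_left' (w_cost hGm hε a k (I k)) 2).trans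
    (le_of_eq ?_)
  rw [mul_pow, ← ENNReal.rpow_natCast (PM (2 + ε) G k (sh V k) ^ (1 / (2 : ℝ))),
    ← ENNReal.rpow_mul]
  norm_num

theorem unit_vol : ∃ v : ℕ, volume (ba V 1) ≤ 16 ^ v := by
  obtain ⟨m, hm⟩ := ENNReal.exists_nat_gt (ba_fin (V := V) 1).ne
  refine ⟨m, hm.le.trans ?_⟩
  exact_mod_cast (Nat.lt_pow_self (by norm_num)).le

/-- almost everywhere convergence -/
theorem w_conv [Nontrivial V] {G : V → ℂ} (hGm : Measurable G) (hG : MemLp G 2)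
    (f : Lp ℂ 2 (volume : Measure V)) (hf : ((𝓕 f : Lp ℂ 2 (volume : Measure V)) : V → ℂ) =ᵐ[volume] G)
    {ε : ℝ} (hε : 0 < ε) (hs : PT (2 + ε) G ≠ ⊤) :
    ∀ᵐ x, Tendsto (fun R : ℝ => T G (ba V R) x) atTop (𝓝 (f x)) := by
  choose I hI using EL_cov (V := V)
  obtain ⟨v, hv⟩ := unit_vol (V := V)
  refine gen_conv hGm hG f hf (fun k => I k + 1) (fun k => EW (2 + ε) G k)
    (fun k => EW_meas hGm _ k) (fun k ξ h _ => EW_cov (fun ξ h => hI k G ξ h) ξ h)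
    (fun k => jW (v + Module.finrank ℝ V) k)
    (fun k i _ z => (le_iSup (fun z : V => volume (EW (2 + ε) G k i ∩
      {ξ | z - ξ ∈ EW (2 + ε) G k i})) z).trans (EW_size hv _ G k i)) ?_
  refine ne_top_of_le_ne_top ?_ (w_sum hGm hε _ I)
  exact ENNReal.mul_ne_top (ENNReal.pow_ne_top (ENNReal.add_ne_top.2 ⟨ENNReal.natCast_ne_top _,
    ENNReal.mul_ne_top (by norm_num) (KA_fin hε)⟩)) hs

/-- the maximal inequality -/
theorem w_max [Nontrivial V] {ε : ℝ} (hε : 0 < ε) :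
    ∃ C : ℝ≥0∞, C ≠ ⊤ ∧ ∀ (G : V → ℂ) (_ : Measurable G) (_ : MemLp G 2)
      (f : Lp ℂ 2 (volume : Measure V))
      (_ : ((𝓕 f : Lp ℂ 2 (volume : Measure V)) : V → ℂ) =ᵐ[volume] G)
      (B : Set V) (b : ℕ) (_ : volume B ≤ 16 ^ b),
      ∫⁻ x in B, MS G x ^ 2 ≤ C * (1 + b) ^ 2 * ((∫⁻ ξ, ‖G ξ‖ₑ ^ 2) + PT (2 + ε) G) := by
  choose I hI using EL_cov (V := V)
  obtain ⟨v, hv⟩ := unit_vol (V := V)
  set n := Module.finrank ℝ V with hn
  set K0 : ℝ≥0∞ := ((4 * v + 10 + 4 ^ (n + 3) : ℕ) : ℝ≥0∞) with hK0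
  set K1 : ℝ≥0∞ := ((3 * (v + n + 1) : ℕ) : ℝ≥0∞) + 2 * KA ε with hK1
  have hK1t : K1 ≠ ⊤ := ENNReal.add_ne_top.2 ⟨ENNReal.natCast_ne_top _,
    ENNReal.mul_ne_top (by norm_num) (KA_fin hε)⟩
  refine ⟨K0 ^ 2 * (2 * (1 + K1 ^ 2)), ENNReal.mul_ne_top (ENNReal.pow_ne_top
    (ENNReal.natCast_ne_top _)) (ENNReal.mul_ne_top (by norm_num) (ENNReal.add_ne_top.2
      ⟨ENNReal.one_ne_top, ENNReal.pow_ne_top hK1t⟩)), ?_⟩
  intro G hGm hG f hf B b hB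
  have h1 := gen_max hGm hG f hf (fun k => I k + 1) (fun k => EW (2 + ε) G k)
    (fun k => EW_meas hGm _ k) (fun k ξ h _ => EW_cov (fun ξ h => hI k G ξ h) ξ h)
    (fun k => jW (v + n) k)
    (fun k i _ z => (le_iSup (fun z : V => volume (EW (2 + ε) G k i ∩
      {ξ | z - ξ ∈ EW (2 + ε) G k i})) z).trans (EW_size hv _ G k i)) hB hv
  have h5 : ((4 * (v + b) + 10 + 4 ^ (n + 3) : ℕ) : ℝ≥0∞) ≤ K0 * (1 + b) := by
    rw [hK0]
    have : 4 * (v + b) + 10 + 4 ^ (n + 3) ≤ (4 * v + 10 + 4 ^ (n + 3)) * (1 + b) := by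
      nlinarith [Nat.zero_le (v * b), Nat.zero_le (4 ^ (n + 3) * b)]
    exact_mod_cast this
  set Y : ℝ≥0∞ := ∑' k, cost G k (I k + 1) (EW (2 + ε) G k) (jW (v + n) k) ^ 2 with hY
  have h4 := pow_le_pow_left' (h1.trans (mul_le_mul' h5 le_rfl)) 2
  rw [nr_sq, mul_pow] at h4
  refine h4.trans ?_
  have h6 := sq_add_le (fn G) (Y ^ (1 / (2 : ℝ)))
  have h7 : (Y ^ (1 / (2 : ℝ))) ^ 2 ≤ K1 ^ 2 * PT (2 + ε) G := by
    refine le_trans (le_of_eq ?_) (w_sum hGm hε (v + n) I)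
    rw [← ENNReal.rpow_natCast, ← ENNReal.rpow_mul]
    norm_num
    rfl
  have h8 : fn G ^ 2 = ∫⁻ ξ, ‖G ξ‖ₑ ^ 2 := by rw [fn, nr_sq]
  rw [h8] at h6
  set m2 : ℝ≥0∞ := ∫⁻ ξ, ‖G ξ‖ₑ ^ 2 with hm2
  calc (K0 * (1 + b)) ^ 2 * (fn G + Y ^ (1 / (2 : ℝ))) ^ 2
      ≤ (K0 * (1 + b)) ^ 2 * (2 * m2 + 2 * (K1 ^ 2 * PT (2 + ε) G)) :=
        mul_le_mul_right (h6.trans (add_le_add le_rfl (mul_le_mul_right h7 _))) _
    _ ≤ (K0 * (1 + b)) ^ 2 * (2 * (1 + K1 ^ 2) * (m2 + PT (2 + ε) G)) := by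
        refine mul_le_mul_right ?_ _
        have e : 2 * (1 + K1 ^ 2) * (m2 + PT (2 + ε) G) =
            (2 * m2 + 2 * (K1 ^ 2 * PT (2 + ε) G)) +
              (2 * PT (2 + ε) G + 2 * K1 ^ 2 * m2) := by ring
        rw [e]
        exact le_self_add
    _ = _ := by ring

end Run7.h976.SP
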