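import Pool.Agent.Run7.h976.SP.Tr

/-!
The multiplier of the averages over balls.
-/

set_option autoImplicit false

namespace Run7.h976.SP

open MeasureTheory Filter Topology
open scoped FourierTransform ENNReal

variable {V : Type*} [NormedAddCommGroup V] [InnerProductSpace ℝ V] [FiniteDimensional ℝ V]
  [MeasurableSpace V] [BorelSpace V]

/-- the character -/
noncomputable def ch (ξ y : V) : ℂ := (Real.fourierChar (inner ℝ ξ y) : ℂ)

omit [FiniteDimensional ℝ V] [MeasurableSpace V] [BorelSpace V] in
theorem ch_norm (ξ y : V) : ‖ch ξ y‖ = 1 := by unfold ch; rw [Circle.norm_coe]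

omit [FiniteDimensional ℝ V] [MeasurableSpace V] [BorelSpace V] in
theorem ch_add (ξ x y : V) : ch ξ (x + y) = ch ξ x * ch ξ y := by
  unfold ch
  rw [inner_add_right, AddChar.map_add_eq_mul, Circle.coe_mul]

omit [FiniteDimensional ℝ V] [MeasurableSpace V] [BorelSpace V] in
theorem ch_cont : Continuous fun p : V × V => ch p.1 p.2 := by
  unfold ch
  exact continuous_subtype_val.comp (Real.continuous_fourierChar.comp continuous_inner)

omit [FiniteDimensional ℝ V] [MeasurableSpace V] [BorelSpace V] in
theorem ch_near (ξ y : V) : ‖1 - ch ξ y‖ ≤ 2 * Real.pi * (‖ξ‖ * ‖y‖) := by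
  have h1 := Real.norm_exp_I_mul_ofReal_sub_one_le (x := 2 * Real.pi * inner ℝ ξ y)
  have e : ch ξ y = Complex.exp (Complex.I * (2 * Real.pi * inner ℝ ξ y : ℝ)) := by
    unfold ch
    rw [Real.fourierChar_apply, mul_comm]
  rw [norm_sub_rev, e]
  refine h1.trans ?_
  rw [Real.norm_eq_abs, abs_mul, abs_of_nonneg (by positivity)]
  exact mul_le_mul_of_nonneg_left (abs_real_inner_le_norm ξ y) (by positivity)

/-- the average of the character over the ball of radius `r` -/
noncomputable def mm (r : ℝ) (ξ : V) : ℂ :=
  (volume.real (Metric.closedBall (0 : V) r))⁻¹ • ∫ y in Metric.closedBall (0 : V) r, ch ξ y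

theorem vol_pos {r : ℝ} (hr : 0 < r) (x : V) : 0 < volume.real (Metric.closedBall x r) :=
  ENNReal.toReal_pos (Metric.measure_closedBall_pos _ _ hr).ne' measure_closedBall_lt_top.ne

theorem ball_shift (φ : V → ℂ) (x c : V) (r : ℝ) :
    ∫ y in Metric.closedBall (x + c) r, φ y = ∫ y in Metric.closedBall c r, φ (x + y) := by
  rw [← integral_indicator Metric.isClosed_closedBall.measurableSet,
    ← integral_indicator Metric.isClosed_closedBall.measurableSet,
    ← integral_add_left_eq_self _ x]
  refine integral_congr_ae (Eventually.of_forall fun y => ?_)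
  by_cases h : y ∈ Metric.closedBall c r
  · simp only
    rw [Set.indicator_of_mem h, Set.indicator_of_mem]
    rw [mem_closedBall_iff_norm] at h ⊢
    rwa [add_sub_add_left_eq_sub]
  · simp only
    rw [Set.indicator_of_notMem h, Set.indicator_of_notMem]
    rw [mem_closedBall_iff_norm] at h ⊢
    rwa [add_sub_add_left_eq_sub]

theorem ch_int (ξ : V) (c : V) (r : ℝ) : IntegrableOn (ch ξ) (Metric.closedBall c r) :=
  (ch_cont.comp (continuous_const.prodMk continuous_id)).continuousOn.integrableOn_compact
    (isCompact_closedBall c r)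

theorem avg_ch {r : ℝ} (ξ x : V) :
    (volume.real (Metric.closedBall x r))⁻¹ • ∫ y in Metric.closedBall x r, ch ξ y =
      ch ξ x * mm r ξ := by
  have h1 := ball_shift (ch ξ) x 0 r
  rw [add_zero] at h1
  rw [h1]
  have h2 : volume.real (Metric.closedBall x r) = volume.real (Metric.closedBall (0 : V) r) := by
    rw [measureReal_def, measureReal_def, Measure.addHaar_closedBall_center]
  rw [h2, mm]
  simp_rw [ch_add]
  rw [integral_const_mul, mul_smul_comm]

theorem mm_cont (r : ℝ) : Continuous (mm (V := V) r) := by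
  have h : Continuous fun ξ : V => ∫ y in Metric.closedBall (0 : V) r, ch ξ y :=
    continuous_parametric_integral_of_continuous (μ := (volume : Measure V))
      (f := fun ξ y : V => ch ξ y) ch_cont (isCompact_closedBall (0 : V) r)
  exact h.const_smul ((volume.real (Metric.closedBall (0 : V) r))⁻¹)

theorem mm_one {r : ℝ} (hr : 0 < r) (ξ : V) : ‖mm r ξ‖ ≤ 1 := by
  unfold mm
  have h1 := norm_setIntegral_le_of_norm_le_const (μ := (volume : Measure V))
    (s := Metric.closedBall (0 : V) r) (f := ch ξ) (C := 1) measure_closedBall_lt_top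
    (fun y _ => (ch_norm ξ y).le)
  have h2 := vol_pos (V := V) hr 0
  rw [norm_smul, norm_inv, Real.norm_of_nonneg h2.le, inv_mul_le_iff₀ h2]
  linarith

theorem mm_near {r : ℝ} (hr : 0 < r) (ξ : V) : ‖1 - mm r ξ‖ ≤ 2 * Real.pi * (r * ‖ξ‖) := by
  have h2 := vol_pos (V := V) hr 0
  have h3 : (1 : ℂ) - mm r ξ = (volume.real (Metric.closedBall (0 : V) r))⁻¹ •
      ∫ y in Metric.closedBall (0 : V) r, (1 - ch ξ y) := by
    have hc : IntegrableOn (fun _ : V => (1 : ℂ)) (Metric.closedBall (0 : V) r) :=
      continuousOn_const.integrableOn_compact (isCompact_closedBall _ _)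
    rw [integral_sub hc (ch_int ξ 0 r), smul_sub, mm]
    congr 1
    rw [setIntegral_const, ← smul_assoc, smul_eq_mul, inv_mul_cancel₀ h2.ne', one_smul]
  have h1 := norm_setIntegral_le_of_norm_le_const (μ := (volume : Measure V))
    (s := Metric.closedBall (0 : V) r) (f := fun y => 1 - ch ξ y)
    (C := 2 * Real.pi * (r * ‖ξ‖)) measure_closedBall_lt_top
    (fun y hy => (ch_near ξ y).trans (by
      rw [mem_closedBall_zero_iff] at hy
      rw [mul_comm r]
      gcongr))
  rw [h3, norm_smul, norm_inv, Real.norm_of_nonneg h2.le, inv_mul_le_iff₀ h2]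
  linarith

theorem mm_far [Nontrivial V] {r : ℝ} (hr : 0 < r) {ξ : V} (hξ : ξ ≠ 0) :
    ‖mm r ξ‖ ≤ Module.finrank ℝ V / (2 * (r * ‖ξ‖)) := by
  have hn : 0 < ‖ξ‖ := norm_pos_iff.2 hξ
  have hd : (1 : ℝ) ≤ Module.finrank ℝ V := by exact_mod_cast Module.finrank_pos
  rcases lt_or_ge (2 * (r * ‖ξ‖)) 1 with hlt | hge
  · refine (mm_one hr ξ).trans ?_
    rw [le_div_iff₀ (by positivity)]
    linarith
  · set s : ℝ := 1 / (2 * ‖ξ‖) with hs
    have hs0 : 0 < s := by positivity
    have hsr : s ≤ r := by
      rw [hs, div_le_iff₀ (by positivity)]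
      linarith
    set h : V := (1 / (2 * ‖ξ‖ ^ 2)) • ξ with hh
    have hhn : ‖h‖ = s := by
      rw [hh, norm_smul, Real.norm_of_nonneg (by positivity), hs]
      field_simp
    have hin : inner ℝ ξ h = (1 / 2 : ℝ) := by
      rw [hh, inner_smul_right, real_inner_self_eq_norm_sq]
      field_simp
    have hch : ch ξ h = -1 := by
      unfold ch
      rw [hin, Real.fourierChar_apply]
      have : (((2 * Real.pi * (1 / 2) : ℝ) : ℂ)) * Complex.I = Real.pi * Complex.I := by
        push_cast; ring
      rw [this, Complex.exp_pi_mul_I]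
    set A := Metric.closedBall (0 : V) r with hA
    set B := Metric.closedBall h r with hB
    set C := Metric.closedBall (0 : V) (r - s) with hC
    have h1 : ∫ y in B, ch ξ y = - ∫ y in A, ch ξ y := by
      have := ball_shift (ch ξ) h 0 r
      rw [add_zero] at this
      rw [hB, this]
      simp_rw [ch_add, hch]
      rw [integral_const_mul, neg_one_mul]
    have hCA : C ⊆ A := Metric.closedBall_subset_closedBall (by linarith)
    have hCB : C ⊆ B := by
      refine Metric.closedBall_subset_closedBall' ?_
      rw [dist_comm, dist_zero_right, hhn]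
      linarith
    have hCm : MeasurableSet C := Metric.isClosed_closedBall.measurableSet
    have hvol : ∀ D : Set V, MeasurableSet D → C ⊆ D → volume D < ⊤ → IntegrableOn (ch ξ) D →
        ‖(∫ y in D, ch ξ y) - ∫ y in C, ch ξ y‖ ≤ volume.real D - volume.real C := by
      intro D hD hCD hDf hint
      rw [← setIntegral_sdiff hCm hint hCD]
      have h3 := norm_setIntegral_le_of_norm_le_const (μ := (volume : Measure V))
        (s := D \ C) (f := ch ξ) (C := 1) ((measure_mono Set.sdiff_subset).trans_lt hDf)
        (fun y _ => (ch_norm ξ y).le)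
      rw [one_mul, measureReal_sdiff hCD hCm (by exact hDf.ne)] at h3
      exact h3
    have hvA := hvol A Metric.isClosed_closedBall.measurableSet hCA measure_closedBall_lt_top
      (ch_int ξ 0 r)
    have hvB := hvol B Metric.isClosed_closedBall.measurableSet hCB measure_closedBall_lt_top
      (ch_int ξ h r)
    have e1 : volume.real A = r ^ Module.finrank ℝ V * volume.real (Metric.ball (0 : V) 1) :=
      Measure.addHaar_real_closedBall _ _ hr.le
    have e2 : volume.real B = r ^ Module.finrank ℝ V * volume.real (Metric.ball (0 : V) 1) :=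
      Measure.addHaar_real_closedBall _ _ hr.le
    have e3 : volume.real C = (r - s) ^ Module.finrank ℝ V * volume.real (Metric.ball (0 : V) 1) :=
      Measure.addHaar_real_closedBall _ _ (by linarith)
    have hv1 : 0 < volume.real (Metric.ball (0 : V) 1) :=
      ENNReal.toReal_pos (Metric.measure_ball_pos _ _ one_pos).ne' measure_ball_lt_top.ne
    have hAv := vol_pos (V := V) hr 0
    have h4 : ‖∫ y in A, ch ξ y‖ ≤ volume.real A - volume.real C := by
      have h5 : ‖(∫ y in A, ch ξ y) - ∫ y in B, ch ξ y‖ ≤
          (volume.real A - volume.real C) + (volume.real B - volume.real C) := by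
        have := norm_sub_le ((∫ y in A, ch ξ y) - ∫ y in C, ch ξ y)
          ((∫ y in B, ch ξ y) - ∫ y in C, ch ξ y)
        rw [sub_sub_sub_cancel_right] at this
        exact this.trans (add_le_add hvA hvB)
      rw [h1, sub_neg_eq_add, ← two_mul, norm_mul, Complex.norm_ofNat] at h5
      have : volume.real B = volume.real A := by rw [e1, e2]
      rw [this] at h5
      linarith
    have h6 : 1 - Module.finrank ℝ V * (s / r) ≤ (1 - s / r) ^ Module.finrank ℝ V := by
      have h7 : s / r ≤ 1 := (div_le_one hr).2 hsr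
      have := one_add_mul_le_pow (a := -(s / r)) (by linarith) (Module.finrank ℝ V)
      have h8 : (1 + -(s / r)) = 1 - s / r := by ring
      rw [h8] at this
      linarith
    have h7 : (r - s) ^ Module.finrank ℝ V = r ^ Module.finrank ℝ V *
        (1 - s / r) ^ Module.finrank ℝ V := by
      rw [← mul_pow]
      congr 1
      field_simp
    unfold mm
    rw [norm_smul, norm_inv, Real.norm_of_nonneg hAv.le, inv_mul_le_iff₀ hAv]
    refine h4.trans ?_
    rw [e3, h7, ← hA, e1]
    have h8 : (Module.finrank ℝ V : ℝ) / (2 * (r * ‖ξ‖)) = Module.finrank ℝ V * (s / r) := by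
      rw [hs]
      field_simp
    rw [h8]
    have h9 : 0 < r ^ Module.finrank ℝ V * volume.real (Metric.ball (0 : V) 1) := by positivity
    nlinarith [mul_le_mul_of_nonneg_left h6 h9.le]

end Run7.h976.SP
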