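import Pool.Agent.Run7.h976.SP.No

/-!
The maximal inequalities.
-/

set_option autoImplicit false

namespace Run7.h976.SP

open MeasureTheory Filter Topology
open scoped FourierTransform ENNReal

variable {V : Type*} [NormedAddCommGroup V] [InnerProductSpace ℝ V] [FiniteDimensional ℝ V]
  [MeasurableSpace V] [BorelSpace V]

/-- the maximal function over the radii up to `N` -/
noncomputable def MX (G : V → ℂ) (N : ℝ) (x : V) : ℝ≥0∞ :=
  ⨆ (R : ℝ) (_ : R ≤ N), ‖T G (ba V R) x‖ₑ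

/-- the maximal function -/
noncomputable def MS (G : V → ℂ) (x : V) : ℝ≥0∞ := ⨆ R : ℝ, ‖T G (ba V R) x‖ₑ

theorem MX_meas {G : V → ℂ} (hG : MemLp G 2) (N : ℝ) : Measurable (MX G N) := by
  have : LowerSemicontinuous (MX G N) := by
    unfold MX
    exact lowerSemicontinuous_biSup fun R _ =>
      (T_cont hG (ba_meas R) (ba_fin R)).enorm.lowerSemicontinuous
  exact this.measurable

theorem MX_mono (G : V → ℂ) : Monotone fun (N : ℕ) => MX G (N : ℝ) := by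
  intro M N h x
  exact iSup₂_le fun R hR => le_iSup₂_of_le R (hR.trans (by exact_mod_cast h)) le_rfl

theorem MS_eq (G : V → ℂ) (x : V) : MS G x = ⨆ N : ℕ, MX G (N : ℝ) x := by
  apply le_antisymm
  · refine iSup_le fun R => ?_
    obtain ⟨N, hN⟩ := exists_nat_ge R
    exact le_iSup_of_le N (le_iSup₂_of_le R hN le_rfl)
  · exact iSup_le fun N => iSup₂_le fun R _ => le_iSup (fun R => ‖T G (ba V R) x‖ₑ) R

theorem MS_meas {G : V → ℂ} (hG : MemLp G 2) : Measurable (MS G) := by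
  have : MS G = fun x => ⨆ N : ℕ, MX G (N : ℝ) x := funext fun x => MS_eq G x
  rw [this]
  exact Measurable.iSup fun N => MX_meas hG N

omit [NormedAddCommGroup V] [InnerProductSpace ℝ V] [FiniteDimensional ℝ V] [BorelSpace V] in
theorem sup_conv (μ : Measure V) (p : ℕ) (hp : p ≠ 0) (f : ℕ → V → ℝ≥0∞)
    (hf : ∀ n, Measurable (f n)) (hm : Monotone f) (b : ℝ≥0∞)
    (h : ∀ n, ∫⁻ x, f n x ^ p ∂μ ≤ b) : ∫⁻ x, (⨆ n, f n x) ^ p ∂μ ≤ b := by
  have e : ∀ x, (⨆ n, f n x) ^ p = ⨆ n, f n x ^ p := fun x => ENNReal.iSup_pow_of_ne_zero hp _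
  simp_rw [e]
  rw [lintegral_iSup (fun n => (hf n).pow_const p)
    (fun m n hmn x => pow_le_pow_left' (hm hmn x) p)]
  exact iSup_le h

/-- from the majorants to the maximal function -/
theorem MX_le [Nontrivial V] {G : V → ℂ} (hGm : Measurable G) (hG : MemLp G 2) {N : ℝ}
    (hN : 0 ≤ N) (μ : Measure V) (p : ℕ) (hp : p ≠ 0) (b : ℝ)
    (h : ∀ J, eLpNorm (WW G (mr G N) J) p μ ≤ ENNReal.ofReal b) :
    ∫⁻ x, MX G N x ^ p ∂μ ≤ ENNReal.ofReal b ^ p := by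
  calc ∫⁻ x, MX G N x ^ p ∂μ
      ≤ ∫⁻ x, (⨆ J : ℕ, ENNReal.ofReal (WW G (mr G N) J x)) ^ p ∂μ := by
        refine lintegral_mono fun x => pow_le_pow_left' ?_ p
        exact iSup₂_le fun R hR => sup_le_WW hGm hG hN hR x
    _ ≤ ENNReal.ofReal b ^ p := by
        refine sup_conv μ p hp (fun J x => ENNReal.ofReal (WW G (mr G N) J x))
          (fun J => (WW_cont hG _ J).measurable.ennreal_ofReal)
          (fun m n hmn x => ENNReal.ofReal_le_ofReal (WW_mono G _ x hmn)) _ fun J => ?_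
        have h1 := eLp_pow (WW G (mr G N) J) μ p hp
        have h2 : ∫⁻ x, ENNReal.ofReal (WW G (mr G N) J x) ^ p ∂μ =
            ∫⁻ x, ‖WW G (mr G N) J x‖ₑ ^ p ∂μ := by
          refine lintegral_congr fun x => ?_
          rw [Real.enorm_of_nonneg (WW_nonneg G _ J x)]
        rw [h2, ← h1]
        exact pow_le_pow_left' (h J) p

theorem MS_le [Nontrivial V] {G : V → ℂ} (hGm : Measurable G) (hG : MemLp G 2) (μ : Measure V)
    (p : ℕ) (hp : p ≠ 0) (b : ℝ)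
    (h : ∀ (N : ℝ) (J : ℕ), 0 ≤ N → eLpNorm (WW G (mr G N) J) p μ ≤ ENNReal.ofReal b) :
    ∫⁻ x, MS G x ^ p ∂μ ≤ ENNReal.ofReal b ^ p := by
  simp_rw [MS_eq]
  exact sup_conv μ p hp (fun (N : ℕ) => MX G (N : ℝ)) (fun N => MX_meas hG N) (MX_mono G) _
    fun N => MX_le hGm hG (Nat.cast_nonneg N) μ p hp b fun J => h N J (Nat.cast_nonneg N)

theorem root_four {g : ℝ≥0∞} (hg : g ≠ ⊤) : ∃ γ : ℝ, 0 ≤ γ ∧ g = ENNReal.ofReal (γ ^ 4) := by
  refine ⟨g.toReal ^ (1 / (4 : ℝ)), by positivity, ?_⟩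
  rw [← Real.rpow_natCast, ← Real.rpow_mul ENNReal.toReal_nonneg]
  norm_num
  exact (ENNReal.ofReal_toReal hg).symm

theorem total_root {G : V → ℂ} (hG : MemLp G 2) :
    ∃ κ : ℝ, 0 ≤ κ ∧ ∫⁻ ξ, ‖G ξ‖ₑ ^ 2 = ENNReal.ofReal κ ^ 2 ∧
      ∀ N, ∃ κ', 0 ≤ κ' ∧ κ' ≤ κ ∧ mr G N = κ' ^ 2 := by
  have hfin : mass G Set.univ < ⊤ := mass_fin hG _
  have e : mass G Set.univ = ∫⁻ ξ, ‖G ξ‖ₑ ^ 2 := by rw [mass, Measure.restrict_univ]
  refine ⟨Real.sqrt (mass G Set.univ).toReal, Real.sqrt_nonneg _, ?_, fun N => ?_⟩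
  · rw [← ENNReal.ofReal_pow (Real.sqrt_nonneg _), Real.sq_sqrt ENNReal.toReal_nonneg,
      ENNReal.ofReal_toReal hfin.ne, e]
  · refine ⟨Real.sqrt (mr G N), Real.sqrt_nonneg _, Real.sqrt_le_sqrt ?_,
      (Real.sq_sqrt (mr_nonneg G N)).symm⟩
    exact ENNReal.toReal_mono hfin.ne (mass_mono G (Set.subset_univ _))

/-- the maximal inequality in `L⁴` -/
theorem MS_four [Nontrivial V] {G : V → ℂ} (hGm : Measurable G) (hG : MemLp G 2) {E : Set V}
    (hEm : MeasurableSet E) {g : ℝ≥0∞} (hgt : g ≠ ⊤)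
    (hg : ∀ z : V, volume (E ∩ {ξ | z - ξ ∈ E}) ≤ g) (hE : ∀ ξ, ξ ∉ E → G ξ = 0) :
    ∫⁻ x, MS G x ^ 4 ≤ 625 * g * (∫⁻ ξ, ‖G ξ‖ₑ ^ 2) ^ 2 := by
  obtain ⟨γ, hγ, rfl⟩ := root_four hgt
  obtain ⟨κ, hκ, h1, h2⟩ := total_root hG
  have h := MS_le hGm hG volume 4 four_ne_zero (5 * γ * κ) (fun N J hN => by
    obtain ⟨κ', h3, h4, h5⟩ := h2 N
    have := WW_four hGm hG hN h3 h5 hEm hγ hg hE J
    norm_cast
    norm_cast at this
    refine this.trans (ENNReal.ofReal_le_ofReal ?_)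
    push_cast
    gcongr)
  refine h.trans (le_of_eq ?_)
  rw [h1, ← ENNReal.ofReal_pow (by positivity), ← ENNReal.ofReal_pow (by positivity),
    ← ENNReal.ofReal_pow (by positivity), show (625 : ℝ≥0∞) = ENNReal.ofReal 625 by norm_num,
    ← ENNReal.ofReal_mul (by norm_num), ← ENNReal.ofReal_mul (by positivity)]
  congr 1
  ring

/-- the maximal inequality in `L²` of a set of finite measure -/
theorem MS_two [Nontrivial V] {G : V → ℂ} (hGm : Measurable G) (hG : MemLp G 2) {E : Set V}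
    (hEm : MeasurableSet E) {g : ℝ≥0∞} (hgt : g ≠ ⊤)
    (hg : ∀ z : V, volume (E ∩ {ξ | z - ξ ∈ E}) ≤ g) (hE : ∀ ξ, ξ ∉ E → G ξ = 0)
    {B : Set V} (hB : volume B ≠ ⊤) {J : ℕ} (hJ : g * volume B ≤ 16 ^ J) :
    ∫⁻ x in B, MS G x ^ 2 ≤ (4 * J + 5) ^ 2 * ∫⁻ ξ, ‖G ξ‖ₑ ^ 2 := by
  obtain ⟨γ, hγ, rfl⟩ := root_four hgt
  obtain ⟨β, hβ, hβ2⟩ := root_four hB
  obtain ⟨κ, hκ, h1, h2⟩ := total_root hG
  have hJ2 : γ * β ≤ 2 ^ J := by
    rw [hβ2, ← ENNReal.ofReal_mul (by positivity), sixteen,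
      ENNReal.ofReal_le_ofReal_iff (by positivity), ← mul_pow] at hJ
    have h16 : (16 : ℝ) ^ J = (2 ^ J) ^ 4 := by rw [← pow_mul, mul_comm, pow_mul]; norm_num
    rw [h16] at hJ
    exact (pow_le_pow_iff_left₀ (by positivity) (by positivity) four_ne_zero).1 hJ
  have h := MS_le hGm hG (volume.restrict B) 2 two_ne_zero ((4 * J + 5) * κ) (fun N J' hN => by
    obtain ⟨κ', h3, h4, h5⟩ := h2 N
    have := WW_two hGm hG hN h3 h5 hEm hγ hg hE hβ hβ2.le hJ2 J'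
    norm_cast
    norm_cast at this
    refine this.trans (ENNReal.ofReal_le_ofReal ?_)
    push_cast
    gcongr)
  refine h.trans (le_of_eq ?_)
  rw [h1, ENNReal.ofReal_mul (by positivity), mul_pow]
  congr 2
  rw [ENNReal.ofReal_add (by positivity) (by norm_num), ENNReal.ofReal_mul (by norm_num)]
  simp

end Run7.h976.SP
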