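import Pool.Agent.Run7.h976.SP.Ch

/-!
The norms of the levels of the chaining and the maximal inequality.
-/

set_option autoImplicit false

namespace Run7.h976.SP

open MeasureTheory Filter Topology
open scoped FourierTransform ENNReal

variable {V : Type*} [NormedAddCommGroup V] [InnerProductSpace ℝ V] [FiniteDimensional ℝ V]
  [MeasurableSpace V] [BorelSpace V]

omit [NormedAddCommGroup V] [InnerProductSpace ℝ V] [FiniteDimensional ℝ V] [BorelSpace V] in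
theorem eLp_pow {F : Type*} [NormedAddCommGroup F] (f : V → F) (μ : Measure V) (p : ℕ)
    (hp : p ≠ 0) : eLpNorm f p μ ^ p = ∫⁻ x, ‖f x‖ₑ ^ p ∂μ := by
  have := eLpNorm_nnreal_pow_eq_lintegral (f := f) (μ := μ) (p := (p : NNReal))
    (by exact_mod_cast hp)
  simpa using this

theorem DD_incr [Nontrivial V] {G : V → ℂ} (hGm : Measurable G) (hG : MemLp G 2) {N : ℝ}
    (hN : 0 ≤ N) {j i : ℕ} (hi : i < 16 ^ (j + 1)) :
    ∃ A : Set V, MeasurableSet A ∧ volume A < ⊤ ∧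
      mass G A ≤ ENNReal.ofReal (mr G N / 16 ^ j) ∧
      ∀ x, ‖DD G (mr G N) j i x‖ₑ = ‖T G A x‖ₑ := by
  have hM := mr_nonneg G N
  set M := mr G N with hMd
  have h16 : (0 : ℝ) < 16 ^ j := by positivity
  have e1 : ((i / 16 : ℕ) : ℝ) * 16 ≤ i := by exact_mod_cast Nat.div_mul_le_self i 16
  have e2 : (i : ℝ) ≤ ((i / 16 : ℕ) : ℝ) * 16 + 16 := by
    have : i ≤ i / 16 * 16 + 16 := by omega
    exact_mod_cast this
  have hs : 0 ≤ gp M j (i / 16) := by unfold gp; positivity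
  have hst : gp M j (i / 16) ≤ gp M (j + 1) i := by
    unfold gp
    rw [div_le_div_iff₀ h16 (by positivity), pow_succ]
    nlinarith [mul_le_mul_of_nonneg_right e1 (mul_nonneg hM h16.le)]
  have htM : gp M (j + 1) i ≤ M := by
    unfold gp
    rw [div_le_iff₀ (by positivity), mul_comm]
    have : (i : ℝ) ≤ 16 ^ (j + 1) := by exact_mod_cast hi.le
    exact mul_le_mul_of_nonneg_left this hM
  have hd : gp M (j + 1) i - gp M j (i / 16) ≤ M / 16 ^ j := by
    unfold gp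
    have : (i : ℝ) * M / 16 ^ (j + 1) ≤ ((i / 16 : ℕ) : ℝ) * M / 16 ^ j + M / 16 ^ j := by
      rw [← add_div, div_le_div_iff₀ (by positivity) h16, pow_succ]
      nlinarith [mul_le_mul_of_nonneg_right e2 (mul_nonneg hM h16.le)]
    linarith
  obtain ⟨A, hA1, hA2, hA3, hA4, hA5⟩ := aa_sub hGm hG hN hs hst htM
  refine ⟨A, hA1, hA3, ?_, fun x => ?_⟩
  · rw [hA4]; exact ENNReal.ofReal_le_ofReal hd
  · rw [← hA5 x, DD, enorm_norm]

theorem DM_pow {G : V → ℂ} (hG : MemLp G 2) (M : ℝ) (j p : ℕ) (b : ℝ≥0∞)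
    (h : ∀ i, i < 16 ^ (j + 1) → ∫⁻ x, ‖DD G M j i x‖ₑ ^ p ≤ b) :
    ∫⁻ x, ‖DM G M j x‖ₑ ^ p ≤ 16 ^ (j + 1) * b := by
  calc ∫⁻ x, ‖DM G M j x‖ₑ ^ p
      ≤ ∫⁻ x, ∑ i ∈ Finset.range (16 ^ (j + 1)), ‖DD G M j i x‖ₑ ^ p := by
        refine lintegral_mono fun x => ?_
        obtain ⟨i, hi, he⟩ := Finset.exists_mem_eq_sup' (s := Finset.range (16 ^ (j + 1)))
          ⟨0, Finset.mem_range.2 (by positivity)⟩ (fun i => DD G M j i x)
        unfold DM
        rw [he]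
        exact Finset.single_le_sum (f := fun i => ‖DD G M j i x‖ₑ ^ p) (fun _ _ => zero_le) hi
    _ = ∑ i ∈ Finset.range (16 ^ (j + 1)), ∫⁻ x, ‖DD G M j i x‖ₑ ^ p :=
        lintegral_finsetSum _ fun i _ => ((DD_cont hG M j i).enorm.measurable.pow_const p)
    _ ≤ ∑ _i ∈ Finset.range (16 ^ (j + 1)), b :=
        Finset.sum_le_sum fun i hi => h i (Finset.mem_range.1 hi)
    _ = 16 ^ (j + 1) * b := by simp

theorem sixteen (j : ℕ) : (16 : ℝ≥0∞) ^ j = ENNReal.ofReal (16 ^ j) := by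
  rw [ENNReal.ofReal_pow (by norm_num)]; norm_num

theorem DM_two [Nontrivial V] {G : V → ℂ} (hGm : Measurable G) (hG : MemLp G 2) {N : ℝ}
    (hN : 0 ≤ N) {κ : ℝ} (hκ : 0 ≤ κ) (hM : mr G N = κ ^ 2) (j : ℕ) :
    eLpNorm (DM G (mr G N) j) 2 volume ≤ ENNReal.ofReal (4 * κ) := by
  rw [← ENNReal.pow_le_pow_left_iff two_ne_zero]
  have e := eLp_pow (DM G (mr G N) j) volume 2 two_ne_zero
  norm_cast at e
  norm_cast
  rw [e]
  refine (DM_pow hG (mr G N) j 2 (ENNReal.ofReal (mr G N / 16 ^ j)) (fun i hi => ?_)).trans ?_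
  · obtain ⟨A, h1, h2, h3, h4⟩ := DD_incr hGm hG hN hi
    simp_rw [h4]
    rw [T_two hG h1 h2]
    exact h3
  · rw [hM, ← ENNReal.ofReal_pow (by positivity), sixteen, ← ENNReal.ofReal_mul (by positivity)]
    refine ENNReal.ofReal_le_ofReal (le_of_eq ?_)
    field_simp
    ring

theorem DM_four [Nontrivial V] {G : V → ℂ} (hGm : Measurable G) (hG : MemLp G 2) {N : ℝ}
    (hN : 0 ≤ N) {κ : ℝ} (hκ : 0 ≤ κ) (hM : mr G N = κ ^ 2) {E : Set V} (hEm : MeasurableSet E)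
    {γ : ℝ} (hγ : 0 ≤ γ) (hg : ∀ z : V, volume (E ∩ {ξ | z - ξ ∈ E}) ≤ ENNReal.ofReal (γ ^ 4))
    (hE : ∀ ξ, ξ ∉ E → G ξ = 0) (j : ℕ) :
    eLpNorm (DM G (mr G N) j) 4 volume ≤ ENNReal.ofReal (2 * γ * κ / 2 ^ j) := by
  rw [← ENNReal.pow_le_pow_left_iff four_ne_zero]
  have e := eLp_pow (DM G (mr G N) j) volume 4 four_ne_zero
  norm_cast at e
  norm_cast
  rw [e]
  refine (DM_pow hG (mr G N) j 4
    (ENNReal.ofReal (γ ^ 4) * ENNReal.ofReal (mr G N / 16 ^ j) ^ 2) (fun i hi => ?_)).trans ?_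
  · obtain ⟨A, h1, h2, h3, h4⟩ := DD_incr hGm hG hN hi
    simp_rw [h4]
    refine (T_four hGm hG h1 h2 E hEm _ ENNReal.ofReal_ne_top hg hE).trans ?_
    gcongr
  · rw [hM, ← ENNReal.ofReal_pow (by positivity), ← ENNReal.ofReal_pow (by positivity), sixteen,
      ← ENNReal.ofReal_mul (by positivity), ← ENNReal.ofReal_mul (by positivity)]
    refine ENNReal.ofReal_le_ofReal (le_of_eq ?_)
    have h16 : (16 : ℝ) ^ j = (2 ^ j) ^ 4 := by rw [← pow_mul, mul_comm, pow_mul]; norm_num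
    rw [pow_succ, h16]
    push_cast
    have h2 : (2 : ℝ) ^ j ≠ 0 := by positivity
    field_simp
    ring

/-- the triangle inequality for the majorant -/
theorem WW_le {G : V → ℂ} (hG : MemLp G 2) (M : ℝ) (μ : Measure V) (p : ℝ≥0∞) (hp : 1 ≤ p)
    (a b : ℝ) (ha : 0 ≤ a) (c : ℕ → ℝ) (hc : ∀ j, 0 ≤ c j) (J : ℕ)
    (hb : ∑ j ∈ Finset.range J, c j ≤ b) (h1 : eLpNorm (aa G M) p μ ≤ ENNReal.ofReal a)
    (h2 : ∀ j, eLpNorm (DM G M j) p μ ≤ ENNReal.ofReal (c j)) :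
    eLpNorm (WW G M J) p μ ≤ ENNReal.ofReal (a + b) := by
  have e : WW G M J = (fun x => ‖aa G M x‖) + ∑ j ∈ Finset.range J, DM G M j := by
    funext x
    simp [WW]
  have hb0 : 0 ≤ b := (Finset.sum_nonneg fun j _ => hc j).trans hb
  rw [e]
  refine (eLpNorm_add_le (aa_cont hG M).norm.aestronglyMeasurable
    (Finset.aestronglyMeasurable_sum _ fun j _ => (DM_cont hG M j).aestronglyMeasurable)
    hp).trans ?_
  rw [ENNReal.ofReal_add ha hb0]
  refine add_le_add (by rw [eLpNorm_norm]; exact h1) ?_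
  refine (eLpNorm_sum_le (fun j _ => (DM_cont hG M j).aestronglyMeasurable) hp).trans ?_
  calc ∑ j ∈ Finset.range J, eLpNorm (DM G M j) p μ
      ≤ ∑ j ∈ Finset.range J, ENNReal.ofReal (c j) := Finset.sum_le_sum fun j _ => h2 j
    _ = ENNReal.ofReal (∑ j ∈ Finset.range J, c j) :=
        (ENNReal.ofReal_sum_of_nonneg fun j _ => hc j).symm
    _ ≤ ENNReal.ofReal b := ENNReal.ofReal_le_ofReal hb

theorem aa_top [Nontrivial V] {G : V → ℂ} (hGm : Measurable G) (hG : MemLp G 2) {N : ℝ}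
    (hN : 0 ≤ N) : aa G (mr G N) = T G (ba V N) :=
  funext fun x => (T_aa hGm hG le_rfl hN x).symm

theorem aa_two [Nontrivial V] {G : V → ℂ} (hGm : Measurable G) (hG : MemLp G 2) {N : ℝ}
    (hN : 0 ≤ N) {κ : ℝ} (hκ : 0 ≤ κ) (hM : mr G N = κ ^ 2) :
    eLpNorm (aa G (mr G N)) 2 volume ≤ ENNReal.ofReal κ := by
  rw [aa_top hGm hG hN, ← ENNReal.pow_le_pow_left_iff two_ne_zero, eLp_sq,
    T_two hG (ba_meas N) (ba_fin N), mass_ofReal hG, hM, ENNReal.ofReal_pow hκ]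

theorem aa_four [Nontrivial V] {G : V → ℂ} (hGm : Measurable G) (hG : MemLp G 2) {N : ℝ}
    (hN : 0 ≤ N) {κ : ℝ} (hκ : 0 ≤ κ) (hM : mr G N = κ ^ 2) {E : Set V} (hEm : MeasurableSet E)
    {γ : ℝ} (hγ : 0 ≤ γ) (hg : ∀ z : V, volume (E ∩ {ξ | z - ξ ∈ E}) ≤ ENNReal.ofReal (γ ^ 4))
    (hE : ∀ ξ, ξ ∉ E → G ξ = 0) :
    eLpNorm (aa G (mr G N)) 4 volume ≤ ENNReal.ofReal (γ * κ) := by
  rw [aa_top hGm hG hN, ← ENNReal.pow_le_pow_left_iff four_ne_zero]
  have e := eLp_pow (T G (ba V N)) volume 4 four_ne_zero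
  norm_cast at e
  norm_cast
  rw [e]
  refine (T_four hGm hG (ba_meas N) (ba_fin N) E hEm _ ENNReal.ofReal_ne_top hg hE).trans ?_
  rw [mass_ofReal hG, hM, ← ENNReal.ofReal_pow (by positivity),
    ← ENNReal.ofReal_mul (by positivity), ← ENNReal.ofReal_pow (by positivity)]
  refine ENNReal.ofReal_le_ofReal (le_of_eq ?_)
  ring

theorem geo (J : ℕ) : ∑ j ∈ Finset.range J, (1 / (2 : ℝ)) ^ j ≤ 2 := sum_geometric_two_le J

/-- the `L⁴` norm of the majorant -/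
theorem WW_four [Nontrivial V] {G : V → ℂ} (hGm : Measurable G) (hG : MemLp G 2) {N : ℝ}
    (hN : 0 ≤ N) {κ : ℝ} (hκ : 0 ≤ κ) (hM : mr G N = κ ^ 2) {E : Set V} (hEm : MeasurableSet E)
    {γ : ℝ} (hγ : 0 ≤ γ) (hg : ∀ z : V, volume (E ∩ {ξ | z - ξ ∈ E}) ≤ ENNReal.ofReal (γ ^ 4))
    (hE : ∀ ξ, ξ ∉ E → G ξ = 0) (J : ℕ) :
    eLpNorm (WW G (mr G N) J) 4 volume ≤ ENNReal.ofReal (5 * γ * κ) := by
  have h := WW_le hG (mr G N) volume 4 (by norm_num) (γ * κ) (4 * γ * κ) (by positivity)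
    (fun j => 2 * γ * κ / 2 ^ j) (fun j => by positivity) J ?_
    (aa_four hGm hG hN hκ hM hEm hγ hg hE) (fun j => DM_four hGm hG hN hκ hM hEm hγ hg hE j)
  · refine h.trans (ENNReal.ofReal_le_ofReal (le_of_eq ?_))
    ring
  · have h1 : ∑ j ∈ Finset.range J, 2 * γ * κ / 2 ^ j =
        (2 * γ * κ) * ∑ j ∈ Finset.range J, (1 / (2 : ℝ)) ^ j := by
      rw [Finset.mul_sum]
      refine Finset.sum_congr rfl fun j _ => ?_
      rw [one_div, inv_pow, div_eq_mul_inv]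
    rw [h1]
    have := mul_le_mul_of_nonneg_left (geo J) (show 0 ≤ 2 * γ * κ by positivity)
    linarith

/-- the `L²` norm of the majorant over a set of finite measure -/
theorem WW_two [Nontrivial V] {G : V → ℂ} (hGm : Measurable G) (hG : MemLp G 2) {N : ℝ}
    (hN : 0 ≤ N) {κ : ℝ} (hκ : 0 ≤ κ) (hM : mr G N = κ ^ 2) {E : Set V} (hEm : MeasurableSet E)
    {γ : ℝ} (hγ : 0 ≤ γ) (hg : ∀ z : V, volume (E ∩ {ξ | z - ξ ∈ E}) ≤ ENNReal.ofReal (γ ^ 4))
    (hE : ∀ ξ, ξ ∉ E → G ξ = 0) {B : Set V} {β : ℝ} (hβ : 0 ≤ β)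
    (hB : volume B ≤ ENNReal.ofReal (β ^ 4)) {J₀ : ℕ} (hJ : γ * β ≤ 2 ^ J₀) (J : ℕ) :
    eLpNorm (WW G (mr G N) J) 2 (volume.restrict B) ≤ ENNReal.ofReal ((4 * J₀ + 5) * κ) := by
  have h := WW_le hG (mr G N) (volume.restrict B) 2 (by norm_num) κ ((4 * J₀ + 4) * κ) hκ
    (fun j => if j < J₀ then 4 * κ else 2 * κ * (1 / 2) ^ (j - J₀))
    (fun j => by split_ifs <;> positivity) J ?_
    ((eLpNorm_mono_measure _ Measure.restrict_le_self).trans (aa_two hGm hG hN hκ hM)) ?_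
  · refine h.trans (ENNReal.ofReal_le_ofReal (le_of_eq ?_))
    ring
  · calc ∑ j ∈ Finset.range J, (if j < J₀ then 4 * κ else 2 * κ * (1 / 2) ^ (j - J₀))
        ≤ ∑ j ∈ Finset.range (J₀ + J), (if j < J₀ then 4 * κ else 2 * κ * (1 / 2) ^ (j - J₀)) :=
          Finset.sum_le_sum_of_subset_of_nonneg
            (Finset.range_subset_range.2 (Nat.le_add_left J J₀))
            (fun j _ _ => by split_ifs <;> positivity)
      _ = J₀ * (4 * κ) + ∑ j ∈ Finset.range J, 2 * κ * (1 / 2) ^ j := by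
          rw [Finset.sum_range_add]
          congr 1
          · rw [Finset.sum_congr rfl (g := fun _ => 4 * κ) (fun j hj => if_pos
              (Finset.mem_range.1 hj))]
            simp
          · refine Finset.sum_congr rfl fun j _ => ?_
            rw [if_neg (by omega), Nat.add_sub_cancel_left]
      _ ≤ _ := by
          rw [← Finset.mul_sum]
          have := mul_le_mul_of_nonneg_left (geo J) (show 0 ≤ 2 * κ by positivity)
          linarith
  · intro j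
    split_ifs with hj
    · exact (eLpNorm_mono_measure _ Measure.restrict_le_self).trans (DM_two hGm hG hN hκ hM j)
    · have h1 := eLpNorm_le_eLpNorm_mul_rpow_measure_univ (p := 2) (q := 4)
        (μ := volume.restrict B) (f := DM G (mr G N) j) (by norm_num)
        (DM_cont hG (mr G N) j).aestronglyMeasurable
      refine h1.trans ?_
      have h2 : eLpNorm (DM G (mr G N) j) 4 (volume.restrict B) ≤
          ENNReal.ofReal (2 * γ * κ / 2 ^ j) :=
        (eLpNorm_mono_measure _ Measure.restrict_le_self).trans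
          (DM_four hGm hG hN hκ hM hEm hγ hg hE j)
      have h3 : (volume.restrict B) Set.univ ^ (1 / (2 : ℝ≥0∞).toReal - 1 / (4 : ℝ≥0∞).toReal) ≤
          ENNReal.ofReal β := by
        rw [Measure.restrict_apply_univ]
        have e : 1 / (2 : ℝ≥0∞).toReal - 1 / (4 : ℝ≥0∞).toReal = 1 / (4 : ℝ) := by
          norm_num
        rw [e]
        calc volume B ^ (1 / (4 : ℝ)) ≤ (ENNReal.ofReal (β ^ 4)) ^ (1 / (4 : ℝ)) :=
              ENNReal.rpow_le_rpow hB (by norm_num)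
          _ = ENNReal.ofReal β := by
              rw [ENNReal.ofReal_pow hβ, ← ENNReal.rpow_natCast, ← ENNReal.rpow_mul]
              norm_num
      refine (mul_le_mul' h2 h3).trans ?_
      rw [← ENNReal.ofReal_mul (by positivity)]
      refine ENNReal.ofReal_le_ofReal ?_
      obtain ⟨m, rfl⟩ := Nat.exists_eq_add_of_le (not_lt.1 hj)
      rw [Nat.add_sub_cancel_left]
      have h4 : 2 * γ * κ / 2 ^ (J₀ + m) * β = (γ * β) * (2 * κ / 2 ^ (J₀ + m)) := by ring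
      rw [h4]
      calc (γ * β) * (2 * κ / 2 ^ (J₀ + m)) ≤ 2 ^ J₀ * (2 * κ / 2 ^ (J₀ + m)) :=
            mul_le_mul_of_nonneg_right hJ (by positivity)
        _ = 2 * κ * (1 / 2) ^ m := by
            rw [pow_add, one_div, inv_pow]
            field_simp

end Run7.h976.SP
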