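import Mathlib

/-!
The neighbourhood of the paraboloid in `R³`.
-/

set_option autoImplicit false

namespace Run7.h976.SP

open MeasureTheory Filter Topology
open scoped ENNReal

/-- the area of an annulus -/
theorem annulus (c : EuclideanSpace ℝ (Fin 2)) (d w : ℝ) (hw : 0 ≤ w) :
    volume {u : EuclideanSpace ℝ (Fin 2) | |d - 2 * ‖u - c‖ ^ 2| ≤ 2 * w} ≤
      ENNReal.ofReal (2 * Real.pi * w) := by
  set r2 := Real.sqrt ((d + 2 * w) / 2) with hr2
  set r1 := Real.sqrt ((d - 2 * w) / 2) with hr1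
  have h21 : r1 ≤ r2 := Real.sqrt_le_sqrt (by linarith)
  have hsub : {u : EuclideanSpace ℝ (Fin 2) | |d - 2 * ‖u - c‖ ^ 2| ≤ 2 * w} ⊆
      Metric.closedBall c r2 \ Metric.ball c r1 := by
    intro u hu
    rw [Set.mem_ofPred_eq, abs_le] at hu
    constructor
    · rw [mem_closedBall_iff_norm, hr2]
      refine Real.le_sqrt_of_sq_le ?_
      linarith [hu.1]
    · rw [mem_ball_iff_norm, not_lt, hr1]
      refine Real.sqrt_le_iff.2 ⟨norm_nonneg _, ?_⟩
      linarith [hu.2]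
  refine (measure_mono hsub).trans ?_
  rw [measure_sdiff (Metric.ball_subset_closedBall.trans (Metric.closedBall_subset_closedBall h21))
    Metric.isOpen_ball.measurableSet.nullMeasurableSet measure_ball_lt_top.ne,
    EuclideanSpace.volume_closedBall_fin_two, EuclideanSpace.volume_ball_fin_two]
  have e : ∀ r : ℝ, 0 ≤ r → ENNReal.ofReal r ^ 2 * ENNReal.ofReal Real.pi =
      ENNReal.ofReal (Real.pi * r ^ 2) := by
    intro r hr
    rw [mul_comm, ENNReal.ofReal_mul Real.pi_pos.le, ENNReal.ofReal_pow hr]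
  rw [e r2 (Real.sqrt_nonneg _), e r1 (Real.sqrt_nonneg _), ← ENNReal.ofReal_sub _ (by positivity)]
  refine ENNReal.ofReal_le_ofReal ?_
  have hpi := Real.pi_pos
  have h3 : r2 ^ 2 - r1 ^ 2 ≤ 2 * w := by
    rcases le_or_gt 0 ((d - 2 * w) / 2) with h | h
    · rw [hr1, hr2, Real.sq_sqrt h, Real.sq_sqrt (by linarith)]
      linarith
    · have h4 : r1 = 0 := Real.sqrt_eq_zero_of_nonpos h.le
      rw [h4]
      rcases le_or_gt 0 ((d + 2 * w) / 2) with h5 | h5
      · rw [hr2, Real.sq_sqrt h5]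
        linarith
      · have h6 : r2 = 0 := Real.sqrt_eq_zero_of_nonpos h5.le
        rw [h6]
        linarith
  nlinarith

/-- the splitting of the coordinates -/
noncomputable def spl (ξ : EuclideanSpace ℝ (Fin 3)) : ℝ × EuclideanSpace ℝ (Fin 2) :=
  (ξ 0, WithLp.toLp 2 fun j : Fin 2 => ξ j.succ)

theorem spl_mp : MeasurePreserving spl (volume : Measure (EuclideanSpace ℝ (Fin 3))) volume := by
  have h1 := PiLp.volume_preserving_ofLp (Fin 3)
  have h2 := volume_preserving_piFinSuccAbove (fun _ : Fin 3 => ℝ) 0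
  have h3 := (MeasurePreserving.id (volume : Measure ℝ)).prod (PiLp.volume_preserving_toLp (Fin 2))
  have h4 := (h3.comp h2).comp h1
  have e : spl = (Prod.map id (@WithLp.toLp 2 (Fin 2 → ℝ)) ∘
      (MeasurableEquiv.piFinSuccAbove (fun _ : Fin 3 => ℝ) 0)) ∘ (@WithLp.ofLp 2 (Fin 3 → ℝ)) := by
    funext ξ
    rfl
  rw [e]
  exact h4

/-- the additive size of the neighbourhood of the paraboloid -/
theorem parab (w : ℝ) (hw : 0 ≤ w) (z : EuclideanSpace ℝ (Fin 3)) :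
    volume ({ξ : EuclideanSpace ℝ (Fin 3) | |ξ 0 - (ξ 1) ^ 2 - (ξ 2) ^ 2| ≤ w} ∩
      {ξ | z - ξ ∈ {ξ : EuclideanSpace ℝ (Fin 3) | |ξ 0 - (ξ 1) ^ 2 - (ξ 2) ^ 2| ≤ w}}) ≤
      ENNReal.ofReal (4 * Real.pi * w ^ 2) := by
  set z' : EuclideanSpace ℝ (Fin 2) := WithLp.toLp 2 fun j : Fin 2 => z j.succ with hz'
  set c : EuclideanSpace ℝ (Fin 2) := (1 / 2 : ℝ) • z' with hc
  set d : ℝ := z 0 - ‖z'‖ ^ 2 / 2 with hd
  set Ann : Set (EuclideanSpace ℝ (Fin 2)) := {u | |d - 2 * ‖u - c‖ ^ 2| ≤ 2 * w} with hAnn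
  set A : Set (ℝ × EuclideanSpace ℝ (Fin 2)) := {p | p.2 ∈ Ann ∧ |p.1 - ‖p.2‖ ^ 2| ≤ w} with hA
  have hAm : MeasurableSet Ann :=
    (isClosed_le (by fun_prop) continuous_const).measurableSet
  have hm : MeasurableSet A := by
    refine MeasurableSet.inter (measurable_snd hAm) ?_
    have hcl : IsClosed {p : ℝ × EuclideanSpace ℝ (Fin 2) | |p.1 - ‖p.2‖ ^ 2| ≤ w} :=
      isClosed_le (by fun_prop) continuous_const
    exact hcl.measurableSet
  have hnorm : ∀ u : EuclideanSpace ℝ (Fin 2), ‖u‖ ^ 2 = (u 0) ^ 2 + (u 1) ^ 2 := by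
    intro u
    rw [EuclideanSpace.real_norm_sq_eq, Fin.sum_univ_two]
  have hsub : {ξ : EuclideanSpace ℝ (Fin 3) | |ξ 0 - (ξ 1) ^ 2 - (ξ 2) ^ 2| ≤ w} ∩
      {ξ | z - ξ ∈ {ξ : EuclideanSpace ℝ (Fin 3) | |ξ 0 - (ξ 1) ^ 2 - (ξ 2) ^ 2| ≤ w}} ⊆
      spl ⁻¹' A := by
    rintro ξ ⟨h1, h2⟩
    simp only [Set.mem_ofPred_eq, PiLp.sub_apply] at h1 h2
    have h3 : ‖(spl ξ).2‖ ^ 2 = (ξ 1) ^ 2 + (ξ 2) ^ 2 := by
      rw [hnorm]; rfl
    have h4 : ‖(spl ξ).2 - c‖ ^ 2 = (ξ 1 - z 1 / 2) ^ 2 + (ξ 2 - z 2 / 2) ^ 2 := by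
      rw [hnorm]
      simp only [hc, hz', spl, PiLp.sub_apply, PiLp.smul_apply, smul_eq_mul]
      have e1 : (Fin.succ (0 : Fin 2)) = (1 : Fin 3) := rfl
      have e2 : (Fin.succ (1 : Fin 2)) = (2 : Fin 3) := rfl
      rw [e1, e2]
      ring
    have h5 : ‖z'‖ ^ 2 = (z 1) ^ 2 + (z 2) ^ 2 := by
      rw [hnorm]; rfl
    rw [abs_le] at h1 h2
    refine ⟨?_, ?_⟩
    · change |d - 2 * ‖(spl ξ).2 - c‖ ^ 2| ≤ 2 * w
      rw [h4, hd, h5, abs_le]
      constructor <;> nlinarith [h1.1, h1.2, h2.1, h2.2]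
    · rw [h3, abs_le]
      change -w ≤ ξ 0 - _ ∧ ξ 0 - _ ≤ w
      constructor <;> linarith [h1.1, h1.2]
  refine (measure_mono hsub).trans ?_
  rw [spl_mp.measure_preimage hm.nullMeasurableSet]
  change (volume : Measure ℝ).prod (volume : Measure (EuclideanSpace ℝ (Fin 2))) A ≤ _
  rw [Measure.prod_apply_symm hm]
  calc ∫⁻ u, volume ((fun t : ℝ => (t, u)) ⁻¹' A)
      ≤ ∫⁻ u, Ann.indicator (fun _ => ENNReal.ofReal (2 * w)) u := by
        refine lintegral_mono fun u => ?_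
        by_cases hu : u ∈ Ann
        · rw [Set.indicator_of_mem hu]
          have h1 : (fun t : ℝ => (t, u)) ⁻¹' A ⊆ Set.Icc (‖u‖ ^ 2 - w) (‖u‖ ^ 2 + w) := by
            intro t ht
            have h2 : |t - ‖u‖ ^ 2| ≤ w := ht.2
            rw [abs_le] at h2
            exact ⟨by linarith [h2.1], by linarith [h2.2]⟩
          refine (measure_mono h1).trans ?_
          rw [Real.volume_Icc]
          refine ENNReal.ofReal_le_ofReal (le_of_eq ?_)
          ring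
        · rw [Set.indicator_of_notMem hu]
          have h1 : (fun t : ℝ => (t, u)) ⁻¹' A = ∅ := by
            ext t
            simp only [Set.mem_preimage, Set.mem_empty_iff_false, iff_false]
            exact fun h => hu h.1
          rw [h1, measure_empty]
    _ = ENNReal.ofReal (2 * w) * volume Ann := by
        rw [lintegral_indicator hAm, setLIntegral_const]
    _ ≤ ENNReal.ofReal (2 * w) * ENNReal.ofReal (2 * Real.pi * w) :=
        mul_le_mul_right (annulus c d w hw) _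
    _ = _ := by
        rw [← ENNReal.ofReal_mul (by positivity)]
        congr 1
        ring

end Run7.h976.SP
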