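import Mathlib

/-!
The inverse Fourier integral of functions of `L¹ ∩ L²`: Plancherel, and the bound of the `L⁴` norm
for functions supported in a set `E` such that `E ∩ (z - E)` has bounded measure.
-/

set_option autoImplicit false

namespace Run7.h976.SP

open MeasureTheory Filter Topology Convolution
open scoped FourierTransform SchwartzMap ContDiff ENNReal

variable {V : Type*} [NormedAddCommGroup V] [InnerProductSpace ℝ V] [FiniteDimensional ℝ V]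
  [MeasurableSpace V] [BorelSpace V]

/-- the inverse Fourier transform of `L²` agrees with the Fourier integral -/
theorem inv_ae (f : V → ℂ) (hf : Integrable f) (hf2 : MemLp f 2) :
    ((𝓕⁻ (hf2.toLp f) : Lp ℂ 2 (volume : Measure V)) : V → ℂ) =ᵐ[volume] (𝓕⁻ f : V → ℂ) := by
  obtain ⟨F2, hF2⟩ : ∃ F2 : Lp ℂ 2 (volume : Measure V), F2 = hf2.toLp f := ⟨_, rfl⟩
  obtain ⟨G, hG⟩ : ∃ G : Lp ℂ 2 (volume : Measure V), G = 𝓕⁻ F2 := ⟨_, rfl⟩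
  have hF2ae : (F2 : V → ℂ) =ᵐ[volume] f := by rw [hF2]; exact hf2.coeFn_toLp
  have hci : Continuous fun p : V × V => (-innerₗ V) p.1 p.2 := by
    simp only [LinearMap.neg_apply, innerₗ_apply_apply]
    fun_prop
  have key : ∀ g : 𝓢(V, ℂ), ∫ x, g x • (G x) = ∫ x, g x • (𝓕⁻ f : V → ℂ) x := by
    intro g
    have h1 : (𝓕⁻ (F2 : 𝓢'(V, ℂ))) g = ((𝓕⁻ F2 : Lp ℂ 2 (volume : Measure V)) : 𝓢'(V, ℂ)) g := by
      rw [Lp.fourierInv_toTemperedDistribution_eq]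
    rw [TemperedDistribution.fourierInv_apply, Lp.toTemperedDistribution_apply,
      Lp.toTemperedDistribution_apply, ← hG] at h1
    rw [← h1]
    have h2 : ∫ x, (𝓕⁻ g) x • F2 x = ∫ x, (𝓕⁻ g) x • f x := by
      apply integral_congr_ae
      filter_upwards [hF2ae] with x hx
      rw [hx]
    rw [h2]
    have h3 := VectorFourier.integral_fourierIntegral_smul_eq_flip (L := -innerₗ V)
      (μ := (volume : Measure V)) (ν := (volume : Measure V))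
      Real.continuous_fourierChar hci g.integrable hf
    have h4 : (-innerₗ V).flip = -innerₗ V := by
      ext v w
      simp [real_inner_comm]
    rw [h4] at h3
    have h5 : ∀ x, (𝓕⁻ g : 𝓢(V, ℂ)) x = (𝓕⁻ (g : V → ℂ) : V → ℂ) x := fun x =>
      congrFun (SchwartzMap.fourierInv_coe g) x
    simp_rw [h5]
    exact h3
  have hGae : (G : V → ℂ) =ᵐ[volume] (𝓕⁻ f : V → ℂ) := by
    have hcont : Continuous (𝓕⁻ f : V → ℂ) :=
      VectorFourier.fourierIntegral_continuous Real.continuous_fourierChar hci hf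
    apply ae_eq_of_integral_contDiff_smul_eq
    · exact (Lp.memLp G).locallyIntegrable (by norm_num)
    · exact hcont.locallyIntegrable
    · intro g g_smooth g_cpt
      have hg₁ : HasCompactSupport (Complex.ofRealCLM ∘ g) := g_cpt.comp_left rfl
      have hg₂ : ContDiff ℝ ∞ (Complex.ofRealCLM ∘ g) := by fun_prop
      have := key (hg₁.toSchwartzMap hg₂)
      simpa using this
  rw [← hF2, ← hG]
  exact hGae

theorem inv_cont (f : V → ℂ) (hf : Integrable f) : Continuous (𝓕⁻ f : V → ℂ) := by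
  have hci : Continuous fun p : V × V => (-innerₗ V) p.1 p.2 := by
    simp only [LinearMap.neg_apply, innerₗ_apply_apply]
    fun_prop
  exact VectorFourier.fourierIntegral_continuous Real.continuous_fourierChar hci hf

theorem eLp_sq (h : V → ℂ) (μ : Measure V) : eLpNorm h 2 μ ^ 2 = ∫⁻ z, ‖h z‖ₑ ^ 2 ∂μ := by
  rw [eLpNorm_eq_lintegral_rpow_enorm_toReal (by norm_num) (by norm_num)]
  simp only [ENNReal.toReal_ofNat, ENNReal.rpow_ofNat, one_div]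
  rw [← ENNReal.rpow_natCast, ← ENNReal.rpow_mul]
  norm_num

theorem eLp_inv (f : V → ℂ) (hf : Integrable f) (hf2 : MemLp f 2) :
    eLpNorm (𝓕⁻ f : V → ℂ) 2 volume = eLpNorm f 2 volume := by
  rw [← eLpNorm_congr_ae (inv_ae f hf hf2)]
  have h1 : ‖(𝓕⁻ (hf2.toLp f) : Lp ℂ 2 (volume : Measure V))‖ = ‖hf2.toLp f‖ := by
    have := Lp.norm_fourier_eq (𝓕⁻ (hf2.toLp f) : Lp ℂ 2 (volume : Measure V))
    rw [← this, FourierTransform.fourier_fourierInv_eq]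
  rw [Lp.norm_def, Lp.norm_def] at h1
  have h2 := (ENNReal.toReal_eq_toReal_iff' (Lp.eLpNorm_ne_top _) (Lp.eLpNorm_ne_top _)).1 h1
  rw [h2]
  exact eLpNorm_congr_ae hf2.coeFn_toLp

/-- Plancherel -/
theorem planch (f : V → ℂ) (hf : Integrable f) (hf2 : MemLp f 2) :
    ∫⁻ x, ‖(𝓕⁻ f : V → ℂ) x‖ₑ ^ 2 = ∫⁻ z, ‖f z‖ₑ ^ 2 := by
  rw [← eLp_sq, ← eLp_sq, eLp_inv f hf hf2]

theorem inv_conv (f : V → ℂ) (hf : Integrable f) (x : V) :
    (𝓕⁻ (f ⋆[ContinuousLinearMap.mul ℂ ℂ] f) : V → ℂ) x = ((𝓕⁻ f : V → ℂ) x) ^ 2 := by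
  rw [Real.fourierInv_eq_fourier_neg, Real.fourierInv_eq_fourier_neg,
    Real.fourier_mul_convolution_eq hf hf, sq]

/-- Cauchy and Schwarz -/
theorem cs_lint (μ : Measure V) (f h : V → ℝ≥0∞) (hf : AEMeasurable f μ) (hh : AEMeasurable h μ) :
    (∫⁻ x, f x * h x ∂μ) ^ 2 ≤ (∫⁻ x, f x ^ 2 ∂μ) * ∫⁻ x, h x ^ 2 ∂μ := by
  have h1 := ENNReal.lintegral_mul_le_Lp_mul_Lq μ (p := 2) (q := 2)
    (Real.HolderConjugate.two_two) hf hh
  simp only [Pi.mul_apply, ENNReal.rpow_ofNat] at h1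
  calc (∫⁻ x, f x * h x ∂μ) ^ 2
      ≤ ((∫⁻ x, f x ^ 2 ∂μ) ^ (1 / (2 : ℝ)) * (∫⁻ x, h x ^ 2 ∂μ) ^ (1 / (2 : ℝ))) ^ 2 := by
        gcongr
    _ = _ := by
        rw [mul_pow, ← ENNReal.rpow_natCast, ← ENNReal.rpow_natCast, ← ENNReal.rpow_mul,
          ← ENNReal.rpow_mul]
        norm_num

/-- the pointwise bound of the convolution square -/
theorem conv_le (E : Set V) (hEm : MeasurableSet E) (g : ℝ≥0∞)
    (hg : ∀ z : V, volume (E ∩ {ξ | z - ξ ∈ E}) ≤ g) (f : V → ℂ) (hfm : Measurable f)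
    (hE : ∀ ξ, ξ ∉ E → f ξ = 0) (z : V) :
    ‖(f ⋆[ContinuousLinearMap.mul ℂ ℂ] f) z‖ₑ ^ 2 ≤
      g * ∫⁻ ξ, ‖f ξ‖ₑ ^ 2 * ‖f (z - ξ)‖ₑ ^ 2 := by
  have hA : MeasurableSet (E ∩ {ξ | z - ξ ∈ E}) :=
    hEm.inter ((measurable_const.sub measurable_id) hEm)
  have h1 : ‖(f ⋆[ContinuousLinearMap.mul ℂ ℂ] f) z‖ₑ ≤
      ∫⁻ ξ, (E ∩ {ξ | z - ξ ∈ E}).indicator (fun _ => (1 : ℝ≥0∞)) ξ *
        (‖f ξ‖ₑ * ‖f (z - ξ)‖ₑ) := by
    unfold MeasureTheory.convolution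
    refine (enorm_integral_le_lintegral_enorm _).trans (lintegral_mono fun ξ => ?_)
    simp only [ContinuousLinearMap.mul_apply', enorm_mul]
    by_cases h : ξ ∈ E ∩ {ξ | z - ξ ∈ E}
    · rw [Set.indicator_of_mem h, one_mul]
    · have : f ξ = 0 ∨ f (z - ξ) = 0 := by
        by_contra hc
        rw [not_or] at hc
        refine h ⟨?_, ?_⟩
        · by_contra h2; exact hc.1 (hE ξ h2)
        · by_contra h2; exact hc.2 (hE (z - ξ) h2)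
      rcases this with h2 | h2 <;> simp [h2]
  have hm1 : Measurable fun ξ => ‖f ξ‖ₑ * ‖f (z - ξ)‖ₑ :=
    (hfm.enorm).mul ((hfm.comp (measurable_const.sub measurable_id)).enorm)
  have h2 := cs_lint volume ((E ∩ {ξ | z - ξ ∈ E}).indicator (fun _ => (1 : ℝ≥0∞)))
    (fun ξ => ‖f ξ‖ₑ * ‖f (z - ξ)‖ₑ) (measurable_const.indicator hA).aemeasurable
    hm1.aemeasurable
  have h3 : ∫⁻ ξ, ((E ∩ {ξ | z - ξ ∈ E}).indicator (fun _ => (1 : ℝ≥0∞)) ξ) ^ 2 =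
      volume (E ∩ {ξ | z - ξ ∈ E}) := by
    rw [← lintegral_indicator_one hA]
    refine lintegral_congr fun ξ => ?_
    by_cases h : ξ ∈ E ∩ {ξ | z - ξ ∈ E}
    · simp [Set.indicator_of_mem h]
    · simp [Set.indicator_of_notMem h]
  rw [h3] at h2
  calc ‖(f ⋆[ContinuousLinearMap.mul ℂ ℂ] f) z‖ₑ ^ 2
      ≤ (∫⁻ ξ, (E ∩ {ξ | z - ξ ∈ E}).indicator (fun _ => (1 : ℝ≥0∞)) ξ *
        (‖f ξ‖ₑ * ‖f (z - ξ)‖ₑ)) ^ 2 := by gcongr
    _ ≤ volume (E ∩ {ξ | z - ξ ∈ E}) * ∫⁻ ξ, (‖f ξ‖ₑ * ‖f (z - ξ)‖ₑ) ^ 2 := h2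
    _ ≤ g * ∫⁻ ξ, (‖f ξ‖ₑ * ‖f (z - ξ)‖ₑ) ^ 2 := by gcongr; exact hg z
    _ = _ := by simp_rw [mul_pow]

/-- the bound of the `L⁴` norm -/
theorem four (E : Set V) (hEm : MeasurableSet E) (g : ℝ≥0∞) (hgt : g ≠ ⊤)
    (hg : ∀ z : V, volume (E ∩ {ξ | z - ξ ∈ E}) ≤ g) (f : V → ℂ) (hfm : Measurable f)
    (hf : Integrable f) (hf2 : MemLp f 2) (hE : ∀ ξ, ξ ∉ E → f ξ = 0) :
    ∫⁻ x, ‖(𝓕⁻ f : V → ℂ) x‖ₑ ^ 4 ≤ g * (∫⁻ z, ‖f z‖ₑ ^ 2) ^ 2 := by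
  set C : V → ℂ := f ⋆[ContinuousLinearMap.mul ℂ ℂ] f with hC
  have hCi : Integrable C := hf.integrable_convolution (ContinuousLinearMap.mul ℂ ℂ) hf
  have hC2 : ∫⁻ z, ‖C z‖ₑ ^ 2 ≤ g * (∫⁻ z, ‖f z‖ₑ ^ 2) ^ 2 := by
    calc ∫⁻ z, ‖C z‖ₑ ^ 2 ≤ ∫⁻ z, g * ∫⁻ ξ, ‖f ξ‖ₑ ^ 2 * ‖f (z - ξ)‖ₑ ^ 2 :=
          lintegral_mono fun z => conv_le E hEm g hg f hfm hE z
      _ = g * ∫⁻ z, ∫⁻ ξ, ‖f ξ‖ₑ ^ 2 * ‖f (z - ξ)‖ₑ ^ 2 := by
          rw [lintegral_const_mul' _ _ hgt]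
      _ = g * ∫⁻ ξ, ∫⁻ z, ‖f ξ‖ₑ ^ 2 * ‖f (z - ξ)‖ₑ ^ 2 := by
          rw [lintegral_lintegral_swap]
          have : Measurable (Function.uncurry fun z ξ : V => ‖f ξ‖ₑ ^ 2 * ‖f (z - ξ)‖ₑ ^ 2) :=
            (((hfm.comp measurable_snd).enorm).pow_const 2).mul
              (((hfm.comp (measurable_fst.sub measurable_snd)).enorm).pow_const 2)
          exact this.aemeasurable
      _ = g * ∫⁻ ξ, ‖f ξ‖ₑ ^ 2 * ∫⁻ z, ‖f z‖ₑ ^ 2 := by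
          congr 1
          refine lintegral_congr fun ξ => ?_
          have hm : Measurable fun z => ‖f (z - ξ)‖ₑ ^ 2 :=
            ((hfm.comp (measurable_id.sub_const ξ)).enorm).pow_const 2
          rw [lintegral_const_mul _ hm]
          congr 1
          exact lintegral_sub_right_eq_self (fun z => ‖f z‖ₑ ^ 2) ξ
      _ = g * (∫⁻ z, ‖f z‖ₑ ^ 2) ^ 2 := by
          rw [lintegral_mul_const _ (hfm.enorm.pow_const 2), sq]
  have hfin : (∫⁻ z, ‖f z‖ₑ ^ 2) < ⊤ := by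
    rw [← eLp_sq]
    exact ENNReal.pow_lt_top hf2.eLpNorm_lt_top
  have hCm : MemLp C 2 := by
    refine ⟨hCi.aestronglyMeasurable, ?_⟩
    have h1 : eLpNorm C 2 volume ^ 2 < ⊤ := by
      rw [eLp_sq]
      exact hC2.trans_lt (ENNReal.mul_lt_top (lt_top_iff_ne_top.2 hgt) (ENNReal.pow_lt_top hfin))
    by_contra hc
    rw [not_lt, top_le_iff] at hc
    rw [hc] at h1
    simp at h1
  calc ∫⁻ x, ‖(𝓕⁻ f : V → ℂ) x‖ₑ ^ 4 = ∫⁻ x, ‖(𝓕⁻ C : V → ℂ) x‖ₑ ^ 2 := by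
        refine lintegral_congr fun x => ?_
        rw [hC, inv_conv f hf, enorm_pow, ← pow_mul]
    _ = ∫⁻ z, ‖C z‖ₑ ^ 2 := planch C hCi hCm
    _ ≤ _ := hC2

end Run7.h976.SP
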