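import Pool.Agent.Run7.h976.SP.Gl

/-!
The `L² → L^p` constant of a set of frequencies, `p > 2`: the norms.
-/

set_option autoImplicit false

namespace Run7.h976.SP.Q

open MeasureTheory Filter Topology
open scoped FourierTransform ENNReal

variable {V : Type*} [NormedAddCommGroup V] [InnerProductSpace ℝ V] [FiniteDimensional ℝ V]
  [MeasurableSpace V] [BorelSpace V]

/-- the `L^p` norm of a nonnegative function -/
noncomputable def np (p : ℝ) (F : V → ℝ≥0∞) : ℝ≥0∞ := (∫⁻ x, F x ^ p) ^ (1 / p)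

theorem np_pow {p : ℝ} (hp : 0 < p) (F : V → ℝ≥0∞) : np p F ^ p = ∫⁻ x, F x ^ p := by
  rw [np, ← ENNReal.rpow_mul, one_div_mul_cancel hp.ne', ENNReal.rpow_one]

theorem np_le {p : ℝ} (hp : 0 < p) {F : V → ℝ≥0∞} {c : ℝ≥0∞} (h : ∫⁻ x, F x ^ p ≤ c ^ p) :
    np p F ≤ c := by
  calc np p F ≤ (c ^ p) ^ (1 / p) := ENNReal.rpow_le_rpow h (by positivity)
    _ = c := by rw [← ENNReal.rpow_mul, mul_one_div_cancel hp.ne', ENNReal.rpow_one]

theorem np_add {p : ℝ} (hp : 1 ≤ p) {F H : V → ℝ≥0∞} (hF : Measurable F) (hH : Measurable H) :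
    np p (fun x => F x + H x) ≤ np p F + np p H :=
  ENNReal.lintegral_Lp_add_le (μ := (volume : Measure V)) (f := F) (g := H)
    hF.aemeasurable hH.aemeasurable hp

theorem np_sum {p : ℝ} (hp : 1 ≤ p) {ι : Type*} (s : Finset ι) (F : ι → V → ℝ≥0∞)
    (hF : ∀ i, Measurable (F i)) : np p (fun x => ∑ i ∈ s, F i x) ≤ ∑ i ∈ s, np p (F i) := by
  classical
  induction s using Finset.induction_on with
  | empty =>
    have h0 : (0 : ℝ) < p := by linarith
    simp [np, ENNReal.zero_rpow_of_pos h0, ENNReal.zero_rpow_of_pos (inv_pos.2 h0)]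
  | insert a s ha ih =>
    simp only [Finset.sum_insert ha]
    exact (np_add hp (hF a) (Finset.measurable_sum s fun i _ => hF i)).trans
      (add_le_add le_rfl ih)

theorem np_sup {p : ℝ} (hp : 0 < p) (F : ℕ → V → ℝ≥0∞) (hF : ∀ n, Measurable (F n))
    (hm : Monotone F) (b : ℝ≥0∞) (h : ∀ n, np p (F n) ≤ b) : np p (fun x => ⨆ n, F n x) ≤ b := by
  refine np_le hp ?_
  have e : ∀ x, (⨆ n, F n x) ^ p = ⨆ n, F n x ^ p := fun x =>
    (ENNReal.orderIsoRpow p hp).map_iSup fun n => F n x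
  simp_rw [e]
  rw [lintegral_iSup (fun n => (hF n).pow_const p)
    (fun m n hmn x => ENNReal.rpow_le_rpow (hm hmn x) hp.le)]
  refine iSup_le fun n => ?_
  rw [← np_pow hp]
  exact ENNReal.rpow_le_rpow (h n) hp.le

/-- the square function in `L^p` -/
theorem np_square {p : ℝ} (hp : 2 ≤ p) (W : ℕ → V → ℝ≥0∞) (hW : ∀ k, Measurable (W k)) :
    np p (fun x => (∑' k, W k x ^ 2) ^ (1 / (2 : ℝ))) ≤
      (∑' k, np p (W k) ^ 2) ^ (1 / (2 : ℝ)) := by
  have hp0 : 0 < p := by linarith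
  have hs : 1 ≤ p / 2 := by linarith
  have hs0 : 0 < p / 2 := by linarith
  have e1 : np p (fun x => (∑' k, W k x ^ 2) ^ (1 / (2 : ℝ))) =
      np (p / 2) (fun x => ∑' k, W k x ^ 2) ^ (1 / (2 : ℝ)) := by
    unfold np
    rw [← ENNReal.rpow_mul]
    congr 1
    · refine lintegral_congr fun x => ?_
      rw [← ENNReal.rpow_mul]
      congr 1
      ring
    · field_simp
  rw [e1]
  refine ENNReal.rpow_le_rpow ?_ (by norm_num)
  have e2 : ∀ x, (∑' k, W k x ^ 2) = ⨆ n : ℕ, ∑ k ∈ Finset.range n, W k x ^ 2 := fun x =>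
    ENNReal.tsum_eq_iSup_nat
  simp_rw [e2]
  refine np_sup hs0 (fun n x => ∑ k ∈ Finset.range n, W k x ^ 2)
    (fun n => Finset.measurable_sum _ fun k _ => (hW k).pow_const 2)
    (fun m n hmn x => Finset.sum_le_sum_of_subset (Finset.range_subset_range.2 hmn)) _
    fun n => ?_
  refine (np_sum hs _ (fun k x => W k x ^ 2) fun k => (hW k).pow_const 2).trans ?_
  refine le_trans (Finset.sum_le_sum fun k _ => ?_) (ENNReal.sum_le_tsum _)
  refine np_le hs0 (le_of_eq ?_)
  rw [← ENNReal.rpow_natCast (np p (W k)), ← ENNReal.rpow_mul]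
  have e3 : ((2 : ℕ) : ℝ) * (p / 2) = p := by push_cast; ring
  rw [e3, np_pow hp0]
  refine lintegral_congr fun x => ?_
  rw [← ENNReal.rpow_natCast, ← ENNReal.rpow_mul, e3]

/-- the inequality from `L²` to `L^p` for the frequencies in `E`, with the constant `K` -/
def LF (p : ℝ) (E : Set V) (K : ℝ≥0∞) : Prop :=
  ∀ G : V → ℂ, Measurable G → MemLp G 2 → (∀ ξ, ξ ∉ E → G ξ = 0) →
    ∀ A : Set V, MeasurableSet A → volume A < ⊤ →
      ∫⁻ x, ‖T G A x‖ₑ ^ p ≤ K * mass G A ^ (p / 2)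

/-- the least constant -/
noncomputable def KF (p : ℝ) (E : Set V) : ℝ≥0∞ := sInf {K | LF p E K}

theorem LF_le {p : ℝ} {E : Set V} {K K' : ℝ≥0∞} (h : LF p E K) (hK : K ≤ K') : LF p E K' :=
  fun G hGm hG hE A hA hf => (h G hGm hG hE A hA hf).trans (mul_le_mul_left hK _)

theorem LF_inf {p : ℝ} (hp : 0 < p) (E : Set V) : LF p E (KF p E) := by
  intro G hGm hG hE A hA hf
  by_cases hb : mass G A = 0
  · have h0 : ∀ x, ‖T G A x‖ₑ ^ 2 ≤ 0 := fun x => by
      have := T_sup hGm hA x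
      rwa [hb, mul_zero] at this
    have h1 : ∫⁻ x, ‖T G A x‖ₑ ^ p = ∫⁻ _x : V, 0 := by
      refine lintegral_congr fun x => ?_
      have h2 : ‖T G A x‖ₑ ^ 2 = 0 := le_antisymm (h0 x) zero_le
      rw [pow_eq_zero_iff two_ne_zero] at h2
      rw [h2, ENNReal.zero_rpow_of_pos hp]
    rw [h1, lintegral_zero]
    exact zero_le
  · have hm := (mass_fin hG A).ne
    have hb2 : mass G A ^ (p / 2) ≠ 0 := (ENNReal.rpow_pos (pos_iff_ne_zero.2 hb) hm).ne'
    have hbt : mass G A ^ (p / 2) ≠ ⊤ := ENNReal.rpow_ne_top_of_nonneg (by positivity) hm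
    rw [← ENNReal.div_le_iff hb2 hbt]
    exact le_sInf fun K hK => (ENNReal.div_le_iff hb2 hbt).2 (hK G hGm hG hE A hA hf)

theorem LF_of {p : ℝ} (hp : 0 < p) {E : Set V} {K : ℝ≥0∞} (h : KF p E ≤ K) : LF p E K :=
  LF_le (LF_inf hp E) h

theorem KF_mono (p : ℝ) {A B : Set V} (h : A ⊆ B) : KF p A ≤ KF p B :=
  sInf_le_sInf fun _ hK G hGm hG hE => hK G hGm hG fun ξ hξ => hE ξ fun h' => hξ (h h')

theorem KF_vol {p : ℝ} (hp : 2 < p) (A : Set V) (hA : MeasurableSet A) :
    KF p A ≤ volume A ^ ((p - 2) / 2) := by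
  refine sInf_le fun G hGm hG hE B hB hf => ?_
  have h0 : ∀ x, T G B x = T G (B ∩ A) x := by
    intro x
    have e : B.indicator G = (B ∩ A).indicator G := by
      funext ξ
      by_cases h1 : ξ ∈ A
      · by_cases h2 : ξ ∈ B
        · rw [Set.indicator_of_mem h2, Set.indicator_of_mem (show ξ ∈ B ∩ A from ⟨h2, h1⟩)]
        · rw [Set.indicator_of_notMem h2, Set.indicator_of_notMem fun h => h2 h.1]
      · rw [Set.indicator_of_notMem (fun h : ξ ∈ B ∩ A => h1 h.2)]
        by_cases h2 : ξ ∈ B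
        · rw [Set.indicator_of_mem h2, hE ξ h1]
        · rw [Set.indicator_of_notMem h2]
    unfold T
    rw [e]
  have hm := (mass_fin hG B).ne
  have h1 : ∀ x, ‖T G B x‖ₑ ^ p ≤
      (volume A * mass G B) ^ ((p - 2) / 2) * ‖T G B x‖ₑ ^ 2 := by
    intro x
    have h2 : ‖T G B x‖ₑ ^ 2 ≤ volume A * mass G B := by
      rw [h0 x]
      refine (T_sup hGm (hB.inter hA) x).trans ?_
      exact mul_le_mul' (measure_mono Set.inter_subset_right) (mass_mono G Set.inter_subset_left)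
    have h3 : ‖T G B x‖ₑ ^ p = (‖T G B x‖ₑ ^ 2) ^ ((p - 2) / 2) * ‖T G B x‖ₑ ^ 2 := by
      rw [← ENNReal.rpow_natCast (‖T G B x‖ₑ) 2, ← ENNReal.rpow_mul,
        ← ENNReal.rpow_add_of_nonneg _ _ (by push_cast; linarith) (by norm_num)]
      congr 1
      push_cast
      ring
    rw [h3]
    exact mul_le_mul_left (ENNReal.rpow_le_rpow h2 (by linarith)) _
  have hp2 : 0 ≤ (p - 2) / 2 := by linarith
  refine (lintegral_mono h1).trans ?_
  rw [lintegral_const_mul _ ((T_cont hG hB hf).enorm.measurable.pow_const 2), T_two hG hB hf,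
    ENNReal.mul_rpow_of_nonneg _ _ hp2, mul_assoc]
  refine mul_le_mul_right (le_of_eq ?_) _
  have h4 : mass G B ^ ((p - 2) / 2) * mass G B =
      mass G B ^ ((p - 2) / 2) * mass G B ^ (1 : ℝ) := by rw [ENNReal.rpow_one]
  rw [h4, ← ENNReal.rpow_add_of_nonneg _ _ hp2 zero_le_one]
  congr 1
  ring

/-- increasing unions -/
theorem KF_iUnion {p : ℝ} (hp : 0 < p) {A : ℕ → Set V} (hA : Monotone A)
    (hm : ∀ m, MeasurableSet (A m)) {c : ℝ≥0∞}
    (h : ∀ m, KF p (A m) ≤ c) : KF p (⋃ m, A m) ≤ c := by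
  refine sInf_le fun G hGm hG hE B hB hf => ?_
  have hind : ∀ m, MemLp ((A m).indicator G) 2 := fun m => hG.indicator (hm m)
  have h1 : ∀ m, ∫⁻ x, ‖T ((A m).indicator G) B x‖ₑ ^ p ≤ c * mass G B ^ (p / 2) := by
    intro m
    refine (LF_of hp (h m) ((A m).indicator G) (hGm.indicator (hm m)) (hind m)
      (fun ξ hξ => Set.indicator_of_notMem hξ G) B hB hf).trans ?_
    refine mul_le_mul_right (ENNReal.rpow_le_rpow (lintegral_mono fun ξ => ?_)
      (by positivity)) _
    refine pow_le_pow_left' ?_ 2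
    by_cases hξ : ξ ∈ A m
    · rw [Set.indicator_of_mem hξ]
    · rw [Set.indicator_of_notMem hξ]; simp
  have h2 : ∀ x, Tendsto (fun m => T ((A m).indicator G) B x) atTop (𝓝 (T G B x)) := by
    intro x
    simp_rw [T_eq _ hB]
    have hint : Integrable (fun ξ => ‖G ξ‖) (volume.restrict B) := by
      have : IsFiniteMeasure (volume.restrict B) := ⟨by simpa using hf⟩
      exact ((hG.restrict B).integrable (by norm_num)).norm
    refine tendsto_integral_of_dominated_convergence (fun ξ => ‖G ξ‖) (fun m => ?_) hint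
      (fun m => Eventually.of_forall fun ξ => ?_) (Eventually.of_forall fun ξ => ?_)
    · have hc : Continuous fun ξ : V => Real.fourierChar (inner ℝ ξ x) :=
        Real.continuous_fourierChar.comp (continuous_id.inner continuous_const)
      exact hc.aestronglyMeasurable.smul (hGm.indicator (hm m)).aestronglyMeasurable
    · rw [Circle.norm_smul]
      by_cases hξ : ξ ∈ A m
      · rw [Set.indicator_of_mem hξ]
      · rw [Set.indicator_of_notMem hξ]; simp
    · by_cases hξ : ξ ∈ ⋃ m, A m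
      · obtain ⟨m0, hm0⟩ := Set.mem_iUnion.1 hξ
        refine tendsto_const_nhds.congr' ?_
        filter_upwards [eventually_ge_atTop m0] with m hmm
        rw [Set.indicator_of_mem (hA hmm hm0)]
      · have h3 : ∀ m, ξ ∉ A m := fun m h4 => hξ (Set.mem_iUnion.2 ⟨m, h4⟩)
        simp_rw [Set.indicator_of_notMem (h3 _), hE ξ hξ]
        exact tendsto_const_nhds
  have h3 : ∀ x, ‖T G B x‖ₑ ^ p = liminf (fun m => ‖T ((A m).indicator G) B x‖ₑ ^ p) atTop := by
    intro x
    have h4 : Tendsto (fun m => ‖T ((A m).indicator G) B x‖ₑ ^ p) atTop (𝓝 (‖T G B x‖ₑ ^ p)) :=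
      ((ENNReal.continuous_rpow_const (y := p)).tendsto _).comp (h2 x).enorm
    exact h4.liminf_eq.symm
  simp_rw [h3]
  refine (lintegral_liminf_le fun m =>
    ((T_cont (hind m) hB hf).enorm.measurable.pow_const p)).trans ?_
  refine (Filter.liminf_le_liminf (Eventually.of_forall h1)).trans (le_of_eq ?_)
  exact liminf_const _

end Run7.h976.SP.Q
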