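import Pool.Agent.Run7.h976.SP.Qa

/-!
The `L² → L^p` constant of a set of frequencies, `p > 2`: the chaining.
-/

set_option autoImplicit false

namespace Run7.h976.SP.Q

open MeasureTheory Filter Topology
open scoped FourierTransform ENNReal

variable {V : Type*} [NormedAddCommGroup V] [InnerProductSpace ℝ V] [FiniteDimensional ℝ V]
  [MeasurableSpace V] [BorelSpace V]

/-- the ratio -/
noncomputable def qq (p : ℝ) : ℝ≥0∞ := 16 ^ (-(1 / 2 - 1 / p))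

/-- the constant -/
noncomputable def CC (p : ℝ) : ℝ≥0∞ := 16 ^ (1 / p) * (1 - qq p)⁻¹

theorem qq_lt {p : ℝ} (hp : 2 < p) : qq p < 1 := by
  refine ENNReal.rpow_lt_one_of_one_lt_of_neg (by norm_num) ?_
  have : 1 / p < 1 / 2 := one_div_lt_one_div_of_lt (by norm_num) hp
  linarith

theorem CC_fin {p : ℝ} (hp : 2 < p) : CC p ≠ ⊤ := by
  refine ENNReal.mul_ne_top (ENNReal.rpow_ne_top_of_nonneg (by positivity) (by norm_num)) ?_
  rw [Ne, ENNReal.inv_eq_top]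
  exact (tsub_pos_of_lt (qq_lt hp)).ne'

theorem DM_p [Nontrivial V] {p : ℝ} {G : V → ℂ} (hp : 0 ≤ p) (hGm : Measurable G)
    (hG : MemLp G 2) {N : ℝ} (hN : 0 ≤ N) {E : Set V} {K : ℝ≥0∞} (hg : LF p E K)
    (hE : ∀ ξ, ξ ∉ E → G ξ = 0) (j : ℕ) :
    ∫⁻ x, ENNReal.ofReal (DM G (mr G N) j x) ^ p ≤
      16 ^ (j + 1) * (K * ENNReal.ofReal (mr G N / 16 ^ j) ^ (p / 2)) := by
  calc ∫⁻ x, ENNReal.ofReal (DM G (mr G N) j x) ^ p
      ≤ ∫⁻ x, ∑ i ∈ Finset.range (16 ^ (j + 1)), ‖DD G (mr G N) j i x‖ₑ ^ p := by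
        refine lintegral_mono fun x => ?_
        obtain ⟨i, hi, he⟩ := Finset.exists_mem_eq_sup' (s := Finset.range (16 ^ (j + 1)))
          ⟨0, Finset.mem_range.2 (by positivity)⟩ (fun i => DD G (mr G N) j i x)
        have h0 : ENNReal.ofReal (DM G (mr G N) j x) = ‖DD G (mr G N) j i x‖ₑ := by
          unfold DM
          rw [he]
          exact (Real.enorm_of_nonneg (show 0 ≤ DD G (mr G N) j i x from norm_nonneg _)).symm
        rw [h0]
        exact Finset.single_le_sum (f := fun i => ‖DD G (mr G N) j i x‖ₑ ^ p)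
          (fun _ _ => zero_le) hi
    _ = ∑ i ∈ Finset.range (16 ^ (j + 1)), ∫⁻ x, ‖DD G (mr G N) j i x‖ₑ ^ p :=
        lintegral_finsetSum _ fun i _ => ((DD_cont hG _ j i).enorm.measurable.pow_const p)
    _ ≤ ∑ _i ∈ Finset.range (16 ^ (j + 1)),
          K * ENNReal.ofReal (mr G N / 16 ^ j) ^ (p / 2) := by
        refine Finset.sum_le_sum fun i hi => ?_
        obtain ⟨A, h1, h2, h3, h4⟩ := DD_incr hGm hG hN (Finset.mem_range.1 hi)
        simp_rw [h4]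
        refine (hg G hGm hG hE A h1 h2).trans ?_
        exact mul_le_mul_right (ENNReal.rpow_le_rpow h3 (by positivity)) _
    _ = _ := by simp

theorem np_DM [Nontrivial V] {p : ℝ} (hp : 2 < p) {m : ℕ} (hm : 2 ≤ (m : ℝ) * (p - 2))
    {G : V → ℂ} (hGm : Measurable G) (hG : MemLp G 2) {N : ℝ} (hN : 0 ≤ N)
    (h0 : ∀ ξ, ξ ∉ ba V N → G ξ = 0) {E : Set V} {w : ℕ} (hg : LF p E (16 ^ w))
    (hE : ∀ ξ, ξ ∉ E → G ξ = 0) (l : ℕ) :
    np p (fun x => ENNReal.ofReal (DM G (mr G N) (m * w + l) x)) ≤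
      16 ^ (1 / p) * qq p ^ l * fn G := by
  have hp0 : 0 < p := by linarith
  obtain ⟨κ, hκ, hM, hfn⟩ := kap hG h0
  set J := m * w + l with hJ
  have s16 : ∀ a b : ℝ, (16 : ℝ≥0∞) ^ a * 16 ^ b = 16 ^ (a + b) := fun a b =>
    (ENNReal.rpow_add a b (by norm_num) (by norm_num)).symm
  have hR : (16 ^ (1 / p) * qq p ^ l * fn G) ^ p =
      (16 : ℝ≥0∞) ^ (1 - (p / 2 - 1) * l) * fn G ^ p := by
    rw [ENNReal.mul_rpow_of_nonneg _ _ hp0.le, ENNReal.mul_rpow_of_nonneg _ _ hp0.le,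
      ← ENNReal.rpow_mul, qq, ← ENNReal.rpow_natCast, ← ENNReal.rpow_mul, ← ENNReal.rpow_mul, s16]
    congr 2
    field_simp
    ring
  have hmr : ENNReal.ofReal (mr G N / 16 ^ J) ^ (p / 2) =
      fn G ^ p * (16 : ℝ≥0∞) ^ (-((J : ℝ) * (p / 2))) := by
    rw [hM, ENNReal.ofReal_div_of_pos (by positivity), ENNReal.ofReal_pow hκ, ← hfn, ← sixteen,
      div_eq_mul_inv, ENNReal.mul_rpow_of_nonneg _ _ (by positivity),
      ← ENNReal.rpow_natCast (fn G), ← ENNReal.rpow_mul, ← ENNReal.rpow_natCast 16 J,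
      ← ENNReal.rpow_neg, ← ENNReal.rpow_mul]
    congr 2
    · push_cast; ring
    · ring
  refine np_le hp0 ?_
  rw [hR]
  refine (DM_p hp0.le hGm hG hN hg hE J).trans ?_
  rw [hmr]
  have e : (16 : ℝ≥0∞) ^ (J + 1) * (16 ^ w * (fn G ^ p * (16 : ℝ≥0∞) ^ (-((J : ℝ) * (p / 2))))) =
      (16 : ℝ≥0∞) ^ (((J : ℝ) + 1) + ((w : ℝ) + -((J : ℝ) * (p / 2)))) * fn G ^ p := by
    have e1 : (16 : ℝ≥0∞) ^ (J + 1) = (16 : ℝ≥0∞) ^ ((J : ℝ) + 1) := by
      rw [← ENNReal.rpow_natCast]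
      push_cast
      rfl
    rw [← s16 ((J : ℝ) + 1) _, ← s16 (w : ℝ) _, e1, ENNReal.rpow_natCast 16 w]
    ring
  rw [e]
  refine mul_le_mul_left (ENNReal.rpow_le_rpow_of_exponent_le (by norm_num) ?_) _
  rw [hJ]
  push_cast
  have hw : (0 : ℝ) ≤ w := Nat.cast_nonneg w
  nlinarith [mul_le_mul_of_nonneg_right hm hw]

theorem np_VV [Nontrivial V] {p : ℝ} (hp : 2 < p) {m : ℕ} (hm : 2 ≤ (m : ℝ) * (p - 2))
    {G : V → ℂ} (hGm : Measurable G) (hG : MemLp G 2) {N : ℝ} (hN : 0 ≤ N)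
    (h0 : ∀ ξ, ξ ∉ ba V N → G ξ = 0) {E : Set V} {w : ℕ} (hg : LF p E (16 ^ w))
    (hE : ∀ ξ, ξ ∉ E → G ξ = 0) (j : ℕ) :
    np p (VV G (mr G N) (m * w + j)) ≤ CC p * qq p ^ j * fn G := by
  have hp0 : 0 < p := by linarith
  unfold VV
  refine np_sup hp0
    (fun L x => ENNReal.ofReal (∑ l ∈ Finset.range L, DM G (mr G N) (m * w + j + l) x))
    (fun L => (continuous_finsetSum _ fun l _ =>
      DM_cont hG _ (m * w + j + l)).measurable.ennreal_ofReal)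
    (fun m n hmn x => ENNReal.ofReal_le_ofReal (Finset.sum_le_sum_of_subset_of_nonneg
      (Finset.range_subset_range.2 hmn) fun l _ _ => DM_nonneg G _ _ x)) _ fun L => ?_
  have e : (fun x => ENNReal.ofReal (∑ l ∈ Finset.range L, DM G (mr G N) (m * w + j + l) x)) =
      fun x => ∑ l ∈ Finset.range L, ENNReal.ofReal (DM G (mr G N) (m * w + (j + l)) x) := by
    funext x
    rw [ENNReal.ofReal_sum_of_nonneg fun l _ => DM_nonneg G _ _ x]
    exact Finset.sum_congr rfl fun l _ => by rw [add_assoc]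
  rw [e]
  refine (np_sum (by linarith) _ (fun l x => ENNReal.ofReal (DM G (mr G N) (m * w + (j + l)) x))
    fun l => (DM_cont hG _ _).measurable.ennreal_ofReal).trans ?_
  refine (Finset.sum_le_sum fun l _ => np_DM hp hm hGm hG hN h0 hg hE (j + l)).trans ?_
  calc ∑ l ∈ Finset.range L, 16 ^ (1 / p) * qq p ^ (j + l) * fn G
      = 16 ^ (1 / p) * qq p ^ j * fn G * ∑ l ∈ Finset.range L, qq p ^ l := by
        rw [Finset.mul_sum]
        refine Finset.sum_congr rfl fun l _ => ?_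
        rw [pow_add]
        ring
    _ ≤ 16 ^ (1 / p) * qq p ^ j * fn G * (1 - qq p)⁻¹ :=
        mul_le_mul_right ((ENNReal.sum_le_tsum _).trans (ENNReal.tsum_geometric _).le) _
    _ = _ := by unfold CC; ring

/-- a sum of pieces -/
theorem pieces_UV [Nontrivial V] {p : ℝ} (hp : 2 < p) {m : ℕ} (hm : 2 ≤ (m : ℝ) * (p - 2))
    {N : ℝ} (hN : 0 ≤ N) {I : ℕ} (F : ℕ → V → ℂ)
    (hFm : ∀ i, Measurable (F i)) (hF : ∀ i, MemLp (F i) 2) (h0 : ∀ i ξ, ξ ∉ ba V N → F i ξ = 0)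
    (E : ℕ → Set V) (hE : ∀ i ξ, ξ ∉ E i → F i ξ = 0)
    (w : ℕ → ℕ) (hg : ∀ i, i < I → LF p (E i) (16 ^ (w i))) (j : ℕ) :
    ∃ U W : V → ℝ≥0∞, Measurable U ∧ Measurable W ∧
      (∀ x, MS (fun ξ => ∑ i ∈ Finset.range I, F i ξ) x ≤ U x + W x) ∧
      nr volume U ≤ ((m * (4 * j + 5) : ℕ) : ℝ≥0∞) *
        ∑ i ∈ Finset.range I, ((1 + w i : ℕ) : ℝ≥0∞) * fn (F i) ∧
      np p W ≤ CC p * qq p ^ j *
        ∑ i ∈ Finset.range I, ((1 + w i : ℕ) : ℝ≥0∞) * fn (F i) := by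
  have hm1 : 1 ≤ m := by
    rcases Nat.eq_zero_or_pos m with h | h
    · rw [h] at hm; norm_num at hm
    · exact h
  refine ⟨fun x => ∑ i ∈ Finset.range I, UU (F i) (mr (F i) N) (m * w i + j) x,
    fun x => ∑ i ∈ Finset.range I, VV (F i) (mr (F i) N) (m * w i + j) x,
    Finset.measurable_sum _ fun i _ => UU_meas (hF i) _ _,
    Finset.measurable_sum _ fun i _ => VV_meas (hF i) _ _, fun x => ?_, ?_, ?_⟩
  · refine (MS_sum _ F (fun i _ => hF i) x).trans ?_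
    rw [← Finset.sum_add_distrib]
    exact Finset.sum_le_sum fun i _ => MS_UV (hFm i) (hF i) hN (h0 i) _ x
  · refine (nr_sum volume _ (fun i => UU (F i) (mr (F i) N) (m * w i + j))
      fun i => UU_meas (hF i) _ _).trans ?_
    rw [Finset.mul_sum]
    refine Finset.sum_le_sum fun i _ => (nr_UU (hFm i) (hF i) hN (h0 i) _).trans ?_
    rw [← mul_assoc]
    refine mul_le_mul_left ?_ _
    have h4 : 4 * (m * w i + j) + 1 ≤ (m * (4 * j + 5)) * (1 + w i) := by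
      have h5 : 4 * j + 5 ≤ m * (4 * j + 5) := Nat.le_mul_of_pos_left _ hm1
      nlinarith [Nat.zero_le (m * j * w i), Nat.zero_le (m * w i)]
    exact_mod_cast h4
  · refine (np_sum (by linarith) _ (fun i => VV (F i) (mr (F i) N) (m * w i + j))
      fun i => VV_meas (hF i) _ _).trans ?_
    rw [Finset.mul_sum]
    refine Finset.sum_le_sum fun i hi => (np_VV hp hm (hFm i) (hF i) hN (h0 i)
      (hg i (Finset.mem_range.1 hi)) (hE i) j).trans ?_
    refine mul_le_mul_right ?_ _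
    refine le_mul_of_one_le_left zero_le ?_
    exact_mod_cast (show 1 ≤ 1 + w i by omega)

theorem shell_UV [Nontrivial V] {p : ℝ} (hp : 2 < p) {m : ℕ} (hm : 2 ≤ (m : ℝ) * (p - 2))
    {G : V → ℂ} (hGm : Measurable G) (hG : MemLp G 2) {k I : ℕ}
    {E : ℕ → Set V} (hE : ∀ i, MeasurableSet (E i))
    (hcov : ∀ ξ ∈ sh V k, G ξ ≠ 0 → ∃ i < I, ξ ∈ E i) (w : ℕ → ℕ)
    (hg : ∀ i, i < I → LF p (E i) (16 ^ (w i))) (j : ℕ) :
    ∃ U W : V → ℝ≥0∞, Measurable U ∧ Measurable W ∧ (∀ x, MS (gs G k) x ≤ U x + W x) ∧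
      nr volume U ≤ ((m * (4 * j + 5) : ℕ) : ℝ≥0∞) * cost G k I E w ∧
      np p W ≤ CC p * qq p ^ j * cost G k I E w := by
  have hms : ∀ i, MeasurableSet (sh V k ∩ dj E i) := fun i => (sh_meas k).inter (dj_meas hE i)
  have hfn : ∑ i ∈ Finset.range I, ((1 + w i : ℕ) : ℝ≥0∞) * fn (pc G k E i) ≤ cost G k I E w := by
    refine Finset.sum_le_sum fun i _ => mul_le_mul_right ?_ _
    unfold fn nr
    refine ENNReal.rpow_le_rpow ?_ (by norm_num)
    rw [pc, ind_lint G (hms i)]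
    exact mass_mono G fun ξ h => ⟨h.1, h.2.1⟩
  rw [pc_sum hcov]
  obtain ⟨U, W, h1, h2, h3, h4, h5⟩ := pieces_UV hp hm (N := 2 ^ (k + 1)) (by positivity)
    (I := I) (fun i => pc G k E i) (fun i => hGm.indicator (hms i))
    (fun i => hG.indicator (hms i))
    (fun i ξ hξ => Set.indicator_of_notMem (fun h => hξ h.1.1) G) E
    (fun i ξ hξ => Set.indicator_of_notMem (fun h => hξ h.2.1) G) w hg j
  exact ⟨U, W, h1, h2, h3, h4.trans (mul_le_mul_right hfn _),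
    h5.trans (mul_le_mul_right hfn _)⟩

/-- Hölder over a set -/
theorem loc_np {p : ℝ} (hp : 2 < p) {W : V → ℝ≥0∞} (hW : Measurable W) (B : Set V) :
    ∫⁻ x in B, W x ^ 2 ≤ np p W ^ 2 * volume B ^ (1 / (p / 2).conjExponent) := by
  have hp0 : 0 < p := by linarith
  have h1 := ENNReal.lintegral_mul_le_Lp_mul_Lq (volume.restrict B)
    (Real.HolderConjugate.conjExponent (show 1 < p / 2 by linarith))
    (f := fun x => W x ^ 2) (g := fun _ => 1) (hW.pow_const 2).aemeasurable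
    measurable_const.aemeasurable
  simp only [Pi.mul_apply, mul_one, ENNReal.one_rpow, lintegral_const,
    Measure.restrict_apply MeasurableSet.univ, Set.univ_inter, one_mul] at h1
  refine h1.trans (mul_le_mul_left ?_ _)
  have e3 : ((2 : ℕ) : ℝ) * (p / 2) = p := by push_cast; ring
  have h2 : ∫⁻ x in B, (W x ^ 2) ^ (p / 2) ≤ ∫⁻ x, W x ^ p := by
    refine (lintegral_mono' Measure.restrict_le_self le_rfl).trans (le_of_eq ?_)
    refine lintegral_congr fun x => ?_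
    rw [← ENNReal.rpow_natCast, ← ENNReal.rpow_mul, e3]
  refine (ENNReal.rpow_le_rpow h2 (by positivity)).trans (le_of_eq ?_)
  rw [np, ← ENNReal.rpow_natCast ((∫⁻ x, W x ^ p) ^ (1 / p)), ← ENNReal.rpow_mul]
  congr 1
  push_cast
  field_simp

/-- the local bound -/
theorem shell_loc [Nontrivial V] {p : ℝ} (hp : 2 < p) {m : ℕ} (hm : 2 ≤ (m : ℝ) * (p - 2))
    {G : V → ℂ} (hGm : Measurable G) (hG : MemLp G 2) {k I : ℕ}
    {E : ℕ → Set V} (hE : ∀ i, MeasurableSet (E i))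
    (hcov : ∀ ξ ∈ sh V k, G ξ ≠ 0 → ∃ i < I, ξ ∈ E i) (w : ℕ → ℕ)
    (hg : ∀ i, i < I → LF p (E i) (16 ^ (w i))) (B : Set V) :
    ∫⁻ x in B, MS (gs G k) x ^ 2 ≤ (2 * ((m * 5 : ℕ) : ℝ≥0∞) ^ 2 +
      2 * (CC p ^ 2 * volume B ^ (1 / (p / 2).conjExponent))) * cost G k I E w ^ 2 := by
  obtain ⟨U, W, hU, hW, h3, h4, h5⟩ := shell_UV hp hm hGm hG hE hcov w hg 0
  set c := cost G k I E w with hc
  rw [pow_zero, mul_one] at h5
  rw [mul_zero, zero_add] at h4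
  have h6 : ∫⁻ x in B, U x ^ 2 ≤ ((m * 5 : ℕ) : ℝ≥0∞) ^ 2 * c ^ 2 := by
    refine (lintegral_mono' Measure.restrict_le_self le_rfl).trans ?_
    rw [← nr_sq, ← mul_pow]
    exact pow_le_pow_left' h4 2
  have h7 : ∫⁻ x in B, W x ^ 2 ≤ CC p ^ 2 * volume B ^ (1 / (p / 2).conjExponent) * c ^ 2 := by
    refine (loc_np hp hW B).trans ?_
    refine (mul_le_mul_left (pow_le_pow_left' h5 2) _).trans (le_of_eq ?_)
    ring
  calc ∫⁻ x in B, MS (gs G k) x ^ 2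
      ≤ ∫⁻ x in B, (2 * U x ^ 2 + 2 * W x ^ 2) :=
        lintegral_mono fun x => (pow_le_pow_left' (h3 x) 2).trans (sq_add_le _ _)
    _ = 2 * (∫⁻ x in B, U x ^ 2) + 2 * ∫⁻ x in B, W x ^ 2 := by
        rw [lintegral_add_left ((hU.pow_const 2).const_mul 2),
          lintegral_const_mul _ (hU.pow_const 2), lintegral_const_mul _ (hW.pow_const 2)]
    _ ≤ 2 * (((m * 5 : ℕ) : ℝ≥0∞) ^ 2 * c ^ 2) +
          2 * (CC p ^ 2 * volume B ^ (1 / (p / 2).conjExponent) * c ^ 2) :=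
        add_le_add (mul_le_mul_right h6 _) (mul_le_mul_right h7 _)
    _ = _ := by ring

/-- almost everywhere convergence -/
theorem gen_conv [Nontrivial V] {p : ℝ} (hp : 2 < p) {m : ℕ} (hm : 2 ≤ (m : ℝ) * (p - 2))
    {G : V → ℂ} (hGm : Measurable G) (hG : MemLp G 2)
    (f : Lp ℂ 2 (volume : Measure V)) (hf : ((𝓕 f : Lp ℂ 2 (volume : Measure V)) : V → ℂ) =ᵐ[volume] G)
    (I : ℕ → ℕ) (E : ℕ → ℕ → Set V) (hE : ∀ k i, MeasurableSet (E k i))
    (hcov : ∀ k, ∀ ξ ∈ sh V k, G ξ ≠ 0 → ∃ i < I k, ξ ∈ E k i) (j : ℕ → ℕ → ℕ)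
    (hg : ∀ k i, i < I k → LF p (E k i) (16 ^ (j k i)))
    (hs : ∑' k, cost G k (I k) (E k) (j k) ^ 2 ≠ ⊤) :
    ∀ᵐ x, Tendsto (fun R : ℝ => T G (ba V R) x) atTop (𝓝 (f x)) := by
  refine shell_conv hGm hG (fun L => ?_) f hf
  have hconj : 0 ≤ 1 / (p / 2).conjExponent := by
    have := (Real.HolderConjugate.conjExponent (show 1 < p / 2 by linarith)).symm.pos
    positivity
  have hb : 2 * ((m * 5 : ℕ) : ℝ≥0∞) ^ 2 +
      2 * (CC p ^ 2 * volume (ba V (L : ℝ)) ^ (1 / (p / 2).conjExponent)) ≠ ⊤ :=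
    ENNReal.add_ne_top.2 ⟨ENNReal.mul_ne_top (by norm_num) (ENNReal.pow_ne_top
      (ENNReal.natCast_ne_top _)), ENNReal.mul_ne_top (by norm_num)
      (ENNReal.mul_ne_top (ENNReal.pow_ne_top (CC_fin hp))
        (ENNReal.rpow_ne_top_of_nonneg hconj (ba_fin _).ne))⟩
  refine ne_top_of_le_ne_top (ENNReal.mul_ne_top hb hs) ?_
  rw [← ENNReal.tsum_mul_left]
  exact ENNReal.tsum_le_tsum fun k => shell_loc hp hm hGm hG (hE k) (hcov k) (j k) (hg k) _

/-- the maximal function in `L² + L^p` -/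
theorem glob_max [Nontrivial V] {p : ℝ} (hp : 2 < p) {m : ℕ} (hm : 2 ≤ (m : ℝ) * (p - 2))
    {G : V → ℂ} (hGm : Measurable G) (hG : MemLp G 2)
    (f : Lp ℂ 2 (volume : Measure V)) (hf : ((𝓕 f : Lp ℂ 2 (volume : Measure V)) : V → ℂ) =ᵐ[volume] G)
    (N : ℕ → ℝ≥0∞) {v : ℕ} (hv : LF p (ba V 1) (16 ^ v)) (j : ℕ) (c1 c2 : ℝ≥0∞)
    (hN : ∀ k, ∃ U W : V → ℝ≥0∞, Measurable U ∧ Measurable W ∧
      (∀ x, MS (gs G k) x ≤ U x + W x) ∧ nr volume U ≤ c1 * N k ∧ np p W ≤ c2 * N k) :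
    ∃ U W : V → ℝ≥0∞, Measurable U ∧ Measurable W ∧ (∀ x, MS G x ≤ U x + W x) ∧
      nr volume U ≤ (((4 * (m * v + j) + 1 + 4 ^ (Module.finrank ℝ V + 3) : ℕ) : ℝ≥0∞) + c1) *
        (fn G + (∑' k, N k ^ 2) ^ (1 / (2 : ℝ))) ∧
      np p W ≤ (CC p * qq p ^ j + c2) * (fn G + (∑' k, N k ^ 2) ^ (1 / (2 : ℝ))) := by
  choose U W hU hW hUW hU2 hW4 using hN
  have hlo : MemLp (lo G) 2 := ind_mem hG (ba_meas 1)
  have hlom : Measurable (lo G) := hGm.indicator (ba_meas 1)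
  have hlo0 : ∀ ξ, ξ ∉ ba V 1 → lo G ξ = 0 := fun ξ hξ => Set.indicator_of_notMem hξ G
  have hsU : Measurable fun x => (∑' k, U k x ^ 2) ^ (1 / (2 : ℝ)) :=
    (Measurable.tsum fun k => (hU k).pow_const 2).pow_const _
  have hsW : Measurable fun x => (∑' k, W k x ^ 2) ^ (1 / (2 : ℝ)) :=
    (Measurable.tsum fun k => (hW k).pow_const 2).pow_const _
  have hU0 := UU_meas hlo (mr (lo G) 1) (m * v + j)
  have hW0 := VV_meas hlo (mr (lo G) 1) (m * v + j)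
  refine ⟨fun x => UU (lo G) (mr (lo G) 1) (m * v + j) x +
      (LM G x + (∑' k, U k x ^ 2) ^ (1 / (2 : ℝ))),
    fun x => VV (lo G) (mr (lo G) 1) (m * v + j) x + (∑' k, W k x ^ 2) ^ (1 / (2 : ℝ)),
    hU0.add ((LM_meas hG).add hsU), hW0.add hsW, fun x => ?_, ?_, ?_⟩
  · have h1 := MS_UV hlom hlo zero_le_one hlo0 (m * v + j) x
    have h2 : ⨆ k, MS (gs G k) x ≤ (∑' k, U k x ^ 2) ^ (1 / (2 : ℝ)) +
        (∑' k, W k x ^ 2) ^ (1 / (2 : ℝ)) :=
      iSup_le fun k => (hUW k x).trans (add_le_add (le_square (fun k => U k x) k)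
        (le_square (fun k => W k x) k))
    refine (MS_split' hG x).trans ((add_le_add h1 (add_le_add le_rfl h2)).trans (le_of_eq ?_))
    ring
  · have h1 : nr volume (UU (lo G) (mr (lo G) 1) (m * v + j)) ≤
        ((4 * (m * v + j) + 1 : ℕ) : ℝ≥0∞) * fn G :=
      (nr_UU hlom hlo zero_le_one hlo0 _).trans (mul_le_mul_right (fn_lo G) _)
    have h2 := nr_LM hGm hG f hf
    have h3 := (nr_square U hU).trans (square_le _ _ N hU2)
    set Y : ℝ≥0∞ := (∑' k, N k ^ 2) ^ (1 / (2 : ℝ)) with hY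
    calc nr volume (fun x => UU (lo G) (mr (lo G) 1) (m * v + j) x +
          (LM G x + (∑' k, U k x ^ 2) ^ (1 / (2 : ℝ))))
        ≤ nr volume (UU (lo G) (mr (lo G) 1) (m * v + j)) + (nr volume (LM G) +
          nr volume (fun x => (∑' k, U k x ^ 2) ^ (1 / (2 : ℝ)))) :=
          (nr_add _ hU0 ((LM_meas hG).add hsU)).trans
            (add_le_add le_rfl (nr_add _ (LM_meas hG) hsU))
      _ ≤ ((4 * (m * v + j) + 1 : ℕ) : ℝ≥0∞) * fn G +
          (((4 ^ (Module.finrank ℝ V + 3) : ℕ) : ℝ≥0∞) * fn G + c1 * Y) :=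
          add_le_add h1 (add_le_add h2 h3)
      _ ≤ _ := by
          push_cast
          set a : ℝ≥0∞ := 4 * (m * v + j) + 1 with ha
          set b : ℝ≥0∞ := 4 ^ (Module.finrank ℝ V + 3) with hb
          have e : (a + b + c1) * (fn G + Y) =
              (a * fn G + (b * fn G + c1 * Y)) + (c1 * fn G + (a + b) * Y) := by ring
          rw [e]
          exact le_self_add
  · have h1 : np p (VV (lo G) (mr (lo G) 1) (m * v + j)) ≤ CC p * qq p ^ j * fn G :=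
      (np_VV hp hm hlom hlo zero_le_one hlo0 hv hlo0 j).trans
        (mul_le_mul_right (fn_lo G) _)
    have h3 := (np_square hp.le W hW).trans (square_le _ _ N hW4)
    refine (np_add (by linarith) hW0 hsW).trans ((add_le_add h1 h3).trans ?_)
    rw [add_mul]
    exact add_le_add (mul_le_mul_right le_self_add _) (mul_le_mul_right le_add_self _)

end Run7.h976.SP.Q
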