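import Pool.Agent.Run7.h976.SP.Av

/-!
Dyadic shells, cut into pieces.
-/

set_option autoImplicit false

namespace Run7.h976.SP

open MeasureTheory Filter Topology
open scoped FourierTransform ENNReal

variable {V : Type*} [NormedAddCommGroup V] [InnerProductSpace ℝ V] [FiniteDimensional ℝ V]
  [MeasurableSpace V] [BorelSpace V]

/-- the dyadic shell -/
def sh (V : Type*) [NormedAddCommGroup V] (k : ℕ) : Set V := ba V (2 ^ (k + 1)) \ ba V (2 ^ k)

theorem sh_meas (k : ℕ) : MeasurableSet (sh V k) := (ba_meas _).diff (ba_meas _)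

/-- the part of `G` in the shell -/
noncomputable def gs (G : V → ℂ) (k : ℕ) : V → ℂ := (sh V k).indicator G

theorem T_shell {G : V → ℂ} (hG : MemLp G 2) {k : ℕ} {R : ℝ} (h1 : 2 ^ k ≤ R)
    (h2 : R ≤ 2 ^ (k + 1)) (x : V) :
    T G (ba V R) x - T G (ba V (2 ^ k)) x = T (gs G k) (ba V R) x := by
  rw [T_sub hG (ba_meas _) (ba_meas R) (ba_fin R) (ba_mono h1)]
  have e : ba V R \ ba V (2 ^ k) = ba V R ∩ sh V k := by
    ext ξ
    unfold sh
    simp only [Set.mem_sdiff, Set.mem_inter_iff, mem_closedBall_zero_iff]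
    constructor
    · rintro ⟨h3, h4⟩
      exact ⟨h3, h3.trans h2, h4⟩
    · rintro ⟨h3, _, h4⟩
      exact ⟨h3, h4⟩
  unfold T gs
  rw [Set.indicator_indicator, e]

theorem sqrt_lim {a : ℕ → ℝ≥0∞} (h : Tendsto (fun k => a k ^ 2) atTop (𝓝 0)) :
    Tendsto a atTop (𝓝 0) := by
  have h7 := h.ennrpow_const (1 / (2 : ℝ))
  rw [ENNReal.zero_rpow_of_pos (by norm_num)] at h7
  refine h7.congr fun k => ?_
  rw [← ENNReal.rpow_natCast, ← ENNReal.rpow_mul]
  norm_num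

/-- almost everywhere convergence from the dyadic shells -/
theorem shell_conv [Nontrivial V] {G : V → ℂ} (hGm : Measurable G) (hG : MemLp G 2)
    (hs : ∀ L : ℕ, ∑' k, ∫⁻ x in ba V (L : ℝ), MS (gs G k) x ^ 2 ≠ ⊤)
    (f : Lp ℂ 2 (volume : Measure V)) (hf : ((𝓕 f : Lp ℂ 2 (volume : Measure V)) : V → ℂ) =ᵐ[volume] G) :
    ∀ᵐ x, Tendsto (fun R : ℝ => T G (ba V R) x) atTop (𝓝 (f x)) := by
  have hgsm : ∀ k, Measurable (gs G k) := fun k => hGm.indicator (sh_meas k)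
  have hgs : ∀ k, MemLp (gs G k) 2 := fun k => hG.indicator (sh_meas k)
  have key : ∀ L : ℕ, ∀ᵐ x ∂(volume.restrict (ba V (L : ℝ))),
      Tendsto (fun k => MS (gs G k) x) atTop (𝓝 0) := by
    intro L
    have h2 : ∫⁻ x in ba V (L : ℝ), ∑' k, MS (gs G k) x ^ 2 ≠ ⊤ := by
      rw [lintegral_tsum fun k => ((MS_meas (hgs k)).pow_const 2).aemeasurable]
      exact hs L
    have h3 := ae_lt_top (Measurable.tsum fun k => (MS_meas (hgs k)).pow_const 2) h2
    filter_upwards [h3] with x hx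
    exact sqrt_lim (ENNReal.tendsto_atTop_zero_of_tsum_ne_top hx.ne)
  have key2 : ∀ᵐ x, Tendsto (fun k => MS (gs G k) x) atTop (𝓝 0) := by
    have h1 : ∀ᵐ x, ∀ L : ℕ, x ∈ ba V (L : ℝ) → Tendsto (fun k => MS (gs G k) x) atTop (𝓝 0) :=
      ae_all_iff.2 fun L => (ae_restrict_iff' (ba_meas _)).1 (key L)
    filter_upwards [h1] with x hx
    obtain ⟨L, hL⟩ := exists_nat_ge ‖x‖
    exact hx L (by rwa [mem_closedBall_zero_iff])
  filter_upwards [key2, lac_conv hGm hG f hf] with x hx1 hx2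
  rw [Metric.tendsto_atTop]
  intro ε hε
  have h1 : ∀ᶠ k in atTop, MS (gs G k) x < ENNReal.ofReal (ε / 2) :=
    (tendsto_order.1 hx1).2 _ (ENNReal.ofReal_pos.2 (by positivity))
  have h2 := (Metric.tendsto_atTop.1 hx2) (ε / 2) (by positivity)
  obtain ⟨K1, hK1⟩ := eventually_atTop.1 h1
  obtain ⟨K2, hK2⟩ := h2
  refine ⟨2 ^ (max K1 K2), fun R hR => ?_⟩
  have hR1 : (1 : ℝ) ≤ R := (one_le_pow₀ (by norm_num)).trans hR
  obtain ⟨k, hk1, hk2⟩ := exists_nat_pow_near hR1 (y := (2 : ℝ)) (by norm_num)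
  have hk : max K1 K2 ≤ k := by
    have : (2 : ℝ) ^ (max K1 K2) < 2 ^ (k + 1) := hR.trans_lt hk2
    have := (pow_lt_pow_iff_right₀ (by norm_num : (1 : ℝ) < 2)).1 this
    omega
  have h3 := hK1 k (by omega)
  have h4 := hK2 k (by omega)
  have h5 : ‖T (gs G k) (ba V R) x‖ₑ < ENNReal.ofReal (ε / 2) :=
    (le_iSup (fun R => ‖T (gs G k) (ba V R) x‖ₑ) R).trans_lt h3
  rw [← T_shell hG hk1 hk2.le x, ← ofReal_norm, ENNReal.ofReal_lt_ofReal_iff (by positivity)]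
    at h5
  rw [dist_eq_norm] at h4 ⊢
  have h6 := norm_add_le (T G (ba V R) x - T G (ba V (2 ^ k)) x) (T G (ba V (2 ^ k)) x - f x)
  rw [sub_add_sub_cancel] at h6
  linarith

/-- sums -/
theorem T_sum {ι : Type*} (s : Finset ι) (F : ι → V → ℂ) (hF : ∀ i ∈ s, MemLp (F i) 2)
    {A : Set V} (hA : MeasurableSet A) (hf : volume A < ⊤) (x : V) :
    T (fun ξ => ∑ i ∈ s, F i ξ) A x = ∑ i ∈ s, T (F i) A x := by
  rw [T_ch _ hA]
  simp_rw [T_ch _ hA, Finset.mul_sum]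
  exact integral_finsetSum _ fun i hi => ch_int_mul (hF i hi) hA hf x

theorem MS_sum {ι : Type*} (s : Finset ι) (F : ι → V → ℂ) (hF : ∀ i ∈ s, MemLp (F i) 2) (x : V) :
    MS (fun ξ => ∑ i ∈ s, F i ξ) x ≤ ∑ i ∈ s, MS (F i) x := by
  refine iSup_le fun R => ?_
  rw [T_sum s F hF (ba_meas R) (ba_fin R)]
  refine (enorm_sum_le s fun i => T (F i) (ba V R) x).trans ?_
  exact Finset.sum_le_sum fun i _ => le_iSup (fun R => ‖T (F i) (ba V R) x‖ₑ) R

/-- the norm of a nonnegative function -/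
noncomputable def nr (μ : Measure V) (F : V → ℝ≥0∞) : ℝ≥0∞ := (∫⁻ x, F x ^ 2 ∂μ) ^ (1 / (2 : ℝ))

omit [NormedAddCommGroup V] [InnerProductSpace ℝ V] [FiniteDimensional ℝ V] [BorelSpace V] in
theorem nr_sq (μ : Measure V) (F : V → ℝ≥0∞) : nr μ F ^ 2 = ∫⁻ x, F x ^ 2 ∂μ := by
  rw [nr, ← ENNReal.rpow_natCast, ← ENNReal.rpow_mul]
  norm_num

omit [NormedAddCommGroup V] [InnerProductSpace ℝ V] [FiniteDimensional ℝ V] [BorelSpace V] in
theorem nr_le {μ : Measure V} {F : V → ℝ≥0∞} {c : ℝ≥0∞} (h : ∫⁻ x, F x ^ 2 ∂μ ≤ c ^ 2) :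
    nr μ F ≤ c := by
  rw [← nr_sq] at h
  exact (ENNReal.pow_le_pow_left_iff two_ne_zero).1 h

omit [NormedAddCommGroup V] [InnerProductSpace ℝ V] [FiniteDimensional ℝ V] [BorelSpace V] in
theorem nr_sum {ι : Type*} (μ : Measure V) (s : Finset ι) (F : ι → V → ℝ≥0∞)
    (hF : ∀ i, Measurable (F i)) : nr μ (fun x => ∑ i ∈ s, F i x) ≤ ∑ i ∈ s, nr μ (F i) := by
  classical
  induction s using Finset.induction_on with
  | empty => simp [nr]
  | insert a s ha ih =>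
    simp only [Finset.sum_insert ha]
    have h1 := ENNReal.lintegral_Lp_add_le (μ := μ) (f := F a) (g := fun x => ∑ i ∈ s, F i x)
      (hF a).aemeasurable (Finset.measurable_sum s fun i _ => hF i).aemeasurable
      (p := 2) (by norm_num)
    simp only [Pi.add_apply, ENNReal.rpow_ofNat] at h1
    exact h1.trans (add_le_add le_rfl ih)

/-- the `L²` norm on the side of frequencies -/
noncomputable def fn (F : V → ℂ) : ℝ≥0∞ := nr volume fun ξ => ‖F ξ‖ₑ

/-- the maximal function of a sum of pieces, in the mean over `B` -/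
theorem pieces [Nontrivial V] {I : ℕ} (F : ℕ → V → ℂ) (hFm : ∀ i, Measurable (F i))
    (hF : ∀ i, MemLp (F i) 2) (E : ℕ → Set V) (hEm : ∀ i, MeasurableSet (E i))
    (hE : ∀ i ξ, ξ ∉ E i → F i ξ = 0) (j : ℕ → ℕ)
    (hg : ∀ i, i < I → ∀ z : V, volume (E i ∩ {ξ | z - ξ ∈ E i}) ≤ 16 ^ (j i))
    {B : Set V} {b : ℕ} (hB : volume B ≤ 16 ^ b) :
    nr (volume.restrict B) (MS fun ξ => ∑ i ∈ Finset.range I, F i ξ) ≤
      ((4 * b + 5 : ℕ) : ℝ≥0∞) * ∑ i ∈ Finset.range I, ((1 + j i : ℕ) : ℝ≥0∞) * fn (F i) := by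
  have hBt : volume B ≠ ⊤ := ne_top_of_le_ne_top (ENNReal.pow_ne_top (by norm_num)) hB
  calc nr (volume.restrict B) (MS fun ξ => ∑ i ∈ Finset.range I, F i ξ)
      ≤ nr (volume.restrict B) (fun x => ∑ i ∈ Finset.range I, MS (F i) x) := by
        refine ENNReal.rpow_le_rpow (lintegral_mono fun x => ?_) (by norm_num)
        exact pow_le_pow_left' (MS_sum _ F (fun i _ => hF i) x) 2
    _ ≤ ∑ i ∈ Finset.range I, nr (volume.restrict B) (MS (F i)) :=
        nr_sum _ _ _ fun i => MS_meas (hF i)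
    _ ≤ ∑ i ∈ Finset.range I, ((4 * b + 5 : ℕ) : ℝ≥0∞) * (((1 + j i : ℕ) : ℝ≥0∞) * fn (F i)) := by
        refine Finset.sum_le_sum fun i hi => nr_le ?_
        have h2 := MS_two (hFm i) (hF i) (hEm i) (g := 16 ^ (j i))
          (ENNReal.pow_ne_top (by norm_num)) (hg i (Finset.mem_range.1 hi)) (hE i) hBt
          (J := j i + b) (by rw [pow_add]; exact mul_le_mul_right hB _)
        refine h2.trans ?_
        rw [mul_pow, mul_pow, fn, nr_sq, ← mul_assoc, ← mul_pow]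
        refine mul_le_mul_left (pow_le_pow_left' ?_ 2) _
        have h3 : (4 : ℝ≥0∞) * ((j i + b : ℕ) : ℝ≥0∞) + 5 =
            ((4 * (j i + b) + 5 : ℕ) : ℝ≥0∞) := by
          push_cast; ring
        rw [h3]
        have h4 : 4 * (j i + b) + 5 ≤ (4 * b + 5) * (1 + j i) := by
          nlinarith [Nat.zero_le (b * j i)]
        exact_mod_cast h4
    _ = _ := by rw [← Finset.mul_sum]

end Run7.h976.SP
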