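import Pool.Agent.Run7.h976.SP.Pl

/-!
Fourier sums over sets of frequencies: additivity, norms, continuity in the radius.
-/

set_option autoImplicit false

namespace Run7.h976.SP

open MeasureTheory Filter Topology
open scoped FourierTransform ENNReal

variable {V : Type*} [NormedAddCommGroup V] [InnerProductSpace ℝ V] [FiniteDimensional ℝ V]
  [MeasurableSpace V] [BorelSpace V]

/-- the spherical sum over the set `A` of frequencies -/
noncomputable def T (G : V → ℂ) (A : Set V) : V → ℂ := 𝓕⁻ (A.indicator G)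

/-- the mass of the set `A` -/
noncomputable def mass (G : V → ℂ) (A : Set V) : ℝ≥0∞ := ∫⁻ ξ in A, ‖G ξ‖ₑ ^ 2

theorem ind_int {G : V → ℂ} (hG : MemLp G 2) {A : Set V} (hA : MeasurableSet A)
    (hf : volume A < ⊤) : Integrable (A.indicator G) := by
  rw [integrable_indicator_iff hA]
  have : IsFiniteMeasure (volume.restrict A) := ⟨by simpa using hf⟩
  exact (hG.restrict A).integrable (by norm_num)

theorem ind_mem {G : V → ℂ} (hG : MemLp G 2) {A : Set V} (hA : MeasurableSet A) :
    MemLp (A.indicator G) 2 := hG.indicator hA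

theorem ind_lint (G : V → ℂ) {A : Set V} (hA : MeasurableSet A) :
    ∫⁻ ξ, ‖A.indicator G ξ‖ₑ ^ 2 = mass G A := by
  rw [mass, ← lintegral_indicator hA]
  refine lintegral_congr fun ξ => ?_
  by_cases h : ξ ∈ A
  · simp [Set.indicator_of_mem h]
  · simp [Set.indicator_of_notMem h]

theorem T_cont {G : V → ℂ} (hG : MemLp G 2) {A : Set V} (hA : MeasurableSet A)
    (hf : volume A < ⊤) : Continuous (T G A) := inv_cont _ (ind_int hG hA hf)

theorem T_two {G : V → ℂ} (hG : MemLp G 2) {A : Set V} (hA : MeasurableSet A)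
    (hf : volume A < ⊤) : ∫⁻ x, ‖T G A x‖ₑ ^ 2 = mass G A := by
  rw [T, planch _ (ind_int hG hA hf) (ind_mem hG hA), ind_lint G hA]

theorem T_four {G : V → ℂ} (hGm : Measurable G) (hG : MemLp G 2) {A : Set V}
    (hA : MeasurableSet A) (hf : volume A < ⊤) (E : Set V) (hEm : MeasurableSet E) (g : ℝ≥0∞)
    (hgt : g ≠ ⊤) (hg : ∀ z : V, volume (E ∩ {ξ | z - ξ ∈ E}) ≤ g)
    (hE : ∀ ξ, ξ ∉ E → G ξ = 0) : ∫⁻ x, ‖T G A x‖ₑ ^ 4 ≤ g * mass G A ^ 2 := by
  have := four E hEm g hgt hg (A.indicator G) (hGm.indicator hA) (ind_int hG hA hf)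
    (ind_mem hG hA) (fun ξ hξ => by
      by_cases h : ξ ∈ A
      · rw [Set.indicator_of_mem h, hE ξ hξ]
      · rw [Set.indicator_of_notMem h])
  rw [ind_lint G hA] at this
  exact this

theorem T_eq (G : V → ℂ) {A : Set V} (hA : MeasurableSet A) (x : V) :
    T G A x = ∫ ξ in A, Real.fourierChar (inner ℝ ξ x) • G ξ := by
  rw [T, Real.fourierInv_eq, ← integral_indicator hA]
  refine integral_congr_ae (Eventually.of_forall fun ξ => ?_)
  by_cases h : ξ ∈ A
  · simp [Set.indicator_of_mem h]
  · simp [Set.indicator_of_notMem h]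

/-- the pointwise bound -/
theorem T_sup {G : V → ℂ} (hGm : Measurable G) {A : Set V} (hA : MeasurableSet A) (x : V) :
    ‖T G A x‖ₑ ^ 2 ≤ volume A * mass G A := by
  have h1 : ‖T G A x‖ₑ ≤ ∫⁻ ξ in A, 1 * ‖G ξ‖ₑ := by
    rw [T_eq G hA]
    refine (enorm_integral_le_lintegral_enorm _).trans (le_of_eq ?_)
    refine lintegral_congr fun ξ => ?_
    rw [Circle.smul_def, enorm_smul, one_mul]
    have : ‖((Real.fourierChar (inner ℝ ξ x) : Circle) : ℂ)‖ₑ = 1 := by
      rw [← ofReal_norm, Circle.norm_coe]; simp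
    rw [this, one_mul]
  have h2 := cs_lint (volume.restrict A) (fun _ => 1) (fun ξ => ‖G ξ‖ₑ)
    measurable_const.aemeasurable hGm.enorm.aemeasurable
  calc ‖T G A x‖ₑ ^ 2 ≤ (∫⁻ ξ in A, 1 * ‖G ξ‖ₑ) ^ 2 := by gcongr
    _ ≤ (∫⁻ ξ in A, 1 ^ 2) * ∫⁻ ξ in A, ‖G ξ‖ₑ ^ 2 := h2
    _ = volume A * mass G A := by simp [mass]

theorem T_sub {G : V → ℂ} (hG : MemLp G 2) {A B : Set V} (hA : MeasurableSet A)
    (hB : MeasurableSet B) (hf : volume B < ⊤) (h : A ⊆ B) (x : V) :
    T G B x - T G A x = T G (B \ A) x := by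
  have hi : ∀ C : Set V, MeasurableSet C → volume C < ⊤ →
      Integrable (fun ξ => Real.fourierChar (inner ℝ ξ x) • C.indicator G ξ) := by
    intro C hC hCf
    have := (VectorFourier.fourierIntegral_convergent_iff Real.continuous_fourierChar
      (L := -innerₗ V) (by simp only [LinearMap.neg_apply, innerₗ_apply_apply]; fun_prop)
      (μ := (volume : Measure V)) (f := C.indicator G) x).2 (ind_int hG hC hCf)
    simpa [real_inner_comm] using this
  rw [T, T, T, Real.fourierInv_eq, Real.fourierInv_eq, Real.fourierInv_eq, ← integral_sub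
    (hi B hB hf) (hi A hA ((measure_mono h).trans_lt hf))]
  refine integral_congr_ae (Eventually.of_forall fun ξ => ?_)
  simp only
  rw [← smul_sub]
  congr 1
  by_cases h1 : ξ ∈ A
  · rw [Set.indicator_of_mem h1, Set.indicator_of_mem (h h1), Set.indicator_of_notMem
      (fun h2 => h2.2 h1), sub_self]
  · by_cases h2 : ξ ∈ B
    · rw [Set.indicator_of_mem h2, Set.indicator_of_notMem h1,
        Set.indicator_of_mem (show ξ ∈ B \ A from ⟨h2, h1⟩),
        sub_zero]
    · rw [Set.indicator_of_notMem h2, Set.indicator_of_notMem h1,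
        Set.indicator_of_notMem (fun h3 => h2 h3.1), sub_zero]

theorem mass_diff (G : V → ℂ) {A B : Set V} (hA : MeasurableSet A) (h : A ⊆ B) :
    mass G B = mass G A + mass G (B \ A) := by
  unfold mass
  rw [← lintegral_inter_add_sdiff _ B hA, Set.inter_eq_self_of_subset_right h]

theorem mass_mono (G : V → ℂ) {A B : Set V} (h : A ⊆ B) : mass G A ≤ mass G B :=
  lintegral_mono_set h

theorem mass_fin {G : V → ℂ} (hG : MemLp G 2) (A : Set V) : mass G A < ⊤ := by
  refine (lintegral_mono_set (Set.subset_univ A)).trans_lt ?_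
  rw [Measure.restrict_univ, ← eLp_sq]
  exact ENNReal.pow_lt_top hG.eLpNorm_lt_top

/-- the real mass of the ball -/
noncomputable def mr (G : V → ℂ) (R : ℝ) : ℝ := (mass G (Metric.closedBall 0 R)).toReal

theorem mr_mono {G : V → ℂ} (hG : MemLp G 2) : Monotone (mr G) := fun _ _ h =>
  ENNReal.toReal_mono (mass_fin hG _).ne (mass_mono G (Metric.closedBall_subset_closedBall h))

theorem mr_nonneg (G : V → ℂ) (R : ℝ) : 0 ≤ mr G R := ENNReal.toReal_nonneg

theorem mr_zero [Nontrivial V] (G : V → ℂ) : mr G 0 = 0 := by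
  unfold mr mass
  rw [Metric.closedBall_zero, Measure.restrict_singleton]
  simp

theorem mr_cont [Nontrivial V] {G : V → ℂ} (hGm : Measurable G) (hG : MemLp G 2) :
    Continuous (mr G) := by
  have hint : Integrable fun ξ => ‖G ξ‖ ^ 2 := hG.integrable_norm_pow (by norm_num)
  have e : mr G = fun R => ∫ ξ, (Metric.closedBall (0 : V) R).indicator (fun ξ => ‖G ξ‖ ^ 2) ξ := by
    funext R
    rw [integral_indicator Metric.isClosed_closedBall.measurableSet, mr, mass,
      integral_eq_lintegral_of_nonneg_ae (Eventually.of_forall fun ξ => by positivity)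
        ((hGm.norm.pow_const 2).aestronglyMeasurable)]
    congr 1
    refine lintegral_congr fun ξ => ?_
    rw [← ofReal_norm, ENNReal.ofReal_pow (norm_nonneg _)]
  rw [e, continuous_iff_continuousAt]
  intro R
  refine continuousAt_of_dominated (bound := fun ξ => ‖G ξ‖ ^ 2) ?_ ?_ hint ?_
  · exact Eventually.of_forall fun R' => (((hGm.norm.pow_const 2)).indicator
      Metric.isClosed_closedBall.measurableSet).aestronglyMeasurable
  · refine Eventually.of_forall fun R' => Eventually.of_forall fun ξ => ?_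
    rw [Real.norm_eq_abs, abs_of_nonneg (Set.indicator_nonneg (fun _ _ => by positivity) _)]
    exact Set.indicator_le_self' (fun _ _ => by positivity) ξ
  · have hs : volume (Metric.sphere (0 : V) R) = 0 := Measure.addHaar_sphere _ _ _
    filter_upwards [measure_eq_zero_iff_ae_notMem.1 hs] with ξ hξ
    rw [mem_sphere_zero_iff_norm] at hξ
    rcases lt_or_gt_of_ne hξ with h | h
    · have : (fun R' => (Metric.closedBall (0 : V) R').indicator (fun ξ => ‖G ξ‖ ^ 2) ξ) =ᶠ[𝓝 R]
          fun _ => ‖G ξ‖ ^ 2 := by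
        filter_upwards [lt_mem_nhds h] with R' hR'
        rw [Set.indicator_of_mem]
        rw [mem_closedBall_zero_iff]; exact le_of_lt hR'
      exact continuousAt_const.congr this.symm
    · have : (fun R' => (Metric.closedBall (0 : V) R').indicator (fun ξ => ‖G ξ‖ ^ 2) ξ) =ᶠ[𝓝 R]
          fun _ => 0 := by
        filter_upwards [gt_mem_nhds h] with R' hR'
        rw [Set.indicator_of_notMem]
        rw [mem_closedBall_zero_iff, not_le]; exact hR'
      exact continuousAt_const.congr this.symm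

end Run7.h976.SP
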